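import Mathlib
import Pool.Agent.Lib.MP_7b7e48_nt.OW.NumW
import Pool.Agent.Lib.MP_7b7e48_nt.OW.OD

/-!
# Theorem OA (Goldbach with prescribed Liouville signs for EVERY large `N`): definitions

The path argument of `OW` for arbitrary `N`. New: the points of a path need not be coprime to `N`; the exceptional set `EA` contains all numbers
of the class; the links have `α β` coprime to `N`, and `gcd(e, N)` has no prime power factor `> K^10`, `K = log N`.
-/

set_option autoImplicit false

open Finset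
open Pool.Agent.Lib.MP_45349e_nt.LS (lam)

namespace Pool.Agent.Lib.OA

open Pool.Agent.Lib.OW (tJ RP LL UU LD mr Num Tiny pp Land NL Dom Zst del QP sQ)

/-- the configuration -/
structure Cf (W N a : ℕ) : Prop where
  W1 : 1 ≤ W
  alt : a < W
  WN : W ≤ N
  aW : a.Coprime W
  naW : (N - a).Coprime W

/-- `K ^ 10` -/
noncomputable def z0 (N : ℕ) : ℕ := ⌊(Real.log N) ^ 10⌋₊

/-- `K ^ 11` -/
noncomputable def z1 (N : ℕ) : ℕ := ⌊(Real.log N) ^ 11⌋₊

/-- the numbers `0 < n < N` in the class `a` modulo `W` for which the rule `λ(N - n) = κ λ(n)` fails -/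
noncomputable def EA (W N a : ℕ) (κ : ℝ) : Finset ℕ :=
  open Classical in (Finset.Ioo 0 N).filter fun n => n % W = a % W ∧ lam (N - n) ≠ κ * lam n

/-- the common prime power factors of `e` and `N` are at most `K ^ 10` -/
def EC (N e : ℕ) : Prop := ∀ p j : ℕ, p.Prime → p ^ j ∣ N → p ^ j ∣ e → p ^ j ≤ z0 N

/-- the links -/
structure LA (W N X Y α β D e : ℕ) : Prop where
  ld : LD W N X Y α β D e
  np : (α * β).Coprime N
  ec : EC N e

/-- `X` and `Y` are linked -/
def LkA (W N X Y : ℕ) : Prop := ∃ α β D e : ℕ, LA W N X Y α β D e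

/-- the points `z` with a link (with `D ≤ 2 J W`) that meets the exceptional set `E` -/
noncomputable def AffA (W N a : ℕ) (E : Finset ℕ) : Finset ℕ :=
  open Classical in (Finset.range (W * N)).filter fun z => 0 < z ∧ z % W = a % W ∧
    ∃ X α β D e : ℕ, LA W N X z α β D e ∧ D ≤ 2 * tJ N * W ∧ (e * (X / α) ∈ E ∨ e * (z / β) ∈ E)

/-- the step with the multiplier `m` fails at the point `A u` -/
def FlA (W N A m u : ℕ) : Prop :=
  m * mr W N A u ≠ mr W N (m * A) u ∧ ¬ LkA W N (m * mr W N A u) (mr W N (m * A) u)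

/-- the common prime factors of `x` and `N` are few and tiny, and they are simple in `x` if they are multiple in `N` -/
def NI (s N x : ℕ) : Prop := (N.primeFactors.filter fun p => p ∣ x).card ≤ s ∧
  ∀ p : ℕ, p.Prime → p ∣ N → p ∣ x → p ≤ 2 * tJ N ∧ (p ^ 2 ∣ N → ¬ p ^ 2 ∣ x)

/-- the multipliers of the paths -/
def GA (s N l A : ℕ) : Prop := ∃ M : ℕ, Squarefree M ∧ M.primeFactors.card ≤ s ∧
  (∀ p ∈ M.primeFactors, p ≤ 2 * tJ N) ∧ (A = M ∨ A = l * M)

/-- `n` is divisible by no large prime power `p ^ k` with `p ^ k ∥ N` (and by a smaller power if `p` is tiny) -/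
def OKn (N n : ℕ) : Prop := ∀ p : ℕ, p.Prime → p ∣ N → z1 N < p ^ N.factorization p →
  n.factorization p < N.factorization p ∧ (p ≤ 2 * tJ N → n.factorization p + 3 ≤ N.factorization p)

/-- the number of the divisors `e ≤ B` of `k` which are coprime to `N` -/
def DA (B N k : ℕ) : ℕ := (k.divisors.filter fun e => e ≤ B ∧ e.Coprime N).card

/-- the product of the numbers of short divisors of `n` and `N - n` coprime to `N` -/
noncomputable def incA (N n : ℕ) : ℕ := DA (LL N) N n * DA (LL N) N (N - n)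

/-- the numbers `≤ N` composed of at most `s` tiny primes -/
noncomputable def RHO (s N : ℕ) : Finset ℕ :=
  (Finset.Icc 1 N).filter fun ρ => ρ.primeFactors.card ≤ s ∧ ∀ p ∈ ρ.primeFactors, p ≤ 2 * tJ N

/-- the representations: `0 < n < N`, `n ≠ N - n`, `n ≡ a` modulo `W`, `λ(n) = s`, `λ(N - n) = t` -/
noncomputable def repA (W N a : ℕ) (s t : ℝ) : Finset ℕ :=
  open Classical in (Finset.Ioo 0 N).filter fun n => n ≠ N - n ∧ n % W = a % W ∧ lam n = s ∧ lam (N - n) = t

/-- numerical facts for large `N` -/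
structure NumA (N : ℕ) : Prop where
  J3 : (2 * tJ N) ^ 3 * z0 N ≤ z1 N
  J1 : 2 * tJ N < z1 N
  z01 : 1 ≤ z0 N
  K : 100 ≤ Real.log N
  JK : 2 * (tJ N : ℝ) ≤ Real.log N
  d1 : 1 ≤ Real.log N * del N

end Pool.Agent.Lib.OA
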