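import Mathlib
import Pool.Agent.Lib.MP_7b7e48_nt.OA.ADef

/-!
# Module AGL (35 minutes): the link lemma without coprimality

As `OW/GL.lean` (copy `gl_basic` without everything that concerns coprimality to `N`; the configuration is only used for `W ≥ 1`).
-/

set_option autoImplicit false

open Finset
open Pool.Agent.Lib.MP_45349e_nt.LS (lam)

namespace Pool.Agent.Lib.OA

open Pool.Agent.Lib.OW
open Pool.Agent.Lib.RG (RC LV rr SS PB)

private theorem agl_basic {W N a X Y α β D e : ℕ} (h : LD W N X Y α β D e)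
    (hY : Y % W = a % W) (hY0 : 0 < Y) (hXY : 2 * Y ≤ X) :
    ∃ A B t : ℕ, X = α * A ∧ Y = β * B ∧ 0 < A ∧ 0 < B ∧ X / α = A ∧ Y / β = B ∧
    e * A < N ∧ e * B < N ∧ (e * A) % W = a % W ∧ (e * B) % W = a % W ∧
    0 < t ∧ N = e * A + β * t ∧ N = e * B + α * t := by
  obtain ⟨A, hA⟩ := h.dX
  obtain ⟨B, hB⟩ := h.dY
  have hb0 := h.b0
  have he0 := h.e0
  have hD0 := h.D0
  have hab := h.ab
  have hXYD := h.XY
  have htwo := h.two
  have ha0 : 0 < α := by omega
  have hB0 : 0 < B := by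
    rcases Nat.eq_zero_or_pos B with h0 | h0
    · subst h0; simp at hB; omega
    · exact h0
  have hA0 : 0 < A := by
    rcases Nat.eq_zero_or_pos A with h0 | h0
    · subst h0; simp at hA; omega
    · exact h0
  -- B < A
  have hBA : B < A := by
    by_contra hcon
    push Not at hcon
    have h1 : α * Y < β * X := by
      calc α * Y < 2 * β * Y := Nat.mul_lt_mul_of_pos_right htwo hY0
        _ = β * (2 * Y) := by ring
        _ ≤ β * X := Nat.mul_le_mul_left _ hXY
    rw [hA, hB] at h1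
    have h2 : β * (α * A) ≤ α * (β * B) := by
      calc β * (α * A) = α * β * A := by ring
        _ ≤ α * β * B := Nat.mul_le_mul_left _ hcon
        _ = α * (β * B) := by ring
    exact absurd h1 (not_lt.mpr h2)
  -- e A < N
  have heA : e * A < N := by
    have h1 : D * (e * A) < D * N := by
      have h2 : α * A = β * A + D * (e * A) := by rw [hab]; ring
      have h3 : β * B < β * A := Nat.mul_lt_mul_of_pos_left hBA hb0
      have h4 : α * A = β * B + D * N := by rw [← hA, ← hB]; exact hXYD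
      omega
    exact lt_of_mul_lt_mul_left h1 (Nat.zero_le _)
  have heB : e * B < N := lt_trans (Nat.mul_lt_mul_of_pos_left hBA he0) heA
  -- the identity
  have hid : α * (N - e * A) = β * (N - e * B) := by
    zify [heA.le, heB.le]
    have h4 : (α : ℤ) * A = β * B + D * N := by exact_mod_cast (by rw [← hA, ← hB]; exact hXYD : α * A = β * B + D * N)
    have h5 : (α : ℤ) = β + D * e := by exact_mod_cast hab
    have h6 : (α : ℤ) * (N - e * A) - β * (N - e * B) = (α - β) * N - e * (α * A - β * B) := by ring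
    have h7 : (α : ℤ) * (N - e * A) - β * (N - e * B) = 0 := by
      rw [h6, h4, h5]; ring
    linarith
  have hdvd : β ∣ N - e * A := by
    have h1 : β ∣ α * (N - e * A) := by rw [hid]; exact dvd_mul_right _ _
    exact (Nat.Coprime.dvd_of_dvd_mul_left h.cop.symm h1)
  obtain ⟨t, ht⟩ := hdvd
  have ht0 : 0 < t := by
    rcases Nat.eq_zero_or_pos t with h0 | h0
    · subst h0; simp at ht; omega
    · exact h0
  have ht2 : N - e * B = α * t := by
    have h1 : β * (N - e * B) = β * (α * t) := by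
      rw [← hid, ht]; ring
    exact Nat.eq_of_mul_eq_mul_left hb0 h1
  -- classes
  obtain ⟨D', hD'⟩ := h.WD
  have hαβ : α ≡ β [MOD W] := by
    rw [hab, hD']
    have : β + W * D' * e = β + W * (D' * e) := by ring
    rw [this]
    exact (Nat.add_mul_mod_self_left β W (D' * e))
  have heβ : e ≡ β [MOD W] := h.eW
  have hYa : Y ≡ a [MOD W] := hY
  have hXa : X ≡ a [MOD W] := by
    refine Nat.ModEq.trans ?_ hYa
    rw [hXYD, hD']
    have : Y + W * D' * N = Y + W * (D' * N) := by ring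
    rw [this]
    exact (Nat.add_mul_mod_self_left Y W (D' * N))
  have hcA : e * A ≡ a [MOD W] := by
    have h1 : e * A ≡ α * A [MOD W] := (heβ.trans hαβ.symm).mul_right A
    exact h1.trans (hA ▸ hXa)
  have hcB : e * B ≡ a [MOD W] := by
    have h1 : e * B ≡ β * B [MOD W] := heβ.mul_right B
    exact h1.trans (hB ▸ hYa)
  refine ⟨A, B, t, hA, hB, hA0, hB0, ?_, ?_, heA, heB, hcA, hcB, ht0, ?_, ?_⟩
  · rw [hA]; exact Nat.mul_div_cancel_left A ha0
  · rw [hB]; exact Nat.mul_div_cancel_left B hb0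
  · omega
  · omega

theorem agl {W N a X Y α β D e : ℕ} (h : LD W N X Y α β D e) (hY : Y % W = a % W) (hY0 : 0 < Y) (hXY : 2 * Y ≤ X) :
    0 < X / α ∧ 0 < Y / β ∧ e * (X / α) < N ∧ e * (Y / β) < N ∧ (e * (X / α)) % W = a % W ∧ (e * (Y / β)) % W = a % W ∧
    ∃ t : ℕ, 0 < t ∧ N = e * (X / α) + β * t ∧ N = e * (Y / β) + α * t := by
  obtain ⟨A, B, t, hA, hB, hA0, hB0, hXA, hYB, h1, h2, h3, h4, ht0, h7, h8⟩ :=
    agl_basic h hY hY0 hXY
  rw [hXA, hYB]
  exact ⟨hA0, hB0, h1, h2, h3, h4, t, ht0, h7, h8⟩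

private theorem agl_pm (a : ℕ) : lam a = 1 ∨ lam a = -1 := by
  unfold Pool.Agent.Lib.MP_45349e_nt.LS.lam
  exact neg_one_pow_eq_or ℝ _

theorem agl_lam {W N a X Y α β D e : ℕ} (h : LD W N X Y α β D e) (hY : Y % W = a % W) (hY0 : 0 < Y) (hXY : 2 * Y ≤ X)
    {κ : ℝ} (hκ : κ ^ 2 = 1) (h1 : e * (X / α) ∉ EA W N a κ) (h2 : e * (Y / β) ∉ EA W N a κ) : lam X = lam Y := by
  obtain ⟨A, B, t, hA, hB, hA0, hB0, hXA, hYB, g1, g2, g3, g4, ht0, g7, g8⟩ :=
    agl_basic h hY hY0 hXY
  rw [hXA] at h1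
  rw [hYB] at h2
  have hb0 := h.b0
  have he0 := h.e0
  have hab := h.ab
  have ha0 : 0 < α := by omega
  have k1 : lam (N - e * A) = κ * lam (e * A) := by
    by_contra hcon
    exact h1 (by
      unfold EA
      simp only [Finset.mem_filter, Finset.mem_Ioo]
      exact ⟨⟨Nat.mul_pos he0 hA0, g1⟩, g3, hcon⟩)
  have k2 : lam (N - e * B) = κ * lam (e * B) := by
    by_contra hcon
    exact h2 (by
      unfold EA
      simp only [Finset.mem_filter, Finset.mem_Ioo]
      exact ⟨⟨Nat.mul_pos he0 hB0, g2⟩, g4, hcon⟩)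
  have e1 : N - e * A = β * t := by omega
  have e2 : N - e * B = α * t := by omega
  rw [e1, Pool.Agent.Lib.MP_45349e_nt.LS.lam_mul β t hb0.ne' ht0.ne',
    Pool.Agent.Lib.MP_45349e_nt.LS.lam_mul e A he0.ne' hA0.ne'] at k1
  rw [e2, Pool.Agent.Lib.MP_45349e_nt.LS.lam_mul α t ha0.ne' ht0.ne',
    Pool.Agent.Lib.MP_45349e_nt.LS.lam_mul e B he0.ne' hB0.ne'] at k2
  rw [hA, hB, Pool.Agent.Lib.MP_45349e_nt.LS.lam_mul α A ha0.ne' hA0.ne',
    Pool.Agent.Lib.MP_45349e_nt.LS.lam_mul β B hb0.ne' hB0.ne']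
  have sq1 : ∀ n : ℕ, lam n * lam n = 1 := by
    intro n
    rcases agl_pm n with q | q <;> rw [q] <;> norm_num
  have hκ2 : κ * κ = 1 := by rw [← sq]; exact hκ
  have hA1 : lam A = κ * lam e * (lam β * lam t) := by
    rw [k1]
    calc lam A = (κ * κ) * (lam e * lam e) * lam A := by rw [hκ2, sq1 e]; ring
      _ = κ * lam e * (κ * (lam e * lam A)) := by ring
  have hB1 : lam B = κ * lam e * (lam α * lam t) := by
    rw [k2]
    calc lam B = (κ * κ) * (lam e * lam e) * lam B := by rw [hκ2, sq1 e]; ring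
      _ = κ * lam e * (κ * (lam e * lam B)) := by ring
  rw [hA1, hB1]
  ring

end Pool.Agent.Lib.OA
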