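import Mathlib
import Pool.Agent.Lib.MP_7b7e48_nt.OA.AGL

/-!
# Module AAFC (80 minutes): the affected points of a path, refined count

Let `z ∈ AffA W N a E`, `NI s N z`, with `X = z + D N`, `α`, `β`, `D = W d`, `e`; `n1 = e (X/α)`, `n2 = e (z/β)`. (1) `OKn`: a prime `p ∣ N` divides `X` iff it
divides `z`; if `p^2 ∣ N` the same for `p^2`. Let `p ∣ N`, `k = v_p(N)`, `p^k > z1 N`, `r = X/α` or `z/β`. If `p > 2 tJ N` then `p ∤ r` and `v_p(n1) = v_p(e) < k`,
since `p^k ∣ e` would give `p^k ≤ z0 ≤ z1` by `EC`. If `p ≤ 2 tJ N`, then `k ≥ 2` (`NumA.J1`), `v_p(r) ≤ 1`, and `v_p(n1) ≥ k - 2` would give `p^(k-3) ∣ e`,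
`p^(k-3) ≤ z0`, `p^k ≤ (2 tJ)^3 z0 ≤ z1` (`NumA.J3`); so `v_p(n1) + 3 ≤ k` (for `k < 3` the same argument with `p^0 = 1 ≤ z0`). (2) The `N`-part of `m` is
`∏_{p ∣ m, p ∣ N} p^(v_p m)`. Let `e'` be the part of `e` coprime to `N`, `ρ` the `N`-part of `r`: `ρ ∣ n1`, `ρ < N`, its primes divide `N` and `z`: `ρ ∈ RHO s N`.
`e = (N-part of n1)/ρ * e'`, `e' ∣ n1`, `e' ≤ e ≤ LL N`; `β ∣ N - n1`, coprime to `N` (`LA.np`), `β ≤ LL N`. So `(side, d, n1, e', β, ρ)` resp. `(.., α, ρ)` determines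
`z` as in `OW.afc` (`OW/PRE.lean`).
-/

set_option autoImplicit false

open Finset
open Pool.Agent.Lib.MP_45349e_nt.LS (lam)

namespace Pool.Agent.Lib.OA

open Pool.Agent.Lib.OW
open Pool.Agent.Lib.RG (RC LV rr SS PB)

private noncomputable def aafcP (N m : ℕ) : ℕ := ∏ p ∈ N.primeFactors, p ^ m.factorization p

private theorem aafcP_mul (N : ℕ) {e r : ℕ} (he : e ≠ 0) (hr : r ≠ 0) : aafcP N (e * r) = aafcP N e * aafcP N r := by
  unfold aafcP
  rw [← Finset.prod_mul_distrib]
  refine Finset.prod_congr rfl fun p _ => ?_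
  rw [Nat.factorization_mul he hr, Finsupp.add_apply, pow_add]

private theorem aafcP_eq {N m : ℕ} (hN : 0 < N) (hm : m ≠ 0) :
    aafcP N m = ∏ p ∈ m.primeFactors.filter (fun p => p ∣ N), p ^ m.factorization p := by
  unfold aafcP
  symm
  refine Finset.prod_subset ?_ ?_
  · intro p hp
    rw [Finset.mem_filter, Nat.mem_primeFactors] at hp
    rw [Nat.mem_primeFactors]
    exact ⟨hp.1.1, hp.2, hN.ne'⟩
  · intro p hp hp2
    rw [Nat.mem_primeFactors] at hp
    have h1 : ¬ p ∣ m := by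
      intro h
      refine hp2 ?_
      rw [Finset.mem_filter, Nat.mem_primeFactors]
      exact ⟨⟨hp.1, h, hm⟩, hp.2.1⟩
    rw [Nat.factorization_eq_zero_of_not_dvd h1, pow_zero]

private theorem aafcP_split {N m : ℕ} (hN : 0 < N) (hm : m ≠ 0) : ∃ c : ℕ, m = aafcP N m * c ∧ c.Coprime N := by
  refine ⟨∏ p ∈ m.primeFactors.filter (fun p => ¬ p ∣ N), p ^ m.factorization p, ?_, ?_⟩
  · rw [aafcP_eq hN hm, Finset.prod_filter_mul_prod_filter_not]
    exact (Nat.factorization_prod_pow_eq_self hm).symm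
  · refine Nat.Coprime.prod_left fun p hp => ?_
    rw [Finset.mem_filter, Nat.mem_primeFactors] at hp
    exact Nat.Coprime.pow_left _ ((Nat.Prime.coprime_iff_not_dvd hp.1.1).mpr hp.2)

private theorem aafcP_dvd {N m : ℕ} (hN : 0 < N) (hm : m ≠ 0) : aafcP N m ∣ m := by
  obtain ⟨c, hc, -⟩ := aafcP_split hN hm
  exact ⟨c, hc⟩

private theorem aafcP_pos (N m : ℕ) : 0 < aafcP N m := by
  unfold aafcP
  refine Finset.prod_pos fun p hp => ?_
  exact pow_pos (Nat.pos_of_mem_primeFactors hp) _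

private theorem aafcP_prime {N m p : ℕ} (hp : p.Prime) (h : p ∣ aafcP N m) : p ∣ N := by
  unfold aafcP at h
  obtain ⟨q, hq, hpq⟩ := (Prime.dvd_finset_prod_iff hp.prime _).mp h
  rw [Nat.mem_primeFactors] at hq
  have h1 : p ∣ q := hp.dvd_of_dvd_pow hpq
  rw [(Nat.prime_dvd_prime_iff_eq hp hq.1).mp h1]
  exact hq.2.1

private theorem aafc_tJ {N : ℕ} (hA : NumA N) : 1 ≤ tJ N := by
  unfold tJ
  have h1 : (1 : ℝ) ≤ (Real.log N) ^ ((1 : ℝ) / 2000) := Real.one_le_rpow (by linarith [hA.K]) (by norm_num)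
  exact Nat.le_floor (by exact_mod_cast h1)

/-- the first part of the module: the product `e r` is good -/
private theorem aafc_ok {N s z e r : ℕ} (hN : 0 < N) (hA : NumA N) (hz : NI s N z) (he : EC N e) (he0 : e ≠ 0) (hr0 : r ≠ 0)
    (hr1 : ∀ p : ℕ, p ∣ N → p ∣ r → p ∣ z) : OKn N (e * r) := by
  intro p hp hpN hk
  have hJ := aafc_tJ hA
  have hn : (e * r).factorization p = e.factorization p + r.factorization p := by
    rw [Nat.factorization_mul he0 hr0, Finsupp.add_apply]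
  rw [hn]
  have hpk : p ^ N.factorization p ∣ N := Nat.ordProj_dvd N p
  have key : ∀ j : ℕ, j ≤ N.factorization p → j ≤ e.factorization p → p ^ j ≤ z0 N := by
    intro j h1 h2
    refine he p j hp ?_ ?_
    · exact (pow_dvd_pow p h1).trans hpk
    · exact (pow_dvd_pow p h2).trans (Nat.ordProj_dvd e p)
  have z01 : z0 N ≤ z1 N := by
    calc z0 N = 1 * z0 N := (one_mul _).symm
      _ ≤ (2 * tJ N) ^ 3 * z0 N := by
          refine Nat.mul_le_mul_right _ ?_
          exact Nat.one_le_pow _ _ (by omega)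
      _ ≤ z1 N := hA.J3
  by_cases hpJ : p ≤ 2 * tJ N
  · -- tiny prime
    have hk2 : 2 ≤ N.factorization p := by
      by_contra hcon
      have h1 : N.factorization p ≤ 1 := by omega
      have h2 : p ^ N.factorization p ≤ p ^ 1 := Nat.pow_le_pow_right hp.pos h1
      have h3 := hA.J1
      rw [pow_one] at h2
      omega
    have hr2 : r.factorization p ≤ 1 := by
      by_contra hcon
      have h1 : 2 ≤ r.factorization p := by omega
      have h2 : p ^ 2 ∣ r := (pow_dvd_pow p h1).trans (Nat.ordProj_dvd r p)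
      have h3 : p ^ 2 ∣ N := (pow_dvd_pow p hk2).trans hpk
      have h4 := hr1 _ h3 h2
      have h5 : p ∣ z := (dvd_pow_self p (by norm_num)).trans h4
      exact (hz.2 p hp hpN h5).2 h3 h4
    have h3 : e.factorization p + r.factorization p + 3 ≤ N.factorization p := by
      by_contra hcon
      have h1 : N.factorization p - 3 ≤ e.factorization p := by omega
      have h2 := key (N.factorization p - 3) (by omega) h1
      have h4 : p ^ N.factorization p ≤ p ^ 3 * p ^ (N.factorization p - 3) := by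
        rw [← pow_add]
        exact Nat.pow_le_pow_right hp.pos (by omega)
      have h5 : p ^ 3 * p ^ (N.factorization p - 3) ≤ (2 * tJ N) ^ 3 * z0 N :=
        Nat.mul_le_mul (Nat.pow_le_pow_left hpJ 3) h2
      have h6 := hA.J3
      omega
    exact ⟨by omega, fun _ => h3⟩
  · have hr2 : r.factorization p = 0 := by
      refine Nat.factorization_eq_zero_of_not_dvd ?_
      intro h
      exact hpJ (hz.2 p hp hpN (hr1 p hpN h)).1
    refine ⟨?_, fun h => absurd h hpJ⟩
    rw [hr2, add_zero]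
    by_contra hcon
    have h1 := key (N.factorization p) le_rfl (by omega)
    omega

/-- the `N`-part of `r` -/
private theorem aafc_rho {N s z e r : ℕ} (hN : 0 < N) (hz : NI s N z) (he0 : e ≠ 0) (hr0 : r ≠ 0) (hlt : e * r < N)
    (hr1 : ∀ p : ℕ, p ∣ N → p ∣ r → p ∣ z) : aafcP N r ∈ RHO s N := by
  unfold RHO
  rw [Finset.mem_filter, Finset.mem_Icc]
  have h1 : aafcP N r ≤ r := Nat.le_of_dvd (Nat.pos_of_ne_zero hr0) (aafcP_dvd hN hr0)
  have h2 : r ≤ e * r := Nat.le_mul_of_pos_left _ (Nat.pos_of_ne_zero he0)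
  have h3 : ∀ p ∈ (aafcP N r).primeFactors, p.Prime ∧ p ∣ N ∧ p ∣ z := by
    intro p hp
    rw [Nat.mem_primeFactors] at hp
    have h4 := aafcP_prime hp.1 hp.2.1
    exact ⟨hp.1, h4, hr1 p h4 (hp.2.1.trans (aafcP_dvd hN hr0))⟩
  refine ⟨⟨aafcP_pos N r, by omega⟩, ?_, ?_⟩
  · refine le_trans (Finset.card_le_card ?_) hz.1
    intro p hp
    obtain ⟨h4, h5, h6⟩ := h3 p hp
    rw [Finset.mem_filter, Nat.mem_primeFactors]
    exact ⟨⟨h4, h5, hN.ne'⟩, h6⟩
  · intro p hp
    obtain ⟨h4, h5, h6⟩ := h3 p hp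
    exact (hz.2 p h4 h5 h6).1

/-- the reconstruction of `e` -/
private theorem aafc_rec {N e r : ℕ} (hN : 0 < N) (he0 : e ≠ 0) (hr0 : r ≠ 0) : ∃ c : ℕ, c.Coprime N ∧ c ∣ e ∧
    aafcP N (e * r) / aafcP N r * c = e := by
  obtain ⟨c, hc, hcN⟩ := aafcP_split hN he0
  refine ⟨c, hcN, ⟨aafcP N e, by rw [mul_comm]; exact hc⟩, ?_⟩
  rw [aafcP_mul N he0 hr0, Nat.mul_div_cancel _ (aafcP_pos N r)]
  exact hc.symm

/-- the pairs of divisors counted by `incA` -/
private noncomputable def aafcQ (N n : ℕ) : Finset (ℕ × ℕ) :=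
  (n.divisors.filter fun e => e ≤ LL N ∧ e.Coprime N) ×ˢ ((N - n).divisors.filter fun e => e ≤ LL N ∧ e.Coprime N)

private theorem aafcQ_card (N n : ℕ) : (aafcQ N n).card = incA N n := by
  unfold aafcQ incA DA
  rw [card_product]

open Classical in
theorem aafcN {W N a s : ℕ} (hW : 1 ≤ W) (hN : 0 < N) (hA : NumA N) (E : Finset ℕ) (hE : E ⊆ Finset.Ioo 0 N) :
    ((AffA W N a E).filter fun z => NI s N z).card ≤
      4 * tJ N * (RHO s N).card * ∑ n ∈ E.filter (fun n => OKn N n), incA N n := by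
  set E' : Finset ℕ := E.filter (fun n => OKn N n) with hE'
  set Q : Finset (ℕ × ℕ × (Σ _ : ℕ, ℕ × ℕ)) :=
    (Finset.Icc 1 (2 * tJ N)) ×ˢ ((RHO s N) ×ˢ (E'.sigma fun n => aafcQ N n)) with hQ
  have hQc : Q.card = 2 * tJ N * ((RHO s N).card * ∑ n ∈ E', incA N n) := by
    rw [hQ, card_product, card_product, Nat.card_Icc, Nat.add_sub_cancel, card_sigma]
    simp only [aafcQ_card]
  set ee : ℕ × ℕ × (Σ _ : ℕ, ℕ × ℕ) → ℕ := fun q => aafcP N q.2.2.1 / q.2.1 * q.2.2.2.1 with hee
  set f1 : ℕ × ℕ × (Σ _ : ℕ, ℕ × ℕ) → ℕ := fun q =>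
    (q.2.2.2.2 + q.1 * W * ee q) * (q.2.2.1 / ee q) - q.1 * W * N with hf1
  set f2 : ℕ × ℕ × (Σ _ : ℕ, ℕ × ℕ) → ℕ := fun q =>
    (q.2.2.2.2 - q.1 * W * ee q) * (q.2.2.1 / ee q) with hf2
  have hsub : ((AffA W N a E).filter fun z => NI s N z) ⊆ Q.image f1 ∪ Q.image f2 := by
    intro z hz
    rw [mem_filter] at hz
    obtain ⟨hz, hNI⟩ := hz
    unfold AffA at hz
    rw [mem_filter, mem_range] at hz
    obtain ⟨hzlt, hz0, hzW, X, α, β, D, e, hLA, hD, hEe⟩ := hz
    have hLD := hLA.ld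
    obtain ⟨d, rfl⟩ := hLD.WD
    have hd0 : 0 < d := by
      rcases Nat.eq_zero_or_pos d with h | h
      · have := hLD.D0
        rw [h, mul_zero] at this
        omega
      · exact h
    have hdle : d ≤ 2 * tJ N := by
      have h1 : W * d ≤ W * (2 * tJ N) := by
        calc W * d ≤ 2 * tJ N * W := hD
          _ = W * (2 * tJ N) := by ring
      exact Nat.le_of_mul_le_mul_left h1 hW
    have h2z : 2 * z ≤ X := by
      have h1 := hLD.XY
      have h2 : W * N ≤ W * d * N := by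
        calc W * N = W * 1 * N := by ring
          _ ≤ W * d * N := by gcongr; exact hd0
      omega
    obtain ⟨p1, p2, l1, l2, -, -, t, ht, e1, e2⟩ := agl (a := a) hLD hzW hz0 h2z
    have he0 : e ≠ 0 := hLD.e0.ne'
    have hα0 : 0 < α := by have := hLD.ab; have := hLD.b0; omega
    have hXe : X = α * (X / α) := (Nat.mul_div_cancel' hLD.dX).symm
    have hze : z = β * (z / β) := (Nat.mul_div_cancel' hLD.dY).symm
    have heα : e ≤ α := by
      rw [hLD.ab]
      have : e ≤ W * d * e := Nat.le_mul_of_pos_left _ hLD.D0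
      omega
    have hβα : β ≤ α := by
      rw [hLD.ab]; omega
    have npα : α.Coprime N := Nat.Coprime.coprime_mul_right hLA.np
    have npβ : β.Coprime N := Nat.Coprime.coprime_mul_left hLA.np
    rw [mem_union]
    rcases hEe with hEe | hEe
    · left
      have hr1 : ∀ p : ℕ, p ∣ N → p ∣ X / α → p ∣ z := by
        intro p hpN hp
        have h1 : p ∣ X := hp.trans (Nat.div_dvd_of_dvd hLD.dX)
        rw [hLD.XY] at h1
        exact (Nat.dvd_add_left (dvd_mul_of_dvd_right hpN _)).mp h1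
      have hOK := aafc_ok hN hA hNI hLA.ec he0 p1.ne' hr1
      have hrho := aafc_rho hN hNI he0 p1.ne' l1 hr1
      obtain ⟨c, hcN, hce, hrec⟩ := aafc_rec (r := X / α) hN he0 p1.ne'
      rw [mem_image]
      refine ⟨(d, aafcP N (X / α), ⟨e * (X / α), (c, β)⟩), ?_, ?_⟩
      · rw [hQ, mem_product, mem_Icc, mem_product, mem_sigma]
        refine ⟨⟨hd0, hdle⟩, hrho, ?_, ?_⟩
        · dsimp only
          rw [hE', mem_filter]
          exact ⟨hEe, hOK⟩
        · dsimp only
          unfold aafcQ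
          rw [mem_product, mem_filter, mem_filter, Nat.mem_divisors, Nat.mem_divisors]
          refine ⟨⟨⟨hce.trans (dvd_mul_right _ _), (Nat.mul_pos hLD.e0 p1).ne'⟩, ?_, hcN⟩, ⟨⟨t, ?_⟩, ?_⟩, hβα.trans hLD.ll, npβ⟩
          · exact (Nat.le_of_dvd hLD.e0 hce).trans (heα.trans hLD.ll)
          · dsimp only
            omega
          · omega
      · rw [hf1]
        have hee1 : ee (d, aafcP N (X / α), ⟨e * (X / α), (c, β)⟩) = e := by
          rw [hee]
          exact hrec
        dsimp only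
        rw [hee1, Nat.mul_div_cancel_left _ hLD.e0]
        have h3 : β + d * W * e = α := by rw [hLD.ab]; ring
        rw [h3, ← hXe, hLD.XY]
        have h4 : d * W * N = W * d * N := by ring
        rw [h4]
        omega
    · right
      have hr1 : ∀ p : ℕ, p ∣ N → p ∣ z / β → p ∣ z := by
        intro p hpN hp
        exact hp.trans (Nat.div_dvd_of_dvd hLD.dY)
      have hOK := aafc_ok hN hA hNI hLA.ec he0 p2.ne' hr1
      have hrho := aafc_rho hN hNI he0 p2.ne' l2 hr1
      obtain ⟨c, hcN, hce, hrec⟩ := aafc_rec (r := z / β) hN he0 p2.ne'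
      rw [mem_image]
      refine ⟨(d, aafcP N (z / β), ⟨e * (z / β), (c, α)⟩), ?_, ?_⟩
      · rw [hQ, mem_product, mem_Icc, mem_product, mem_sigma]
        refine ⟨⟨hd0, hdle⟩, hrho, ?_, ?_⟩
        · dsimp only
          rw [hE', mem_filter]
          exact ⟨hEe, hOK⟩
        · dsimp only
          unfold aafcQ
          rw [mem_product, mem_filter, mem_filter, Nat.mem_divisors, Nat.mem_divisors]
          refine ⟨⟨⟨hce.trans (dvd_mul_right _ _), (Nat.mul_pos hLD.e0 p2).ne'⟩, ?_, hcN⟩, ⟨⟨t, ?_⟩, ?_⟩, hLD.ll, npα⟩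
          · exact (Nat.le_of_dvd hLD.e0 hce).trans (heα.trans hLD.ll)
          · dsimp only
            omega
          · omega
      · rw [hf2]
        have hee1 : ee (d, aafcP N (z / β), ⟨e * (z / β), (c, α)⟩) = e := by
          rw [hee]
          exact hrec
        dsimp only
        rw [hee1, Nat.mul_div_cancel_left _ hLD.e0]
        have h3 : α - d * W * e = β := by
          rw [hLD.ab]
          have : d * W * e = W * d * e := by ring
          rw [this]
          omega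
        rw [h3, ← hze]
  calc _ ≤ (Q.image f1 ∪ Q.image f2).card := card_le_card hsub
    _ ≤ (Q.image f1).card + (Q.image f2).card := card_union_le _ _
    _ ≤ Q.card + Q.card := Nat.add_le_add card_image_le card_image_le
    _ = 4 * tJ N * (RHO s N).card * ∑ n ∈ E', incA N n := by rw [hQc]; ring

end Pool.Agent.Lib.OA
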