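import Mathlib
import Pool.Agent.Lib.MP_7b7e48_nt.OW.UUC

/-!
# The number of elements of `UU W N a`
-/

set_option autoImplicit false

open Finset

namespace Pool.Agent.Lib.OA

open Pool.Agent.Lib.OW (UU cop_of_class)

theorem card_UU_tot {W N a : ℕ} (hW : 1 ≤ W) (hN : 0 < N) (haW : a.Coprime W) : (UU W N a).card * W.totient = (W * N).totient := by
  classical
  have : NeZero W := ⟨by omega⟩
  have : NeZero (W * N) := ⟨(Nat.mul_pos hW hN).ne'⟩
  set f := ZMod.unitsMap (dvd_mul_right W N) with hf
  have hsurj : Function.Surjective f := ZMod.unitsMap_surjective (dvd_mul_right W N)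
  set ua := ZMod.unitOfCoprime a haW with hua
  have hfib : ∀ y : (ZMod W)ˣ, (Finset.univ.filter fun g => f g = y).card =
      (Finset.univ.filter fun g => f g = ua).card := by
    intro y
    exact MonoidHom.card_fiber_eq_of_mem_range f (hsurj y) (hsurj ua)
  have htot : (W * N).totient = ∑ y : (ZMod W)ˣ, (Finset.univ.filter fun g => f g = y).card := by
    rw [← ZMod.card_units_eq_totient (W * N), ← Finset.card_univ]
    exact Finset.card_eq_sum_card_fiberwise (fun _ _ => Finset.mem_coe.mpr (mem_univ _))
  have hcop : ∀ x ∈ UU W N a, x.Coprime (W * N) := by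
    intro x hx
    rw [UU, mem_filter] at hx
    exact Nat.Coprime.mul_right (cop_of_class haW hx.2.1) hx.2.2
  have hUU : (UU W N a).card = (Finset.univ.filter fun g => f g = ua).card := by
    refine Finset.card_bij (fun x hx => ZMod.unitOfCoprime x (hcop x hx)) ?_ ?_ ?_
    · intro x hx
      rw [mem_filter]
      refine ⟨mem_univ _, ?_⟩
      have hx2 := hx
      rw [UU, mem_filter] at hx2
      apply Units.ext
      rw [hf, ZMod.unitsMap_val, hua, ZMod.coe_unitOfCoprime, ZMod.coe_unitOfCoprime, ZMod.cast_natCast (dvd_mul_right W N)]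
      exact (ZMod.natCast_eq_natCast_iff' x a W).mpr hx2.2.1
    · intro x hx y hy hxy
      have h1 := congrArg (fun u : (ZMod (W * N))ˣ => (u : ZMod (W * N))) hxy
      simp only [ZMod.coe_unitOfCoprime] at h1
      have h2 := (ZMod.natCast_eq_natCast_iff' x y (W * N)).mp h1
      rw [UU, mem_filter, mem_range] at hx hy
      rwa [Nat.mod_eq_of_lt hx.1, Nat.mod_eq_of_lt hy.1] at h2
    · intro g hg
      rw [mem_filter] at hg
      have hv : (g : ZMod (W * N)).val.Coprime (W * N) := ZMod.val_coe_unit_coprime g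
      have h1 : (((g : ZMod (W * N)).val : ℕ) : ZMod (W * N)) = (g : ZMod (W * N)) := ZMod.natCast_zmod_val _
      have hmem : (g : ZMod (W * N)).val ∈ UU W N a := by
        rw [UU, mem_filter, mem_range]
        refine ⟨ZMod.val_lt _, ?_, hv.coprime_mul_left_right⟩
        have h2 : ((f g : (ZMod W)ˣ) : ZMod W) = (ua : ZMod W) := by rw [hg.2]
        rw [hf, ZMod.unitsMap_val, hua, ZMod.coe_unitOfCoprime, ← h1, ZMod.cast_natCast (dvd_mul_right W N)] at h2
        exact (ZMod.natCast_eq_natCast_iff' _ a W).mp h2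
      refine ⟨(g : ZMod (W * N)).val, hmem, ?_⟩
      apply Units.ext
      rw [ZMod.coe_unitOfCoprime, h1]
  rw [htot, Finset.sum_congr rfl (fun y _ => hfib y), sum_const, Finset.card_univ,
    ZMod.card_units_eq_totient, smul_eq_mul, hUU, mul_comm]

end Pool.Agent.Lib.OA
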