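import Mathlib
import Pool.Agent.Lib.MP_7b7e48_nt.OA.ADef
import Pool.Agent.Lib.MP_7b7e48_nt.OW.FINN
import Pool.Agent.Lib.MP_7b7e48_nt.OW.T0
import Pool.Agent.Lib.MP_7b7e48_nt.OA.UUT

/-!
# Module ANum (35 minutes): numerical facts, the density `del`

`K = log N → ∞`. `numA`: `2 tJ N ≤ 2 K^(1/2000)`; `(2 K^(1/2000))^3 K^10 ≤ K^11 - 1`; `d1` is `OW.del_low`.
`del_prod`: `del N = ∏_{p ∣ N} (1 - 1/p)` (`Nat.totient_eq_mul_prod_factors`); at most `log_2 N ≤ 2 K` primes divide `N`, those `> K^2` give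
`∏ (1 - 1/p) ≥ 1 - ∑ 1/p ≥ 1 - 2/K ≥ 1/2`.
`UU_low`, `UU_up`: `OA.card_UU_tot` (`OA/UUT.lean`), `φ(W) φ(N) ≤ φ(W N) ≤ W φ(N)` (`Nat.totient_super_multiplicative`, every prime factor of `N` divides `W N`).
`omega_le`: `2 ^ ω(N) ≤ N`.
`pow_lt`: for every `C`, `K^C < N` for large `N` (`OW.finn_pow`).
`del_big`: `OW.del_loglog` (`OW/T0.lean`): `c ≤ log K · del N`, and `B log K ≤ c K^t` for large `K`.
-/

set_option autoImplicit false

open Finset
open Pool.Agent.Lib.MP_45349e_nt.LS (lam)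

namespace Pool.Agent.Lib.OA

open Pool.Agent.Lib.OW
open Pool.Agent.Lib.RG (RC LV rr SS PB)

private theorem anum_log_big (C : ℝ) : ∃ N0 : ℕ, ∀ N : ℕ, N0 ≤ N → C ≤ Real.log N := by
  have h := (Real.tendsto_log_atTop.comp tendsto_natCast_atTop_atTop).eventually (Filter.eventually_ge_atTop C)
  obtain ⟨N0, hN0⟩ := Filter.eventually_atTop.mp h
  exact ⟨N0, fun N hN => hN0 N hN⟩

theorem numA : ∃ N0 : ℕ, ∀ N : ℕ, N0 ≤ N → NumA N := by
  obtain ⟨N1, hN1⟩ := anum_log_big 100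
  obtain ⟨N2, hN2⟩ := del_low
  refine ⟨max N1 N2, fun N hN => ?_⟩
  have hK := hN1 N ((le_max_left _ _).trans hN)
  have hd := hN2 N ((le_max_right _ _).trans hN)
  set K := Real.log N with hKdef
  have hK1 : 1 ≤ K := by linarith
  have hK0 : 0 < K := by linarith
  have hJ : (tJ N : ℝ) ≤ K ^ ((1 : ℝ) / 2000) := by
    unfold tJ
    exact Nat.floor_le (Real.rpow_nonneg hK0.le _)
  have hs : Real.sqrt K ^ 2 = K := Real.sq_sqrt hK0.le
  have hs10 : 10 ≤ Real.sqrt K := Real.le_sqrt_of_sq_le (by norm_num; linarith)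
  have hJs : (tJ N : ℝ) ^ 3 ≤ Real.sqrt K := by
    calc (tJ N : ℝ) ^ 3 ≤ (K ^ ((1 : ℝ) / 2000)) ^ 3 := pow_le_pow_left₀ (Nat.cast_nonneg _) hJ 3
      _ = K ^ ((3 : ℝ) / 2000) := by
        rw [← Real.rpow_natCast (K ^ ((1 : ℝ) / 2000)) 3, ← Real.rpow_mul hK0.le]
        norm_num
      _ ≤ K ^ ((1 : ℝ) / 2) := Real.rpow_le_rpow_of_exponent_le hK1 (by norm_num)
      _ = Real.sqrt K := (Real.sqrt_eq_rpow K).symm
  have hJs1 : (tJ N : ℝ) ≤ Real.sqrt K := by
    calc (tJ N : ℝ) ≤ K ^ ((1 : ℝ) / 2000) := hJ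
      _ ≤ K ^ ((1 : ℝ) / 2) := Real.rpow_le_rpow_of_exponent_le hK1 (by norm_num)
      _ = Real.sqrt K := (Real.sqrt_eq_rpow K).symm
  have hJK : 2 * (tJ N : ℝ) ≤ K := by nlinarith
  have hz0 : (z0 N : ℝ) ≤ K ^ 10 := by
    unfold z0
    exact Nat.floor_le (by positivity)
  have hJ3 : (2 * tJ N) ^ 3 * z0 N ≤ z1 N := by
    unfold z1
    apply Nat.le_floor
    push_cast
    have h8 : 8 * (tJ N : ℝ) ^ 3 ≤ K := by nlinarith
    calc (2 * (tJ N : ℝ)) ^ 3 * (z0 N : ℝ) = (8 * (tJ N : ℝ) ^ 3) * (z0 N : ℝ) := by ring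
      _ ≤ K * K ^ 10 := mul_le_mul h8 hz0 (Nat.cast_nonneg _) hK0.le
      _ = K ^ 11 := by ring
  have hK11 : K ^ 2 ≤ K ^ 11 := pow_le_pow_right₀ hK1 (by norm_num)
  refine ⟨hJ3, ?_, ?_, hK, hJK, hd⟩
  · have : 2 * tJ N + 1 ≤ z1 N := by
      unfold z1
      apply Nat.le_floor
      push_cast
      nlinarith
    omega
  · unfold z0
    apply Nat.le_floor
    push_cast
    exact one_le_pow₀ hK1

theorem omega_le {N : ℕ} (hN : 1 ≤ N) : (N.primeFactors.card : ℝ) ≤ 2 * Real.log N := by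
  have h1 : 2 ^ N.primeFactors.card ≤ ∏ p ∈ N.primeFactors, p :=
    Finset.pow_card_le_prod _ _ _ fun p hp => (Nat.prime_of_mem_primeFactors hp).two_le
  have h2 : ∏ p ∈ N.primeFactors, p ≤ N := Nat.le_of_dvd hN (Nat.prod_primeFactors_dvd N)
  have h3 : ((2 : ℝ) ^ N.primeFactors.card) ≤ N := by exact_mod_cast h1.trans h2
  have h4 := Real.log_le_log (by positivity) h3
  rw [Real.log_pow] at h4
  have h5 := Real.log_two_gt_d9
  have h6 : (0 : ℝ) ≤ N.primeFactors.card := Nat.cast_nonneg _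
  nlinarith

private theorem anum_tot (N : ℕ) (hN : 1 ≤ N) : del N = ∏ p ∈ N.primeFactors, (1 - 1 / (p : ℝ)) := by
  have h := Nat.totient_eq_mul_prod_factors N
  have h2 : (((N.totient : ℚ)) : ℝ) = ((N * ∏ p ∈ N.primeFactors, (1 - (p : ℚ)⁻¹) : ℚ) : ℝ) := by rw [h]
  push_cast at h2
  have hN0 : (N : ℝ) ≠ 0 := by
    have : N ≠ 0 := by omega
    exact_mod_cast this
  unfold del
  rw [h2, mul_div_cancel_left₀ _ hN0]
  refine prod_congr rfl fun p _ => ?_
  rw [one_div]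

private theorem anum_prod_ge {ι : Type*} (s : Finset ι) (f : ι → ℝ) (h0 : ∀ i ∈ s, 0 ≤ f i) (h1 : ∀ i ∈ s, f i ≤ 1) :
    1 - ∑ i ∈ s, f i ≤ ∏ i ∈ s, (1 - f i) := by
  classical
  induction s using Finset.induction_on with
  | empty => simp
  | insert a s ha ih =>
    rw [sum_insert ha, prod_insert ha]
    have i1 := ih (fun i hi => h0 i (mem_insert_of_mem hi)) (fun i hi => h1 i (mem_insert_of_mem hi))
    have a0 := h0 a (mem_insert_self _ _)
    have a1 := h1 a (mem_insert_self _ _)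
    have p1 : ∏ i ∈ s, (1 - f i) ≤ 1 :=
      prod_le_one (fun i hi => by linarith [h1 i (mem_insert_of_mem hi)])
        (fun i hi => by linarith [h0 i (mem_insert_of_mem hi)])
    nlinarith

private theorem anum_fac {p : ℕ} (hp : p.Prime) : 0 < 1 - 1 / (p : ℝ) ∧ 1 - 1 / (p : ℝ) ≤ 1 := by
  have h2 : (2 : ℝ) ≤ p := by exact_mod_cast hp.two_le
  have h3 : 1 / (p : ℝ) ≤ 1 / 2 := one_div_le_one_div_of_le (by norm_num) h2
  have h4 : 0 ≤ 1 / (p : ℝ) := by positivity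
  constructor <;> linarith

theorem del_prod : ∃ N0 : ℕ, ∀ N : ℕ, N0 ≤ N →
    ∏ p ∈ N.primeFactors.filter (fun p : ℕ => (p : ℝ) ≤ (Real.log N) ^ 2), (1 - 1 / (p : ℝ)) ≤ 2 * del N := by
  obtain ⟨N1, hN1⟩ := anum_log_big 100
  refine ⟨max N1 1, fun N hN => ?_⟩
  have hK := hN1 N ((le_max_left _ _).trans hN)
  have hN1' : 1 ≤ N := (le_max_right _ _).trans hN
  set K := Real.log N with hKdef
  have hK0 : 0 < K := by linarith
  rw [anum_tot N hN1', ← prod_filter_mul_prod_filter_not N.primeFactors (fun p : ℕ => (p : ℝ) ≤ K ^ 2)]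
  set A := ∏ p ∈ N.primeFactors.filter (fun p : ℕ => (p : ℝ) ≤ K ^ 2), (1 - 1 / (p : ℝ)) with hA
  have hA0 : 0 ≤ A := prod_nonneg fun p hp => (anum_fac (Nat.prime_of_mem_primeFactors (mem_filter.mp hp).1)).1.le
  have hB : 1 / 2 ≤ ∏ p ∈ N.primeFactors.filter (fun p : ℕ => ¬ (p : ℝ) ≤ K ^ 2), (1 - 1 / (p : ℝ)) := by
    refine le_trans ?_ (anum_prod_ge _ (fun p : ℕ => 1 / (p : ℝ)) (fun p _ => by positivity) (fun p hp => ?_))
    · have h1 : ∑ p ∈ N.primeFactors.filter (fun p : ℕ => ¬ (p : ℝ) ≤ K ^ 2), 1 / (p : ℝ) ≤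
          ∑ p ∈ N.primeFactors.filter (fun p : ℕ => ¬ (p : ℝ) ≤ K ^ 2), 1 / K ^ 2 := by
        refine sum_le_sum fun p hp => ?_
        have h2 := (mem_filter.mp hp).2
        push Not at h2
        exact one_div_le_one_div_of_le (by positivity) h2.le
      rw [sum_const, nsmul_eq_mul] at h1
      have h2 : (((N.primeFactors.filter (fun p : ℕ => ¬ (p : ℝ) ≤ K ^ 2)).card : ℕ) : ℝ) ≤ 2 * K := by
        refine le_trans ?_ (omega_le hN1')
        exact_mod_cast card_filter_le _ _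
      have h3 : (((N.primeFactors.filter (fun p : ℕ => ¬ (p : ℝ) ≤ K ^ 2)).card : ℕ) : ℝ) * (1 / K ^ 2) ≤
          2 * K * (1 / K ^ 2) := mul_le_mul_of_nonneg_right h2 (by positivity)
      have h4 : 2 * K * (1 / K ^ 2) = 2 / K := by
        field_simp
      have h5 : 2 / K ≤ 1 / 2 := by
        rw [div_le_div_iff₀ hK0 (by norm_num)]
        linarith
      linarith
    · have := (anum_fac (Nat.prime_of_mem_primeFactors (mem_filter.mp hp).1)).1
      linarith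
  nlinarith

theorem del_le_one (N : ℕ) : del N ≤ 1 := by
  unfold del
  exact div_le_one_of_le₀ (by exact_mod_cast Nat.totient_le N) (Nat.cast_nonneg _)

theorem del_pos {N : ℕ} (hN : 1 ≤ N) : 0 < del N := by
  unfold del
  have h1 : 0 < N.totient := Nat.totient_pos.mpr hN
  have h2 : (0 : ℝ) < N.totient := by exact_mod_cast h1
  have h3 : (0 : ℝ) < N := by exact_mod_cast hN
  positivity

private theorem anum_delN {N : ℕ} (hN : 1 ≤ N) : del N * N = N.totient := by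
  unfold del
  have h3 : (N : ℝ) ≠ 0 := by
    have : N ≠ 0 := by omega
    exact_mod_cast this
  field_simp

theorem UU_low {W N a : ℕ} (hW : 1 ≤ W) (hN : 1 ≤ N) (haW : a.Coprime W) : del N * N ≤ (UU W N a).card := by
  rw [anum_delN hN]
  have h1 := card_UU_tot hW hN haW
  have h2 := Nat.totient_super_multiplicative W N
  have h3 : 0 < W.totient := Nat.totient_pos.mpr hW
  have h4 : N.totient ≤ (UU W N a).card := by
    refine Nat.le_of_mul_le_mul_left ?_ h3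
    calc W.totient * N.totient ≤ (W * N).totient := h2
      _ = W.totient * (UU W N a).card := by rw [← h1, mul_comm]
  exact_mod_cast h4

private theorem anum_tot_mul {W N : ℕ} (hW : 1 ≤ W) (hN : 1 ≤ N) : (W * N).totient ≤ W * N.totient := by
  have hWN : 1 ≤ W * N := Nat.mul_pos hW hN
  have e1 := anum_tot (W * N) hWN
  have e2 := anum_tot N hN
  have hsub : N.primeFactors ⊆ (W * N).primeFactors := Nat.primeFactors_mono (dvd_mul_left N W) (by omega)
  have h : del (W * N) ≤ del N := by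
    rw [e1, e2, ← prod_sdiff hsub]
    have p1 : ∏ p ∈ (W * N).primeFactors \ N.primeFactors, (1 - 1 / (p : ℝ)) ≤ 1 :=
      prod_le_one (fun p hp => (anum_fac (Nat.prime_of_mem_primeFactors (mem_sdiff.mp hp).1)).1.le)
        (fun p hp => (anum_fac (Nat.prime_of_mem_primeFactors (mem_sdiff.mp hp).1)).2)
    have p2 : 0 ≤ ∏ p ∈ N.primeFactors, (1 - 1 / (p : ℝ)) :=
      prod_nonneg fun p hp => (anum_fac (Nat.prime_of_mem_primeFactors hp)).1.le
    calc _ ≤ 1 * ∏ p ∈ N.primeFactors, (1 - 1 / (p : ℝ)) := mul_le_mul_of_nonneg_right p1 p2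
      _ = _ := one_mul _
  have k1 := anum_delN hWN
  have k2 := anum_delN hN
  have k3 : ((W * N : ℕ) : ℝ) = W * N := by push_cast; ring
  have h5 : ((W * N).totient : ℝ) ≤ W * N.totient := by
    rw [← k1, ← k2, k3]
    calc del (W * N) * (W * N : ℝ) ≤ del N * (W * N : ℝ) := mul_le_mul_of_nonneg_right h (by positivity)
      _ = W * (del N * N) := by ring
  exact_mod_cast h5

theorem UU_up {W N a : ℕ} (hW : 1 ≤ W) (hN : 1 ≤ N) (haW : a.Coprime W) : ((UU W N a).card : ℝ) ≤ W * (del N * N) := by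
  rw [anum_delN hN]
  have h1 := card_UU_tot hW hN haW
  have h3 : 0 < W.totient := Nat.totient_pos.mpr hW
  have h4 : (UU W N a).card ≤ W * N.totient := by
    calc (UU W N a).card ≤ (UU W N a).card * W.totient := Nat.le_mul_of_pos_right _ h3
      _ = (W * N).totient := h1
      _ ≤ W * N.totient := anum_tot_mul hW hN
  exact_mod_cast h4

theorem pow_lt (C : ℝ) : ∃ N0 : ℕ, ∀ N : ℕ, N0 ≤ N → (Real.log N) ^ C < (N : ℝ) := by
  obtain ⟨N1, hN1⟩ := anum_log_big 100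
  obtain ⟨N2, hN2⟩ := finn_pow 1 one_pos ⌈C⌉₊ 2
  refine ⟨max N1 N2, fun N hN => ?_⟩
  have hK := hN1 N ((le_max_left _ _).trans hN)
  have h2 := hN2 N ((le_max_right _ _).trans hN)
  rw [Real.rpow_one] at h2
  have hK1 : 1 ≤ Real.log N := by linarith
  have h3 : (Real.log N) ^ C ≤ (Real.log N) ^ ⌈C⌉₊ := by
    rw [← Real.rpow_natCast]
    exact Real.rpow_le_rpow_of_exponent_le hK1 (Nat.le_ceil C)
  have h4 : 0 < (Real.log N) ^ ⌈C⌉₊ := by positivity
  linarith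

theorem del_big (B t : ℝ) (ht : 0 < t) : ∃ N0 : ℕ, ∀ N : ℕ, N0 ≤ N → B * (Real.log N) ^ (-t) ≤ del N := by
  obtain ⟨c, hc, N1, hN1⟩ := del_loglog
  have h1 : (fun x : ℝ => |B| * Real.log x) =o[Filter.atTop] fun x : ℝ => x ^ t :=
    (isLittleO_log_rpow_atTop ht).const_mul_left _
  have h2 := h1.bound hc
  obtain ⟨x0, hx0⟩ := Filter.eventually_atTop.mp h2
  obtain ⟨N2, hN2⟩ := anum_log_big (max x0 3)
  refine ⟨max N1 N2, fun N hN => ?_⟩
  have k1 := hN1 N ((le_max_left _ _).trans hN)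
  have k2 := hN2 N ((le_max_right _ _).trans hN)
  have k3 := hx0 (Real.log N) ((le_max_left _ _).trans k2)
  have hK : 3 ≤ Real.log N := (le_max_right _ _).trans k2
  set K := Real.log N with hKdef
  have hK0 : 0 < K := by linarith
  have hL : 0 < Real.log K := Real.log_pos (by linarith)
  rw [Real.norm_eq_abs, Real.norm_eq_abs, abs_of_nonneg (by positivity : 0 ≤ |B| * Real.log K),
    abs_of_nonneg (Real.rpow_nonneg hK0.le t)] at k3
  have hpt : 0 < K ^ t := Real.rpow_pos_of_pos hK0 t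
  rw [Real.rpow_neg hK0.le]
  have h5 : B * (K ^ t)⁻¹ ≤ |B| * (K ^ t)⁻¹ := mul_le_mul_of_nonneg_right (le_abs_self B) (by positivity)
  have h6 : |B| * (K ^ t)⁻¹ ≤ c / Real.log K := by
    rw [← div_eq_mul_inv, div_le_div_iff₀ hpt hL]
    exact k3
  have h7 : c / Real.log K ≤ del N := by
    rw [div_le_iff₀ hL]
    linarith
  linarith

end Pool.Agent.Lib.OA
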