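import Mathlib
import Pool.Agent.Lib.MP_7b7e48_nt.OA.ANum

/-!
# Module ADOM (50 minutes): the number of the integers coprime to `N`

Möbius: `#{w < y : (w, N) = 1} = ∑_{d ∣ N squarefree} μ(d) (number of multiples of d below y)`. `K = log N`. UPPER bound without Möbius tricks: the `d ≤ √y` give
`∑_{d ≤ √y} μ(d) (y/d + O(1))`, error `√y`; the `d > √y` give at most `∑_{d ∣ N sqf, d > √y} (y/d + 1)`.. better: the number of `w < y` divisible by some squarefree
`d ∣ N` with `d > √y` -- instead use directly: `|#{w < y, (w,N) = 1} - del N y| ≤ ∑_{d ∣ N sqf, d ≤ y} 1 + ∑_{d ∣ N sqf, d > y} y/d`, where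
`∑_{d ≤ y} 1 ≤ √y + ∑_{√y < d ≤ y} 1 ≤ √y + y ∑_{d > √y} 1/d`. So the error is `≤ √y + 2 y ∑_{d ∣ N sqf, d > √y} 1/d ≤ √y + 2 y/K^3` by `OW.sqf_tail` (`A = 3`), and
`del N ≥ 1/K` (`NumA.d1`). `adom_low`: the same with the class `a` modulo `W` and the `d` coprime to `W`: main term `(N/W) ∏_{p ∣ N, p ∤ W} (1 - 1/p) ≥ del N N/W`.
-/

set_option autoImplicit false

open Finset
open Pool.Agent.Lib.MP_45349e_nt.LS (lam)

namespace Pool.Agent.Lib.OA

open Pool.Agent.Lib.OW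
open Pool.Agent.Lib.RG (RC LV rr SS PB)

/-- the residue class of `m` when `d m` is in the class `a` -/
private theorem adom_res {W d : ℕ} (hW : 1 ≤ W) (hd : d.Coprime W) (a : ℕ) :
    ∃ b : ℕ, ∀ m : ℕ, (d * m ≡ a [MOD W]) ↔ (m ≡ b [MOD W]) := by
  have : NeZero W := ⟨by omega⟩
  refine ⟨((((ZMod.unitOfCoprime d hd)⁻¹ : (ZMod W)ˣ) : ZMod W) * (a : ZMod W)).val, fun m => ?_⟩
  rw [← ZMod.natCast_eq_natCast_iff, ← ZMod.natCast_eq_natCast_iff, ZMod.natCast_val,
    ZMod.cast_id, Nat.cast_mul]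
  have h2 : ((d : ℕ) : ZMod W) = ((ZMod.unitOfCoprime d hd : (ZMod W)ˣ) : ZMod W) := by
    rw [ZMod.coe_unitOfCoprime]
  rw [h2]
  constructor
  · intro h3
    rw [← h3, Units.inv_mul_cancel_left]
  · intro h3
    rw [h3, Units.mul_inv_cancel_left]

/-- the number of the `m ≤ Q` in a class modulo `W` -/
private theorem adom_cls {W : ℕ} (hW : 1 ≤ W) (b Q : ℕ) :
    |((((Finset.Icc 1 Q).filter fun m => m ≡ b [MOD W]).card : ℕ) : ℝ) - (Q : ℝ) / W| ≤ 1 := by
  have hW0 : (0 : ℚ) < W := by exact_mod_cast hW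
  have h := Nat.Ioc_filter_modEq_card 0 Q hW b
  have e : Finset.Icc 1 Q = Finset.Ioc 0 Q := by
    ext m
    rw [Finset.mem_Icc, Finset.mem_Ioc]
    omega
  rw [e]
  set T := ((Finset.Ioc 0 Q).filter fun m => m ≡ b [MOD W]).card with hT
  set u : ℚ := ((Q : ℚ) - b) / W with hu
  set v : ℚ := (((0 : ℕ) : ℚ) - b) / W with hv
  have huv : u - v = (Q : ℚ) / W := by
    rw [hu, hv]
    field_simp
    push_cast
    ring
  have h0 : (0 : ℚ) ≤ (Q : ℚ) / W := by positivity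
  have hf : ⌊v⌋ ≤ ⌊u⌋ := Int.floor_le_floor (by linarith)
  have h1 : ((T : ℕ) : ℤ) = ⌊u⌋ - ⌊v⌋ := by
    rw [h]
    exact max_eq_left (by omega)
  have h2 : ((T : ℕ) : ℚ) = (⌊u⌋ : ℚ) - (⌊v⌋ : ℚ) := by exact_mod_cast congrArg (fun z : ℤ => (z : ℚ)) h1
  have a1 := Int.floor_le u
  have a2 := Int.lt_floor_add_one u
  have a3 := Int.floor_le v
  have a4 := Int.lt_floor_add_one v
  have h3 : |((T : ℕ) : ℚ) - (Q : ℚ) / W| ≤ 1 := by
    rw [abs_le, h2, ← huv]
    constructor <;> linarith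
  have h4 : ((|((T : ℕ) : ℚ) - (Q : ℚ) / W| : ℚ) : ℝ) ≤ ((1 : ℚ) : ℝ) := by exact_mod_cast h3
  push_cast at h4
  exact h4

open Classical in
/-- the multiples of `d` in a class -/
private theorem adom_mult {W a y d : ℕ} (hd : 1 ≤ d) :
    (((Finset.Icc 1 (y - 1)).filter fun n => n ≡ a [MOD W]).filter fun n => d ∣ n).card =
      ((Finset.Icc 1 ((y - 1) / d)).filter fun m => d * m ≡ a [MOD W]).card := by
  symm
  refine Finset.card_nbij (fun m => d * m) ?_ ?_ ?_
  · intro m hm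
    have h1 := mem_filter.mp hm
    have h2 := mem_Icc.mp h1.1
    refine mem_filter.mpr ⟨mem_filter.mpr ⟨mem_Icc.mpr ⟨?_, ?_⟩, h1.2⟩, Dvd.intro _ rfl⟩
    · exact Nat.mul_pos (by omega) (by omega)
    · exact (Nat.mul_le_mul_left d h2.2).trans (Nat.mul_div_le _ _)
  · intro m _ m' _ h
    exact Nat.eq_of_mul_eq_mul_left (by omega) h
  · intro n hn
    have h1 := mem_filter.mp hn
    have h2 := mem_filter.mp h1.1
    have h3 := mem_Icc.mp h2.1
    obtain ⟨m, hm⟩ := h1.2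
    have hm' : d * m = n := hm.symm
    refine ⟨m, ?_, hm'⟩
    refine mem_coe.mpr (mem_filter.mpr ⟨mem_Icc.mpr ⟨?_, ?_⟩, ?_⟩)
    · rcases Nat.eq_zero_or_pos m with h | h
      · rw [h, mul_zero] at hm'
        omega
      · exact h
    · rw [Nat.le_div_iff_mul_le (by omega), mul_comm, hm']
      exact h3.2
    · rw [hm']
      exact h2.2

open Classical in
/-- one divisor -/
private theorem adom_one {W a y d : ℕ} (hW : 1 ≤ W) (hy : 1 ≤ y) (hd : 1 ≤ d) (hdW : d.Coprime W) :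
    |(((((Finset.Icc 1 (y - 1)).filter fun n => n ≡ a [MOD W]).filter fun n => d ∣ n).card : ℕ) : ℝ) -
      (y : ℝ) / (d * W)| ≤ 3 ∧
    |(((((Finset.Icc 1 (y - 1)).filter fun n => n ≡ a [MOD W]).filter fun n => d ∣ n).card : ℕ) : ℝ) -
      (y : ℝ) / (d * W)| ≤ (y : ℝ) / d := by
  rw [adom_mult hd]
  obtain ⟨b, hb⟩ := adom_res hW hdW a
  set Q := (y - 1) / d with hQ
  have hd0 : (0 : ℝ) < d := by exact_mod_cast hd
  have hW0 : (0 : ℝ) < W := by exact_mod_cast hW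
  have hW1 : (1 : ℝ) ≤ W := by exact_mod_cast hW
  have hd1 : (1 : ℝ) ≤ d := by exact_mod_cast hd
  have e : ((Finset.Icc 1 Q).filter fun m => d * m ≡ a [MOD W]) =
      ((Finset.Icc 1 Q).filter fun m => m ≡ b [MOD W]) := by
    ext m
    rw [mem_filter, mem_filter, hb m]
  rw [e]
  have h1 := adom_cls hW b Q
  set T := ((Finset.Icc 1 Q).filter fun m => m ≡ b [MOD W]).card with hT
  have hTQ : T ≤ Q := by
    rw [hT]
    refine (card_filter_le _ _).trans ?_
    rw [Nat.card_Icc, Nat.add_sub_cancel]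
  have hTQ' : (T : ℝ) ≤ (Q : ℝ) := by exact_mod_cast hTQ
  have hy1 : ((y - 1 : ℕ) : ℝ) = (y : ℝ) - 1 := by
    rw [Nat.cast_sub hy]
    push_cast
    ring
  have hQu : (Q : ℝ) ≤ (y : ℝ) / d := by
    have h2 : (Q : ℝ) ≤ ((y - 1 : ℕ) : ℝ) / d := Nat.cast_div_le
    refine h2.trans (div_le_div_of_nonneg_right ?_ hd0.le)
    rw [hy1]
    linarith
  have hQl : (y : ℝ) / d - 2 ≤ (Q : ℝ) := by
    have h2 : y - 1 < d * ((y - 1) / d + 1) := Nat.lt_mul_div_succ _ (by omega)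
    have h3 : ((y - 1 : ℕ) : ℝ) < d * ((Q : ℝ) + 1) := by exact_mod_cast h2
    rw [hy1] at h3
    have h4 : (y : ℝ) / d ≤ (Q : ℝ) + 2 := by
      rw [div_le_iff₀ hd0]
      nlinarith
    linarith
  have e2 : (y : ℝ) / (d * W) = (y : ℝ) / d / W := by rw [div_div]
  have hQW1 : (Q : ℝ) / W ≤ (y : ℝ) / d / W := div_le_div_of_nonneg_right hQu hW0.le
  have hQW2 : (y : ℝ) / d / W - 2 ≤ (Q : ℝ) / W := by
    have h2 : ((y : ℝ) / d - 2) / W ≤ (Q : ℝ) / W := div_le_div_of_nonneg_right hQl hW0.le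
    have h3 : ((y : ℝ) / d - 2) / W = (y : ℝ) / d / W - 2 / W := by rw [sub_div]
    have h4 : (2 : ℝ) / W ≤ 2 := by
      rw [div_le_iff₀ hW0]
      nlinarith
    linarith
  constructor
  · rw [e2]
    rw [abs_le] at h1 ⊢
    constructor <;> linarith [h1.1, h1.2]
  · rw [e2]
    have h5 : (y : ℝ) / d / W ≤ (y : ℝ) / d := div_le_self (by positivity) hW1
    have h6 : (0 : ℝ) ≤ (y : ℝ) / d / W := by positivity
    have h7 : (0 : ℝ) ≤ (T : ℝ) := Nat.cast_nonneg _
    rw [abs_le]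
    constructor <;> linarith

open Classical in
/-- the number of the integers below `y`, coprime to `M`, in a class modulo `W` -/
private theorem adom_cnt {W M a y : ℕ} (hW : 1 ≤ W) (hM : M ≠ 0) (hMW : M.Coprime W) (hy : 1 ≤ y) :
    |(((((Finset.Icc 1 (y - 1)).filter fun n => n ≡ a [MOD W]).filter fun n => n.Coprime M).card : ℕ) : ℝ) -
      del M * (y / W)| ≤ 3 * √(y : ℝ) +
        y * ∑ d ∈ M.divisors.filter (fun d : ℕ => Squarefree d ∧ √(y : ℝ) < d), 1 / (d : ℝ) := by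
  set R := (Finset.Icc 1 (y - 1)).filter fun n => n ≡ a [MOD W] with hR
  set T : ℕ → ℝ := fun d => (((R.filter fun n => d ∣ n).card : ℕ) : ℝ) with hT
  set μ : ℕ → ℝ := fun d => ((ArithmeticFunction.moebius d : ℤ) : ℝ) with hμ
  have hμ1 : ∀ d : ℕ, |μ d| ≤ 1 := by
    intro d
    have h4 := ArithmeticFunction.abs_moebius_le_one (n := d)
    show |((ArithmeticFunction.moebius d : ℤ) : ℝ)| ≤ 1
    exact_mod_cast h4
  have h1 : (((R.filter fun n => n.Coprime M).card : ℕ) : ℝ) = ∑ d ∈ M.divisors, μ d * T d := by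
    have h2 : (((R.filter fun n => n.Coprime M).card : ℕ) : ℝ) = ∑ n ∈ R, (if n.Coprime M then (1 : ℝ) else 0) := by
      rw [sum_ite, sum_const_zero, add_zero, sum_const, nsmul_eq_mul, mul_one]
    rw [h2]
    have h3 : ∀ n ∈ R, (if n.Coprime M then (1 : ℝ) else 0) = ∑ d ∈ M.divisors, (if d ∣ n then μ d else 0) := by
      intro n _
      exact S1_ind hM n
    rw [sum_congr rfl h3, sum_comm]
    refine sum_congr rfl fun d _ => ?_
    rw [← sum_filter, sum_const, nsmul_eq_mul, mul_comm]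
  have h2 : del M * ((y : ℝ) / W) = ∑ d ∈ M.divisors, μ d * ((y : ℝ) / (d * W)) := by
    rw [S1_del hM, sum_mul]
    refine sum_congr rfl fun d _ => ?_
    rw [div_mul_div_comm, mul_div_assoc]
  rw [h1, h2, ← sum_sub_distrib]
  have h3 : ∀ d ∈ M.divisors, μ d * T d - μ d * ((y : ℝ) / (d * W)) = μ d * (T d - (y : ℝ) / (d * W)) := by
    intro d _
    ring
  rw [sum_congr rfl h3]
  have h4 : ∑ d ∈ M.divisors, μ d * (T d - (y : ℝ) / (d * W)) =
      ∑ d ∈ M.divisors.filter (fun d => Squarefree d), μ d * (T d - (y : ℝ) / (d * W)) := by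
    rw [sum_filter]
    refine sum_congr rfl fun d _ => ?_
    by_cases hd : Squarefree d
    · rw [if_pos hd]
    · rw [if_neg hd, hμ]
      simp only
      rw [ArithmeticFunction.moebius_eq_zero_of_not_squarefree hd]
      simp
  have hb : ∀ d ∈ M.divisors, |μ d * (T d - (y : ℝ) / (d * W))| ≤ 3 ∧
      |μ d * (T d - (y : ℝ) / (d * W))| ≤ (y : ℝ) * (1 / d) := by
    intro d hd
    have hd1 : 1 ≤ d := Nat.pos_of_mem_divisors hd
    have hdW : d.Coprime W := Nat.Coprime.coprime_dvd_left (Nat.dvd_of_mem_divisors hd) hMW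
    obtain ⟨g1, g2⟩ := adom_one (a := a) hW hy hd1 hdW
    have e1 : |μ d * (T d - (y : ℝ) / (d * W))| ≤ |T d - (y : ℝ) / (d * W)| := by
      rw [abs_mul]
      calc |μ d| * |T d - (y : ℝ) / (d * W)| ≤ 1 * |T d - (y : ℝ) / (d * W)| :=
            mul_le_mul_of_nonneg_right (hμ1 d) (abs_nonneg _)
        _ = _ := one_mul _
    refine ⟨e1.trans g1, e1.trans ?_⟩
    rw [mul_one_div]
    exact g2
  rw [h4]
  refine (abs_sum_le_sum_abs _ _).trans ?_
  have hsplit : ∑ d ∈ M.divisors.filter (fun d => Squarefree d), |μ d * (T d - (y : ℝ) / (d * W))| =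
      ∑ d ∈ M.divisors.filter (fun d : ℕ => Squarefree d ∧ √(y : ℝ) < d), |μ d * (T d - (y : ℝ) / (d * W))| +
      ∑ d ∈ M.divisors.filter (fun d : ℕ => Squarefree d ∧ ¬ √(y : ℝ) < d), |μ d * (T d - (y : ℝ) / (d * W))| := by
    rw [← sum_filter_add_sum_filter_not (M.divisors.filter (fun d => Squarefree d))
      (fun d : ℕ => √(y : ℝ) < (d : ℝ)), filter_filter, filter_filter]
  rw [hsplit, add_comm]
  refine add_le_add ?_ ?_
  · calc ∑ d ∈ M.divisors.filter (fun d : ℕ => Squarefree d ∧ ¬ √(y : ℝ) < d), |μ d * (T d - (y : ℝ) / (d * W))|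
        ≤ ∑ d ∈ M.divisors.filter (fun d : ℕ => Squarefree d ∧ ¬ √(y : ℝ) < d), (3 : ℝ) := by
          refine sum_le_sum fun d hd => ?_
          exact (hb d (mem_filter.mp hd).1).1
      _ = ((M.divisors.filter (fun d : ℕ => Squarefree d ∧ ¬ √(y : ℝ) < d)).card : ℝ) * 3 := by
          rw [sum_const, nsmul_eq_mul]
      _ ≤ √(y : ℝ) * 3 := by
          refine mul_le_mul_of_nonneg_right ?_ (by norm_num)
          have hsub : (M.divisors.filter (fun d : ℕ => Squarefree d ∧ ¬ √(y : ℝ) < d)) ⊆ Finset.Icc 1 ⌊√(y : ℝ)⌋₊ := by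
            intro d hd
            have h5 := mem_filter.mp hd
            rw [mem_Icc]
            exact ⟨Nat.pos_of_mem_divisors h5.1, Nat.le_floor (not_lt.mp h5.2.2)⟩
          have h6 := card_le_card hsub
          rw [Nat.card_Icc, Nat.add_sub_cancel] at h6
          calc ((M.divisors.filter (fun d : ℕ => Squarefree d ∧ ¬ √(y : ℝ) < d)).card : ℝ) ≤ ((⌊√(y : ℝ)⌋₊ : ℕ) : ℝ) := by
                exact_mod_cast h6
            _ ≤ √(y : ℝ) := Nat.floor_le (Real.sqrt_nonneg _)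
      _ = 3 * √(y : ℝ) := by ring
  · rw [mul_sum]
    refine sum_le_sum fun d hd => ?_
    exact (hb d (mem_filter.mp hd).1).2

/-- `N = N1 M` with `M` coprime to `W` and all the primes of `N1` in `W` -/
private theorem adom_dec (W : ℕ) : ∀ N : ℕ, 1 ≤ N → ∃ N1 M : ℕ, N = N1 * M ∧ M.Coprime W ∧
    ∀ p : ℕ, p.Prime → p ∣ N1 → p ∣ W := by
  intro N
  induction N using Nat.strong_induction_on with
  | _ N ih =>
    intro hN
    by_cases h : N.Coprime W
    · refine ⟨1, N, (one_mul N).symm, h, fun p hp hp1 => ?_⟩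
      exact absurd (Nat.dvd_one.mp hp1) hp.one_lt.ne'
    · obtain ⟨p, hp, hpN, hpW⟩ := Nat.Prime.not_coprime_iff_dvd.1 h
      obtain ⟨N', hN'⟩ := hpN
      have h0 : 1 ≤ N' := by
        rcases Nat.eq_zero_or_pos N' with h1 | h1
        · rw [h1, mul_zero] at hN'
          omega
        · exact h1
      have hlt : N' < N := by
        rw [hN']
        have := hp.two_le
        nlinarith
      obtain ⟨N1, M, e1, e2, e3⟩ := ih N' hlt h0
      refine ⟨p * N1, M, by rw [hN', e1, mul_assoc], e2, fun q hq hqd => ?_⟩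
      rcases hq.dvd_mul.mp hqd with h1 | h1
      · rw [(Nat.prime_dvd_prime_iff_eq hq hp).mp h1]
        exact hpW
      · exact e3 q hq h1

/-- the numerical condition for `y` -/
private theorem adom_num (θ B : ℝ) (h0 : 0 < θ) : ∃ N0 : ℕ, ∀ N : ℕ, N0 ≤ N → ∀ y : ℝ,
    Real.exp ((Real.log N) ^ θ) ≤ y → B * Real.log N ≤ √y := by
  have h1 := (isLittleO_log_rpow_atTop (r := θ) h0).bound (c := 1 / 4) (by norm_num)
  have h2 : ∀ᶠ K : ℝ in Filter.atTop, 4 * Real.log (|B| + 1) ≤ K ^ θ :=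
    (tendsto_rpow_atTop h0).eventually_ge_atTop _
  have h3 : ∀ᶠ N : ℕ in Filter.atTop, (‖Real.log (Real.log (N : ℝ))‖ ≤ 1 / 4 * ‖(Real.log (N : ℝ)) ^ θ‖ ∧
      4 * Real.log (|B| + 1) ≤ (Real.log (N : ℝ)) ^ θ) ∧ 1 ≤ Real.log (N : ℝ) :=
    (((Real.tendsto_log_atTop.comp tendsto_natCast_atTop_atTop).eventually (h1.and h2))).and
      ((Real.tendsto_log_atTop.comp tendsto_natCast_atTop_atTop).eventually (Filter.eventually_ge_atTop (1 : ℝ)))
  obtain ⟨N0, hN0⟩ := Filter.eventually_atTop.mp h3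
  refine ⟨N0, fun N hN y hy => ?_⟩
  obtain ⟨⟨a1, a2⟩, a3⟩ := hN0 N hN
  set K := Real.log (N : ℝ) with hK
  have hKp : 0 < K := by linarith
  rw [Real.norm_of_nonneg (Real.log_nonneg a3), Real.norm_of_nonneg (by positivity)] at a1
  have hB : 0 < |B| + 1 := by positivity
  have h5 : B * K ≤ (|B| + 1) * K := mul_le_mul_of_nonneg_right (by linarith [le_abs_self B]) hKp.le
  refine h5.trans ?_
  apply Real.le_sqrt_of_sq_le
  refine le_trans ?_ hy
  have h6 : ((|B| + 1) * K) ^ 2 = Real.exp (2 * (Real.log (|B| + 1) + Real.log K)) := by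
    rw [← Real.log_mul hB.ne' hKp.ne', two_mul, Real.exp_add, Real.exp_log (by positivity), sq]
  rw [h6, Real.exp_le_exp]
  linarith

theorem adom_up (θ : ℝ) (h0 : 0 < θ) (h1 : θ ≤ 1) : ∃ N0 : ℕ, ∀ N : ℕ, N0 ≤ N → ∀ y : ℕ,
    Real.exp ((Real.log N) ^ θ) ≤ y → (((Finset.range y).filter fun w => w.Coprime N).card : ℝ) ≤ 2 * del N * y := by
  classical
  obtain ⟨N1, hN1⟩ := sqf_tail θ h0 h1 3
  obtain ⟨N2, hN2⟩ := adom_num θ 6 h0
  obtain ⟨Na, hNa⟩ := numA
  refine ⟨max N1 (max N2 (max Na 2)), fun N hN y hy => ?_⟩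
  simp only [max_le_iff] at hN
  obtain ⟨hn1, hn2, hn3, hn4⟩ := hN
  have hA := hNa N hn3
  have hd1 := hA.d1
  have hK := hA.K
  have htail := hN1 N hn1 (y : ℝ) hy
  have hsq := hN2 N hn2 (y : ℝ) hy
  have hy0 : (0 : ℝ) < y := lt_of_lt_of_le (Real.exp_pos _) hy
  have hy1 : 1 ≤ y := by
    have : (0 : ℕ) < y := by exact_mod_cast hy0
    omega
  set K := Real.log (N : ℝ) with hKdef
  have hKp : 0 < K := by linarith
  have h2 := adom_cnt (W := 1) (M := N) (a := 0) (y := y) le_rfl (by omega) (Nat.coprime_one_right N) hy1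
  have e : ((Finset.range y).filter fun w => w.Coprime N) =
      (((Finset.Icc 1 (y - 1)).filter fun n => n ≡ 0 [MOD 1]).filter fun n => n.Coprime N) := by
    ext w
    rw [filter_filter, mem_filter, mem_filter, mem_range, mem_Icc]
    constructor
    · rintro ⟨a1, a2⟩
      refine ⟨⟨?_, by omega⟩, Nat.modEq_one, a2⟩
      rcases Nat.eq_zero_or_pos w with h3 | h3
      · rw [h3, Nat.coprime_zero_left] at a2
        omega
      · exact h3
    · rintro ⟨a1, _, a2⟩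
      exact ⟨by omega, a2⟩
  rw [e]
  set X := (((((Finset.Icc 1 (y - 1)).filter fun n => n ≡ 0 [MOD 1]).filter fun n => n.Coprime N).card : ℕ) : ℝ) with hX
  have h3 := (abs_le.mp h2).2
  rw [Nat.cast_one, div_one] at h3
  have hinv : 1 / K ≤ del N := by
    rw [div_le_iff₀ hKp, mul_comm]
    exact hd1
  have h4 : 3 * √(y : ℝ) ≤ (1 / K) * y / 2 := by
    have h5 : √(y : ℝ) * √(y : ℝ) = y := Real.mul_self_sqrt hy0.le
    have h6 : 6 * K * √(y : ℝ) ≤ y := by
      calc 6 * K * √(y : ℝ) ≤ √(y : ℝ) * √(y : ℝ) := mul_le_mul_of_nonneg_right hsq (Real.sqrt_nonneg _)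
        _ = y := h5
    have h7 : (1 / K) * (y : ℝ) / 2 = y / (2 * K) := by
      field_simp
    rw [h7, le_div_iff₀ (by positivity)]
    linarith
  have h5 : (y : ℝ) * ∑ d ∈ N.divisors.filter (fun d : ℕ => Squarefree d ∧ √(y : ℝ) < d), 1 / (d : ℝ) ≤
      (1 / K) * y / 2 := by
    refine (mul_le_mul_of_nonneg_left htail hy0.le).trans ?_
    have h6 : 1 / K ^ 3 ≤ 1 / K * (1 / 2) := by
      rw [one_div_mul_one_div]
      refine one_div_le_one_div_of_le (by positivity) ?_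
      nlinarith [sq_nonneg K]
    calc (y : ℝ) * (1 / K ^ 3) ≤ y * (1 / K * (1 / 2)) := mul_le_mul_of_nonneg_left h6 hy0.le
      _ = (1 / K) * y / 2 := by ring
  have h6 : (1 / K) * y ≤ del N * y := mul_le_mul_of_nonneg_right hinv hy0.le
  linarith

theorem adom_low (W : ℕ) (hW : 1 ≤ W) : ∃ N0 : ℕ, ∀ N : ℕ, N0 ≤ N → ∀ a : ℕ, a.Coprime W →
    del N * N / (2 * W) ≤ ((Dom N W a N).card : ℝ) := by
  classical
  obtain ⟨N1, hN1⟩ := sqf_tail 1 one_pos le_rfl 3
  obtain ⟨N2, hN2⟩ := adom_num 1 (12 * W) one_pos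
  obtain ⟨Na, hNa⟩ := numA
  have hW0 : (0 : ℝ) < W := by exact_mod_cast hW
  have hW1 : (1 : ℝ) ≤ W := by exact_mod_cast hW
  refine ⟨max N1 (max N2 (max Na (max 2 ⌈Real.exp (4 * W)⌉₊))), fun N hN a ha => ?_⟩
  simp only [max_le_iff] at hN
  obtain ⟨hn1, hn2, hn3, hn4, hn5⟩ := hN
  have hA := hNa N hn3
  have hd1 := hA.d1
  have hK := hA.K
  have hNpos : (0 : ℝ) < N := by exact_mod_cast (by omega : 0 < N)
  have hy : Real.exp ((Real.log (N : ℝ)) ^ (1 : ℝ)) ≤ (N : ℝ) := by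
    rw [Real.rpow_one, Real.exp_log hNpos]
  have htail := hN1 N hn1 (N : ℝ) hy
  have hsq := hN2 N hn2 (N : ℝ) hy
  have hKW : 4 * (W : ℝ) ≤ Real.log (N : ℝ) := by
    rw [Real.le_log_iff_exp_le hNpos]
    exact (Nat.le_ceil _).trans (by exact_mod_cast hn5)
  set K := Real.log (N : ℝ) with hKdef
  have hKp : 0 < K := by linarith
  obtain ⟨P, M, hPM, hMW, hP⟩ := adom_dec W N (by omega)
  have hM0 : M ≠ 0 := by
    rintro rfl
    rw [mul_zero] at hPM
    omega
  have hP0 : P ≠ 0 := by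
    rintro rfl
    rw [zero_mul] at hPM
    omega
  have hcop : P.Coprime M := by
    by_contra h
    obtain ⟨p, hp, h1, h2⟩ := Nat.Prime.not_coprime_iff_dvd.1 h
    exact (Nat.Prime.not_coprime_iff_dvd.2 ⟨p, hp, h2, hP p hp h1⟩) hMW
  have hdel : del N ≤ del M := by
    have hP1 : (0 : ℝ) < P := by exact_mod_cast Nat.pos_of_ne_zero hP0
    have hM1 : (0 : ℝ) < M := by exact_mod_cast Nat.pos_of_ne_zero hM0
    unfold del
    rw [hPM, Nat.totient_mul hcop, Nat.cast_mul, Nat.cast_mul, mul_div_mul_comm]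
    have h2 : ((P.totient : ℝ) / P) ≤ 1 := by
      rw [div_le_one hP1]
      exact_mod_cast Nat.totient_le P
    calc ((P.totient : ℝ) / P) * ((M.totient : ℝ) / M) ≤ 1 * ((M.totient : ℝ) / M) :=
          mul_le_mul_of_nonneg_right h2 (by positivity)
      _ = _ := one_mul _
  have h2 := adom_cnt (W := W) (M := M) (a := a) (y := N) hW hM0 hMW (by omega)
  have hsub : (((Finset.Icc 1 (N - 1)).filter fun n => n ≡ a [MOD W]).filter fun n => n.Coprime M) ⊆ Dom N W a N := by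
    intro n hn
    unfold Dom
    rw [filter_filter, mem_filter, mem_Icc] at hn
    rw [mem_filter, mem_range]
    refine ⟨by omega, hn.2.1, ?_⟩
    have h3 : n.Coprime W := by
      have h4 : Nat.gcd n W = Nat.gcd a W := by
        have h5 : n % W = a % W := hn.2.1
        rw [Nat.gcd_comm n W, Nat.gcd_comm a W, Nat.gcd_rec W n, Nat.gcd_rec W a, h5]
      rw [Nat.coprime_iff_gcd_eq_one, h4]
      exact ha
    have h4 : n.Coprime P := by
      by_contra h
      obtain ⟨p, hp, h5, h6⟩ := Nat.Prime.not_coprime_iff_dvd.1 h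
      exact (Nat.Prime.not_coprime_iff_dvd.2 ⟨p, hp, h5, hP p hp h6⟩) h3
    rw [hPM]
    exact Nat.Coprime.mul_right h4 hn.2.2
  have h3 : (((((Finset.Icc 1 (N - 1)).filter fun n => n ≡ a [MOD W]).filter fun n => n.Coprime M).card : ℕ) : ℝ) ≤
      ((Dom N W a N).card : ℝ) := by exact_mod_cast card_le_card hsub
  set X := (((((Finset.Icc 1 (N - 1)).filter fun n => n ≡ a [MOD W]).filter fun n => n.Coprime M).card : ℕ) : ℝ) with hX
  have h4 := (abs_le.mp h2).1
  have hinv : 1 / K ≤ del N := by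
    rw [div_le_iff₀ hKp, mul_comm]
    exact hd1
  have h5 : 3 * √(N : ℝ) ≤ (1 / K) * (N / W) / 4 := by
    have h6 : √(N : ℝ) * √(N : ℝ) = N := Real.mul_self_sqrt hNpos.le
    have h7 : 12 * W * K * √(N : ℝ) ≤ N := by
      calc 12 * W * K * √(N : ℝ) ≤ √(N : ℝ) * √(N : ℝ) := mul_le_mul_of_nonneg_right hsq (Real.sqrt_nonneg _)
        _ = N := h6
    have h8 : (1 / K) * ((N : ℝ) / W) / 4 = N / (4 * W * K) := by
      field_simp
    rw [h8, le_div_iff₀ (by positivity)]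
    linarith
  have h6 : (N : ℝ) * ∑ d ∈ M.divisors.filter (fun d : ℕ => Squarefree d ∧ √(N : ℝ) < d), 1 / (d : ℝ) ≤
      (1 / K) * (N / W) / 4 := by
    have h7 : ∑ d ∈ M.divisors.filter (fun d : ℕ => Squarefree d ∧ √(N : ℝ) < d), 1 / (d : ℝ) ≤ 1 / K ^ 3 := by
      refine le_trans (sum_le_sum_of_subset_of_nonneg ?_ fun _ _ _ => by positivity) htail
      intro d hd
      rw [mem_filter] at hd ⊢
      refine ⟨?_, hd.2⟩
      rw [Nat.mem_divisors] at hd ⊢
      exact ⟨hd.1.1.trans (Dvd.intro_left P hPM.symm), by omega⟩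
    refine (mul_le_mul_of_nonneg_left h7 hNpos.le).trans ?_
    have h8 : (1 / K) * ((N : ℝ) / W) / 4 = N * (1 / (4 * W * K)) := by
      field_simp
    rw [h8]
    refine mul_le_mul_of_nonneg_left ?_ hNpos.le
    refine one_div_le_one_div_of_le (by positivity) ?_
    have h9 : 4 * (W : ℝ) * K ≤ K * K := mul_le_mul_of_nonneg_right hKW hKp.le
    nlinarith [mul_pos hKp hKp]
  have h7 : (1 / K) * ((N : ℝ) / W) ≤ del N * (N / W) := mul_le_mul_of_nonneg_right hinv (by positivity)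
  have h8 : del N * ((N : ℝ) / W) ≤ del M * (N / W) := mul_le_mul_of_nonneg_right hdel (by positivity)
  have h9 : del N * (N : ℝ) / (2 * W) = del N * (N / W) / 2 := by
    field_simp
  rw [h9]
  linarith

end Pool.Agent.Lib.OA
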