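import Mathlib
import Pool.Agent.Lib.MP_7b7e48_nt.OA.ADOM
import Pool.Agent.Lib.MP_7b7e48_nt.OW.CHS

/-!
# Module ACHS (60 minutes): exceptions in a class; the reflection rule for the character; `c l = -1`

`aexc`: let `n ∈ Dom N W b N`, `lam n ≠ c n`: a prime `q ∣ n` has `c q = 1` (`OW.lam_ne`). If `q > N exp(-K^(1/30))`: at most `T` such `n` (hypothesis). Otherwise `n = q w`,
`w < y = N/q + 1`, `w` coprime to `N`, `y ≥ exp(K^(1/30))`: at most `2 del N (N/q + 1) ≤ 4 del N N/q` (`adom_up`); sum over `q ≤ W N`.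
`achs`: as `OW.chs` (`chi_refl`: the number `c (N - n) c n` is the same for all `n ∈ Dom N W a N`); one good `n` is enough:
`card Dom ≥ del N N/(2 W)` (`adom_low`), `lam n ≠ c n`: at most `card Zst ≤ del N N/(100 W)`; `lam (N-n) ≠ c (N-n)`: `N - n ∈ Dom N W (N-a) N`, at most
`4 σ del N N + T ≤ 5 del N N/(100 W)` (`aexc`, `b = N - a`); `n ∈ EA`: at most `del N N/(100 W)`.
`achl`: as `OW.chi_l` with `card UU ≥ del N N` (`UU_low`); the bijection `mr W N l` of `UU` needs `l` coprime to `W N`.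
-/

set_option autoImplicit false

open Finset
open Pool.Agent.Lib.MP_45349e_nt.LS (lam)

namespace Pool.Agent.Lib.OA

open Pool.Agent.Lib.OW
open Pool.Agent.Lib.RG (RC LV rr SS PB)

/-- elements of `Dom` -/
private theorem achs_dom {W N b : ℕ} (hb : b.Coprime W) (hN : 2 ≤ N) : ∀ n ∈ Dom N W b N,
    0 < n ∧ n < N ∧ n % W = b % W ∧ n.Coprime N ∧ n.Coprime (W * N) := by
  intro n hn
  unfold Dom at hn
  rw [mem_filter, mem_range] at hn
  obtain ⟨h1, h2, h3⟩ := hn
  have h0 : 0 < n := by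
    refine Nat.pos_of_ne_zero ?_
    rintro rfl
    rw [Nat.coprime_zero_left] at h3
    omega
  exact ⟨h0, h1, h2, h3, Nat.Coprime.mul_right (CHS.cop_of_mod hb h2) h3⟩

open Classical in
theorem aexc (W : ℕ) (hW : 1 ≤ W) : ∃ N0 : ℕ, ∀ N : ℕ, N0 ≤ N → ∀ b : ℕ, b.Coprime W → ∀ c : ℕ → ℝ, RC (W * N) c →
    (((Dom N W b N).filter fun n => lam n ≠ c n).card : ℝ) ≤ 4 * sQ c (W * N) * (del N * N) +
      (((Finset.Ico 1 (W * N)).filter fun n => ∃ q : ℕ, q.Prime ∧ c q = 1 ∧ q ∣ n ∧
        (N : ℝ) * Real.exp (-(Real.log N) ^ ((1 : ℝ) / 30)) < q).card : ℝ) := by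
  obtain ⟨N1, hN1⟩ := adom_up (1 / 30) (by norm_num) (by norm_num)
  refine ⟨max N1 2, fun N hN b hb c hc => ?_⟩
  rw [max_le_iff] at hN
  obtain ⟨hn1, hn2⟩ := hN
  have hN0 : 0 < N := by omega
  have hNR : (0 : ℝ) < N := by exact_mod_cast hN0
  have hdel : 0 < del N := del_pos (by omega)
  set K := Real.log (N : ℝ) with hK
  set Tf := (Finset.Ico 1 (W * N)).filter fun n => ∃ q : ℕ, q.Prime ∧ c q = 1 ∧ q ∣ n ∧
        (N : ℝ) * Real.exp (-K ^ ((1 : ℝ) / 30)) < q with hTf
  set Q := (QP c (W * N)).filter fun q : ℕ => (q : ℝ) ≤ (N : ℝ) * Real.exp (-K ^ ((1 : ℝ) / 30)) with hQ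
  have hsub : ((Dom N W b N).filter fun n => lam n ≠ c n) ⊆
      (Q.biUnion fun q => ((Finset.range (N / q + 1)).filter fun w => w.Coprime N).image fun w => q * w) ∪ Tf := by
    intro n hn
    rw [mem_filter] at hn
    obtain ⟨g0, g1, g2, g3, g4⟩ := achs_dom hb hn2 n hn.1
    obtain ⟨q, hq, hcq, hqn⟩ := lam_ne hc g0 g4 hn.2
    have hWN : N ≤ W * N := Nat.le_mul_of_pos_left N hW
    rw [mem_union]
    by_cases h1 : (q : ℝ) ≤ (N : ℝ) * Real.exp (-K ^ ((1 : ℝ) / 30))
    · left
      rw [mem_biUnion]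
      have hqN : q ≤ n := Nat.le_of_dvd g0 hqn
      refine ⟨q, ?_, ?_⟩
      · rw [hQ, mem_filter]
        refine ⟨?_, h1⟩
        unfold QP
        rw [mem_filter, mem_range]
        exact ⟨by omega, hq, hcq⟩
      · rw [mem_image]
        refine ⟨n / q, ?_, Nat.mul_div_cancel' hqn⟩
        rw [mem_filter, mem_range]
        refine ⟨?_, Nat.Coprime.coprime_dvd_left (Nat.div_dvd_of_dvd hqn) g3⟩
        have := Nat.div_le_div_right (c := q) g1.le
        omega
    · right
      rw [hTf, mem_filter, mem_Ico]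
      exact ⟨⟨g0, by omega⟩, q, hq, hcq, hqn, not_le.mp h1⟩
  have hcard : (((Dom N W b N).filter fun n => lam n ≠ c n).card : ℝ) ≤
      ∑ q ∈ Q, (((Finset.range (N / q + 1)).filter fun w => w.Coprime N).card : ℝ) + (Tf.card : ℝ) := by
    have h1 : ((Dom N W b N).filter fun n => lam n ≠ c n).card ≤
        ∑ q ∈ Q, ((Finset.range (N / q + 1)).filter fun w => w.Coprime N).card + Tf.card := by
      refine (card_le_card hsub).trans ((card_union_le _ _).trans (Nat.add_le_add_right ?_ _))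
      refine card_biUnion_le.trans (sum_le_sum fun q _ => card_image_le)
    exact_mod_cast h1
  refine hcard.trans (add_le_add_left ?_ _)
  have hq : ∀ q ∈ Q, (((Finset.range (N / q + 1)).filter fun w => w.Coprime N).card : ℝ) ≤
      4 * (1 / (q : ℝ)) * (del N * N) := by
    intro q hq
    rw [hQ, mem_filter] at hq
    have h1 := hq.1
    unfold QP at h1
    rw [mem_filter] at h1
    have hq0 : (0 : ℝ) < q := by exact_mod_cast h1.2.1.pos
    have hexp : Real.exp (-K ^ ((1 : ℝ) / 30)) ≤ 1 := by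
      rw [Real.exp_le_one_iff, neg_nonpos]
      exact Real.rpow_nonneg (Real.log_natCast_nonneg N) _
    have hqN : (q : ℝ) ≤ N := hq.2.trans (mul_le_of_le_one_right hNR.le hexp)
    have h2 : (N : ℝ) / q ≤ ((N / q + 1 : ℕ) : ℝ) := by
      rw [div_le_iff₀ hq0]
      have h3 := (Nat.lt_mul_div_succ N h1.2.1.pos).le
      rw [mul_comm] at h3
      exact_mod_cast h3
    have h3 : Real.exp (K ^ ((1 : ℝ) / 30)) ≤ ((N / q + 1 : ℕ) : ℝ) := by
      refine le_trans ?_ h2
      rw [le_div_iff₀ hq0]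
      calc Real.exp (K ^ ((1 : ℝ) / 30)) * q ≤
            Real.exp (K ^ ((1 : ℝ) / 30)) * ((N : ℝ) * Real.exp (-K ^ ((1 : ℝ) / 30))) :=
            mul_le_mul_of_nonneg_left hq.2 (Real.exp_pos _).le
        _ = (Real.exp (K ^ ((1 : ℝ) / 30)) * Real.exp (-K ^ ((1 : ℝ) / 30))) * N := by ring
        _ = N := by rw [← Real.exp_add, add_neg_cancel, Real.exp_zero, one_mul]
    have h4 := hN1 N hn1 (N / q + 1) h3
    refine h4.trans ?_
    have h5 : ((N / q + 1 : ℕ) : ℝ) ≤ 2 * ((N : ℝ) / q) := by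
      have h6 : ((N / q : ℕ) : ℝ) ≤ (N : ℝ) / q := Nat.cast_div_le
      have h7 : 1 ≤ (N : ℝ) / q := by rwa [one_le_div hq0]
      push_cast
      linarith
    calc 2 * del N * ((N / q + 1 : ℕ) : ℝ) ≤ 2 * del N * (2 * ((N : ℝ) / q)) :=
          mul_le_mul_of_nonneg_left h5 (by positivity)
      _ = 4 * (1 / (q : ℝ)) * (del N * N) := by ring
  refine (sum_le_sum hq).trans ?_
  rw [← sum_mul, ← mul_sum]
  refine mul_le_mul_of_nonneg_right (mul_le_mul_of_nonneg_left ?_ (by norm_num)) (by positivity)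
  unfold sQ
  exact sum_le_sum_of_subset_of_nonneg (filter_subset _ _) fun _ _ _ => by positivity

open Classical in
theorem achs (W : ℕ) (hW : 1 ≤ W) : ∃ N0 : ℕ, ∀ (N : ℕ) [NeZero (W * N)], N0 ≤ N → ∀ a : ℕ, Cf W N a →
    ∀ κ : ℝ, κ ^ 2 = 1 → ∀ χ : DirichletCharacter ℂ (W * N), χ ^ 2 = 1 → RC (W * N) (fun n => (χ (n : ZMod (W * N))).re) →
    ((Zst N W a (fun n => (χ (n : ZMod (W * N))).re) 1).card : ℝ) ≤ del N * N / (100 * W) →
    sQ (fun n => (χ (n : ZMod (W * N))).re) (W * N) ≤ 1 / (100 * W) →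
    (((Finset.Ico 1 (W * N)).filter fun n => ∃ q : ℕ, q.Prime ∧ (χ (q : ZMod (W * N))).re = 1 ∧ q ∣ n ∧
        (N : ℝ) * Real.exp (-(Real.log N) ^ ((1 : ℝ) / 30)) < q).card : ℝ) ≤ del N * N / (100 * W) →
    ((EA W N a κ).card : ℝ) ≤ del N * N / (100 * W) →
    (Dom N W a N).Nonempty ∧
    ∀ n ∈ Dom N W a N, (χ ((N - n : ℕ) : ZMod (W * N))).re = κ * (χ (n : ZMod (W * N))).re := by
  obtain ⟨N1, hN1⟩ := aexc W hW
  obtain ⟨N2, hN2⟩ := adom_low W hW
  refine ⟨max N1 (max N2 2), ?_⟩
  intro N _ hN a hc κ hκ χ hχ hRC hZ hQ hT hE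
  simp only [max_le_iff] at hN
  obtain ⟨hn1, hn2, hn3⟩ := hN
  set c : ℕ → ℝ := fun n => (χ (n : ZMod (W * N))).re with hcdef
  have hNpos : 0 < N := by omega
  have hNR : (0 : ℝ) < N := by exact_mod_cast hNpos
  have hW0 : (0 : ℝ) < W := by exact_mod_cast hW
  have hdel : 0 < del N := del_pos (by omega)
  have hWle : N ≤ W * N := Nat.le_mul_of_pos_left N hW
  have haN : a ≤ N := hc.alt.le.trans hc.WN
  -- facts on the elements of `Dom`
  have hDom : ∀ n ∈ Dom N W a N, 0 < n ∧ n < N ∧ n.Coprime (W * N) ∧ (N - n).Coprime (W * N) ∧ n % W = a % W ∧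
      n.Coprime N ∧ (N - n).Coprime N ∧ (N - n) % W = (N - a) % W := by
    intro n hn
    obtain ⟨g0, g1, g2, g3, g4⟩ := achs_dom hc.aW hn3 n hn
    have h5 : (N - n) % W = (N - a) % W := by
      have h6 : N - n + n ≡ N - a + a [MOD W] := by
        have e1 : N - n + n = N := by omega
        have e2 : N - a + a = N := by omega
        rw [e1, e2]
      have h7 : N - n ≡ N - a [MOD W] := Nat.ModEq.add_right_cancel g2 h6
      exact h7
    have h6 : (N - n).Coprime W := CHS.cop_of_mod hc.naW h5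
    have h7 : (N - n).Coprime N := (Nat.coprime_self_sub_left g1.le).2 g3
    exact ⟨g0, g1, g4, Nat.Coprime.mul_right h6 h7, g2, g3, h7, h5⟩
  -- the character is real
  have hreal : ∀ n : ℕ, n.Coprime (W * N) → χ (n : ZMod (W * N)) = ((c n : ℝ) : ℂ) := by
    intro n hn
    have h3 : IsUnit (n : ZMod (W * N)) := (ZMod.isUnit_iff_coprime n (W * N)).2 hn
    have h4 : (χ ^ 2) (n : ZMod (W * N)) = 1 := by
      rw [hχ]
      exact MulChar.one_apply h3
    rw [MulChar.pow_apply' χ two_ne_zero] at h4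
    rcases sq_eq_one_iff.1 h4 with h5 | h5
    · rw [hcdef]
      simp only [h5, Complex.one_re, Complex.ofReal_one]
    · rw [hcdef]
      simp only [h5, Complex.neg_re, Complex.one_re, Complex.ofReal_neg, Complex.ofReal_one]
  -- the three exceptional sets
  set D := Dom N W a N with hD
  set δ : ℝ := del N * N / (100 * W) with hδ
  have hδ0 : 0 < δ := by positivity
  have hDlow : 50 * δ ≤ (D.card : ℝ) := by
    have h1 := hN2 N hn2 a hc.aW
    rw [← hD] at h1
    refine le_trans (le_of_eq ?_) h1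
    rw [hδ]
    field_simp
    norm_num
  have hb1 : ((D.filter fun n => lam n ≠ c n).card : ℝ) ≤ δ := by
    refine le_trans ?_ hZ
    have : (D.filter fun n => lam n ≠ c n) ⊆ Zst N W a c 1 := by
      intro n hn
      rw [mem_filter, hD] at hn
      unfold Zst
      rw [mem_filter, one_mul]
      refine ⟨?_, hn.2⟩
      have h1 := hn.1
      unfold Dom at h1 ⊢
      rw [mem_filter, mem_range] at h1 ⊢
      exact ⟨lt_of_lt_of_le h1.1 hWle, h1.2⟩
    exact_mod_cast card_le_card this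
  have hb3 : ((D.filter fun n => n ∈ EA W N a κ).card : ℝ) ≤ δ := by
    refine le_trans ?_ hE
    have : (D.filter fun n => n ∈ EA W N a κ) ⊆ EA W N a κ := by
      intro n hn
      rw [mem_filter] at hn
      exact hn.2
    exact_mod_cast card_le_card this
  have hb2 : ((D.filter fun n => lam (N - n) ≠ c (N - n)).card : ℝ) ≤ 5 * δ := by
    have h1 := hN1 N hn1 (N - a) hc.naW c hRC
    have h2 : (D.filter fun n => lam (N - n) ≠ c (N - n)).card ≤
        ((Dom N W (N - a) N).filter fun n => lam n ≠ c n).card := by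
      refine card_le_card_of_injOn (fun n => N - n) ?_ ?_
      · intro n hn
        have hn2 : n ∈ D.filter fun n => lam (N - n) ≠ c (N - n) := hn
        rw [mem_filter] at hn2
        obtain ⟨g0, g1, g2, g3, g4, g5, g6, g7⟩ := hDom n hn2.1
        show N - n ∈ (Dom N W (N - a) N).filter fun n => lam n ≠ c n
        rw [mem_filter]
        refine ⟨?_, hn2.2⟩
        unfold Dom
        rw [mem_filter, mem_range]
        exact ⟨by omega, g7, g6⟩
      · intro n hn n' hn' hh
        have hn2 : n ∈ D.filter fun n => lam (N - n) ≠ c (N - n) := hn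
        have hn3 : n' ∈ D.filter fun n => lam (N - n) ≠ c (N - n) := hn'
        rw [mem_filter] at hn2 hn3
        have g1 := (hDom n hn2.1).2.1
        have g2 := (hDom n' hn3.1).2.1
        have : N - n = N - n' := hh
        omega
    have h3 : ((D.filter fun n => lam (N - n) ≠ c (N - n)).card : ℝ) ≤
        (((Dom N W (N - a) N).filter fun n => lam n ≠ c n).card : ℝ) := by exact_mod_cast h2
    refine h3.trans (h1.trans ?_)
    have h4 : 4 * sQ c (W * N) * (del N * N) ≤ 4 * δ := by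
      calc 4 * sQ c (W * N) * (del N * N) ≤ 4 * (1 / (100 * W)) * (del N * N) :=
            mul_le_mul_of_nonneg_right (mul_le_mul_of_nonneg_left hQ (by norm_num)) (by positivity)
        _ = 4 * δ := by
            rw [hδ]
            ring
    linarith
  -- one good element
  have hgood : ∃ n ∈ D, lam n = c n ∧ lam (N - n) = c (N - n) ∧ n ∉ EA W N a κ := by
    by_contra hno
    push Not at hno
    have h1 : D ⊆ ((D.filter fun n => lam n ≠ c n) ∪ (D.filter fun n => lam (N - n) ≠ c (N - n))) ∪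
        (D.filter fun n => n ∈ EA W N a κ) := by
      intro n hn
      rw [mem_union, mem_union, mem_filter, mem_filter, mem_filter]
      by_cases h2 : lam n = c n
      · by_cases h3 : lam (N - n) = c (N - n)
        · exact Or.inr ⟨hn, hno n hn h2 h3⟩
        · exact Or.inl (Or.inr ⟨hn, h3⟩)
      · exact Or.inl (Or.inl ⟨hn, h2⟩)
    have h2 : D.card ≤ (D.filter fun n => lam n ≠ c n).card + (D.filter fun n => lam (N - n) ≠ c (N - n)).card +
        (D.filter fun n => n ∈ EA W N a κ).card := by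
      calc D.card ≤ _ := card_le_card h1
        _ ≤ _ := card_union_le _ _
        _ ≤ _ := Nat.add_le_add_right (card_union_le _ _) _
    have h3 : (D.card : ℝ) ≤ ((D.filter fun n => lam n ≠ c n).card : ℝ) + ((D.filter fun n => lam (N - n) ≠ c (N - n)).card : ℝ) +
        ((D.filter fun n => n ∈ EA W N a κ).card : ℝ) := by exact_mod_cast h2
    linarith
  obtain ⟨n, hn, hn1', hn2', hn3'⟩ := hgood
  refine ⟨⟨n, hn⟩, ?_⟩
  intro m hm
  obtain ⟨g0, g1, g2, g3, g4, g5, -, -⟩ := hDom n hn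
  obtain ⟨m0, m1, m2, m3, m4, m5, -, -⟩ := hDom m hm
  have hκn : lam (N - n) = κ * lam n := by
    by_contra hne
    apply hn3'
    unfold EA
    rw [mem_filter, mem_Ioo]
    exact ⟨⟨g0, g1⟩, g4, hne⟩
  have hcn : c (N - n) = κ * c n := by rw [← hn2', hκn, hn1']
  have hrefl := chi_refl N W χ hχ m n m1.le g1.le (show m % W = n % W by rw [m4, g4]) m2 g2
  rw [hreal _ m2, hreal _ m3, hreal _ g2, hreal _ g3] at hrefl
  have hrefl2 : c (N - m) * c m = c (N - n) * c n := by exact_mod_cast hrefl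
  have hcn2 : c n * c n = 1 := by
    rcases hRC.val n g2 with h | h <;> rw [h] <;> norm_num
  have hcm2 : c m * c m = 1 := by
    rcases hRC.val m m2 with h | h <;> rw [h] <;> norm_num
  show c (N - m) = κ * c m
  calc c (N - m) = c (N - m) * (c m * c m) := by rw [hcm2, mul_one]
    _ = (c (N - m) * c m) * c m := by ring
    _ = (κ * c n * c n) * c m := by rw [hrefl2, hcn]
    _ = κ * (c n * c n) * c m := by ring
    _ = κ * c m := by rw [hcn2, mul_one]

open Classical in
theorem achl (W : ℕ) (hW : 1 ≤ W) : ∃ N0 : ℕ, ∀ N : ℕ, N0 ≤ N → ∀ a : ℕ, Cf W N a → ∀ c : ℕ → ℝ, RC (W * N) c →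
    ((Zst N W a c 1).card : ℝ) ≤ del N * N / 8 → ∀ l : ℕ, l.Prime → l % W = 1 % W → l.Coprime (W * N) →
    (((UU W N a).filter fun x => lam (mr W N l x) ≠ -lam x).card : ℝ) ≤ del N * N / 8 → c l = -1 := by
  refine ⟨2, ?_⟩
  intro N hN a hc c hRC hZ l hl hlW hlc hB
  have hNpos : 0 < N := by omega
  have hNR : (0 : ℝ) < N := by exact_mod_cast hNpos
  have hWN : 0 < W * N := Nat.mul_pos hW hNpos
  have hdel : 0 < del N := del_pos (by omega)
  have hUU : ∀ x, x ∈ UU W N a ↔ x < W * N ∧ x % W = a % W ∧ x.Coprime N := by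
    intro x
    unfold UU
    rw [mem_filter, mem_range]
  have hmap : ∀ x ∈ UU W N a, mr W N l x ∈ UU W N a := by
    intro x hx
    rw [hUU] at hx ⊢
    unfold mr
    refine ⟨Nat.mod_lt _ hWN, ?_, ?_⟩
    · rw [Nat.mod_mul_right_mod, Nat.mul_mod, hlW, ← Nat.mul_mod, one_mul]
      exact hx.2.1
    · have h1 : (l * x % (W * N)) % N = (l * x) % N := by
        rw [Nat.mod_mul_left_mod]
      have h2 : (l * x).Coprime N := Nat.Coprime.mul_left (Nat.Coprime.coprime_mul_left_right hlc) hx.2.2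
      exact CHS.cop_of_mod h2 h1
  have hcop : ∀ x ∈ UU W N a, x.Coprime (W * N) := by
    intro x hx
    rw [hUU] at hx
    exact Nat.Coprime.mul_right (CHS.cop_of_mod hc.aW hx.2.1) hx.2.2
  have hinj : Set.InjOn (fun x => mr W N l x) (UU W N a : Set ℕ) := by
    intro x hx y hy hxy
    have hx' := (hUU x).1 hx
    have hy' := (hUU y).1 hy
    have h1 : l * x ≡ l * y [MOD (W * N)] := hxy
    have h2 : x ≡ y [MOD (W * N)] := Nat.ModEq.cancel_left_of_coprime (by rw [Nat.gcd_comm]; exact hlc) h1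
    have h3 : x % (W * N) = y % (W * N) := h2
    rwa [Nat.mod_eq_of_lt hx'.1, Nat.mod_eq_of_lt hy'.1] at h3
  have hb2 : ((UU W N a).filter fun x => lam x ≠ c x).card ≤ (Zst N W a c 1).card := by
    refine card_le_card ?_
    intro x hx
    rw [mem_filter, hUU] at hx
    unfold Zst Dom
    rw [mem_filter, mem_filter, mem_range, one_mul]
    exact ⟨⟨hx.1.1, hx.1.2.1, hx.1.2.2⟩, hx.2⟩
  have hb3 : ((UU W N a).filter fun x => lam (mr W N l x) ≠ c (mr W N l x)).card ≤
      ((UU W N a).filter fun x => lam x ≠ c x).card := by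
    refine card_le_card_of_injOn (fun x => mr W N l x) ?_ ?_
    · intro x hx
      have hx2 : x ∈ (UU W N a).filter fun x => lam (mr W N l x) ≠ c (mr W N l x) := hx
      rw [mem_filter] at hx2
      show mr W N l x ∈ (UU W N a).filter fun x => lam x ≠ c x
      rw [mem_filter]
      exact ⟨hmap x hx2.1, hx2.2⟩
    · intro x hx y hy hxy
      have hx2 : x ∈ (UU W N a).filter fun x => lam (mr W N l x) ≠ c (mr W N l x) := hx
      have hy2 : y ∈ (UU W N a).filter fun x => lam (mr W N l x) ≠ c (mr W N l x) := hy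
      exact hinj (mem_filter.1 hx2).1 (mem_filter.1 hy2).1 hxy
  have hgood : ∃ x ∈ UU W N a, lam (mr W N l x) = -lam x ∧ lam x = c x ∧ lam (mr W N l x) = c (mr W N l x) := by
    by_contra hno
    push Not at hno
    have h1 : UU W N a ⊆ (((UU W N a).filter fun x => lam (mr W N l x) ≠ -lam x) ∪ ((UU W N a).filter fun x => lam x ≠ c x)) ∪
        ((UU W N a).filter fun x => lam (mr W N l x) ≠ c (mr W N l x)) := by
      intro x hx
      rw [mem_union, mem_union, mem_filter, mem_filter, mem_filter]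
      by_cases h2 : lam (mr W N l x) = -lam x
      · by_cases h3 : lam x = c x
        · exact Or.inr ⟨hx, hno x hx h2 h3⟩
        · exact Or.inl (Or.inr ⟨hx, h3⟩)
      · exact Or.inl (Or.inl ⟨hx, h2⟩)
    have h2 : (UU W N a).card ≤ ((UU W N a).filter fun x => lam (mr W N l x) ≠ -lam x).card +
        ((UU W N a).filter fun x => lam x ≠ c x).card + ((UU W N a).filter fun x => lam (mr W N l x) ≠ c (mr W N l x)).card := by
      calc (UU W N a).card ≤ _ := card_le_card h1
        _ ≤ _ := card_union_le _ _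
        _ ≤ _ := Nat.add_le_add_right (card_union_le _ _) _
    have h3 : ((UU W N a).card : ℝ) ≤ (((UU W N a).filter fun x => lam (mr W N l x) ≠ -lam x).card : ℝ) +
        (((UU W N a).filter fun x => lam x ≠ c x).card : ℝ) +
        (((UU W N a).filter fun x => lam (mr W N l x) ≠ c (mr W N l x)).card : ℝ) := by exact_mod_cast h2
    have h4 : (((UU W N a).filter fun x => lam x ≠ c x).card : ℝ) ≤ del N * N / 8 :=
      le_trans (by exact_mod_cast hb2) hZ
    have h5 : (((UU W N a).filter fun x => lam (mr W N l x) ≠ c (mr W N l x)).card : ℝ) ≤ del N * N / 8 :=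
      le_trans (by exact_mod_cast hb3) h4
    have h6 : del N * N ≤ ((UU W N a).card : ℝ) := UU_low hW (by omega) hc.aW
    have h7 : 0 < del N * N := by positivity
    linarith
  obtain ⟨x, hx, hx1, hx2, hx3⟩ := hgood
  have h1 : c (mr W N l x) = c l * c x := by
    unfold mr
    rw [CHS.per_mod hRC, hRC.mul]
  have h2 : c l * c x = -c x := by rw [← h1, ← hx3, hx1, hx2]
  have h3 : c x ≠ 0 := by
    rcases hRC.val x (hcop x hx) with h | h <;> rw [h] <;> norm_num
  have h4 : (c l + 1) * c x = 0 := by linarith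
  rcases mul_eq_zero.1 h4 with h5 | h5
  · linarith
  · exact absurd h5 h3

end Pool.Agent.Lib.OA
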