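import Mathlib
import Pool.Agent.Lib.MP_7b7e48_nt.OA.ADef
import Pool.Agent.Lib.MP_7b7e48_nt.OW.T1

/-!
# Module AES1 (35 minutes): the exceptional set is small if there are few representations

`aes`: let `M` be the class `{0 < n < N, n ≡ a}`, `P_{x,y} = #{n ∈ M : lam n = x, lam (N-n) = y}`, `κ = -(s t)`: `EA` consists of the `n` with `lam n lam (N-n) = s t`, so
`card EA = P_{s,t} + P_{-s,-t}`. `P_{s,t} ≤ card repA + 1` (`n = N - n` for at most one `n`). `∑_M lam n = s (P_{s,t} + P_{s,-t} - P_{-s,t} - P_{-s,-t})`,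
`∑_M lam (N-n) = t (P_{s,t} - P_{s,-t} + P_{-s,t} - P_{-s,-t})`: `s S1 + t S2 = 2 (P_{s,t} - P_{-s,-t})`, so `P_{-s,-t} ≤ P_{s,t} + (|S1| + |S2|)/2`; and `S2 = ∑_{m ≡ N - a} lam m`
(`m = N - n`).
`alam1`: `OW.lam_class` with `Y = N - 1` (`A + 1`; `log Y ≥ K/2`).
-/

set_option autoImplicit false

open Finset
open Pool.Agent.Lib.MP_45349e_nt.LS (lam)

namespace Pool.Agent.Lib.OA

open Pool.Agent.Lib.OW
open Pool.Agent.Lib.RG (RC LV rr SS PB)

private theorem aes_pm (n : ℕ) : lam n = 1 ∨ lam n = -1 := by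
  have h := Pool.Agent.Lib.MP_45349e_nt.LS.abs_lam n
  rcases abs_cases (lam n) with h1 | h1
  · left; linarith
  · right; linarith

private theorem aes_refl {N W a n : ℕ} (haN : a ≤ N)
    (h : n ∈ (Finset.Ioo 0 N).filter (fun n => n % W = a % W)) :
    N - n ∈ (Finset.Ioo 0 N).filter (fun n => n % W = (N - a) % W) := by
  rw [mem_filter, mem_Ioo] at h ⊢
  obtain ⟨⟨h1, h2⟩, h3⟩ := h
  refine ⟨⟨by omega, by omega⟩, ?_⟩
  have h3' : n ≡ a [MOD W] := h3
  have h4 : N - n + n ≡ N - a + a [MOD W] := by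
    rw [Nat.sub_add_cancel h2.le, Nat.sub_add_cancel haN]
  exact Nat.ModEq.add_right_cancel h3' h4

private theorem aes_sum {N W a : ℕ} (haN : a ≤ N) :
    ∑ n ∈ (Finset.Ioo 0 N).filter (fun n => n % W = a % W), lam (N - n) =
      ∑ n ∈ (Finset.Ioo 0 N).filter (fun n => n % W = (N - a) % W), lam n := by
  refine Finset.sum_nbij' (fun n => N - n) (fun n => N - n) ?_ ?_ ?_ ?_ ?_
  · intro n hn
    exact aes_refl haN hn
  · intro n hn
    have h := aes_refl (Nat.sub_le _ _) hn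
    rw [Nat.sub_sub_self haN] at h
    exact h
  · intro n hn
    exact Nat.sub_sub_self (mem_Ioo.1 (mem_filter.1 hn).1).2.le
  · intro n hn
    exact Nat.sub_sub_self (mem_Ioo.1 (mem_filter.1 hn).1).2.le
  · intro n _
    rfl

theorem aes {W N a : ℕ} (hW : 1 ≤ W) (haN : a ≤ N) (s t : ℝ) (hs : s = 1 ∨ s = -1) (ht : t = 1 ∨ t = -1) :
    ((EA W N a (-(s * t))).card : ℝ) ≤ 2 * ((repA W N a s t).card : ℝ) + 2 +
      |∑ n ∈ (Finset.Ioo 0 N).filter (fun n => n % W = a % W), lam n| +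
      |∑ n ∈ (Finset.Ioo 0 N).filter (fun n => n % W = (N - a) % W), lam n| := by
  classical
  obtain ⟨U, hU⟩ : ∃ U : Finset ℕ, U = (Finset.Ioo 0 N).filter (fun n => n % W = a % W) := ⟨_, rfl⟩
  obtain ⟨A, hA⟩ : ∃ A : Finset ℕ, A = U.filter (fun n => lam n = s ∧ lam (N - n) = t) := ⟨_, rfl⟩
  obtain ⟨B, hB⟩ : ∃ B : Finset ℕ, B = U.filter (fun n => lam n = -s ∧ lam (N - n) = -t) := ⟨_, rfl⟩
  have hEAB : EA W N a (-(s * t)) ⊆ A ∪ B := by
    intro n hn
    unfold EA at hn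
    rw [mem_filter] at hn
    obtain ⟨h1, h2, h3⟩ := hn
    have hnU : n ∈ U := by
      rw [hU, mem_filter]
      exact ⟨h1, h2⟩
    rw [Finset.mem_union, hA, hB, Finset.mem_filter, Finset.mem_filter]
    rcases hs with rfl | rfl <;> rcases ht with rfl | rfl <;> rcases aes_pm n with h5 | h5 <;>
      rcases aes_pm (N - n) with h6 | h6 <;> rw [h5, h6] at h3 ⊢ <;>
      first
        | (exfalso; apply h3; norm_num; done)
        | (left; refine ⟨hnU, ?_, ?_⟩ <;> norm_num; done)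
        | (right; refine ⟨hnU, ?_, ?_⟩ <;> norm_num; done)
  have hAr : A.card ≤ (repA W N a s t).card + 1 := by
    have h1 : A ⊆ repA W N a s t ∪ {N / 2} := by
      intro n hn
      rw [hA, hU, mem_filter, mem_filter] at hn
      obtain ⟨⟨h1, h2⟩, h3, h4⟩ := hn
      rw [mem_union, mem_singleton]
      by_cases h5 : n = N - n
      · right
        rw [mem_Ioo] at h1
        omega
      · left
        unfold repA
        rw [mem_filter]
        exact ⟨h1, h5, h2, h3, h4⟩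
    exact (card_le_card h1).trans ((card_union_le _ _).trans (by rw [card_singleton]))
  have hsum : ∑ n ∈ U, (s * lam n + t * lam (N - n)) = 2 * (A.card : ℝ) - 2 * (B.card : ℝ) := by
    have hpt : ∀ n ∈ U, s * lam n + t * lam (N - n) =
        (if lam n = s ∧ lam (N - n) = t then (2 : ℝ) else 0) -
        (if lam n = -s ∧ lam (N - n) = -t then (2 : ℝ) else 0) := by
      intro n _
      rcases hs with rfl | rfl <;> rcases ht with rfl | rfl <;> rcases aes_pm n with h5 | h5 <;>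
        rcases aes_pm (N - n) with h6 | h6 <;> rw [h5, h6] <;> norm_num
    rw [Finset.sum_congr rfl hpt, Finset.sum_sub_distrib, ← Finset.sum_filter, ← Finset.sum_filter,
      Finset.sum_const, Finset.sum_const, nsmul_eq_mul, nsmul_eq_mul, ← hA, ← hB]
    ring
  have hsum2 : ∑ n ∈ U, (s * lam n + t * lam (N - n)) =
      s * ∑ n ∈ (Finset.Ioo 0 N).filter (fun n => n % W = a % W), lam n +
      t * ∑ n ∈ (Finset.Ioo 0 N).filter (fun n => n % W = (N - a) % W), lam n := by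
    rw [Finset.sum_add_distrib, ← Finset.mul_sum, ← Finset.mul_sum, hU, aes_sum haN]
  obtain ⟨X, hX⟩ : ∃ X : ℝ, X = ∑ n ∈ (Finset.Ioo 0 N).filter (fun n => n % W = a % W), lam n :=
    ⟨_, rfl⟩
  obtain ⟨Y, hY⟩ : ∃ Y : ℝ, Y =
      ∑ n ∈ (Finset.Ioo 0 N).filter (fun n => n % W = (N - a) % W), lam n := ⟨_, rfl⟩
  rw [← hX, ← hY] at hsum2 ⊢
  have h1 : 2 * (A.card : ℝ) - 2 * (B.card : ℝ) = s * X + t * Y := by rw [← hsum, hsum2]
  have hx1 := neg_abs_le X
  have hx2 := le_abs_self X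
  have hy1 := neg_abs_le Y
  have hy2 := le_abs_self Y
  have h2 : -(|X| + |Y|) ≤ s * X + t * Y := by
    rcases hs with rfl | rfl <;> rcases ht with rfl | rfl <;> linarith
  have h3 : ((EA W N a (-(s * t))).card : ℝ) ≤ (A.card : ℝ) + B.card := by
    exact_mod_cast (card_le_card hEAB).trans (card_union_le _ _)
  have h4 : (A.card : ℝ) ≤ ((repA W N a s t).card : ℝ) + 1 := by exact_mod_cast hAr
  have h5 := abs_nonneg X
  have h6 := abs_nonneg Y
  linarith

theorem alam1 (W : ℕ) (hW : 1 ≤ W) (A : ℕ) : ∃ N0 : ℕ, ∀ N : ℕ, N0 ≤ N → ∀ a : ℕ,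
    |∑ n ∈ (Finset.Ioo 0 N).filter (fun n => n % W = a % W), lam n| ≤ N / (Real.log N) ^ A := by
  obtain ⟨C, hC, h⟩ := lam_class W hW (A + 1)
  obtain ⟨N1, hN1⟩ := Filter.eventually_atTop.mp
    ((Real.tendsto_log_atTop.comp tendsto_natCast_atTop_atTop).eventually_ge_atTop
      (C * 2 ^ (A + 1)))
  refine ⟨max 4 N1, fun N hN a => ?_⟩
  have hN4 : 4 ≤ N := (le_max_left _ _).trans hN
  have hlog : C * 2 ^ (A + 1) ≤ Real.log N := hN1 N ((le_max_right _ _).trans hN)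
  have h1 := h a (N - 1) (by omega)
  have hset : (Finset.Ioo 0 N).filter (fun n => n % W = a % W) =
      (Finset.Icc 1 (N - 1)).filter (fun n => n ≡ a [MOD W]) := by
    ext n
    rw [mem_filter, mem_filter, mem_Ioo, mem_Icc]
    constructor
    · rintro ⟨⟨h2, h3⟩, h4⟩
      exact ⟨⟨h2, by omega⟩, h4⟩
    · rintro ⟨⟨h2, h3⟩, h4⟩
      exact ⟨⟨h2, by omega⟩, h4⟩
  rw [hset]
  refine h1.trans ?_
  have hN4' : (4 : ℝ) ≤ N := by exact_mod_cast hN4
  have hN0 : (0 : ℝ) < N := by linarith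
  have hc : ((N - 1 : ℕ) : ℝ) = (N : ℝ) - 1 := by
    rw [Nat.cast_sub (by omega)]
    norm_num
  have hL0 : 0 < Real.log N := Real.log_pos (by linarith)
  have hL : Real.log N / 2 ≤ Real.log ((N - 1 : ℕ) : ℝ) := by
    rw [hc, ← Real.log_sqrt hN0.le]
    apply Real.log_le_log (Real.sqrt_pos.2 hN0)
    rw [Real.sqrt_le_left (by linarith)]
    nlinarith
  have hL1 : 0 < Real.log ((N - 1 : ℕ) : ℝ) := by linarith
  rw [div_le_div_iff₀ (by positivity) (by positivity)]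
  calc C * ((N - 1 : ℕ) : ℝ) * Real.log N ^ A ≤ C * N * Real.log N ^ A := by
        rw [hc]
        gcongr
        linarith
    _ = N * (C * 2 ^ (A + 1)) * (Real.log N ^ A / 2 ^ (A + 1)) := by
        field_simp
    _ ≤ N * Real.log N * (Real.log N ^ A / 2 ^ (A + 1)) := by gcongr
    _ = N * (Real.log N / 2) ^ (A + 1) := by
        rw [div_pow, pow_succ (Real.log N)]
        ring
    _ ≤ N * Real.log ((N - 1 : ℕ) : ℝ) ^ (A + 1) := by gcongr

end Pool.Agent.Lib.OA
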