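import Pool.Agent.Lib.MP_7b7e48_nt.OA.ANSM
import Pool.Agent.Lib.MP_7b7e48_nt.OW.U4

/-!
# Module AES2 (60 minutes): the sum of `lam` over a whole class, relative to `sQ`

Every `n < N` in the class `a` (coprime to `W`) is uniquely `h w`, `h` = `N`-part, `w` coprime to `N`; `w ≡ a h^(-1) (mod W)`; `lam n = lam h lam w`. The `n` with `h > N^(1/10)`: `nsm_card`,
`N^(24/25) ≤ sQ N^(1/50) N^(24/25) ≤ sQ N/(2 K^A)`. For `h ≤ N^(1/10)`: the `w` are the elements of `Dom N W b y`, `y = (N-1)/h + 1` (`h w < N`), `N^(9/10) ≤ y ≤ N`: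
`|∑ lam w| ≤ sQ y/K^(A+3)` (`OW.lam_small`), `y ≤ 2 N/h`, `∑_h 1/h ≤ 1/del N ≤ K` (`nsm_sum`, `NumA.d1`).
-/

set_option autoImplicit false

open Finset
open Pool.Agent.Lib.MP_45349e_nt.LS (lam)

namespace Pool.Agent.Lib.OA

open Pool.Agent.Lib.OW
open Pool.Agent.Lib.RG (RC LV rr SS PB)

private theorem lam_abs (n : ℕ) : |lam n| = 1 := by
  unfold Pool.Agent.Lib.MP_45349e_nt.LS.lam
  rw [abs_pow, abs_neg, abs_one, one_pow]

private theorem fib_eq {N W a b h : ℕ} (hN : 2 ≤ N) (hh1 : 1 ≤ h) (hhs : h.primeFactors ⊆ N.primeFactors)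
    (hhW : h.Coprime W) (hb : h * b ≡ a [MOD W]) :
    ((Finset.Ioo 0 N).filter (fun n => n % W = a % W)).filter (fun n => npart N n = h) =
      (Dom N W b ((N - 1) / h + 1)).image (fun w => h * w) := by
  have hN0 : N ≠ 0 := by omega
  ext n
  rw [mem_filter, mem_filter, mem_Ioo, mem_image]
  constructor
  · rintro ⟨⟨⟨hn0, hnN⟩, hna⟩, hnp⟩
    have hn : n ≠ 0 := by omega
    have e := npart_mul (N := N) hn
    rw [hnp] at e
    refine ⟨_, ?_, e⟩
    set w := ∏ p ∈ n.primeFactors.filter (fun p => ¬ p ∣ N), p ^ n.factorization p with hw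
    unfold Dom
    rw [mem_filter, mem_range]
    refine ⟨?_, ?_, npart_cop⟩
    · have h1 : w * h ≤ N - 1 := by
        rw [mul_comm, e]
        omega
      have h2 := (Nat.le_div_iff_mul_le hh1).mpr h1
      omega
    · have h1 : h * w ≡ h * b [MOD W] := by
        rw [e]
        exact (Nat.ModEq.trans (show n ≡ a [MOD W] from hna) hb.symm)
      exact Nat.ModEq.cancel_left_of_coprime (Nat.coprime_iff_gcd_eq_one.mp hhW.symm) h1
  · rintro ⟨w, hw, rfl⟩
    unfold Dom at hw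
    rw [mem_filter, mem_range] at hw
    obtain ⟨hwy, hwb, hwN⟩ := hw
    have hw0 : w ≠ 0 := by
      rintro rfl
      rw [Nat.coprime_zero_left] at hwN
      omega
    have hn0 : h * w ≠ 0 := mul_ne_zero (by omega) hw0
    refine ⟨⟨⟨Nat.pos_of_ne_zero hn0, ?_⟩, ?_⟩, npart_unique hN0 hn0 hhs hwN rfl⟩
    · have h1 : w ≤ (N - 1) / h := by omega
      have h2 := (Nat.le_div_iff_mul_le hh1).mp h1
      rw [mul_comm]
      omega
    · exact (Nat.ModEq.mul_left h hwb).trans hb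

theorem alam2 (W : ℕ) (hW : 1 ≤ W) (A : ℕ) : ∃ N0 : ℕ, ∀ (N : ℕ) [NeZero (W * N)], N0 ≤ N →
    ∀ χ : DirichletCharacter ℂ (W * N), χ ^ 2 = 1 →
    (∃ m : ℕ, m ≡ 1 [MOD W] ∧ m.Coprime (W * N) ∧ χ (m : ZMod (W * N)) ≠ 1) →
    sQ (fun n => (χ (n : ZMod (W * N))).re) (W * N) ≤ 1 →
    (N : ℝ) ^ (-(1 / 50) : ℝ) ≤ sQ (fun n => (χ (n : ZMod (W * N))).re) (W * N) → ∀ a : ℕ, a.Coprime W →
    |∑ n ∈ (Finset.Ioo 0 N).filter (fun n => n % W = a % W), lam n| ≤
      sQ (fun n => (χ (n : ZMod (W * N))).re) (W * N) * N / (Real.log N) ^ A := by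
  classical
  obtain ⟨N1, h1⟩ := lam_small W hW (A + 3)
  obtain ⟨N2, h2⟩ := nsm_card
  obtain ⟨N3, h3⟩ := numA
  obtain ⟨N4, h4⟩ := pow_lt (50 * ((A : ℝ) + 1))
  refine ⟨max (max N1 N2) (max (max N3 N4) 2), ?_⟩
  intro N _ hN χ hχ hm hs1 hs2 a ha
  have hN1 : N1 ≤ N := (le_trans (le_max_left _ _) (le_max_left _ _)).trans hN
  have hN2 : N2 ≤ N := (le_trans (le_max_right _ _) (le_max_left _ _)).trans hN
  have hN3 : N3 ≤ N := (le_trans (le_trans (le_max_left _ _) (le_max_left _ _)) (le_max_right _ _)).trans hN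
  have hN4 : N4 ≤ N := (le_trans (le_trans (le_max_right _ _) (le_max_left _ _)) (le_max_right _ _)).trans hN
  have hNt : 2 ≤ N := (le_trans (le_max_right _ _) (le_max_right _ _)).trans hN
  have hNu := h3 N hN3
  have hK := hNu.K
  have hd1 := hNu.d1
  set K := Real.log N with hKdef
  set σ := sQ (fun n => (χ (n : ZMod (W * N))).re) (W * N) with hσ
  have hNr : (2 : ℝ) ≤ N := by exact_mod_cast hNt
  have hN0 : (0 : ℝ) < N := by linarith
  have hσ0 : 0 < σ := lt_of_lt_of_le (Real.rpow_pos_of_pos hN0 _) hs2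
  have hK0 : 0 < K := by linarith
  have hdel : 0 < del N := by
    by_contra hneg
    push Not at hneg
    have : K * del N ≤ 0 := mul_nonpos_of_nonneg_of_nonpos hK0.le hneg
    linarith
  have hdK : 1 / del N ≤ K := by
    rw [div_le_iff₀ hdel]
    exact hd1
  set H : ℝ := (N : ℝ) ^ ((1 : ℝ) / 10) with hH
  set S := (Finset.Ioo 0 N).filter (fun n => n % W = a % W) with hS
  have hsplit : ∑ n ∈ S, lam n = ∑ n ∈ S with (H < (npart N n : ℝ)), lam n +
      ∑ n ∈ S with ¬ (H < (npart N n : ℝ)), lam n := (Finset.sum_filter_add_sum_filter_not S _ _).symm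
  -- large N-part
  have hbig : |∑ n ∈ S with (H < (npart N n : ℝ)), lam n| ≤ (N : ℝ) ^ ((24 : ℝ) / 25) := by
    calc |∑ n ∈ S with (H < (npart N n : ℝ)), lam n| ≤ ∑ n ∈ S with (H < (npart N n : ℝ)), |lam n| :=
          Finset.abs_sum_le_sum_abs _ _
      _ = ((S.filter fun n => H < (npart N n : ℝ)).card : ℝ) := by
          rw [Finset.sum_congr rfl fun n _ => lam_abs n, Finset.sum_const, nsmul_eq_mul, mul_one]
      _ ≤ (((Finset.Ioo 0 N).filter fun n => H < (npart N n : ℝ)).card : ℝ) := by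
          exact_mod_cast card_le_card (filter_subset_filter _ (filter_subset _ _))
      _ ≤ (N : ℝ) ^ ((24 : ℝ) / 25) := h2 N hN2
  -- small N-part
  set Hs : Finset ℕ := (Finset.Icc 1 N).filter (fun h : ℕ => h.primeFactors ⊆ N.primeFactors ∧ (h : ℝ) ≤ H) with hHs
  have hmaps : ∀ n ∈ S.filter (fun n => ¬ (H < (npart N n : ℝ))), npart N n ∈ Hs := by
    intro n hn
    rw [mem_filter, hS, mem_filter, mem_Ioo] at hn
    obtain ⟨⟨⟨hn0, hnN⟩, _⟩, hn2⟩ := hn
    rw [hHs, mem_filter, mem_Icc]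
    refine ⟨⟨npart_pos, ?_⟩, npart_primeFactors (by omega), not_lt.mp hn2⟩
    exact (Nat.le_of_dvd hn0 (npart_dvd (by omega))).trans hnN.le
  have hfib : ∑ n ∈ S with ¬ (H < (npart N n : ℝ)), lam n =
      ∑ h ∈ Hs, ∑ n ∈ (S.filter (fun n => ¬ (H < (npart N n : ℝ)))).filter (fun n => npart N n = h), lam n :=
    (Finset.sum_fiberwise_of_maps_to hmaps _).symm
  have hone : ∀ h ∈ Hs, |∑ n ∈ (S.filter (fun n => ¬ (H < (npart N n : ℝ)))).filter (fun n => npart N n = h), lam n| ≤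
      σ * (2 * N) / K ^ (A + 3) * (1 / (h : ℝ)) := by
    intro h hh
    rw [hHs, mem_filter, mem_Icc] at hh
    obtain ⟨⟨hh1, hhN⟩, hhs, hhH⟩ := hh
    have hhr : (0 : ℝ) < h := by exact_mod_cast hh1
    have hset : (S.filter (fun n => ¬ (H < (npart N n : ℝ)))).filter (fun n => npart N n = h) =
        S.filter (fun n => npart N n = h) := by
      ext n
      constructor
      · intro h0
        have h5 := mem_filter.mp h0
        exact mem_filter.mpr ⟨(mem_filter.mp h5.1).1, h5.2⟩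
      · intro h0
        have h5 := mem_filter.mp h0
        exact mem_filter.mpr ⟨mem_filter.mpr ⟨h5.1, by rw [h5.2]; exact not_lt.mpr hhH⟩, h5.2⟩
    rw [hset]
    by_cases hhW : h.Coprime W
    · -- the class of w
      set b := h ^ (W.totient - 1) * a with hb
      have hbW : b.Coprime W := Nat.Coprime.mul_left (Nat.Coprime.pow_left _ hhW) ha
      have hba : h * b ≡ a [MOD W] := by
        have htot : 0 < W.totient := Nat.totient_pos.mpr hW
        have h5 : h * b = h ^ W.totient * a := by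
          rw [hb, ← mul_assoc, ← pow_succ', Nat.sub_add_cancel htot]
        rw [h5]
        have h6 := (Nat.ModEq.pow_totient hhW).mul_right a
        rwa [one_mul] at h6
      rw [hS, fib_eq hNt hh1 hhs hhW hba]
      rw [Finset.sum_image (fun x _ y _ hxy => Nat.eq_of_mul_eq_mul_left hh1 hxy)]
      set y := (N - 1) / h + 1 with hy
      have hsum : ∑ w ∈ Dom N W b y, lam (h * w) = lam h * ∑ w ∈ Dom N W b y, lam w := by
        rw [Finset.mul_sum]
        refine Finset.sum_congr rfl fun w hw => ?_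
        apply Pool.Agent.Lib.MP_45349e_nt.LS.lam_mul h w (by omega)
        rintro rfl
        unfold Dom at hw
        rw [mem_filter] at hw
        have h7 := hw.2.2
        rw [Nat.coprime_zero_left] at h7
        omega
      rw [hsum, abs_mul, lam_abs, one_mul]
      have hdm := Nat.div_add_mod (N - 1) h
      have hml := Nat.mod_lt (N - 1) (show h > 0 from hh1)
      have hyh : N ≤ y * h := by
        have : y * h = h * ((N - 1) / h) + h := by rw [hy]; ring
        omega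
      have hyh2 : y * h ≤ 2 * N := by
        have : y * h = h * ((N - 1) / h) + h := by rw [hy]; ring
        omega
      have hyN : y ≤ N := by
        have : (N - 1) / h ≤ N - 1 := Nat.div_le_self _ _
        omega
      have hyr : (N : ℝ) ≤ y * h := by exact_mod_cast hyh
      have hyr2 : (y : ℝ) * h ≤ 2 * N := by exact_mod_cast hyh2
      have hy9 : (N : ℝ) ^ ((9 : ℝ) / 10) ≤ y := by
        have hH0 : 0 < H := Real.rpow_pos_of_pos hN0 _
        have h8 : (N : ℝ) ^ ((9 : ℝ) / 10) * H = N := by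
          rw [hH, ← Real.rpow_add hN0]
          norm_num
        have h9 : (N : ℝ) ≤ y * H := hyr.trans (mul_le_mul_of_nonneg_left hhH (Nat.cast_nonneg _))
        by_contra hcon
        push Not at hcon
        have : (y : ℝ) * H < (N : ℝ) ^ ((9 : ℝ) / 10) * H := mul_lt_mul_of_pos_right hcon hH0
        linarith
      have h10 := h1 N hN1 χ hχ hm hs1 b y hbW hy9 hyN
      refine h10.trans ?_
      have hKp : 0 < K ^ (A + 3) := pow_pos hK0 _
      have h11 : (y : ℝ) ≤ 2 * N * (1 / h) := by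
        rw [mul_one_div, le_div_iff₀ hhr]
        exact hyr2
      calc σ * y / K ^ (A + 3) ≤ σ * (2 * N * (1 / h)) / K ^ (A + 3) :=
            div_le_div_of_nonneg_right (mul_le_mul_of_nonneg_left h11 hσ0.le) hKp.le
        _ = σ * (2 * N) / K ^ (A + 3) * (1 / (h : ℝ)) := by ring
    · have hemp : S.filter (fun n => npart N n = h) = ∅ := by
        rw [Finset.eq_empty_iff_forall_notMem]
        intro n hn
        rw [mem_filter, hS, mem_filter, mem_Ioo] at hn
        obtain ⟨⟨⟨hn0, _⟩, hna⟩, hnp⟩ := hn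
        apply hhW
        rw [Nat.coprime_iff_gcd_eq_one]
        have h5 : Nat.gcd h W ∣ n := (Nat.gcd_dvd_left h W).trans (by rw [← hnp]; exact npart_dvd (by omega))
        have h6 : Nat.gcd h W ∣ a :=
          ((show n ≡ a [MOD W] from hna).dvd_iff (Nat.gcd_dvd_right h W)).mp h5
        have h7 := Nat.dvd_gcd h6 (Nat.gcd_dvd_right h W)
        rw [Nat.coprime_iff_gcd_eq_one.mp ha] at h7
        exact Nat.dvd_one.mp h7
      rw [hemp, Finset.sum_empty, abs_zero]
      positivity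
  have hsmall : |∑ n ∈ S with ¬ (H < (npart N n : ℝ)), lam n| ≤ σ * (2 * N) / K ^ (A + 3) * K := by
    rw [hfib]
    calc |∑ h ∈ Hs, ∑ n ∈ (S.filter (fun n => ¬ (H < (npart N n : ℝ)))).filter (fun n => npart N n = h), lam n|
        ≤ ∑ h ∈ Hs, σ * (2 * N) / K ^ (A + 3) * (1 / (h : ℝ)) :=
          (Finset.abs_sum_le_sum_abs _ _).trans (Finset.sum_le_sum hone)
      _ = σ * (2 * N) / K ^ (A + 3) * ∑ h ∈ Hs, (1 / (h : ℝ)) := by rw [Finset.mul_sum]
      _ ≤ σ * (2 * N) / K ^ (A + 3) * K := by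
          refine mul_le_mul_of_nonneg_left ?_ (by positivity)
          refine le_trans ?_ ((nsm_sum (show 1 ≤ N by omega) N).trans hdK)
          refine Finset.sum_le_sum_of_subset_of_nonneg ?_ (fun _ _ _ => by positivity)
          intro h hh
          rw [hHs, mem_filter] at hh
          rw [mem_filter]
          exact ⟨hh.1, hh.2.1⟩
  -- the two halves
  have hA : σ * (2 * N) / K ^ (A + 3) * K ≤ σ * N / K ^ A / 2 := by
    have hKA : 0 < K ^ A := pow_pos hK0 _
    have h5 : σ * (2 * N) / K ^ (A + 3) * K = σ * N / K ^ A * (2 / K ^ 2) := by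
      rw [pow_add]
      field_simp
    rw [h5]
    have h6 : 2 / K ^ 2 ≤ 1 / 2 := by
      rw [div_le_div_iff₀ (by positivity) (by norm_num)]
      nlinarith
    have h7 : 0 ≤ σ * N / K ^ A := by positivity
    calc σ * N / K ^ A * (2 / K ^ 2) ≤ σ * N / K ^ A * (1 / 2) := mul_le_mul_of_nonneg_left h6 h7
      _ = σ * N / K ^ A / 2 := by ring
  have hB : (N : ℝ) ^ ((24 : ℝ) / 25) ≤ σ * N / K ^ A / 2 := by
    have hKA : 0 < K ^ A := pow_pos hK0 _
    have h5 : K ^ (A + 1) ≤ (N : ℝ) ^ ((1 : ℝ) / 50) := by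
      have h6 := (h4 N hN4).le
      have h7 : (K ^ (50 * ((A : ℝ) + 1))) ^ ((1 : ℝ) / 50) ≤ (N : ℝ) ^ ((1 : ℝ) / 50) :=
        Real.rpow_le_rpow (Real.rpow_nonneg hK0.le _) h6 (by norm_num)
      rw [← Real.rpow_mul hK0.le] at h7
      have h8 : 50 * ((A : ℝ) + 1) * (1 / 50) = ((A + 1 : ℕ) : ℝ) := by
        push_cast
        ring
      rw [h8, Real.rpow_natCast] at h7
      exact h7
    have h6 : 2 * K ^ A ≤ (N : ℝ) ^ ((1 : ℝ) / 50) := by
      refine le_trans ?_ h5
      rw [pow_succ, mul_comm (K ^ A) K]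
      exact mul_le_mul_of_nonneg_right (by linarith) hKA.le
    rw [div_div, le_div_iff₀ (by positivity)]
    have h9 : (N : ℝ) ^ ((24 : ℝ) / 25) * (N : ℝ) ^ ((1 : ℝ) / 50) = (N : ℝ) ^ (-(1 / 50) : ℝ) * N := by
      have h10 : (N : ℝ) = (N : ℝ) ^ (1 : ℝ) := (Real.rpow_one _).symm
      nth_rewrite 4 [h10]
      rw [← Real.rpow_add hN0, ← Real.rpow_add hN0]
      norm_num
    calc (N : ℝ) ^ ((24 : ℝ) / 25) * (K ^ A * 2) ≤ (N : ℝ) ^ ((24 : ℝ) / 25) * (N : ℝ) ^ ((1 : ℝ) / 50) :=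
          mul_le_mul_of_nonneg_left (by linarith) (Real.rpow_pos_of_pos hN0 _).le
      _ = (N : ℝ) ^ (-(1 / 50) : ℝ) * N := h9
      _ ≤ σ * N := mul_le_mul_of_nonneg_right hs2 hN0.le
  rw [hsplit]
  calc |∑ n ∈ S with (H < (npart N n : ℝ)), lam n + ∑ n ∈ S with ¬ (H < (npart N n : ℝ)), lam n|
      ≤ |∑ n ∈ S with (H < (npart N n : ℝ)), lam n| + |∑ n ∈ S with ¬ (H < (npart N n : ℝ)), lam n| := abs_add_le _ _
    _ ≤ σ * N / K ^ A / 2 + σ * N / K ^ A / 2 := add_le_add (hbig.trans hB) (hsmall.trans hA)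
    _ = σ * N / K ^ A := by ring

end Pool.Agent.Lib.OA
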