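import Pool.Agent.Lib.MP_7b7e48_nt.OW.SPIa
import Pool.Agent.Lib.MP_7b7e48_nt.OA.UUT

/-!
# Theorem OA, part SP: the robust spectral lemma on `UU W N a`, arbitrary `N`

As `OW.sp`, without any hypothesis on the prime factors of `N`; the invariance is only assumed for the primes which do not divide `N`.
-/

set_option autoImplicit false

open Finset
open Pool.Agent.Lib.MP_45349e_nt.LS (lam)

namespace Pool.Agent.Lib.OA

open Pool.Agent.Lib.RG (RC LV rr SS PB bch)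
open Pool.Agent.Lib.OWS (Hyp ww XX)
open Pool.Agent.Lib.OW (UU mr sum_zmod val_mul_nat mr_mem P0_ex cop_of_class)

open Classical in
/-- the hypothesis of the spectral lemma for functions on `UU` -/
theorem hyp_of {W N a : ℕ} [NeZero (W * N)] (hW1 : 1 ≤ W) (haW : a.Coprime W) (hN1 : 1 < N) {c η M θ : ℝ} (f G : ℕ → ℝ) (Q P0 : Finset ℕ)
    (hθ : θ = 1 ∨ θ = -1)
    (hP : ∀ l ∈ P0, l.Prime ∧ (l : ℝ) ≤ M ∧ ¬ l ∣ W * N ∧ l % W = 1 % W)
    (hPc : M / (Real.log N) ^ 2 ≤ P0.card)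
    (hinv : ∀ l ∈ P0, ∑ x ∈ UU W N a, (f (mr W N l x) - θ * f x) ^ 2 ≤ η * ∑ x ∈ UU W N a, f x ^ 2)
    (hval : ∀ n ∈ UU W N a, n < N → f n = G n)
    (hmul : ∀ l n : ℕ, l.Prime → l.Coprime (W * N) → l ∉ Q → (N : ℝ) ^ c < l → (l : ℝ) ≤ (N : ℝ) ^ ((1 : ℝ) / 2) →
      n.Coprime (W * N) → l * n < N → G (l * n) = θ * G n)
    (hQ : ∑ q ∈ Q.filter (fun q : ℕ => (N : ℝ) ^ c < q ∧ (q : ℝ) ≤ (N : ℝ) ^ ((1 : ℝ) / 2)), 1 / (q : ℝ) ≤ η) :
    Hyp W N (W * N) a ⌊(N : ℝ) ^ c⌋₊ η M θ (OW.ext W N a f) G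
      ((Q.filter (fun q : ℕ => (N : ℝ) ^ c < q ∧ (q : ℝ) ≤ (N : ℝ) ^ ((1 : ℝ) / 2))).filter fun l => l.Prime) P0 := by
  have hN0 : 0 < W * N := Nat.pos_of_ne_zero (NeZero.ne _)
  have hmem : ∀ x : ZMod (W * N), x.val ∈ UU W N a ↔ (x.val % W = a % W ∧ x.val.Coprime N) := by
    intro x
    unfold UU
    rw [mem_filter, mem_range]
    exact ⟨fun h => h.2, fun h => ⟨ZMod.val_lt x, h⟩⟩
  have hNle : N ≤ W * N := Nat.le_mul_of_pos_left _ hW1
  refine ⟨rfl, by rcases hθ with h | h <;> rw [h] <;> norm_num, ?_, fun l hl => ⟨(hP l hl).1, (hP l hl).2.1,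
    (hP l hl).2.2.1⟩, hPc, ?_, ?_, ?_, ?_, ?_⟩
  · intro x hx
    unfold OW.ext at hx
    have hxU : x.val ∈ UU W N a := by
      by_contra hcon
      rw [if_neg hcon] at hx
      exact hx rfl
    rw [hmem] at hxU
    refine ⟨?_, hxU.1⟩
    have h1 : x.val.Coprime (W * N) := Nat.Coprime.mul_right (cop_of_class haW hxU.1) hxU.2
    have h2 : ((x.val : ℕ) : ZMod (W * N)) = x := ZMod.natCast_zmod_val x
    rw [← h2, ZMod.isUnit_iff_coprime]
    exact h1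
  · intro l hl
    obtain ⟨h1, h2, h3, h4⟩ := hP l hl
    have h5 : l.Coprime N := by
      rw [Nat.Prime.coprime_iff_not_dvd h1]
      exact fun h => h3 (Dvd.dvd.mul_left h W)
    have e1 : ∑ x : ZMod (W * N), (OW.ext W N a f ((l : ZMod (W * N)) * x) - θ * OW.ext W N a f x) ^ 2 =
        ∑ x : ZMod (W * N), (if x.val ∈ UU W N a then (f (mr W N l x.val) - θ * f x.val) ^ 2 else 0) := by
      refine sum_congr rfl fun x _ => ?_
      unfold OW.ext
      rw [val_mul_nat]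
      have e2 : (l * x.val) % (W * N) = mr W N l x.val := rfl
      rw [e2]
      by_cases hx : x.val ∈ UU W N a
      · have e3 : mr W N l x.val ∈ UU W N a := by
          rw [mr_mem h4 h5 hN0]
          exact (hmem x).mp hx
        rw [if_pos hx, if_pos e3, if_pos hx]
      · have e3 : mr W N l x.val ∉ UU W N a := by
          rw [mr_mem h4 h5 hN0]
          exact fun h => hx ((hmem x).mpr h)
        rw [if_neg hx, if_neg e3, if_neg hx]
        ring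
    have e4 : ∑ x : ZMod (W * N), OW.ext W N a f x ^ 2 =
        ∑ x : ZMod (W * N), (if x.val ∈ UU W N a then f x.val ^ 2 else 0) := by
      refine sum_congr rfl fun x _ => ?_
      unfold OW.ext
      split_ifs with h
      · rfl
      · ring
    rw [e1, e4, sum_zmod W N a (fun x => (f (mr W N l x) - θ * f x) ^ 2), sum_zmod W N a (fun x => f x ^ 2)]
    exact hinv l hl
  · intro n hn1 hnN hna hnq
    unfold OW.ext
    have e1 : ((n : ℕ) : ZMod (W * N)).val = n := ZMod.val_cast_of_lt (by omega)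
    rw [e1]
    have e2 : n ∈ UU W N a := by
      unfold UU
      rw [mem_filter, mem_range]
      exact ⟨by omega, hna, Nat.Coprime.coprime_mul_left_right hnq⟩
    rw [if_pos e2]
    exact hval n e2 hnN
  · intro l n hl hlQ hlq hzl hl2 hn1 hnq hln
    have e1 : (N : ℝ) ^ c < l := (Nat.floor_lt (by positivity)).mp hzl
    have e2 : (l : ℝ) ≤ (N : ℝ) ^ ((1 : ℝ) / 2) := by
      have : (l : ℝ) ^ 2 ≤ N := by exact_mod_cast hl2
      rw [← Real.sqrt_eq_rpow]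
      exact Real.le_sqrt_of_sq_le this
    refine hmul l n hl ((Nat.Prime.coprime_iff_not_dvd hl).mpr hlq) ?_ e1 e2 hnq hln
    intro hQl
    refine hlQ ?_
    rw [mem_filter, mem_filter]
    exact ⟨⟨hQl, e1, e2⟩, hl⟩
  · intro l hl
    rw [mem_filter, mem_filter] at hl
    exact ⟨hl.2, (Nat.floor_lt (by positivity)).mpr hl.1.2.1⟩
  · refine le_trans ?_ hQ
    exact sum_le_sum_of_subset_of_nonneg (filter_subset _ _) fun _ _ _ => by positivity

/-- the conclusion of the spectral lemma for functions on `UU` -/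
theorem ww_ext {W N a : ℕ} [NeZero (W * N)] (hW1 : 1 ≤ W) (hN : 0 < N) (haW : a.Coprime W) (f : ℕ → ℝ) (χ : DirichletCharacter ℂ (W * N)) :
    W.totient * ww (OW.ext W N a f) χ * ((UU W N a).card * ∑ x ∈ UU W N a, f x ^ 2) =
      if ∑ x ∈ UU W N a, f x ^ 2 = 0 then 0 else
        ‖∑ x ∈ UU W N a, (f x : ℂ) * (starRingEnd ℂ) (χ (x : ZMod (W * N)))‖ ^ 2 := by
  have e4 : ∑ x : ZMod (W * N), OW.ext W N a f x ^ 2 = ∑ x ∈ UU W N a, f x ^ 2 := by
    rw [← sum_zmod W N a (fun x => f x ^ 2)]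
    refine sum_congr rfl fun x _ => ?_
    unfold OW.ext
    split_ifs with h
    · rfl
    · ring
  have e5 : ∑ y : ZMod (W * N), (OW.ext W N a f y : ℂ) * (starRingEnd ℂ) (χ y) =
      ∑ x ∈ UU W N a, (f x : ℂ) * (starRingEnd ℂ) (χ (x : ZMod (W * N))) := by
    rw [← sum_zmod W N a (fun x => (f x : ℂ) * (starRingEnd ℂ) (χ (x : ZMod (W * N))))]
    refine sum_congr rfl fun x _ => ?_
    unfold OW.ext
    split_ifs with h
    · rw [ZMod.natCast_zmod_val]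
    · simp
  split_ifs with h0
  · rw [h0, mul_zero, mul_zero]
  · unfold ww bch
    rw [e4]
    simp only
    rw [e5, norm_mul, mul_pow]
    have h1 : ((W * N).totient : ℝ) = (UU W N a).card * W.totient := by
      exact_mod_cast (card_UU_tot hW1 hN haW).symm
    have h2 : (0 : ℝ) < (W * N).totient := by
      exact_mod_cast Nat.totient_pos.mpr (Nat.pos_of_ne_zero (NeZero.ne (W * N)))
    have h3 : ‖(((W * N).totient : ℕ) : ℂ)⁻¹‖ = ((W * N).totient : ℝ)⁻¹ := by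
      rw [norm_inv, Complex.norm_natCast]
    rw [h3]
    have h4 : (W.totient : ℝ) * (UU W N a).card = (W * N).totient := by rw [h1]; ring
    field_simp
    rw [← h4]
    ring

open Classical in
theorem sp (W : ℕ) (hW : 1 ≤ W) (ε : ℝ) (hε : 0 < ε) : ∃ c0 η C1 : ℝ, 0 < c0 ∧ 0 < η ∧ 0 < C1 ∧ ∃ N0 : ℕ,
    ∀ (N : ℕ) [NeZero (W * N)], N0 ≤ N → ∀ a : ℕ, a.Coprime W → ∀ (θ : ℝ) (f G : ℕ → ℝ) (Q : Finset ℕ), (θ = 1 ∨ θ = -1) →
    (∀ l : ℕ, l.Prime → l % W = 1 % W → ¬ l ∣ N → (Real.log N) ^ C1 / 2 < l → (l : ℝ) ≤ (Real.log N) ^ C1 →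
      ∑ x ∈ UU W N a, (f (mr W N l x) - θ * f x) ^ 2 ≤ η * ∑ x ∈ UU W N a, f x ^ 2) →
    (∀ n ∈ UU W N a, n < N → f n = G n) →
    (∀ l n : ℕ, l.Prime → l.Coprime (W * N) → l ∉ Q → (N : ℝ) ^ c0 < l → (l : ℝ) ≤ (N : ℝ) ^ ((1 : ℝ) / 2) →
      n.Coprime (W * N) → l * n < N → G (l * n) = θ * G n) →
    (∑ q ∈ Q.filter (fun q : ℕ => (N : ℝ) ^ c0 < q ∧ (q : ℝ) ≤ (N : ℝ) ^ ((1 : ℝ) / 2)), 1 / (q : ℝ) ≤ η) →
    ∃ χ : DirichletCharacter ℂ (W * N),
      (1 - ε) * (UU W N a).card * ∑ x ∈ UU W N a, f x ^ 2 ≤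
        ‖∑ x ∈ UU W N a, (f x : ℂ) * (starRingEnd ℂ) (χ (x : ZMod (W * N)))‖ ^ 2 := by
  have : NeZero W := ⟨by omega⟩
  obtain ⟨κ, hκ, hκ1, -, C1, hC1, hsp⟩ := OWS.spec W ε hε 1 one_pos
  obtain ⟨c, hc, -, -, η0, hη0, Cc, hCc, N1, hspec⟩ := hsp 1 one_pos
  obtain ⟨N2, hP⟩ := P0_ex W hW C1 hC1
  refine ⟨c, η0, C1, hc, hη0, by exact_mod_cast (by omega : 0 < C1), max N1 (max N2 2), ?_⟩
  intro N _ hN a haW θ f G Q hθ hinv hval hmul hQ
  have hN1 : N1 ≤ N := (le_max_left _ _).trans hN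
  have hN2 : N2 ≤ N := (le_max_left _ _).trans ((le_max_right _ _).trans hN)
  have hN3 : 2 ≤ N := (le_max_right _ _).trans ((le_max_right _ _).trans hN)
  by_cases hS : ∑ x ∈ UU W N a, f x ^ 2 = 0
  · refine ⟨1, ?_⟩
    rw [hS, mul_zero]
    positivity
  · have hS0 : 0 < ∑ x ∈ UU W N a, f x ^ 2 :=
      lt_of_le_of_ne (sum_nonneg fun _ _ => sq_nonneg _) (Ne.symm hS)
    obtain ⟨P0, hP0, hP0c⟩ := hP N hN2
    have hinv' : ∀ l ∈ P0, ∑ x ∈ UU W N a, (f (mr W N l x) - θ * f x) ^ 2 ≤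
        η0 * ∑ x ∈ UU W N a, f x ^ 2 := by
      intro l hl
      obtain ⟨h1, h2, h3, h4, h5⟩ := hP0 l hl
      refine hinv l h1 h4 (fun h => h3 (Dvd.dvd.mul_left h W)) ?_ ?_
      · rw [Real.rpow_natCast]; exact h5
      · rw [Real.rpow_natCast]; exact h2
    have hyp := hyp_of hW haW (by omega) f G Q P0 hθ
      (fun l hl => ⟨(hP0 l hl).1, (hP0 l hl).2.1, (hP0 l hl).2.2.1, (hP0 l hl).2.2.2.1⟩) hP0c hinv' hval hmul hQ
    have e4 : ∑ x : ZMod (W * N), OW.ext W N a f x ^ 2 = ∑ x ∈ UU W N a, f x ^ 2 := by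
      rw [← sum_zmod W N a (fun x => f x ^ 2)]
      refine sum_congr rfl fun x _ => ?_
      unfold OW.ext
      split_ifs with h
      · rfl
      · ring
    obtain ⟨χ, -, hχ, -⟩ := hspec N (W * N) hN1 a η0 θ (OW.ext W N a f) G _ P0 hyp le_rfl (by rw [e4]; exact hS0)
    refine ⟨χ, ?_⟩
    have h1 := ww_ext hW (by omega) haW f χ
    rw [if_neg hS] at h1
    rw [← h1, mul_assoc]
    refine mul_le_mul_of_nonneg_right hχ ?_
    positivity

end Pool.Agent.Lib.OA
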