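import Mathlib
import Pool.Agent.Lib.MP_7b7e48_nt.OW.MTC
import Pool.Agent.Lib.MP_7b7e48_nt.RG.Defs

/-!
# Module ACON (40 minutes): the conductor of a real character

Let `f = χ.conductor`, `ψ = χ.primitiveCharacter` (a primitive character modulo `f`, `ψ^2 = 1`; `DirichletCharacter.factorsThrough`, `changeLevel` injective). Let `p` be an odd
prime, `p^2 ∣ f`. `ψ` factors through `f/p`: every unit `u ≡ 1 (mod f/p)` is a square modulo `f`: `u = 1 + t f/p = (1 + s f/p)^2` modulo `f` with `2 s ≡ t (mod p)`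
(`(f/p)^2` is divisible by `f`). So `ψ(u) = 1` (`factorsThrough_iff_ker_unitsMap`), the conductor of `ψ` divides `f/p`: contradiction to
`primitive`. If `16 ∣ f`: the units `≡ 1 (mod f/2)` are `1` and `1 + f/2 = (1 + f/4)^2` modulo `f`: `ψ` factors through `f/2`, contradiction.
-/

set_option autoImplicit false

open Finset
open Pool.Agent.Lib.MP_45349e_nt.LS (lam)

namespace Pool.Agent.Lib.OA

open Pool.Agent.Lib.OW
open Pool.Agent.Lib.RG (RC LV rr SS PB)

private theorem acon_lift {f d : ℕ} [NeZero f] (hd : d ∣ f) (u : (ZMod f)ˣ)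
    (hu : ZMod.unitsMap hd u = 1) : ∃ t : ℤ, ((u : ZMod f)) = ((1 + t * d : ℤ) : ZMod f) := by
  have h1 : ZMod.castHom hd (ZMod d) (u : ZMod f) = 1 := by
    have h2 := congrArg (fun w : (ZMod d)ˣ => (w : ZMod d)) hu
    simpa [ZMod.unitsMap_def] using h2
  have h3 : ((((u : ZMod f).val : ℕ) : ℤ) : ZMod f) = (u : ZMod f) := by
    rw [Int.cast_natCast, ZMod.natCast_zmod_val]
  rw [← h3, map_intCast] at h1
  have h4 : ((((u : ZMod f).val : ℤ) - 1 : ℤ) : ZMod d) = 0 := by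
    rw [Int.cast_sub, h1, Int.cast_one, sub_self]
  rw [ZMod.intCast_zmod_eq_zero_iff_dvd] at h4
  obtain ⟨t, ht⟩ := h4
  refine ⟨t, ?_⟩
  rw [← h3]
  congr 1
  linarith

private theorem acon_key {f d : ℕ} [NeZero f] (ψ : DirichletCharacter ℂ f) (h2 : ψ ^ 2 = 1)
    (hprim : ψ.IsPrimitive) (hd : d ∣ f) (hlt : d < f)
    (hsq : ∀ t : ℤ, ∃ v : ZMod f, v ^ 2 = ((1 + t * d : ℤ) : ZMod f)) : False := by
  have h1 : ψ.FactorsThrough d := by
    rw [DirichletCharacter.factorsThrough_iff_ker_unitsMap hd]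
    intro u hu
    rw [MonoidHom.mem_ker] at hu ⊢
    obtain ⟨t, ht⟩ := acon_lift hd u hu
    obtain ⟨v, hv⟩ := hsq t
    rw [← ht] at hv
    have hvu : IsUnit v := (isUnit_pow_iff two_ne_zero).mp (by rw [hv]; exact u.isUnit)
    obtain ⟨w, rfl⟩ := hvu
    have hw : u = w ^ 2 := by
      apply Units.ext
      rw [Units.val_pow_eq_pow_val]
      exact hv.symm
    rw [hw, map_pow]
    apply Units.ext
    rw [Units.val_pow_eq_pow_val, MulChar.coe_toUnitHom, ← MulChar.pow_apply_coe, h2,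
      MulChar.one_apply_coe, Units.val_one]
  have h3 : ψ.conductor ≤ d := Nat.sInf_le h1
  rw [(DirichletCharacter.isPrimitive_def ψ).mp hprim] at h3
  omega

private theorem acon_sq {n : ℕ} [NeZero n] (χ : DirichletCharacter ℂ n) (hχ : χ ^ 2 = 1) :
    χ.primitiveCharacter ^ 2 = 1 := by
  apply DirichletCharacter.changeLevel_injective χ.conductor_dvd_level
  rw [map_pow, DirichletCharacter.changeLevel_primitiveCharacter, hχ, map_one]

theorem acon_odd {n : ℕ} [NeZero n] (χ : DirichletCharacter ℂ n) (hχ : χ ^ 2 = 1) (p : ℕ) (hp : p.Prime) (h2 : p ≠ 2) :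
    ¬ p ^ 2 ∣ χ.conductor := by
  intro hdvd
  have hf0 : χ.conductor ≠ 0 := χ.conductor_ne_zero
  have : NeZero χ.conductor := ⟨hf0⟩
  obtain ⟨f, hf⟩ : ∃ f, f = χ.conductor := ⟨_, rfl⟩
  obtain ⟨e, he⟩ := hdvd
  have hfe : χ.conductor = p * (p * e) := by rw [he]; ring
  have he0 : 0 < p * e := Nat.pos_of_ne_zero (by
    rintro h
    rw [hfe, h, mul_zero] at hf0
    exact hf0 rfl)
  refine acon_key χ.primitiveCharacter (acon_sq χ hχ) χ.primitiveCharacter_isPrimitive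
    (d := p * e) ⟨p, by rw [hfe]; ring⟩ (by rw [hfe]; nlinarith [hp.two_le]) fun t => ?_
  obtain ⟨m, hm⟩ := hp.odd_of_ne_two h2
  refine ⟨((1 + t * (m + 1) * (p * e : ℕ) : ℤ) : ZMod χ.conductor), ?_⟩
  rw [← Int.cast_pow, ← sub_eq_zero, ← Int.cast_sub, ZMod.intCast_zmod_eq_zero_iff_dvd]
  refine ⟨t + t ^ 2 * (m + 1) ^ 2 * e, ?_⟩
  have hpm : (p : ℤ) = 2 * m + 1 := by exact_mod_cast hm
  rw [hfe]
  push_cast
  rw [hpm]
  ring

theorem acon_two {n : ℕ} [NeZero n] (χ : DirichletCharacter ℂ n) (hχ : χ ^ 2 = 1) : ¬ 16 ∣ χ.conductor := by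
  intro hdvd
  have hf0 : χ.conductor ≠ 0 := χ.conductor_ne_zero
  have : NeZero χ.conductor := ⟨hf0⟩
  obtain ⟨e, he⟩ := hdvd
  have he0 : 0 < e := Nat.pos_of_ne_zero (by
    rintro rfl
    exact hf0 (by rw [he, mul_zero]))
  refine acon_key χ.primitiveCharacter (acon_sq χ hχ) χ.primitiveCharacter_isPrimitive
    (d := 8 * e) ⟨2, by rw [he]; ring⟩ (by rw [he]; omega) fun t => ?_
  refine ⟨((1 + t * (4 * e : ℕ) : ℤ) : ZMod χ.conductor), ?_⟩
  rw [← Int.cast_pow, ← sub_eq_zero, ← Int.cast_sub, ZMod.intCast_zmod_eq_zero_iff_dvd]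
  refine ⟨t ^ 2 * e, ?_⟩
  rw [he]
  push_cast
  ring

end Pool.Agent.Lib.OA
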