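import Mathlib
import Pool.Agent.Lib.MP_7b7e48_nt.OA.ACON
import Pool.Agent.Lib.MP_7b7e48_nt.OA.ADef

/-!
# Module AREF (70 minutes): structure of the exceptional set

`f = χ.conductor`, `ψ = χ.primitiveCharacter`, values `0, 1, -1`; `χ x = ψ x` for `x` coprime to `W N`. Let `n ∈ EA`, `OKn N n`, `h = gcd(n, N)`, `x = n/h`, `y = (N - n)/h`, `x + y = N/h`.
`n`, `N - n` are coprime to `W` (classes `a`, `N - a`), so `h` too.
(1) For a prime `p ∣ N`, `p ∤ W` with `p^(v_p N) > z1`: `v_p(n) < v_p(N)`, so `v_p(N - n) = v_p(n) = v_p(h)` and `p ∤ x`, `p ∤ y`. (2) `x`, `y` are coprime to `f`: a prime `p ∣ f`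
divides `W N`; `p ∣ W`: `x ∣ n` coprime to `W`. Otherwise `p ∣ N`; if `p^(v_p N) ≤ z1` then `f ∣ W N/p^(v_p N)` is not divisible by `p`; so (1) applies. (3) `f ∣ W (N/h)`: compare
`v_p`: clear if `p ∤ h` (`f ∣ W N`); if `p ∣ h`: `p ∤ W`, and if `p ∣ f` then `p^(v_p N) > z1` as in (2), `v_p(h) = v_p(n)`; `p` odd: `v_p(f) ≤ 1 ≤ v_p(N) - v_p(n)` (`acon_odd`);
`p = 2 ≤ 2 tJ N`: `v_2(f) ≤ 3 ≤ v_2(N) - v_2(n)` (`acon_two`, `OKn`). (4) `(N - n0) x - y n0 = (N/h) (h x - n0) = (N/h) (n - n0)` (integers) is divisible by `W (N/h)`, so by `f`: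
`ψ(N-n0) ψ(x) = ψ(y) ψ(n0)`, so `ψ(y) = ψ(x) χ(N-n0) χ(n0) = κ ψ(x)`. (5) `lam n = lam h lam x`, `lam (N-n) = lam h lam y`; `n ∈ EA` gives `lam y ≠ κ lam x`. So `lam x ≠ Re ψ x` or
`lam y ≠ Re ψ y`; as in `OW.lam_ne` (`lam`, `Re ψ` completely multiplicative, values `±1` on the divisors of `x`) some prime `q ∣ x` (or `q ∣ y`) has `ψ(q) = 1`.
(6) `q ∤ N`: otherwise `q ∤ W` (`x`, `y` coprime to `W`), and `q^(v_q N) ≤ z1` gives `ψ(q) = -1`, `q^(v_q N) > z1` gives `q ∤ x y` by (1). So `q` is coprime to `W N` and `χ(q) = ψ(q) = 1`.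
-/

set_option autoImplicit false

open Finset
open Pool.Agent.Lib.MP_45349e_nt.LS (lam)

namespace Pool.Agent.Lib.OA

open Pool.Agent.Lib.OW
open Pool.Agent.Lib.RG (RC LV rr SS PB)

private theorem aref_lam (g : ℕ → ℂ) (g1 : g 1 = 1) (gm : ∀ a b, g (a * b) = g a * g b) : ∀ n : ℕ, 0 < n →
    (∀ q : ℕ, q.Prime → q ∣ n → g q = -1) → (lam n : ℂ) = g n := by
  intro n
  induction n using Nat.strong_induction_on with
  | _ n ih =>
    intro h0 h
    by_cases h1 : n = 1
    · subst h1
      rw [Pool.Agent.Lib.MP_45349e_nt.LS.lam_one, g1, Complex.ofReal_one]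
    · have hp := Nat.minFac_prime h1
      obtain ⟨m, hm⟩ := Nat.minFac_dvd n
      have hm0 : 0 < m := by
        rcases Nat.eq_zero_or_pos m with h2 | h2
        · rw [h2, mul_zero] at hm
          omega
        · exact h2
      have hlt : m < n := by
        rw [hm]
        have := hp.two_le
        nlinarith
      have e1 := ih m hlt hm0 (fun q hq hqm => h q hq (hqm.trans (Dvd.intro_left _ hm.symm)))
      have e2 := h _ hp (Nat.minFac_dvd n)
      have e3 : lam n = lam (n.minFac) * lam m := by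
        conv_lhs => rw [hm]
        exact Pool.Agent.Lib.MP_45349e_nt.LS.lam_mul _ _ hp.ne_zero hm0.ne'
      have e4 : g n = g (n.minFac) * g m := by
        conv_lhs => rw [hm]
        exact gm _ _
      rw [e3, e4, e2, Complex.ofReal_mul, e1, Pool.Agent.Lib.MP_45349e_nt.LS.lam_prime _ hp]
      norm_num

private theorem aref_copmod {W a n : ℕ} (haW : a.Coprime W) (h : n % W = a % W) : n.Coprime W := by
  have h1 : Nat.gcd n W = Nat.gcd a W := by
    rw [Nat.gcd_comm n W, Nat.gcd_comm a W, Nat.gcd_rec W n, Nat.gcd_rec W a, h]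
  unfold Nat.Coprime at haW ⊢
  rw [h1, haW]

/-- reflection of congruences -/
private theorem aref_sub {W N a n : ℕ} (ha : a ≤ N) (hn : n ≤ N) (h : n % W = a % W) : (N - n) % W = (N - a) % W := by
  have h1 : (N - n) + n ≡ (N - a) + a [MOD W] := by
    rw [Nat.sub_add_cancel hn, Nat.sub_add_cancel ha]
  exact Nat.ModEq.add_right_cancel h h1

/-- values of a real character -/
private theorem aref_val {M : ℕ} (χ : DirichletCharacter ℂ M) (hχ : χ ^ 2 = 1) {x : ℕ} (hx : x.Coprime M) :
    χ (x : ZMod M) = 1 ∨ χ (x : ZMod M) = -1 := by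
  have h3 : IsUnit (x : ZMod M) := (ZMod.isUnit_iff_coprime x M).2 hx
  have h4 : (χ ^ 2) (x : ZMod M) = 1 := by
    rw [hχ]
    exact MulChar.one_apply h3
  rw [MulChar.pow_apply' χ two_ne_zero] at h4
  have h5 : (χ (x : ZMod M) - 1) * (χ (x : ZMod M) + 1) = 0 := by
    linear_combination h4
  rcases mul_eq_zero.1 h5 with h6 | h6
  · left
    linear_combination h6
  · right
    linear_combination h6

theorem aref {W N a : ℕ} [NeZero (W * N)] (hc : Cf W N a) (hJ : 1 ≤ tJ N) (χ : DirichletCharacter ℂ (W * N)) (hχ : χ ^ 2 = 1)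
    {κ : ℝ} (hκ : κ ^ 2 = 1) {n0 : ℕ} (hn0 : n0 ∈ Dom N W a N)
    (h0 : (χ ((N - n0 : ℕ) : ZMod (W * N))).re = κ * (χ (n0 : ZMod (W * N))).re)
    (hS : ∀ p : ℕ, p.Prime → p ∣ N → ¬ p ∣ W → p ^ N.factorization p ≤ z1 N →
      χ.conductor ∣ W * (N / p ^ N.factorization p) ∧ χ.primitiveCharacter (p : ZMod χ.conductor) = -1)
    {n : ℕ} (hn : n ∈ EA W N a κ) (hok : OKn N n) :
    ∃ q : ℕ, q.Prime ∧ (χ (q : ZMod (W * N))).re = 1 ∧ (q ∣ n ∨ q ∣ N - n) := by
  classical
  by_contra hcon
  have hno : ∀ q : ℕ, q.Prime → (q ∣ n ∨ q ∣ N - n) → (χ (q : ZMod (W * N))).re ≠ 1 :=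
    fun q hq hd h1 => hcon ⟨q, hq, h1, hd⟩
  unfold EA at hn
  rw [mem_filter, mem_Ioo] at hn
  obtain ⟨⟨hnpos, hnN⟩, hnW, hne⟩ := hn
  unfold Dom at hn0
  rw [mem_filter, mem_range] at hn0
  obtain ⟨hn0N, hn0W, hn0c⟩ := hn0
  have hN0 : N ≠ 0 := by omega
  have hW0 : W ≠ 0 := by have := hc.W1; omega
  have haN : a ≤ N := by have := hc.alt; have := hc.WN; omega
  have hnc : n.Coprime W := aref_copmod hc.aW hnW
  have hmc : (N - n).Coprime W := aref_copmod hc.naW (aref_sub haN hnN.le hnW)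
  have hn0cW : n0.Coprime W := aref_copmod hc.aW hn0W
  have hm0cW : (N - n0).Coprime W := aref_copmod hc.naW (aref_sub haN hn0N.le hn0W)
  have hm0c : (N - n0).Coprime N := by
    have h1 : Nat.Coprime (N - n0) (N - n0 + n0) := by
      rw [Nat.coprime_self_add_right]
      have h2 : Nat.Coprime n0 (N - n0 + n0) := by rwa [Nat.sub_add_cancel hn0N.le]
      rw [Nat.coprime_add_self_right] at h2
      exact h2.symm
    rwa [Nat.sub_add_cancel hn0N.le] at h1
  set f := χ.conductor with hf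
  set ψ := χ.primitiveCharacter with hψ
  have hfd : f ∣ W * N := χ.conductor_dvd_level
  have hf0 : f ≠ 0 := fun h => by
    rw [h, Nat.zero_dvd] at hfd
    exact Nat.mul_ne_zero hW0 hN0 hfd
  have hψe : ∀ x : ℕ, x.Coprime (W * N) → ψ (x : ZMod f) = χ (x : ZMod (W * N)) := by
    intro x hx
    have h1 := χ.primitiveCharacter_apply_of_isCoprime (a := (x : ℤ)) (by
      rw [Nat.isCoprime_iff_coprime]
      exact hx)
    rw [hψ]
    simpa using h1
  -- the common factor
  set h := Nat.gcd n N with hh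
  have hhn : h ∣ n := Nat.gcd_dvd_left n N
  have hhN : h ∣ N := Nat.gcd_dvd_right n N
  have hh0 : 0 < h := Nat.gcd_pos_of_pos_left N hnpos
  obtain ⟨x, hx⟩ := hhn
  obtain ⟨M, hM⟩ := hhN
  have hxM : x.Coprime M := by
    have h1 := Nat.coprime_div_gcd_div_gcd (m := n) (n := N) hh0
    rw [← hh] at h1
    have h2 : n / h = x := Nat.div_eq_of_eq_mul_right hh0 hx
    have h3 : N / h = M := Nat.div_eq_of_eq_mul_right hh0 hM
    rwa [h2, h3] at h1
  have hx0 : 0 < x := by
    rcases Nat.eq_zero_or_pos x with h1 | h1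
    · rw [h1, mul_zero] at hx
      omega
    · exact h1
  have hxltM : x < M := by
    have h1 : h * x < h * M := by rw [← hx, ← hM]; exact hnN
    exact lt_of_mul_lt_mul_left h1 (Nat.zero_le h)
  set y := M - x with hy
  have hy0 : 0 < y := by omega
  have hxy : x + y = M := by omega
  have hNy : N - n = h * y := by
    have h1 : n + h * y = N := by
      rw [hx, hM, ← hxy]
      ring
    omega
  have hyM : y.Coprime M := by
    have h1 : Nat.Coprime y (x + y) := by
      rw [Nat.coprime_add_self_right]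
      have h2 : Nat.Coprime x (x + y) := by rwa [hxy]
      rw [Nat.coprime_self_add_right] at h2
      exact h2.symm
    rwa [hxy] at h1
  have hxn : x ∣ n := Dvd.intro_left h hx.symm
  have hym : y ∣ N - n := Dvd.intro_left h hNy.symm
  have hhc : h.Coprime W := Nat.Coprime.coprime_dvd_left (Dvd.intro x hx.symm) hnc
  have hM0 : M ≠ 0 := by omega
  -- (1)
  have hbig : ∀ p : ℕ, p.Prime → p ∣ N → z1 N < p ^ N.factorization p → p ∣ M := by
    intro p hp hpN hz
    have h1 := (hok p hp hpN hz).1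
    have h2 : h.factorization p ≤ n.factorization p :=
      (Nat.factorization_le_iff_dvd hh0.ne' hnpos.ne').2 (Dvd.intro x hx.symm) p
    have h3 : N.factorization p = h.factorization p + M.factorization p := by
      rw [hM, Nat.factorization_mul hh0.ne' hM0]
      rfl
    have h4 : 0 < M.factorization p := by omega
    exact (Nat.dvd_of_factorization_pos h4.ne')
  -- primes dividing the conductor, not `W`
  have hcond : ∀ p : ℕ, p.Prime → p ∣ f → ¬ p ∣ W → p ∣ N ∧ z1 N < p ^ N.factorization p := by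
    intro p hp hpf hpW
    have h1 : p ∣ N := by
      rcases (Nat.Prime.dvd_mul hp).1 (hpf.trans hfd) with h2 | h2
      · exact absurd h2 hpW
      · exact h2
    refine ⟨h1, ?_⟩
    by_contra h2
    have h3 := (hS p hp h1 hpW (not_lt.1 h2)).1
    rcases (Nat.Prime.dvd_mul hp).1 (hpf.trans h3) with h4 | h4
    · exact hpW h4
    · exact Nat.not_dvd_ordCompl hp hN0 h4
  -- (2)
  have hxf : x.Coprime f := by
    refine Nat.Coprime.symm (Nat.coprime_of_dvd fun p hp hpf hpx => ?_)
    have hpW : ¬ p ∣ W := fun h1 => by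
      have h2 := Nat.dvd_gcd (hpx.trans hxn) h1
      rw [hnc] at h2
      exact hp.one_lt.ne' (Nat.dvd_one.1 h2)
    obtain ⟨h1, h2⟩ := hcond p hp hpf hpW
    have h3 := Nat.dvd_gcd hpx (hbig p hp h1 h2)
    rw [hxM] at h3
    exact hp.one_lt.ne' (Nat.dvd_one.1 h3)
  have hyf : y.Coprime f := by
    refine Nat.Coprime.symm (Nat.coprime_of_dvd fun p hp hpf hpx => ?_)
    have hpW : ¬ p ∣ W := fun h1 => by
      have h2 := Nat.dvd_gcd (hpx.trans hym) h1
      rw [hmc] at h2
      exact hp.one_lt.ne' (Nat.dvd_one.1 h2)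
    obtain ⟨h1, h2⟩ := hcond p hp hpf hpW
    have h3 := Nat.dvd_gcd hpx (hbig p hp h1 h2)
    rw [hyM] at h3
    exact hp.one_lt.ne' (Nat.dvd_one.1 h3)
  -- (3)
  have hfWM : f ∣ W * M := by
    rw [← Nat.factorization_prime_le_iff_dvd hf0 (Nat.mul_ne_zero hW0 hM0)]
    intro p hp
    have e1 : (W * M).factorization p = W.factorization p + M.factorization p := by
      rw [Nat.factorization_mul hW0 hM0]
      rfl
    have e2 : N.factorization p = h.factorization p + M.factorization p := by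
      rw [hM, Nat.factorization_mul hh0.ne' hM0]
      rfl
    have e3 : f.factorization p ≤ W.factorization p + N.factorization p := by
      have h1 := (Nat.factorization_le_iff_dvd hf0 (Nat.mul_ne_zero hW0 hN0)).2 hfd p
      rw [Nat.factorization_mul hW0 hN0] at h1
      exact h1
    rw [e1]
    by_cases hph : p ∣ h
    · have hpW : ¬ p ∣ W := fun h1 => by
        have h2 := Nat.dvd_gcd hph h1
        rw [hhc] at h2
        exact hp.one_lt.ne' (Nat.dvd_one.1 h2)
      by_cases hpf : p ∣ f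
      · obtain ⟨h1, h2⟩ := hcond p hp hpf hpW
        have h3 := hok p hp h1 h2
        have h4 : h.factorization p ≤ n.factorization p :=
          (Nat.factorization_le_iff_dvd hh0.ne' hnpos.ne').2 (Dvd.intro x hx.symm) p
        by_cases hp2 : p = 2
        · have h5 := h3.2 (by rw [hp2]; omega)
          have h6 : f.factorization p < 4 := by
            by_contra h7
            have h8 : 2 ^ 4 ∣ f := by
              rw [← hp2]
              exact (hp.pow_dvd_iff_le_factorization hf0).2 (not_lt.1 h7)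
            exact acon_two χ hχ (by rw [← hf]; exact h8)
          omega
        · have h6 : f.factorization p < 2 := by
            by_contra h7
            have h8 : p ^ 2 ∣ f := (hp.pow_dvd_iff_le_factorization hf0).2 (not_lt.1 h7)
            exact acon_odd χ hχ p hp hp2 (by rw [← hf]; exact h8)
          have h7 := h3.1
          omega
      · have h1 : f.factorization p = 0 := Nat.factorization_eq_zero_of_not_dvd hpf
        omega
    · have h1 : h.factorization p = 0 := Nat.factorization_eq_zero_of_not_dvd hph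
      omega
  -- (4)
  have key : ((N - n0 : ℕ) : ZMod f) * (x : ZMod f) = (y : ZMod f) * (n0 : ZMod f) := by
    have h1 : ((((N - n0 : ℕ) : ℤ) * (x : ℤ) : ℤ) : ZMod f) = (((y : ℤ) * (n0 : ℤ) : ℤ) : ZMod f) := by
      rw [ZMod.intCast_eq_intCast_iff_dvd_sub]
      have h2 : (W : ℤ) ∣ (n : ℤ) - n0 := by
        have h3 : n0 ≡ n [MOD W] := by
          unfold Nat.ModEq
          rw [hnW]
          exact hn0W
        exact (Nat.modEq_iff_dvd).1 h3
      obtain ⟨k, hk⟩ := h2
      have h4 : ((W * M : ℕ) : ℤ) ∣ ((y : ℤ) * (n0 : ℤ) - ((N - n0 : ℕ) : ℤ) * (x : ℤ)) := by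
        refine ⟨-k, ?_⟩
        push_cast [Nat.cast_sub hn0N.le]
        have h5 : (x : ℤ) + y = M := by exact_mod_cast hxy
        have h6 : (n : ℤ) = h * x := by exact_mod_cast hx
        have h7 : (N : ℤ) = h * M := by exact_mod_cast hM
        have h8 : (y : ℤ) = M - x := by linarith
        have h9 : (h : ℤ) * x = n0 + W * k := by linarith
        rw [h8, h7]
        linear_combination (-(M : ℤ)) * h9
      exact (Int.natCast_dvd_natCast.2 hfWM).trans h4
    push_cast at h1
    exact_mod_cast h1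
  have e1 : ψ ((N - n0 : ℕ) : ZMod f) * ψ (x : ZMod f) = ψ (y : ZMod f) * ψ (n0 : ZMod f) := by
    rw [← map_mul, ← map_mul, key]
  have c0 : n0.Coprime (W * N) := Nat.Coprime.mul_right hn0cW hn0c
  have c1 : (N - n0).Coprime (W * N) := Nat.Coprime.mul_right hm0cW hm0c
  rw [hψe _ c0, hψe _ c1] at e1
  have e2 : χ ((N - n0 : ℕ) : ZMod (W * N)) = (κ : ℂ) * χ (n0 : ZMod (W * N)) := by
    rcases aref_val χ hχ c0 with h1 | h1 <;> rcases aref_val χ hχ c1 with h2 | h2 <;>
    · rw [h1, h2] at h0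
      rw [h1, h2]
      simp only [Complex.one_re, Complex.neg_re] at h0
      have h3 : κ = 1 ∨ κ = -1 := by
        first
        | (left; linarith)
        | (right; linarith)
      rcases h3 with h3 | h3 <;> subst h3 <;> first | (exfalso; norm_num at h0; done) | norm_num
  have e3 : ψ (y : ZMod f) = (κ : ℂ) * ψ (x : ZMod f) := by
    rw [e2] at e1
    have h1 : χ (n0 : ZMod (W * N)) ≠ 0 := by
      rcases aref_val χ hχ c0 with h1 | h1
      · rw [h1]; norm_num
      · rw [h1]; norm_num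
    have h2 : χ (n0 : ZMod (W * N)) * ((κ : ℂ) * ψ (x : ZMod f) - ψ (y : ZMod f)) = 0 := by
      linear_combination e1
    rcases mul_eq_zero.1 h2 with h3 | h3
    · exact absurd h3 h1
    · linear_combination -h3
  -- prime factors
  have hpr : ∀ q : ℕ, q.Prime → (q ∣ n ∨ q ∣ N - n) → ¬ q ∣ W → ¬ q ∣ M → ψ (q : ZMod f) = -1 := by
    intro q hq hqn hqW hqM
    by_cases hqN : q ∣ N
    · by_cases hz : q ^ N.factorization q ≤ z1 N
      · exact (hS q hq hqN hqW hz).2
      · exact absurd (hbig q hq hqN (not_le.1 hz)) hqM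
    · have h1 : q.Coprime (W * N) :=
        Nat.Coprime.mul_right ((Nat.Prime.coprime_iff_not_dvd hq).2 hqW) ((Nat.Prime.coprime_iff_not_dvd hq).2 hqN)
      rw [hψe _ h1]
      rcases aref_val χ hχ h1 with h2 | h2
      · exact absurd (by rw [h2, Complex.one_re]) (hno q hq hqn)
      · exact h2
  have hlx : (lam x : ℂ) = ψ (x : ZMod f) := by
    refine aref_lam (fun m => ψ (m : ZMod f)) (by simp) (fun a b => by push_cast; rw [map_mul]) x hx0 ?_
    intro q hq hqx
    refine hpr q hq (Or.inl (hqx.trans hxn)) ?_ ?_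
    · intro h1
      have h2 := Nat.dvd_gcd (hqx.trans hxn) h1
      rw [hnc] at h2
      exact hq.one_lt.ne' (Nat.dvd_one.1 h2)
    · intro h1
      have h2 := Nat.dvd_gcd hqx h1
      rw [hxM] at h2
      exact hq.one_lt.ne' (Nat.dvd_one.1 h2)
  have hly : (lam y : ℂ) = ψ (y : ZMod f) := by
    refine aref_lam (fun m => ψ (m : ZMod f)) (by simp) (fun a b => by push_cast; rw [map_mul]) y hy0 ?_
    intro q hq hqx
    refine hpr q hq (Or.inr (hqx.trans hym)) ?_ ?_
    · intro h1
      have h2 := Nat.dvd_gcd (hqx.trans hym) h1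
      rw [hmc] at h2
      exact hq.one_lt.ne' (Nat.dvd_one.1 h2)
    · intro h1
      have h2 := Nat.dvd_gcd hqx h1
      rw [hyM] at h2
      exact hq.one_lt.ne' (Nat.dvd_one.1 h2)
  apply hne
  rw [hNy, hx, Pool.Agent.Lib.MP_45349e_nt.LS.lam_mul _ _ hh0.ne' hy0.ne', Pool.Agent.Lib.MP_45349e_nt.LS.lam_mul _ _ hh0.ne' hx0.ne']
  have h9 : lam y = κ * lam x := by
    have h10 : (lam y : ℂ) = ((κ * lam x : ℝ) : ℂ) := by
      rw [hly, e3, Complex.ofReal_mul, hlx]
    exact_mod_cast h10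
  rw [h9]
  ring

end Pool.Agent.Lib.OA
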