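import Mathlib
import Pool.Agent.Lib.MP_7b7e48_nt.OA.ADef
import Pool.Agent.Lib.MP_7b7e48_nt.OW.ODefs
import Pool.Agent.Lib.MP_7b7e48_nt.OW.VF

/-!
# Statements of the theorems of the path argument

The proofs (`AUL`, `AFM`, `APL`, `AINV1`, `AINV2`, `ACO`) take the previous statement as a hypothesis, so that these files can be compiled at the same
time; `ASM` puts them together.
-/

set_option autoImplicit false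

open Finset
open Pool.Agent.Lib.MP_45349e_nt.LS (lam)

namespace Pool.Agent.Lib.OA

open Pool.Agent.Lib.OW
open Pool.Agent.Lib.RG (RC LV rr SS PB)

open Classical in
/-- the statement of theorem `aue` -/
def AUES : Prop := ∀ (W : ℕ) (hW : 1 ≤ W) (η C : ℝ) (hη : 0 < η), ∃ N0 : ℕ, ∀ N : ℕ, N0 ≤ N →
    ∀ v A m i j u1 u2 : ℕ, 1 ≤ v → v * LL N ^ 5 ≤ N → 1 ≤ A → (A : ℝ) ≤ (Real.log N) ^ C → 1 ≤ m → m ≤ 2 * tJ N →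
    u2 ≤ W * N → (N : ℝ) ≤ (Real.log N) ^ C * ((u2 : ℝ) - u1) →
    (∀ u : ℕ, u1 ≤ u → u < u2 → (A * u) / (W * N) = j ∧ (m * A * u) / (W * N) = i) → m * j < i → i < m * j + m →
    (((Finset.range (W * N)).filter fun n => u1 ≤ v * n ∧ v * n < u2 ∧
      ∃ α β e : ℕ, (α * β).Coprime (N * v) ∧ α ∣ m * mr W N A (v * n) ∧ β ∣ mr W N (m * A) (v * n) ∧ α.Coprime β ∧
      (∀ p : ℕ, p.Prime → p ∣ α * β → p ∈ RP N) ∧ 0 < β ∧ 0 < e ∧ α = β + (i - m * j) * W * e ∧ α < 2 * β ∧ α ≤ LL N ∧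
      ¬ EC N e).card : ℝ) ≤ η * del N * ((u2 : ℝ) - u1) / v

open Classical in
/-- the statement of theorem `aul` -/
def AULS : Prop := ∀ (W : ℕ) (hW : 1 ≤ W) (η C : ℝ) (hη : 0 < η), ∃ N0 : ℕ, ∀ N : ℕ, N0 ≤ N →
    ∀ v A m i j u1 u2 : ℕ, 1 ≤ v → v * LL N ^ 5 ≤ N → 1 ≤ A → (A : ℝ) ≤ (Real.log N) ^ C → 1 ≤ m → m ≤ 2 * tJ N →
    u2 ≤ W * N → (N : ℝ) ≤ (Real.log N) ^ C * ((u2 : ℝ) - u1) →
    (∀ u : ℕ, u1 ≤ u → u < u2 → (A * u) / (W * N) = j ∧ (m * A * u) / (W * N) = i) → i ≠ m * j →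
    (((Finset.range (W * N)).filter fun n => n.Coprime N ∧ u1 ≤ v * n ∧ v * n < u2 ∧
      ¬ LkA W N (m * mr W N A (v * n)) (mr W N (m * A) (v * n))).card : ℝ) ≤ η * del N * ((u2 : ℝ) - u1) / v

open Classical in
/-- the statement of theorem `afm` -/
def AFMS : Prop := ∀ (W : ℕ) (hW : 1 ≤ W) (η C : ℝ) (hη : 0 < η), ∃ N0 : ℕ, ∀ N : ℕ, N0 ≤ N →
    ∀ v l M A m k : ℕ, 1 ≤ v → v * LL N ^ 5 ≤ N → 1 ≤ l → 1 ≤ M → 1 ≤ A → 1 ≤ m → m ≤ 2 * tJ N →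
    m * A * k = l * M → ((l * M : ℕ) : ℝ) ≤ (Real.log N) ^ C →
    (((Finset.range (W * N)).filter fun n => n.Coprime N ∧ v * n < W * N ∧ Land W N l M (v * n) ∧
      FlA W N A m (v * n)).card : ℝ) ≤ η * del N * N / (l * v)

open Classical in
/-- the statement of theorem `apl` -/
def APLS : Prop := ∀ (W : ℕ) (hW : 1 ≤ W) (C1 : ℝ), ∃ (s : ℕ) (C2 : ℝ), 0 ≤ C2 ∧ ∀ η : ℝ, 0 < η → ∃ N0 : ℕ, ∀ N : ℕ, N0 ≤ N →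
    ∀ a : ℕ, Cf W N a → ∀ κ : ℝ, κ ^ 2 = 1 → ∀ l : ℕ, 1 ≤ l → l % W = 1 % W → (l : ℝ) ≤ (Real.log N) ^ C1 →
    ∀ v : ℕ, 1 ≤ v → v * LL N ^ 5 ≤ N →
    (((Finset.range (W * N)).filter fun n => v * n ∈ UU W N a ∧ lam (mr W N l (v * n)) ≠ lam l * lam (v * n) ∧
      ∀ A : ℕ, (A : ℝ) ≤ (Real.log N) ^ C2 → GA s N l A → mr W N A (v * n) ∉ AffA W N a (EA W N a κ)).card : ℝ) ≤
      η * del N * N / v

open Classical in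
/-- the statement of theorem `ainv1` -/
def AINV1S : Prop := ∀ (W : ℕ) (hW : 1 ≤ W) (C1 : ℝ), ∃ A : ℕ, ∀ η : ℝ, 0 < η → ∃ N0 : ℕ, ∀ N : ℕ, N0 ≤ N →
    ∀ a : ℕ, Cf W N a → ∀ κ : ℝ, κ ^ 2 = 1 → ((EA W N a κ).card : ℝ) ≤ N / (Real.log N) ^ A →
    ∀ l : ℕ, 1 ≤ l → l % W = 1 % W → (l : ℝ) ≤ (Real.log N) ^ C1 →
    (((UU W N a).filter fun x => lam (mr W N l x) ≠ lam l * lam x).card : ℝ) ≤ η * (del N * N)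

open Classical in
/-- the statement of theorem `ainv2` -/
def AINV2S : Prop := ∀ (W : ℕ) (hW : 1 ≤ W) (C1 : ℝ), ∃ A : ℕ, ∀ η C c1 : ℝ, 0 < η → 0 < C → 0 < c1 → ∃ N0 : ℕ, ∀ N : ℕ, N0 ≤ N →
    ∀ a : ℕ, Cf W N a → ∀ κ : ℝ, κ ^ 2 = 1 → ∀ (c : ℕ → ℝ) (L δ : ℝ) (A' : ℕ), RC (W * N) c →
    VF N W a A' c L c1 C (1 / 30) δ (sQ c (W * N)) →
    ((EA W N a κ).card : ℝ) ≤ sQ c (W * N) * N / (Real.log N) ^ A →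
    (∀ n ∈ EA W N a κ, OKn N n → ∃ q : ℕ, q.Prime ∧ c q = 1 ∧ (q ∣ n ∨ q ∣ N - n)) →
    ∀ l : ℕ, l.Prime → l % W = 1 % W → (l : ℝ) ≤ (Real.log N) ^ C1 → c l = -1 →
    (((Zst N W a c 1).filter fun x => mr W N l x ∉ Zst N W a c 1).card : ℝ) ≤ η * (Zst N W a c 1).card

/-- the statement of theorem `OW.vx` -/
def VXS : Prop := ∀ (W : ℕ) (hW : 1 ≤ W) (A : ℕ) (θ δ : ℝ) (h0 : 0 < θ) (h1 : θ < 1) (hδ : 0 < δ), ∃ C c1 ε2 : ℝ, 0 < C ∧ 0 < c1 ∧ 0 < ε2 ∧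
    ∀ ε : ℝ, 0 < ε → ε ≤ ε2 → ∃ N0 : ℕ, ∀ (N : ℕ) [NeZero (W * N)], N0 ≤ N → ∀ (a : ℕ) (β : ℝ)
    (χ : DirichletCharacter ℂ (W * N)), χ ^ 2 = 1 →
    HV N W a (fun n => (χ (n : ZMod (W * N))).re) β ε →
    β = 1 ∧ sQ (fun n => (χ (n : ZMod (W * N))).re) (W * N) ≤ C * ε ∧
    ∃ L : ℝ, VF N W a A (fun n => (χ (n : ZMod (W * N))).re) L c1 C θ δ
      (sQ (fun n => (χ (n : ZMod (W * N))).re) (W * N))

end Pool.Agent.Lib.OA
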