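import Mathlib
import Pool.Agent.Lib.MP_7b7e48_nt.OA.ANum

/-!
# Module ASTR (60 minutes): the character factors through `W N/p^k`

`p ∣ N`, `p ∤ W`, `k = v_p(N)`, `p^k ≤ z1 N`. Let `j` be the least multiple of `φ(W)` with `j ≥ k`, `l = p^j`: `l = 1 (mod W)` (Euler), `l ≤ p^(k + φ(W)) ≤ z1^(1+W) ≤ K^(11 (W+1))`.
Let `G` be the set of the `x ∈ UU` with `lam (mr l x) = lam l lam x` and `lam x = c x`, `c = Re χ`: `card (UU \ G) ≤ del N N/5 < card UU/2` (`UU_low`). Let
`u ∈ (Z/WN)^*`, `u ≡ 1 (mod W N/p^k)` (represented by a number `u`). `x ↦ mr W N u x` is a bijection of `UU` (`W ∣ W N/p^k`), so some `x ∈ G` has `mr u x ∈ G`.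
`l (mr u x) ≡ l x (mod W N)` because `l (u - 1)` is divisible by `p^k W N/p^k`: `mr l x = mr l (mr u x)`, so `lam x = lam (mr u x)`, `c x = c (u x) = c u c x`, `c u = 1`.
So `χ` is trivial on the kernel of `(Z/WN)^* → (Z/(WN/p^k))^*` (`DirichletCharacter.factorsThrough_iff_ker_unitsMap`), `mem_conductorSet_iff_conductor_dvd`.
-/

set_option autoImplicit false

open Finset
open Pool.Agent.Lib.MP_45349e_nt.LS (lam)

namespace Pool.Agent.Lib.OA

open Pool.Agent.Lib.OW
open Pool.Agent.Lib.RG (RC LV rr SS PB)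

/-- the consequences of the first application of the path lemma which are used below -/
structure IV (W N a : ℕ) (C1 ε : ℝ) (c : ℕ → ℝ) : Prop where
  inv : ∀ l : ℕ, 1 ≤ l → l % W = 1 % W → (l : ℝ) ≤ (Real.log N) ^ C1 →
    (((UU W N a).filter fun x => lam (mr W N l x) ≠ lam l * lam x).card : ℝ) ≤ ε * (del N * N)
  z : (((UU W N a).filter fun x => lam x ≠ c x).card : ℝ) ≤ ε * (del N * N)

/-- copy of `OW.mr_mem` (`OW/SPIa.lean`), to keep the import chain short -/
private theorem astr_mr_mem {W N a l x : ℕ} (hl : l % W = 1 % W) (hlN : l.Coprime N) (hN : 0 < W * N) :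
    mr W N l x ∈ UU W N a ↔ (x % W = a % W ∧ x.Coprime N) := by
  unfold mr UU
  rw [mem_filter, mem_range]
  have h1 : (l * x) % (W * N) % W = x % W := by
    rw [Nat.mod_mod_of_dvd _ (Dvd.intro _ rfl), Nat.mul_mod, hl, ← Nat.mul_mod, one_mul]
  have h2 : ((l * x) % (W * N)).Coprime N ↔ x.Coprime N := by
    have e1 : ((l * x) % (W * N)).Coprime N ↔ (l * x).Coprime N := by
      rw [Nat.Coprime, Nat.Coprime, Nat.gcd_comm, Nat.gcd_rec N ((l * x) % (W * N)), Nat.mod_mul_left_mod,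
        ← Nat.gcd_rec, Nat.gcd_comm]
    rw [e1]
    exact ⟨fun h => Nat.Coprime.coprime_mul_left h, fun h => Nat.Coprime.mul_left hlN h⟩
  rw [h1, h2]
  exact ⟨fun h => h.2, fun h => ⟨Nat.mod_lt _ hN, h⟩⟩

/-- a permutation of `UU` maps some element of a large subset into the subset -/
theorem astr_perm {W N a u : ℕ} (hM : 0 < W * N) (hu1 : u % W = 1 % W) (huN : u.Coprime N)
    (huM : u.Coprime (W * N)) (G : Finset ℕ) (hG : G ⊆ UU W N a)
    (hc : 2 * ((UU W N a) \ G).card < (UU W N a).card) : ∃ x ∈ G, mr W N u x ∈ G := by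
  by_contra hcon
  push Not at hcon
  have hinj : Set.InjOn (fun x => mr W N u x) (G : Set ℕ) := by
    intro x hx y hy hxy
    have hx' := hG hx
    have hy' := hG hy
    rw [UU, mem_filter, mem_range] at hx' hy'
    have h1 : u * x ≡ u * y [MOD W * N] := hxy
    have h2 : x ≡ y [MOD W * N] := Nat.ModEq.cancel_left_of_coprime huM.symm h1
    have h3 : x % (W * N) = y % (W * N) := h2
    rwa [Nat.mod_eq_of_lt hx'.1, Nat.mod_eq_of_lt hy'.1] at h3
  have hsub : G.image (fun x => mr W N u x) ⊆ (UU W N a) \ G := by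
    intro z hz
    obtain ⟨x, hx, rfl⟩ := mem_image.mp hz
    rw [mem_sdiff]
    refine ⟨?_, hcon x hx⟩
    rw [astr_mr_mem hu1 huN hM]
    have hx' := hG hx
    rw [UU, mem_filter] at hx'
    exact hx'.2
  have h1 := card_le_card hsub
  rw [card_image_of_injOn hinj] at h1
  have h2 := card_sdiff_add_card_eq_card hG
  omega

/-- values of a real character -/
theorem astr_val {M : ℕ} (χ : DirichletCharacter ℂ M) (hχ : χ ^ 2 = 1) {x : ℕ} (hx : x.Coprime M) :
    (χ (x : ZMod M) = 1 ∨ χ (x : ZMod M) = -1) ∧ χ (x : ZMod M) = (((χ (x : ZMod M)).re : ℝ) : ℂ) := by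
  have h1 : χ (x : ZMod M) ^ 2 = 1 := by
    rw [← MulChar.pow_apply' χ two_ne_zero, hχ]
    exact MulChar.one_apply (by rw [ZMod.isUnit_iff_coprime]; exact hx)
  have h2 : χ (x : ZMod M) = 1 ∨ χ (x : ZMod M) = -1 := mul_self_eq_one_iff.mp (by rw [← sq]; exact h1)
  refine ⟨h2, ?_⟩
  rcases h2 with h | h <;> rw [h] <;> simp

/-- the size of `p ^ (k φ(W))` -/
theorem astr_size {W N : ℕ} (hA : NumA N) {P : ℕ}
    (hz : P ≤ z1 N) : ((P ^ W.totient : ℕ) : ℝ) ≤ (Real.log N) ^ (11 * (W : ℝ)) := by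
  have hK : 1 ≤ Real.log (N : ℝ) := by linarith [hA.K]
  have h1 : (P : ℝ) ≤ (Real.log N) ^ 11 := by
    refine (Nat.cast_le.mpr hz).trans ?_
    unfold z1
    exact Nat.floor_le (by positivity)
  push_cast
  calc (P : ℝ) ^ W.totient ≤ ((Real.log N) ^ 11) ^ W.totient := by gcongr
    _ = (Real.log N) ^ ((11 * W.totient : ℕ) : ℝ) := by
        rw [← pow_mul, Real.rpow_natCast]
    _ ≤ (Real.log N) ^ (11 * (W : ℝ)) := by
        apply Real.rpow_le_rpow_of_exponent_le hK
        push_cast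
        have : (W.totient : ℝ) ≤ W := by exact_mod_cast Nat.totient_le W
        linarith

theorem astr {W N a : ℕ} [NeZero (W * N)] (hc : Cf W N a) (hA : NumA N) {C1 : ℝ} (hC1 : 15 * (W : ℝ) + 30 ≤ C1)
    (χ : DirichletCharacter ℂ (W * N)) (hχ : χ ^ 2 = 1) (h : IV W N a C1 (1 / 10) (fun n => (χ (n : ZMod (W * N))).re))
    (p : ℕ) (hp : p.Prime) (hpN : p ∣ N) (hpW : ¬ p ∣ W) (hz : p ^ N.factorization p ≤ z1 N) :
    χ.conductor ∣ W * (N / p ^ N.factorization p) := by
  classical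
  have hM : 0 < W * N := Nat.pos_of_ne_zero (NeZero.ne _)
  have hW := hc.W1
  have hN : 1 ≤ N := Nat.pos_of_mul_pos_left hM
  have hK : 1 ≤ Real.log (N : ℝ) := by linarith [hA.K]
  obtain ⟨P, hP⟩ : ∃ P, P = p ^ N.factorization p := ⟨_, rfl⟩
  rw [← hP] at hz ⊢
  have hPN : P ∣ N := by rw [hP]; exact Nat.ordProj_dvd N p
  obtain ⟨N', hN'⟩ := hPN
  have hP0 : 0 < P := by rw [hP]; exact Nat.pos_of_ne_zero (pow_ne_zero _ hp.ne_zero)
  have hNP : N / P = N' := by rw [hN', Nat.mul_div_cancel_left _ hP0]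
  rw [hNP]
  have hd : W * N' ∣ W * N := ⟨P, by rw [hN']; ring⟩
  have hPW : P.Coprime W := by
    rw [hP]
    exact Nat.Coprime.pow_left _ ((Nat.Prime.coprime_iff_not_dvd hp).mpr hpW)
  -- the multiplier
  obtain ⟨l, hl⟩ : ∃ l, l = P ^ W.totient := ⟨_, rfl⟩
  have hl1 : 1 ≤ l := by rw [hl]; exact Nat.pos_of_ne_zero (pow_ne_zero _ hP0.ne')
  have hlW : l % W = 1 % W := by rw [hl]; exact Nat.ModEq.pow_totient hPW
  have hlP : P ∣ l := by
    rw [hl]
    exact dvd_pow_self P (Nat.totient_pos.mpr hW).ne'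
  have hlC : (l : ℝ) ≤ (Real.log N) ^ C1 := by
    rw [hl]
    refine (astr_size hA hz).trans (Real.rpow_le_rpow_of_exponent_le hK ?_)
    have : (0 : ℝ) ≤ W := Nat.cast_nonneg _
    linarith
  have hI := h.inv l hl1 hlW hlC
  have hZ := h.z
  -- the good set
  obtain ⟨G, hG⟩ : ∃ G, G = (UU W N a).filter (fun x => lam (mr W N l x) = lam l * lam x ∧
      lam x = (χ (x : ZMod (W * N))).re) := ⟨_, rfl⟩
  have hGs : G ⊆ UU W N a := by rw [hG]; exact filter_subset _ _
  have hcard : 2 * ((UU W N a) \ G).card < (UU W N a).card := by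
    have h1 : ((UU W N a) \ G) ⊆ (UU W N a).filter (fun x => lam (mr W N l x) ≠ lam l * lam x) ∪
        (UU W N a).filter (fun x => lam x ≠ (χ (x : ZMod (W * N))).re) := by
      intro x hx
      rw [mem_sdiff, hG, mem_filter] at hx
      rw [mem_union, mem_filter, mem_filter]
      by_cases h2 : lam (mr W N l x) = lam l * lam x
      · by_cases h3 : lam x = (χ (x : ZMod (W * N))).re
        · exact absurd ⟨hx.1, h2, h3⟩ hx.2
        · exact Or.inr ⟨hx.1, h3⟩
      · exact Or.inl ⟨hx.1, h2⟩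
    have h2 : (((UU W N a) \ G).card : ℝ) ≤ 1 / 10 * (del N * N) + 1 / 10 * (del N * N) := by
      refine le_trans ?_ (add_le_add hI hZ)
      exact_mod_cast (card_le_card h1).trans (card_union_le _ _)
    have h3 := UU_low hW hN hc.aW
    have h4 : 0 < del N * N := mul_pos (del_pos hN) (by exact_mod_cast hN)
    have h5 : 2 * (((UU W N a) \ G).card : ℝ) < (UU W N a).card := by linarith
    exact_mod_cast h5
  -- the character factors
  rw [← DirichletCharacter.mem_conductorSet_iff_conductor_dvd χ hd, DirichletCharacter.mem_conductorSet_iff,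
    DirichletCharacter.factorsThrough_iff_ker_unitsMap hd]
  intro v hv
  rw [MonoidHom.mem_ker] at hv ⊢
  obtain ⟨u, hu⟩ : ∃ u : ℕ, u = (v : ZMod (W * N)).val := ⟨_, rfl⟩
  have huv : ((u : ℕ) : ZMod (W * N)) = (v : ZMod (W * N)) := by rw [hu, ZMod.natCast_zmod_val]
  have huM : u.Coprime (W * N) := by rw [hu]; exact ZMod.val_coe_unit_coprime v
  have hu1 : u ≡ 1 [MOD W * N'] := by
    rw [← ZMod.natCast_eq_natCast_iff, Nat.cast_one]
    have h1 := congrArg (fun w : (ZMod (W * N'))ˣ => (w : ZMod (W * N'))) hv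
    change ((ZMod.unitsMap hd v : (ZMod (W * N'))ˣ) : ZMod (W * N')) = ((1 : (ZMod (W * N'))ˣ) : ZMod (W * N')) at h1
    rw [ZMod.unitsMap_val, ← huv, ZMod.cast_natCast hd, Units.val_one] at h1
    exact h1
  have huW : u % W = 1 % W := Nat.ModEq.of_dvd (Dvd.intro _ rfl) hu1
  have huN : u.Coprime N := huM.coprime_mul_left_right
  obtain ⟨x, hx, hx'⟩ := astr_perm hM huW huN huM G hGs hcard
  have hxU := hGs hx
  have hx2 := hx
  have hx3 := hx'
  rw [hG, mem_filter] at hx2 hx3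
  rw [UU, mem_filter] at hxU
  have hxM : x.Coprime (W * N) := Nat.Coprime.mul_right (cop_of_class hc.aW hxU.2.1) hxU.2.2
  have hmr : mr W N l (mr W N u x) = mr W N l x := by
    unfold mr
    rw [Nat.mul_mod_mod]
    have h1 : l * u ≡ l * 1 [MOD W * N] := by
      obtain ⟨l', hl'⟩ := hlP
      have h2 : P * u ≡ P * 1 [MOD P * (W * N')] := Nat.ModEq.mul_left' P hu1
      have h3 : P * (W * N') = W * N := by rw [hN']; ring
      rw [h3] at h2
      have h4 := h2.mul_left l'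
      have h5 : l' * (P * u) = l * u := by rw [hl']; ring
      have h6 : l' * (P * 1) = l * 1 := by rw [hl']; ring
      rwa [h5, h6] at h4
    have h2 := h1.mul_right x
    rw [mul_one, mul_assoc] at h2
    exact h2
  have hlam : lam x = lam (mr W N u x) := by
    have h1 := hx2.2.1
    have h2 := hx3.2.1
    rw [hmr, h1] at h2
    have h3 : lam l ≠ 0 := by
      intro h4
      have h5 := Pool.Agent.Lib.MP_45349e_nt.LS.abs_lam l
      rw [h4, abs_zero] at h5
      exact zero_ne_one h5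
    exact mul_left_cancel₀ h3 h2
  rw [hx2.2.2, hx3.2.2] at hlam
  have hmrc : ((mr W N u x : ℕ) : ZMod (W * N)) = (u : ZMod (W * N)) * (x : ZMod (W * N)) := by
    unfold mr
    rw [ZMod.natCast_mod, Nat.cast_mul]
  rw [hmrc, map_mul] at hlam
  obtain ⟨hx4, hx5⟩ := astr_val χ hχ hxM
  obtain ⟨hu4, hu5⟩ := astr_val χ hχ huM
  apply Units.ext
  rw [MulChar.coe_toUnitHom, Units.val_one, ← huv]
  rcases hu4 with h1 | h1
  · exact h1
  · exfalso
    rw [h1] at hlam
    rcases hx4 with h2 | h2 <;> rw [h2] at hlam <;> norm_num at hlam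

end Pool.Agent.Lib.OA
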