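import Mathlib
import Pool.Agent.Lib.MP_7b7e48_nt.OA.ASTR
import Pool.Agent.Lib.MP_7b7e48_nt.OW.CN3

/-!
# Module ASTQ (60 minutes): the value of the primitive character at the small prime factors of `N`

`arp`: `OW.rec_low` (`OW/MTQ.lean` or where it is proved; see its use in `OW/V0.lean`) with `x = ⌊K^2⌋`, `y = ⌊K^4⌋`: `∑ 1/r ≥ c0 (log(y/x) - 1)/log y ≥ c0/3` over the primes
`r ≡ b`, `K^2 < r ≤ K^4`; those which divide `N` contribute at most `2 K/K^2`; if the others all had `c r = 1`, then `sQ c (W N) ≥ c0/4`. (`c r ∈ {1, -1}` as `r ∤ W N`.)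
`astq`: notation of `ASTR`; `ψ` = primitive character, of conductor `f`, `f ∣ W N/p^k`, so `p ∤ f`; `c x = ψ x` for `x` coprime to `W N`. Let `r` be as in `arp` with `b = p`,
`ρ = p r^(φ(W)-1) ≡ 1 (mod W)`, `l1 = p^j`, `l2 = l1 ρ` (both `≤ K^C1`). Let `G` be the set of the `x ∈ UU` with `lam (mr l_i x) = lam l_i lam x` (`i = 1, 2`) and `lam x = c x`:
`card (UU \ G) ≤ 3 del N N/10 < card UU/2`. Let `u` be a unit modulo `W N` with `u ≡ ρ (mod W N/p^k)`, `u ≡ 1 (mod p^k)` (CRT, `p^k` is coprime to `W N/p^k`); `u ≡ 1 (mod W)`,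
so `x ↦ mr u x` is a bijection of `UU`: some `x ∈ G` has `x' = mr u x ∈ G`. `l1 x' ≡ l1 u x ≡ l1 ρ x = l2 x (mod W N)` (`p^k ∣ l1`), so `mr l1 x' = mr l2 x` and
`lam l1 c x' = lam l2 c x`, `c x' = ψ(x') = ψ(ρ) ψ(x)` (`f ∣ W N/p^k`): `ψ(ρ) lam ρ = 1`: `(-ψ(p)) (-ψ(r))^(φ(W)-1) = 1`, `ψ(r) = c r = -1`: so `ψ(p) = -1`.
-/

set_option autoImplicit false

open Finset
open Pool.Agent.Lib.MP_45349e_nt.LS (lam)

namespace Pool.Agent.Lib.OA

open Pool.Agent.Lib.OW
open Pool.Agent.Lib.RG (RC LV rr SS PB)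

private theorem ASTQ_log4 : Real.log 4 ≤ 2 := by
  have h1 : Real.log 4 = 2 * Real.log 2 := by
    rw [show (4 : ℝ) = 2 ^ 2 by norm_num, Real.log_pow]; norm_num
  rw [h1]
  have := Real.log_two_lt_d9
  linarith

theorem arp (W : ℕ) (hW : 1 ≤ W) : ∃ ε : ℝ, 0 < ε ∧ ∃ N0 : ℕ, ∀ N : ℕ, N0 ≤ N → ∀ c : ℕ → ℝ, RC (W * N) c →
    sQ c (W * N) ≤ ε → ∀ b : ℕ, b.Coprime W → ∃ r : ℕ, r.Prime ∧ r % W = b % W ∧ (r : ℝ) ≤ (Real.log N) ^ 4 ∧
      ¬ r ∣ W * N ∧ c r = -1 := by
  classical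
  obtain ⟨c0, hc0, x0, hrec⟩ := rec_low W hW
  refine ⟨c0 / 8, by positivity, ?_⟩
  have ht2 : Filter.Tendsto (fun N : ℕ => Real.log (N : ℝ)) Filter.atTop Filter.atTop :=
    Real.tendsto_log_atTop.comp tendsto_natCast_atTop_atTop
  have ht3 : Filter.Tendsto (fun N : ℕ => Real.log (Real.log (N : ℝ))) Filter.atTop Filter.atTop :=
    Real.tendsto_log_atTop.comp ht2
  obtain ⟨N1, hN1⟩ := pow_lt 4
  have hev := ((ht2.eventually_ge_atTop (max (max (x0 : ℝ) W) (max (32 / c0 + 1) 4))).and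
    (ht3.eventually_ge_atTop 3)).and (Filter.eventually_ge_atTop (max N1 1))
  obtain ⟨N0, hN0⟩ := Filter.eventually_atTop.mp hev
  refine ⟨N0, ?_⟩
  intro N hN c hRC hsQ b hb
  obtain ⟨⟨hs, hLK⟩, hN2⟩ := hN0 N hN
  have hNN1 : N1 ≤ N := (le_max_left _ _).trans hN2
  have hNpos : 1 ≤ N := (le_max_right _ _).trans hN2
  set K := Real.log (N : ℝ) with hKd
  have hKx : (x0 : ℝ) ≤ K := (le_max_left _ _).trans ((le_max_left _ _).trans hs)
  have hKW : (W : ℝ) ≤ K := (le_max_right _ _).trans ((le_max_left _ _).trans hs)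
  have hKc : 32 / c0 + 1 ≤ K := (le_max_left _ _).trans ((le_max_right _ _).trans hs)
  have hK4 : 4 ≤ K := (le_max_right _ _).trans ((le_max_right _ _).trans hs)
  have hKN : K ^ 4 ≤ N := by
    have h1 := hN1 N hNN1
    have h2 : K ^ (4 : ℝ) = K ^ 4 := by
      rw [← Real.rpow_natCast]
      norm_num
    rw [← h2]
    exact h1.le
  by_contra hcon
  push Not at hcon
  set x := ⌈K ^ 2⌉₊ with hx
  set y := ⌊K ^ 4⌋₊ with hy
  have hK2 : K ≤ K ^ 2 := by nlinarith
  have hx1 : K ^ 2 ≤ x := Nat.le_ceil _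
  have hx2 : (x : ℝ) ≤ 2 * K ^ 2 := by
    have := Nat.ceil_lt_add_one (by positivity : (0 : ℝ) ≤ K ^ 2)
    nlinarith
  have hy1 : (y : ℝ) ≤ K ^ 4 := Nat.floor_le (by positivity)
  have hK42 : K ^ 2 * K ^ 2 = K ^ 4 := by ring
  have hK44 : 2 ≤ K ^ 4 := by nlinarith
  have hy2 : K ^ 4 / 2 ≤ y := by
    have := Nat.lt_floor_add_one (K ^ 4)
    linarith
  have hratio : 2 * Real.log K - 2 ≤ Real.log ((y : ℝ) / x) := by
    have h1 : (K ^ 4 / 2) / (2 * K ^ 2) ≤ (y : ℝ) / x :=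
      div_le_div₀ (by linarith) hy2 (by nlinarith) hx2
    have h2 := Real.log_le_log (by positivity) h1
    have h3 : (K ^ 4 / 2) / (2 * K ^ 2) = K ^ 2 / 4 := by
      field_simp
      ring
    rw [h3, Real.log_div (by positivity) (by norm_num), Real.log_pow] at h2
    push_cast at h2
    linarith [ASTQ_log4]
  have hx0' : (0 : ℝ) < x := by nlinarith
  have hxy : x ≤ y := by
    have h3 : 1 < (y : ℝ) / x := by
      by_contra h
      push Not at h
      have := Real.log_nonpos (by positivity) h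
      linarith
    rw [lt_div_iff₀ hx0', one_mul] at h3
    exact_mod_cast h3.le
  have hx0 : x0 ≤ x := by
    have : (x0 : ℝ) ≤ x := hKx.trans (hK2.trans hx1)
    exact_mod_cast this
  have hr := hrec x y hx0 hxy b hb
  have hlogy : Real.log y ≤ 4 * Real.log K := by
    have h1 : Real.log (K ^ 4) = 4 * Real.log K := by
      rw [Real.log_pow]
      norm_num
    rw [← h1]
    exact Real.log_le_log (by linarith) hy1
  have hlogy0 : 0 < Real.log y := by
    have h1 : (x : ℝ) ≤ y := by exact_mod_cast hxy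
    exact Real.log_pos (by nlinarith)
  have hlow : c0 / 4 ≤ c0 * (Real.log (y / x) - 1) / Real.log y := by
    rw [le_div_iff₀ hlogy0]
    nlinarith
  set A0 : Finset ℕ := (Finset.Ioc x y).filter (fun p : ℕ => p.Prime ∧ p ≡ b [MOD W]) with hA0
  set A1 : Finset ℕ := QP c (W * N) with hA1
  set A2 : Finset ℕ := N.primeFactors.filter (fun p : ℕ => x < p) with hA2
  have hsub : A0 ⊆ A1 ∪ A2 := by
    intro p hp
    rw [hA0, mem_filter, mem_Ioc] at hp
    obtain ⟨⟨hp1, hp2⟩, hpp, hpb⟩ := hp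
    rw [mem_union]
    have hpy : (p : ℝ) ≤ K ^ 4 := by
      have : (p : ℝ) ≤ y := by exact_mod_cast hp2
      linarith
    by_cases hd : p ∣ W * N
    · right
      rcases hpp.dvd_mul.mp hd with h | h
      · exfalso
        have h1 : (p : ℝ) ≤ W := by exact_mod_cast Nat.le_of_dvd hW h
        have h2 : (x : ℝ) < p := by exact_mod_cast hp1
        linarith
      · rw [hA2, mem_filter, Nat.mem_primeFactors]
        exact ⟨⟨hpp, h, by omega⟩, hp1⟩
    · left
      have h1 := hcon p hpp hpb hpy hd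
      have h2 : p.Coprime (W * N) := (Nat.Prime.coprime_iff_not_dvd hpp).mpr hd
      rcases hRC.val p h2 with h3 | h3
      · rw [hA1]
        unfold QP
        rw [mem_filter, mem_range]
        refine ⟨?_, hpp, h3⟩
        have h4 : (p : ℝ) ≤ N := hpy.trans hKN
        have h5 : p ≤ N := by exact_mod_cast h4
        have h6 : N ≤ W * N := Nat.le_mul_of_pos_left _ hW
        omega
      · exact absurd h3 h1
  have hsum : ∑ p ∈ A0, 1 / (p : ℝ) ≤ sQ c (W * N) + ∑ p ∈ A2, 1 / (p : ℝ) := by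
    refine (sum_le_sum_of_subset_of_nonneg hsub fun _ _ _ => by positivity).trans ?_
    have h1 := sum_union_inter (s₁ := A1) (s₂ := A2) (f := fun p : ℕ => 1 / (p : ℝ))
    have h2 : 0 ≤ ∑ p ∈ A1 ∩ A2, 1 / (p : ℝ) := sum_nonneg fun _ _ => by positivity
    have h3 : sQ c (W * N) = ∑ p ∈ A1, 1 / (p : ℝ) := rfl
    rw [h3]
    linarith
  have hA2s : ∑ p ∈ A2, 1 / (p : ℝ) ≤ 2 / K := by
    have h1 : ∀ p ∈ A2, 1 / (p : ℝ) ≤ 1 / K ^ 2 := by
      intro p hp
      rw [hA2, mem_filter] at hp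
      apply one_div_le_one_div_of_le (by positivity)
      have : (x : ℝ) < p := by exact_mod_cast hp.2
      linarith
    have h2 := sum_le_sum h1
    rw [sum_const, nsmul_eq_mul] at h2
    refine h2.trans ?_
    have h3 : (A2.card : ℝ) ≤ 2 * K := by
      refine le_trans ?_ (omega_le hNpos)
      exact_mod_cast card_le_card (filter_subset _ _)
    calc (A2.card : ℝ) * (1 / K ^ 2) ≤ 2 * K * (1 / K ^ 2) := by gcongr
      _ = 2 / K := by
          field_simp
  have hKc2 : 2 / K ≤ c0 / 16 := by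
    rw [div_le_div_iff₀ (by linarith) (by norm_num)]
    have h1 : 32 / c0 ≤ K := by linarith
    rw [div_le_iff₀ hc0] at h1
    linarith
  linarith

private theorem ASTQ_lampow (r m : ℕ) (hr : r.Prime) : lam (r ^ m) = (-1) ^ m := by
  induction m with
  | zero => rw [pow_zero, pow_zero, Pool.Agent.Lib.MP_45349e_nt.LS.lam_one]
  | succ m ih =>
    rw [pow_succ, pow_succ, Pool.Agent.Lib.MP_45349e_nt.LS.lam_mul _ _ (pow_ne_zero _ hr.ne_zero)
      hr.ne_zero, ih, Pool.Agent.Lib.MP_45349e_nt.LS.lam_prime r hr]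

theorem astq {W N a : ℕ} [NeZero (W * N)] (hc : Cf W N a) (hA : NumA N) {C1 : ℝ} (hC1 : 15 * (W : ℝ) + 30 ≤ C1)
    (χ : DirichletCharacter ℂ (W * N)) (hχ : χ ^ 2 = 1) (h : IV W N a C1 (1 / 10) (fun n => (χ (n : ZMod (W * N))).re))
    (p : ℕ) (hp : p.Prime) (hpN : p ∣ N) (hpW : ¬ p ∣ W) (hz : p ^ N.factorization p ≤ z1 N)
    (hr : ∃ r : ℕ, r.Prime ∧ r % W = p % W ∧ (r : ℝ) ≤ (Real.log N) ^ 4 ∧ ¬ r ∣ W * N ∧ (χ (r : ZMod (W * N))).re = -1) :
    χ.primitiveCharacter (p : ZMod χ.conductor) = -1 := by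
  classical
  have hcond := astr hc hA hC1 χ hχ h p hp hpN hpW hz
  have hM : 0 < W * N := Nat.pos_of_ne_zero (NeZero.ne _)
  have hW := hc.W1
  have hN : 1 ≤ N := Nat.pos_of_mul_pos_left hM
  have hK : 1 ≤ Real.log (N : ℝ) := by linarith [hA.K]
  obtain ⟨r, hrp, hrW, hrK, hrM, hrχ⟩ := hr
  have hkpos : 0 < N.factorization p := hp.factorization_pos_of_dvd (by omega) hpN
  obtain ⟨P, hP⟩ : ∃ P, P = p ^ N.factorization p := ⟨_, rfl⟩
  rw [← hP] at hz hcond
  have hPN : P ∣ N := by rw [hP]; exact Nat.ordProj_dvd N p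
  obtain ⟨N', hN'⟩ := hPN
  have hP0 : 0 < P := by rw [hP]; exact Nat.pos_of_ne_zero (pow_ne_zero _ hp.ne_zero)
  have hNP : N / P = N' := by rw [hN', Nat.mul_div_cancel_left _ hP0]
  rw [hNP] at hcond
  have hpN' : ¬ p ∣ N' := by
    rw [← hNP, hP]
    exact Nat.not_dvd_ordCompl hp (by omega)
  have hPW : P.Coprime W := by
    rw [hP]
    exact Nat.Coprime.pow_left _ ((Nat.Prime.coprime_iff_not_dvd hp).mpr hpW)
  have hpWN' : p.Coprime (W * N') := (Nat.Prime.coprime_iff_not_dvd hp).mpr fun hd =>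
    (hp.dvd_mul.mp hd).elim hpW hpN'
  have hPWN' : P.Coprime (W * N') := by
    rw [hP]
    exact Nat.Coprime.pow_left _ hpWN'
  have hrWN : r.Coprime (W * N) := (Nat.Prime.coprime_iff_not_dvd hrp).mpr hrM
  have hd : W * N' ∣ W * N := ⟨P, by rw [hN']; ring⟩
  have hrWN' : r.Coprime (W * N') := Nat.Coprime.coprime_dvd_right hd hrWN
  obtain ⟨m, hm⟩ : ∃ m, W.totient = m + 1 :=
    ⟨W.totient - 1, by have := Nat.totient_pos.mpr hW; omega⟩
  -- the multipliers
  obtain ⟨ρ, hρ⟩ : ∃ ρ, ρ = p * r ^ m := ⟨_, rfl⟩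
  obtain ⟨l, hl⟩ : ∃ l, l = P ^ W.totient := ⟨_, rfl⟩
  have hρ0 : ρ ≠ 0 := by rw [hρ]; exact mul_ne_zero hp.ne_zero (pow_ne_zero _ hrp.ne_zero)
  have hl1 : 1 ≤ l := by rw [hl]; exact Nat.pos_of_ne_zero (pow_ne_zero _ hP0.ne')
  have hlW : l % W = 1 % W := by rw [hl]; exact Nat.ModEq.pow_totient hPW
  have hpW' : p.Coprime W := (Nat.Prime.coprime_iff_not_dvd hp).mpr hpW
  have hρW : ρ ≡ 1 [MOD W] := by
    have h1 : r ^ m ≡ p ^ m [MOD W] := Nat.ModEq.pow m hrW
    have h2 : p * r ^ m ≡ p * p ^ m [MOD W] := Nat.ModEq.mul_left p h1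
    have h3 : p * p ^ m = p ^ W.totient := by rw [hm, pow_succ, mul_comm]
    rw [h3] at h2
    rw [hρ]
    exact h2.trans (Nat.ModEq.pow_totient hpW')
  have hlP : P ∣ l := by
    rw [hl]
    exact dvd_pow_self P (Nat.totient_pos.mpr hW).ne'
  have hlC : (l : ℝ) ≤ (Real.log N) ^ (11 * (W : ℝ)) := by
    rw [hl]
    exact astr_size hA hz
  have hW0 : (1 : ℝ) ≤ W := by exact_mod_cast hW
  have hlC' : (l : ℝ) ≤ (Real.log N) ^ C1 :=
    hlC.trans (Real.rpow_le_rpow_of_exponent_le hK (by linarith))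
  have hρC : (ρ : ℝ) ≤ (Real.log N) ^ (4 * (W : ℝ) + 11) := by
    have h1 : (p : ℝ) ≤ (Real.log N) ^ 11 := by
      have h2 : p ≤ P := by rw [hP]; exact Nat.le_self_pow hkpos.ne' p
      refine (Nat.cast_le.mpr (h2.trans hz)).trans ?_
      unfold z1
      exact Nat.floor_le (by positivity)
    have h2 : (ρ : ℝ) ≤ (Real.log N) ^ 11 * ((Real.log N) ^ 4) ^ m := by
      rw [hρ]
      push_cast
      gcongr
    refine h2.trans ?_
    rw [← pow_mul, ← pow_add, ← Real.rpow_natCast]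
    apply Real.rpow_le_rpow_of_exponent_le hK
    push_cast
    have h3 : (W.totient : ℝ) ≤ W := by exact_mod_cast Nat.totient_le W
    rw [hm] at h3
    push_cast at h3
    linarith
  obtain ⟨l2, hl2⟩ : ∃ l2, l2 = l * ρ := ⟨_, rfl⟩
  have hl21 : 1 ≤ l2 := by
    rw [hl2]
    exact Nat.pos_of_ne_zero (mul_ne_zero (by omega) hρ0)
  have hl2W : l2 % W = 1 % W := by
    have h1 : l * ρ ≡ 1 * 1 [MOD W] := Nat.ModEq.mul hlW hρW
    rw [hl2]
    exact h1
  have hl2C : (l2 : ℝ) ≤ (Real.log N) ^ C1 := by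
    rw [hl2]
    push_cast
    calc (l : ℝ) * ρ ≤ (Real.log N) ^ (11 * (W : ℝ)) * (Real.log N) ^ (4 * (W : ℝ) + 11) := by
          gcongr
      _ = (Real.log N) ^ (11 * (W : ℝ) + (4 * (W : ℝ) + 11)) :=
          (Real.rpow_add (by linarith) _ _).symm
      _ ≤ _ := Real.rpow_le_rpow_of_exponent_le hK (by linarith)
  have hI := h.inv l hl1 hlW hlC'
  have hI2 := h.inv l2 hl21 hl2W hl2C
  have hZ := h.z
  -- the good set
  obtain ⟨G, hG⟩ : ∃ G, G = (UU W N a).filter (fun x => lam (mr W N l x) = lam l * lam x ∧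
      lam (mr W N l2 x) = lam l2 * lam x ∧ lam x = (χ (x : ZMod (W * N))).re) := ⟨_, rfl⟩
  have hGs : G ⊆ UU W N a := by rw [hG]; exact filter_subset _ _
  have hcard : 2 * ((UU W N a) \ G).card < (UU W N a).card := by
    have h1 : ((UU W N a) \ G) ⊆ (UU W N a).filter (fun x => lam (mr W N l x) ≠ lam l * lam x) ∪
        ((UU W N a).filter (fun x => lam (mr W N l2 x) ≠ lam l2 * lam x) ∪
        (UU W N a).filter (fun x => lam x ≠ (χ (x : ZMod (W * N))).re)) := by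
      intro x hx
      rw [mem_sdiff, hG, mem_filter] at hx
      rw [mem_union, mem_union, mem_filter, mem_filter, mem_filter]
      by_cases h2 : lam (mr W N l x) = lam l * lam x
      · by_cases h3 : lam (mr W N l2 x) = lam l2 * lam x
        · by_cases h4 : lam x = (χ (x : ZMod (W * N))).re
          · exact absurd ⟨hx.1, h2, h3, h4⟩ hx.2
          · exact Or.inr (Or.inr ⟨hx.1, h4⟩)
        · exact Or.inr (Or.inl ⟨hx.1, h3⟩)
      · exact Or.inl ⟨hx.1, h2⟩
    have h2 : (((UU W N a) \ G).card : ℝ) ≤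
        1 / 10 * (del N * N) + (1 / 10 * (del N * N) + 1 / 10 * (del N * N)) := by
      refine le_trans ?_ (add_le_add hI (add_le_add hI2 hZ))
      have h3 := (card_le_card h1).trans ((card_union_le _ _).trans
        (Nat.add_le_add_left (card_union_le _ _) _))
      exact_mod_cast h3
    have h3 := UU_low hW hN hc.aW
    have h4 : 0 < del N * N := mul_pos (del_pos hN) (by exact_mod_cast hN)
    have h5 : 2 * (((UU W N a) \ G).card : ℝ) < (UU W N a).card := by linarith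
    exact_mod_cast h5
  -- the unit
  obtain ⟨u, hu1, hu2⟩ := Nat.chineseRemainder hPWN'.symm ρ 1
  have huW : u % W = 1 % W := (Nat.ModEq.of_dvd (Dvd.intro _ rfl) hu1).trans hρW
  have hρWN' : ρ.Coprime (W * N') := by
    rw [hρ]
    exact Nat.Coprime.mul_left hpWN' (Nat.Coprime.pow_left _ hrWN')
  have huWN' : u.Coprime (W * N') := by
    unfold Nat.Coprime
    rw [hu1.gcd_eq]
    exact hρWN'
  have huP : u.Coprime P := by
    unfold Nat.Coprime
    rw [hu2.gcd_eq]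
    exact Nat.coprime_one_left P
  have huM : u.Coprime (W * N) := by
    have h1 : W * N = (W * N') * P := by rw [hN']; ring
    rw [h1]
    exact Nat.Coprime.mul_right huWN' huP
  have huN : u.Coprime N := huM.coprime_mul_left_right
  obtain ⟨x, hx, hx'⟩ := astr_perm hM huW huN huM G hGs hcard
  have hxU := hGs hx
  have hx2 := hx
  have hx3 := hx'
  rw [hG, mem_filter] at hx2 hx3
  rw [UU, mem_filter] at hxU
  have hxM : x.Coprime (W * N) := Nat.Coprime.mul_right (cop_of_class hc.aW hxU.2.1) hxU.2.2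
  have hmr : mr W N l (mr W N u x) = mr W N l2 x := by
    unfold mr
    rw [Nat.mul_mod_mod]
    have h1 : l * u ≡ l * ρ [MOD W * N] := by
      obtain ⟨l', hl'⟩ := hlP
      have h2 : P * u ≡ P * ρ [MOD P * (W * N')] := Nat.ModEq.mul_left' P hu1
      have h3 : P * (W * N') = W * N := by rw [hN']; ring
      rw [h3] at h2
      have h4 := h2.mul_left l'
      have h5 : l' * (P * u) = l * u := by rw [hl']; ring
      have h6 : l' * (P * ρ) = l * ρ := by rw [hl']; ring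
      rwa [h5, h6] at h4
    have h2 := h1.mul_right x
    rw [mul_assoc, ← hl2] at h2
    exact h2
  have hlaml : lam l ≠ 0 := by
    intro h4
    have h5 := Pool.Agent.Lib.MP_45349e_nt.LS.abs_lam l
    rw [h4, abs_zero] at h5
    exact zero_ne_one h5
  have hlamρ : lam ρ = (-1) ^ (m + 1) := by
    rw [hρ, Pool.Agent.Lib.MP_45349e_nt.LS.lam_mul _ _ hp.ne_zero (pow_ne_zero _ hrp.ne_zero),
      Pool.Agent.Lib.MP_45349e_nt.LS.lam_prime p hp, ASTQ_lampow r m hrp, pow_succ]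
    ring
  have hlam : lam (mr W N u x) = (-1) ^ (m + 1) * lam x := by
    have h1 := hx3.2.1
    have h2 := hx2.2.2.1
    rw [hmr, h2, hl2, Pool.Agent.Lib.MP_45349e_nt.LS.lam_mul _ _ (by omega) hρ0, hlamρ, mul_assoc] at h1
    exact (mul_left_cancel₀ hlaml h1).symm
  rw [hx2.2.2.2, hx3.2.2.2] at hlam
  have hmrM : (mr W N u x).Coprime (W * N) := by
    have h1 := hGs hx'
    rw [UU, mem_filter] at h1
    exact Nat.Coprime.mul_right (cop_of_class hc.aW h1.2.1) h1.2.2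
  have hcx : χ ((mr W N u x : ℕ) : ZMod (W * N)) = (-1) ^ (m + 1) * χ (x : ZMod (W * N)) := by
    rw [(astr_val χ hχ hmrM).2, hlam, (astr_val χ hχ hxM).2]
    push_cast
    simp
  have hmrc : ((mr W N u x : ℕ) : ZMod (W * N)) = (u : ZMod (W * N)) * (x : ZMod (W * N)) := by
    unfold mr
    rw [ZMod.natCast_mod, Nat.cast_mul]
  have hxne : χ (x : ZMod (W * N)) ≠ 0 := by
    rcases (astr_val χ hχ hxM).1 with h1 | h1 <;> rw [h1] <;> norm_num
  rw [hmrc, map_mul] at hcx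
  have hχu : χ (u : ZMod (W * N)) = (-1) ^ (m + 1) := mul_right_cancel₀ hxne hcx
  -- the primitive character
  have hprim : ∀ z : ℕ, z.Coprime (W * N) → χ.primitiveCharacter (z : ZMod χ.conductor) =
      χ (z : ZMod (W * N)) := by
    intro z hz'
    have h1 := DirichletCharacter.primitiveCharacter_apply_of_isCoprime χ (a := (z : ℤ))
      (Nat.isCoprime_iff_coprime.mpr hz')
    simpa using h1
  have hψu : χ.primitiveCharacter (u : ZMod χ.conductor) =
      χ.primitiveCharacter (ρ : ZMod χ.conductor) := by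
    congr 1
    rw [ZMod.natCast_eq_natCast_iff]
    exact Nat.ModEq.of_dvd hcond hu1
  have hχr : χ (r : ZMod (W * N)) = -1 := by
    rw [(astr_val χ hχ hrWN).2, hrχ]
    simp
  have h1 : χ.primitiveCharacter (p : ZMod χ.conductor) * (-1) ^ m = (-1) ^ (m + 1) := by
    rw [← hχu, ← hprim u huM, hψu, hρ, Nat.cast_mul, Nat.cast_pow, map_mul, map_pow,
      hprim r hrWN, hχr]
  rw [pow_succ, mul_comm ((-1 : ℂ) ^ m)] at h1
  have h2 : ((-1 : ℂ) ^ m) ≠ 0 := pow_ne_zero _ (by norm_num)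
  exact mul_right_cancel₀ h2 h1

end Pool.Agent.Lib.OA
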