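import Pool.Agent.Lib.MP_7b7e48_nt.OA.SPIc
import Pool.Agent.Lib.MP_7b7e48_nt.OA.ACHS
import Pool.Agent.Lib.MP_7b7e48_nt.OA.ASTQ
import Pool.Agent.Lib.MP_7b7e48_nt.OA.AREF
import Pool.Agent.Lib.MP_7b7e48_nt.OA.AES1
import Pool.Agent.Lib.MP_7b7e48_nt.OA.AES2
import Pool.Agent.Lib.MP_7b7e48_nt.OA.AFZ
import Pool.Agent.Lib.MP_7b7e48_nt.OA.AST
import Pool.Agent.Lib.MP_7b7e48_nt.OW.VF
import Pool.Agent.Lib.MP_7b7e48_nt.OW.FINN
import Pool.Agent.Lib.MP_7b7e48_nt.OW.V0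
import Pool.Agent.Lib.MP_7b7e48_nt.OA.ANum

/-!
# Theorem OA: the core theorem

Suppose that the class contains fewer than `N^(1-ε)` numbers of the pattern `(s, t)`. With `κ = - s t` the set `EA` is small (`aes`, `alam1`), so
`lam (l x) = lam l lam x` for most `x` (`ainv1`), the spectral theorem `sp2` gives a real character, `vx` its properties, `alam2` the stronger bound for
`EA`, `achs`, `astr`, `astq`, `aref` the structure of `EA`, `ainv2` the near invariance of the exceptional set `Z`, and `afinz` the contradiction.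
-/

set_option autoImplicit false

open Finset
open Pool.Agent.Lib.MP_45349e_nt.LS (lam lam_mul lam_prime abs_lam)

namespace Pool.Agent.Lib.OA

open Pool.Agent.Lib.OW
open Pool.Agent.Lib.RG (RC LV rr SS PB)

/-- `2 N^(1-ε) + 2 + 2 x N/K^(A+1) ≤ x N/K^A` if `x ≥ N^(-ε/4)` -/
theorem acn_main (ε : ℝ) (hε : 0 < ε) (hε1 : ε ≤ 1) (A : ℕ) : ∃ N0 : ℕ, ∀ N : ℕ, N0 ≤ N → ∀ x : ℝ, (N : ℝ) ^ (-(ε / 4)) ≤ x →
    2 * (N : ℝ) ^ (1 - ε) + 2 + 2 * (x * N / (Real.log N) ^ (A + 1)) ≤ x * N / (Real.log N) ^ A := by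
  obtain ⟨N1, h1⟩ := finn_pow (3 * ε / 4) (by positivity) A 8
  obtain ⟨N2, h2⟩ := finn_log 4
  refine ⟨max 3 (max N1 N2), fun N hN x hx => ?_⟩
  have hN3 : 3 ≤ N := (le_max_left _ _).trans hN
  have h1' := h1 N (((le_max_left _ _).trans (le_max_right _ _)).trans hN)
  have h2' := h2 N (((le_max_right _ _).trans (le_max_right _ _)).trans hN)
  have hN0 : (0 : ℝ) < N := by exact_mod_cast (by omega : 0 < N)
  have hN1 : (1 : ℝ) ≤ N := by exact_mod_cast (by omega : 1 ≤ N)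
  set K := Real.log N with hK
  have hK0 : 0 < K := by linarith
  have hKA : 0 < K ^ A := pow_pos hK0 A
  have hx0 : 0 < x := lt_of_lt_of_le (Real.rpow_pos_of_pos hN0 _) hx
  have h3 : 2 * (x * N / K ^ (A + 1)) ≤ x * N / K ^ A / 2 := by
    rw [pow_succ, ← div_div]
    have h4 : x * N / K ^ A / K ≤ x * N / K ^ A / 4 :=
      div_le_div_of_nonneg_left (by positivity) (by norm_num) h2'
    linarith
  have h6 : (1 : ℝ) ≤ (N : ℝ) ^ (1 - ε) := Real.one_le_rpow hN1 (by linarith)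
  have h4 : 4 * (N : ℝ) ^ (1 - ε) ≤ x * N / K ^ A / 2 := by
    rw [le_div_iff₀ (by norm_num : (0 : ℝ) < 2), le_div_iff₀ hKA]
    have h5 : (N : ℝ) ^ (1 - ε) * (N : ℝ) ^ (3 * ε / 4) = (N : ℝ) ^ (-(ε / 4)) * N := by
      rw [← Real.rpow_add hN0]
      conv_rhs => rw [← Real.rpow_one (N : ℝ)]
      rw [← Real.rpow_mul hN0.le, one_mul, ← Real.rpow_add hN0]
      congr 1
      ring
    calc 4 * (N : ℝ) ^ (1 - ε) * 2 * K ^ A = (N : ℝ) ^ (1 - ε) * (8 * K ^ A) := by ring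
      _ ≤ (N : ℝ) ^ (1 - ε) * (N : ℝ) ^ (3 * ε / 4) :=
          mul_le_mul_of_nonneg_left h1' (Real.rpow_nonneg hN0.le _)
      _ = (N : ℝ) ^ (-(ε / 4)) * N := h5
      _ ≤ x * N := mul_le_mul_of_nonneg_right hx hN0.le
  linarith

private theorem core_hv_mono {N W a : ℕ} {c : ℕ → ℝ} {β ε ε' : ℝ} (h : HV N W a c β ε) (he : ε ≤ ε') :
    HV N W a c β ε' := by
  refine ⟨h.rc, h.co, h.hb, h.z.trans ?_, h.q.trans he⟩
  have h1 : 0 ≤ del N := by
    unfold del
    positivity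
  gcongr

theorem acore0_of (vx : VXS) (ainv1 : AINV1S) (ainv2 : AINV2S) (W : ℕ) (hW : 1 ≤ W) (ε : ℝ) (hε : 0 < ε) (hε1 : ε ≤ 2 / 25) : ∃ N0 : ℕ, ∀ N : ℕ, N0 ≤ N → ∀ a : ℕ, Cf W N a →
    ∀ s t : ℝ, (s = 1 ∨ s = -1) → (t = 1 ∨ t = -1) → (N : ℝ) ^ (1 - ε) ≤ ((repA W N a s t).card : ℝ) := by
  classical
  have hWr : (1 : ℝ) ≤ W := by exact_mod_cast hW
  obtain ⟨η1, C1, hη1, hC1, Nz, hz⟩ := afinz W hW
  obtain ⟨A2, hinv2⟩ := ainv2 W hW C1
  obtain ⟨C, c1, ε2, hC, hc1, hε2, hvx⟩ := vx W hW (A2 + 1) (1 / 30) (ε / 4) (by norm_num) (by norm_num) (by positivity)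
  obtain ⟨Ni2, hi2⟩ := hinv2 η1 C c1 hη1 hC hc1
  obtain ⟨ε5, hε5, Nr, hrp⟩ := arp W hW
  obtain ⟨ε6, hε6, Ne, hne⟩ := ne_class W hW
  -- the small parameter
  obtain ⟨ε', hε', he1, he2, he3, he4, he5, he6⟩ : ∃ ε' : ℝ, 0 < ε' ∧ ε' ≤ ε2 ∧ C * ε' ≤ η1 ∧ C * ε' ≤ 1 / (100 * W) ∧
      ε' ≤ 1 / (100 * W) ∧ C * ε' ≤ ε5 ∧ ε' ≤ ε6 := by
    have h100 : (0 : ℝ) < 1 / (100 * W) := by positivity
    set x := min (min ε2 ε6) (min (1 / (100 * (W : ℝ))) (min η1 (min (1 / (100 * W)) ε5) / C)) with hx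
    have hm : 0 < min η1 (min (1 / (100 * (W : ℝ))) ε5) := lt_min hη1 (lt_min h100 hε5)
    have hx0 : 0 < x := lt_min (lt_min hε2 hε6) (lt_min h100 (by positivity))
    have h1 : x ≤ min η1 (min (1 / (100 * (W : ℝ))) ε5) / C := (min_le_right _ _).trans (min_le_right _ _)
    have h2 : C * x ≤ min η1 (min (1 / (100 * (W : ℝ))) ε5) := by
      calc C * x ≤ C * (min η1 (min (1 / (100 * (W : ℝ))) ε5) / C) := mul_le_mul_of_nonneg_left h1 hC.le
        _ = _ := by field_simp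
    refine ⟨x, hx0, (min_le_left _ _).trans (min_le_left _ _), h2.trans (min_le_left _ _),
      h2.trans ((min_le_right _ _).trans (min_le_left _ _)), (min_le_right _ _).trans (min_le_left _ _),
      h2.trans ((min_le_right _ _).trans (min_le_right _ _)), (min_le_left _ _).trans (min_le_right _ _)⟩
  obtain ⟨Nv, hv⟩ := hvx ε' hε' he1
  obtain ⟨η2, C1', hη2, hC1', Ns, hs2⟩ := sp2 W hW ε' hε'
  obtain ⟨A1, hinv1⟩ := ainv1 W hW (max (max C1 C1') (15 * W + 30))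
  obtain ⟨Ni1, hi1⟩ := hinv1 (min η2 (1 / 10)) (lt_min hη2 (by norm_num))
  obtain ⟨Nd, hd⟩ := alam1 W hW (A1 + 3)
  obtain ⟨Nd2, hd2⟩ := alam2 W hW (A2 + 1)
  obtain ⟨Nc, hch⟩ := achs W hW
  obtain ⟨Nl, hcl⟩ := achl W hW
  obtain ⟨Nu, hnumA⟩ := numA
  obtain ⟨Nb, hbig⟩ := del_big (C * (100 * W)) (29 / 30) (by norm_num)
  obtain ⟨Nm2, hm2⟩ := acn_main ε hε (by linarith) A2
  obtain ⟨Nm1, hm1⟩ := acn_main ε hε (by linarith) (A1 + 2)
  obtain ⟨Ng, hg⟩ := finn_log (100 * W)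
  refine ⟨Nz + Ni2 + Nv + Ns + Ni1 + Nd + Nd2 + Nc + Nl + Nu + Nb + Nm2 + Nm1 + Ng + Nr + Ne + 3, ?_⟩
  intro N hN a hc s t hs ht
  have gz : Nz ≤ N := by omega
  have gi2 : Ni2 ≤ N := by omega
  have gv : Nv ≤ N := by omega
  have gs : Ns ≤ N := by omega
  have gi1 : Ni1 ≤ N := by omega
  have gd : Nd ≤ N := by omega
  have gd2 : Nd2 ≤ N := by omega
  have gc : Nc ≤ N := by omega
  have gl : Nl ≤ N := by omega
  have gu : Nu ≤ N := by omega
  have gb : Nb ≤ N := by omega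
  have gm2 : Nm2 ≤ N := by omega
  have gm1 : Nm1 ≤ N := by omega
  have gg : Ng ≤ N := by omega
  have gr : Nr ≤ N := by omega
  have ge : Ne ≤ N := by omega
  have hN3 : 3 ≤ N := by omega
  by_contra hcon
  rw [not_le] at hcon
  haveI : NeZero (W * N) := ⟨by positivity⟩
  have hNr : (0 : ℝ) < N := by exact_mod_cast (by omega : 0 < N)
  have hN1r : (1 : ℝ) ≤ N := by exact_mod_cast (by omega : 1 ≤ N)
  have hA := hnumA N gu
  have hK : 100 * (W : ℝ) ≤ Real.log N := hg N gg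
  have hK1 : 1 ≤ Real.log N := by linarith
  have hK0 : 0 < Real.log N := by linarith
  have hdel0 : 0 < del N := del_pos (by omega)
  have hdel1 : del N ≤ 1 := del_le_one N
  have hUlow := UU_low (W := W) (N := N) (a := a) hW (by omega) hc.aW
  have hone : (N : ℝ) ^ (-(ε / 4)) ≤ 1 := by
    rw [Real.rpow_neg hNr.le]
    refine inv_le_one_of_one_le₀ ?_
    exact Real.one_le_rpow hN1r (by positivity)
  have hκ : (-(s * t)) ^ 2 = 1 := by
    rcases hs with rfl | rfl <;> rcases ht with rfl | rfl <;> norm_num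
  set κ := -(s * t) with hκdef
  have hEE := aes (W := W) hW (hc.alt.le.trans hc.WN) s t hs ht
  rw [← hκdef] at hEE
  -- first bound for EA
  have hE1 : ((EA W N a κ).card : ℝ) ≤ N / (Real.log N) ^ (A1 + 2) := by
    have h1 := hm1 N gm1 1 hone
    rw [one_mul] at h1
    have h3 : A1 + 2 + 1 = A1 + 3 := rfl
    rw [h3] at h1
    have hS1 := hd N gd a
    have hS2 := hd N gd (N - a)
    linarith
  have hE2 : ((EA W N a κ).card : ℝ) ≤ N / (Real.log N) ^ A1 := by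
    refine hE1.trans (div_le_div_of_nonneg_left hNr.le (pow_pos hK0 _) ?_)
    exact pow_le_pow_right₀ hK1 (by omega)
  have hE3 : ((EA W N a κ).card : ℝ) ≤ del N * N / (100 * W) := by
    refine hE1.trans ?_
    have h1 : (N : ℝ) / (Real.log N) ^ (A1 + 2) ≤ N / (Real.log N * (100 * W)) := by
      refine div_le_div_of_nonneg_left hNr.le (by positivity) ?_
      calc Real.log N * (100 * W) ≤ Real.log N * Real.log N := mul_le_mul_of_nonneg_left hK hK0.le
        _ = (Real.log N) ^ 2 := (sq _).symm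
        _ ≤ (Real.log N) ^ (A1 + 2) := pow_le_pow_right₀ hK1 (by omega)
    refine h1.trans ?_
    rw [div_le_div_iff₀ (by positivity) (by positivity)]
    have h2 := hA.d1
    have h3 : 0 ≤ (N : ℝ) * (100 * W) := by positivity
    calc (N : ℝ) * (100 * W) = 1 * (N * (100 * W)) := (one_mul _).symm
      _ ≤ (Real.log N * del N) * (N * (100 * W)) := mul_le_mul_of_nonneg_right h2 h3
      _ = del N * N * (Real.log N * (100 * W)) := by ring
  -- first application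
  have hinv : ∀ l : ℕ, 1 ≤ l → l % W = 1 % W → (l : ℝ) ≤ (Real.log N) ^ (max (max C1 C1') (15 * (W : ℝ) + 30)) →
      (((UU W N a).filter fun x => lam (mr W N l x) ≠ lam l * lam x).card : ℝ) ≤ min η2 (1 / 10) * (del N * N) :=
    fun l hl hlW hlK => hi1 N gi1 a hc κ hκ hE2 l hl hlW hlK
  have hdN : 0 ≤ del N * N := by positivity
  have hmono1 : (Real.log N) ^ C1 ≤ (Real.log N) ^ (max (max C1 C1') (15 * (W : ℝ) + 30)) :=
    Real.rpow_le_rpow_of_exponent_le hK1 ((le_max_left _ _).trans (le_max_left _ _))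
  have hmono2 : (Real.log N) ^ C1' ≤ (Real.log N) ^ (max (max C1 C1') (15 * (W : ℝ) + 30)) :=
    Real.rpow_le_rpow_of_exponent_le hK1 ((le_max_right _ _).trans (le_max_left _ _))
  have hinvp : ∀ l : ℕ, l.Prime → l % W = 1 % W → (l : ℝ) ≤ (Real.log N) ^ (max (max C1 C1') (15 * (W : ℝ) + 30)) →
      (((UU W N a).filter fun x => lam (mr W N l x) ≠ -lam x).card : ℝ) ≤ min η2 (1 / 10) * (del N * N) := by
    intro l hl hlW hlK
    have h1 := hinv l hl.one_lt.le hlW hlK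
    rw [lam_prime l hl] at h1
    simpa only [neg_one_mul] using h1
  obtain ⟨χ, β, hχ, hHV⟩ := hs2 N gs a hc.aW (by
    intro l hl hlW _ _ h2
    refine (hinvp l hl hlW (h2.trans hmono2)).trans ?_
    calc min η2 (1 / 10) * (del N * N) ≤ η2 * (del N * N) := mul_le_mul_of_nonneg_right (min_le_left _ _) hdN
      _ ≤ η2 * (UU W N a).card := mul_le_mul_of_nonneg_left hUlow hη2.le)
  obtain ⟨hβ, hσ, L, hVF⟩ := hv N gv a β χ hχ hHV
  obtain ⟨m, hm, hmW, hmc, hmv⟩ := hne N ge a _ β (core_hv_mono hHV he6)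
  subst hβ
  set c : ℕ → ℝ := fun n => (χ (n : ZMod (W * N))).re with hcdef
  have hrc : RC (W * N) c := hHV.rc
  set σ := sQ c (W * N) with hσdef
  have hσ0 : 0 < σ := lt_of_lt_of_le (Real.rpow_pos_of_pos hNr _) hVF.pos
  have h100 : (1 : ℝ) / (100 * W) ≤ 1 := by
    rw [div_le_one (by positivity)]
    linarith
  have hσ1 : σ ≤ 1 := (hσ.trans he3).trans h100
  have hZ : ((Zst N W a c 1).card : ℝ) ≤ del N * N / (100 * W) := by
    refine hHV.z.trans ?_
    calc ε' * del N * N ≤ 1 / (100 * W) * del N * N := by gcongr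
      _ = del N * N / (100 * W) := by ring
  -- the character is real
  have hreal : ∀ n : ℕ, n.Coprime (W * N) → χ (n : ZMod (W * N)) = 1 ∨ χ (n : ZMod (W * N)) = -1 := by
    intro n hn
    have h3 : IsUnit (n : ZMod (W * N)) := (ZMod.isUnit_iff_coprime n (W * N)).2 hn
    have h4 : (χ ^ 2) (n : ZMod (W * N)) = 1 := by
      rw [hχ]
      exact MulChar.one_apply h3
    rw [MulChar.pow_apply' χ two_ne_zero] at h4
    exact sq_eq_one_iff.1 h4
  -- second bound for EA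
  have hex : ∃ m : ℕ, m ≡ 1 [MOD W] ∧ m.Coprime (W * N) ∧ χ (m : ZMod (W * N)) ≠ 1 := by
    refine ⟨m, hmW, hmc, fun h => ?_⟩
    have h1 : (χ (m : ZMod (W * N))).re = -1 := hmv
    rw [h] at h1
    norm_num at h1
  have hσ50 : (N : ℝ) ^ (-(1 / 50) : ℝ) ≤ σ := by
    refine le_trans (Real.rpow_le_rpow_of_exponent_le hN1r ?_) hVF.pos
    linarith
  have hE4 : ((EA W N a κ).card : ℝ) ≤ σ * N / (Real.log N) ^ A2 := by
    have h1 := hm2 N gm2 σ hVF.pos
    have h2 := hd2 N gd2 χ hχ hex hσ1 hσ50 a hc.aW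
    have h3 := hd2 N gd2 χ hχ hex hσ1 hσ50 (N - a) hc.naW
    linarith
  -- reflection
  have htop : (((Finset.Ico 1 (W * N)).filter fun n => ∃ q : ℕ, q.Prime ∧ c q = 1 ∧ q ∣ n ∧
        (N : ℝ) * Real.exp (-(Real.log N) ^ ((1 : ℝ) / 30)) < q).card : ℝ) ≤ del N * N / (100 * W) := by
    refine hVF.top.trans ?_
    have h1 := hbig N gb
    have e1 : ((1 : ℝ) / 30 - 1) = -(29 / 30) := by norm_num
    rw [e1]
    rw [le_div_iff₀ (by positivity)]
    have h2 : 0 ≤ C * (Real.log N) ^ (-(29 / 30) : ℝ) * N * (100 * W) := by positivity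
    calc C * (Real.log N) ^ (-(29 / 30) : ℝ) * σ * N * (100 * W)
        = σ * (C * (Real.log N) ^ (-(29 / 30) : ℝ) * N * (100 * W)) := by ring
      _ ≤ 1 * (C * (Real.log N) ^ (-(29 / 30) : ℝ) * N * (100 * W)) := mul_le_mul_of_nonneg_right hσ1 h2
      _ = (C * (100 * W) * (Real.log N) ^ (-(29 / 30) : ℝ)) * N := by ring
      _ ≤ del N * N := mul_le_mul_of_nonneg_right h1 hNr.le
  obtain ⟨⟨n0, hn0⟩, hrefl⟩ := hch N gc a hc κ hκ χ hχ hrc hZ (hσ.trans he3) htop hE3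
  -- structure
  have hIV : IV W N a (max (max C1 C1') (15 * (W : ℝ) + 30)) (1 / 10) (fun n => (χ (n : ZMod (W * N))).re) := by
    refine ⟨fun l hl hlW hlK => (hinv l hl hlW hlK).trans (mul_le_mul_of_nonneg_right (min_le_right _ _) hdN), ?_⟩
    have h1 : ((UU W N a).filter fun x => lam x ≠ (χ (x : ZMod (W * N))).re).card ≤ (Zst N W a c 1).card := by
      refine card_le_card ?_
      intro x hx
      rw [mem_filter] at hx
      have h2 := hx.1
      unfold UU at h2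
      rw [mem_filter, mem_range] at h2
      unfold Zst Dom
      rw [mem_filter, mem_filter, mem_range, one_mul]
      exact ⟨⟨h2.1, h2.2.1, h2.2.2⟩, hx.2⟩
    have h2 : (((UU W N a).filter fun x => lam x ≠ (χ (x : ZMod (W * N))).re).card : ℝ) ≤ del N * N / (100 * W) :=
      le_trans (by exact_mod_cast h1) hZ
    refine h2.trans ?_
    rw [div_le_iff₀ (by positivity)]
    nlinarith
  have hCC : 15 * (W : ℝ) + 30 ≤ max (max C1 C1') (15 * (W : ℝ) + 30) := le_max_right _ _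
  have hstr : ∀ n ∈ EA W N a κ, OKn N n → ∃ q : ℕ, q.Prime ∧ c q = 1 ∧ (q ∣ n ∨ q ∣ N - n) := by
    intro n hn hok
    refine aref hc (by
      have := hA.J1
      by_contra hj
      have h0 : tJ N = 0 := by omega
      have h1 : (1 : ℝ) ≤ (Real.log N) ^ ((1 : ℝ) / 2000) := Real.one_le_rpow hK1 (by norm_num)
      unfold tJ at h0
      rw [Nat.floor_eq_zero] at h0
      linarith) χ hχ hκ hn0 (hrefl n0 hn0) ?_ hn hok
    intro p hp hpN hpW hpz
    refine ⟨astr hc hA hCC χ hχ hIV p hp hpN hpW hpz, ?_⟩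
    refine astq hc hA hCC χ hχ hIV p hp hpN hpW hpz ?_
    exact hrp N gr c hrc (hσ.trans he5) p ((Nat.Prime.coprime_iff_not_dvd hp).mpr hpW)
  have hZ8 : ((Zst N W a c 1).card : ℝ) ≤ del N * N / 8 := by
    refine hZ.trans (div_le_div_of_nonneg_left hdN (by norm_num) ?_)
    linarith
  refine hz N gz a hc c hrc (hσ.trans he2) ?_ ?_ ?_
  · have h1 : (0 : ℝ) < (Zst N W a c 1).card := by
      refine lt_of_lt_of_le ?_ hVF.low
      positivity
    exact_mod_cast h1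
  · refine hZ8.trans (div_le_div_of_nonneg_left hdN (by norm_num) (by norm_num))
  · intro l hl hlW hlN _ h2
    have h4 : l.Coprime (W * N) := by
      refine Nat.Coprime.mul_right ?_ ((Nat.Prime.coprime_iff_not_dvd hl).mpr hlN)
      have h5 : Nat.gcd l W = Nat.gcd 1 W := Nat.ModEq.gcd_eq hlW
      rw [Nat.Coprime, h5, Nat.gcd_one_left]
    have h5 : c l = -1 := by
      refine hcl N gl a hc c hrc hZ8 l hl hlW h4 ((hinvp l hl hlW (h2.trans hmono1)).trans ?_)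
      calc min η2 (1 / 10) * (del N * N) ≤ 1 / 8 * (del N * N) :=
            mul_le_mul_of_nonneg_right ((min_le_right _ _).trans (by norm_num)) hdN
        _ = del N * N / 8 := by ring
    exact hi2 N gi2 a hc κ hκ c L (ε / 4) (A2 + 1) hrc hVF hE4 hstr l hl hlW h2 h5

end Pool.Agent.Lib.OA
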