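import Mathlib
import Pool.Agent.Lib.MP_7b7e48_nt.OW.CEL
import Pool.Agent.Lib.MP_7b7e48_nt.OA.AST

/-!
# Module AFM: the points of `Land l M` at which a step fails

Copy of `OW/FM.lean` with `aul` instead of `ul`, `FlA` instead of `Fl`, the condition `n.Coprime N`, and the factor `del N` in all bounds.
-/

set_option autoImplicit false

open Finset
open Pool.Agent.Lib.MP_45349e_nt.LS (lam)

namespace Pool.Agent.Lib.OA

open Pool.Agent.Lib.OW
open Pool.Agent.Lib.RG (RC LV rr SS PB)

/-- no failure in a cell where the quotients match -/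
private lemma fm_match {W N A m u i j : ℕ} (hj : (A * u) / (W * N) = j) (hi : (m * A * u) / (W * N) = i)
    (hij : i = m * j) : ¬ FlA W N A m u := by
  intro h
  apply h.1
  unfold mr
  have h1 := Nat.div_add_mod (A * u) (W * N)
  have h2 := Nat.div_add_mod (m * A * u) (W * N)
  rw [hj] at h1
  rw [hi, hij] at h2
  generalize (A * u) % (W * N) = r at h1 ⊢
  generalize (m * A * u) % (W * N) = r' at h2 ⊢
  have h3 : m * r + m * (W * N * j) = m * A * u := by
    rw [mul_assoc m A u, ← h1]
    ring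
  have h4 : W * N * (m * j) = m * (W * N * j) := by ring
  rw [h4] at h2
  omega

/-- lower end of a cell -/
private def fc (N1 B c : ℕ) : ℕ := (c * N1 + B - 1) / B

private lemma fc_bd {N1 B c : ℕ} (hB : 0 < B) : c * N1 ≤ B * fc N1 B c ∧ B * fc N1 B c ≤ c * N1 + B - 1 := by
  have h1 := Nat.div_add_mod (c * N1 + B - 1) B
  have h2 := Nat.mod_lt (c * N1 + B - 1) hB
  unfold fc
  omega

private lemma fc_real {N1 B c : ℕ} (hB : 0 < B) : (fc N1 B (c + 1) : ℝ) - fc N1 B c ≤ N1 / B + 1 ∧
    (N1 : ℝ) / B - 1 ≤ (fc N1 B (c + 1) : ℝ) - fc N1 B c := by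
  obtain ⟨h1, h2⟩ := fc_bd (N1 := N1) (c := c) hB
  obtain ⟨h3, h4⟩ := fc_bd (N1 := N1) (c := c + 1) hB
  have h2' : B * fc N1 B c + 1 ≤ c * N1 + B := by omega
  have h4' : B * fc N1 B (c + 1) + 1 ≤ (c + 1) * N1 + B := by omega
  have hB' : (0 : ℝ) < B := by exact_mod_cast hB
  have g1 : (c : ℝ) * N1 ≤ B * fc N1 B c := by exact_mod_cast h1
  have g2 : (B : ℝ) * fc N1 B c + 1 ≤ c * N1 + B := by exact_mod_cast h2'
  have g3 : ((c : ℝ) + 1) * N1 ≤ B * fc N1 B (c + 1) := by exact_mod_cast h3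
  have g4 : (B : ℝ) * fc N1 B (c + 1) + 1 ≤ (c + 1) * N1 + B := by exact_mod_cast h4'
  constructor
  · rw [← sub_nonneg]
    have : (N1 : ℝ) / B + 1 - ((fc N1 B (c + 1) : ℝ) - fc N1 B c) =
        (N1 + B - B * fc N1 B (c + 1) + B * fc N1 B c) / B := by
      field_simp
      ring
    rw [this]
    apply div_nonneg _ hB'.le
    linarith
  · rw [← sub_nonneg]
    have : ((fc N1 B (c + 1) : ℝ) - fc N1 B c) - ((N1 : ℝ) / B - 1) =
        (B * fc N1 B (c + 1) - B * fc N1 B c - N1 + B) / B := by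
      field_simp
      ring
    rw [this]
    apply div_nonneg _ hB'.le
    linarith

open Classical in
theorem afm_of (aul : AULS) (W : ℕ) (hW : 1 ≤ W) (η C : ℝ) (hη : 0 < η) : ∃ N0 : ℕ, ∀ N : ℕ, N0 ≤ N →
    ∀ v l M A m k : ℕ, 1 ≤ v → v * LL N ^ 5 ≤ N → 1 ≤ l → 1 ≤ M → 1 ≤ A → 1 ≤ m → m ≤ 2 * tJ N →
    m * A * k = l * M → ((l * M : ℕ) : ℝ) ≤ (Real.log N) ^ C →
    (((Finset.range (W * N)).filter fun n => n.Coprime N ∧ v * n < W * N ∧ Land W N l M (v * n) ∧
      FlA W N A m (v * n)).card : ℝ) ≤ η * del N * N / (l * v) := by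
  have hW' : (0 : ℝ) < W := by exact_mod_cast hW
  obtain ⟨N0, hul⟩ := aul W hW (η / (4 * W)) (C + 1) (by positivity)
  have hlim : ∀ᶠ x : ℝ in Filter.atTop, (Real.log x) ^ C ≤ x / 2 := by
    have h1 := isLittleO_log_rpow_rpow_atTop C (show (0 : ℝ) < 1 by norm_num)
    have h2 := h1.bound (show (0 : ℝ) < 1 / 2 by norm_num)
    filter_upwards [h2, Filter.eventually_ge_atTop 1] with x hx h1x
    rw [Real.norm_eq_abs, Real.norm_eq_abs, Real.rpow_one, abs_of_nonneg (by linarith : (0 : ℝ) ≤ x)] at hx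
    have := le_abs_self ((Real.log x) ^ C)
    linarith
  obtain ⟨x0, hx0⟩ := Filter.eventually_atTop.1 hlim
  obtain ⟨N2, hN2⟩ := Filter.eventually_atTop.1
    ((Real.tendsto_log_atTop.comp tendsto_natCast_atTop_atTop).eventually_ge_atTop (2 : ℝ))
  refine ⟨max (max N0 N2) (max ⌈x0⌉₊ 1), fun N hN v l M A m k hv hvL hl hM hA hm hmJ hAk hK => ?_⟩
  have hN0 : N0 ≤ N := le_trans (le_trans (le_max_left _ _) (le_max_left _ _)) hN
  have hN2' : N2 ≤ N := le_trans (le_trans (le_max_right _ _) (le_max_left _ _)) hN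
  have hNx : ⌈x0⌉₊ ≤ N := le_trans (le_trans (le_max_left _ _) (le_max_right _ _)) hN
  have hN1 : 1 ≤ N := le_trans (le_trans (le_max_right _ _) (le_max_right _ _)) hN
  have hNr : (1 : ℝ) ≤ N := by exact_mod_cast hN1
  have hd : 0 ≤ del N := by unfold del; positivity
  have hxN : x0 ≤ (N : ℝ) := (Nat.le_ceil x0).trans (by exact_mod_cast hNx)
  have hKC := hx0 N hxN
  have hK2 : 2 ≤ Real.log N := hN2 N hN2'
  set K := Real.log N with hKdef
  set B := l * M with hBdef
  have hB : 0 < B := Nat.mul_pos hl hM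
  have hB' : (0 : ℝ) < B := by exact_mod_cast hB
  have hk : 0 < k := by
    rcases Nat.eq_zero_or_pos k with h | h
    · rw [h, mul_zero] at hAk
      omega
    · exact h
  have hN1' : 0 < W * N := Nat.mul_pos hW hN1
  set N1 := W * N with hN1def
  have hN1r : (N1 : ℝ) = W * N := by rw [hN1def]; push_cast; ring
  have hNN1 : (N : ℝ) ≤ N1 := by
    rw [hN1r]
    have : (1 : ℝ) ≤ W := by exact_mod_cast hW
    nlinarith
  have hBN : (B : ℝ) ≤ N / 2 := hK.trans hKC
  have hKC1 : K ^ (C + 1) = K ^ C * K := by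
    rw [Real.rpow_add (by linarith), Real.rpow_one]
  have hAB : A ≤ B := by
    rw [← hAk]
    calc A = 1 * A * 1 := by ring
      _ ≤ m * A * k := Nat.mul_le_mul (Nat.mul_le_mul hm le_rfl) hk
  have hKCpos : 0 < K ^ C := Real.rpow_pos_of_pos (by linarith) _
  have hAK : (A : ℝ) ≤ K ^ (C + 1) := by
    have h1 : (A : ℝ) ≤ B := by exact_mod_cast hAB
    rw [hKC1]
    nlinarith
  -- the cells
  have hcell : ∀ c : ℕ, c < B → l ∣ c →
      (((Finset.range N1).filter fun n => (n.Coprime N ∧ fc N1 B c ≤ v * n ∧ v * n < fc N1 B (c + 1)) ∧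
        FlA W N A m (v * n)).card : ℝ) ≤ η / (4 * W) * del N * ((fc N1 B (c + 1) : ℝ) - fc N1 B c) / v := by
    intro c hc hlc
    obtain ⟨hr1, hr2⟩ := fc_real (N1 := N1) (c := c) hB
    have hNB : (2 : ℝ) ≤ N1 / B := by
      rw [le_div_iff₀ hB']
      linarith
    have hpos : 0 ≤ (fc N1 B (c + 1) : ℝ) - fc N1 B c := by linarith
    have hfl : ∀ u : ℕ, fc N1 B c ≤ u → u < fc N1 B (c + 1) →
        (A * u) / N1 = c / (m * k) ∧ (m * A * u) / N1 = c / k := by
      intro u h1 h2
      have h3 : (B * u) / (W * N) = c := (cell_mem hN1' hB).2 ⟨h1, h2⟩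
      constructor
      · rw [hN1def, nest (W := W) (N := N) (A := A) (B := B) (k := m * k) (u := u) hN1' (Nat.mul_pos hm hk)
          (by rw [← hAk]; ring), h3]
      · rw [hN1def, nest (W := W) (N := N) (A := m * A) (B := B) (k := k) (u := u) hN1' hk hAk.symm, h3]
    by_cases hij : c / k = m * (c / (m * k))
    · have hempty : ((Finset.range N1).filter fun n => (n.Coprime N ∧ fc N1 B c ≤ v * n ∧ v * n < fc N1 B (c + 1)) ∧
          FlA W N A m (v * n)) = ∅ := by
        rw [Finset.filter_eq_empty_iff]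
        intro n _ h
        obtain ⟨h1, h2⟩ := hfl _ h.1.2.1 h.1.2.2
        exact fm_match h1 h2 hij h.2
      rw [hempty, Finset.card_empty, Nat.cast_zero]
      positivity
    · have h1 := hul N hN0 v A m (c / k) (c / (m * k)) (fc N1 B c) (fc N1 B (c + 1)) hv hvL hA hAK hm hmJ
        ?_ ?_ hfl hij
      · refine le_trans ?_ h1
        have : ((Finset.range N1).filter fun n => (n.Coprime N ∧ fc N1 B c ≤ v * n ∧ v * n < fc N1 B (c + 1)) ∧
            FlA W N A m (v * n)) ⊆ (Finset.range (W * N)).filter fun n => n.Coprime N ∧ fc N1 B c ≤ v * n ∧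
              v * n < fc N1 B (c + 1) ∧ ¬ LkA W N (m * mr W N A (v * n)) (mr W N (m * A) (v * n)) := by
          intro n hn
          rw [Finset.mem_filter] at hn ⊢
          exact ⟨hn.1, hn.2.1.1, hn.2.1.2.1, hn.2.1.2.2, hn.2.2.2⟩
        exact_mod_cast Finset.card_le_card this
      · show fc N1 B (c + 1) ≤ N1
        have h2 := (fc_bd (N1 := N1) (c := c + 1) hB).2
        by_contra hcon
        push Not at hcon
        have h3 : B * (N1 + 1) ≤ B * fc N1 B (c + 1) := Nat.mul_le_mul le_rfl hcon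
        have h4 : (c + 1) * N1 ≤ B * N1 := Nat.mul_le_mul hc le_rfl
        have h5 : B * (N1 + 1) = B * N1 + B := by ring
        omega
      · -- the length
        have h3 : (N : ℝ) / (2 * K ^ C) ≤ (fc N1 B (c + 1) : ℝ) - fc N1 B c := by
          have h4 : (N1 : ℝ) / (2 * B) ≤ (fc N1 B (c + 1) : ℝ) - fc N1 B c := by
            have : (N1 : ℝ) / (2 * B) = N1 / B / 2 := by
              field_simp
            rw [this]
            linarith
          have h5 : (N : ℝ) / (2 * K ^ C) ≤ N1 / (2 * B) := by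
            apply div_le_div₀ (by linarith) hNN1 (by positivity)
            linarith
          linarith
        calc (N : ℝ) ≤ K * N / 2 := by nlinarith
          _ = K ^ (C + 1) * (N / (2 * K ^ C)) := by
            rw [hKC1]
            field_simp
          _ ≤ _ := mul_le_mul_of_nonneg_left h3 (Real.rpow_nonneg (by linarith) _)
  -- cover
  have hcover : ((Finset.range N1).filter fun n => n.Coprime N ∧ v * n < N1 ∧ Land W N l M (v * n) ∧ FlA W N A m (v * n)) ⊆
      (Finset.range M).biUnion fun c' => (Finset.range N1).filter fun n =>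
        (n.Coprime N ∧ fc N1 B (l * c') ≤ v * n ∧ v * n < fc N1 B (l * c' + 1)) ∧ FlA W N A m (v * n) := by
    intro n hn
    rw [Finset.mem_filter] at hn
    obtain ⟨hn1, hn0, hn2, hn3, hn4⟩ := hn
    rw [land_iff hN1' hl] at hn3
    have h1 : (B * (v * n)) / (W * N) < B := by
      rw [Nat.div_lt_iff_lt_mul hN1']
      exact Nat.mul_lt_mul_of_pos_left hn2 hB
    obtain ⟨c', hc'⟩ := Nat.dvd_of_mod_eq_zero hn3
    rw [Finset.mem_biUnion]
    refine ⟨c', ?_, ?_⟩
    · rw [Finset.mem_range]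
      rw [← hBdef] at hc'
      rw [hc', hBdef] at h1
      exact lt_of_mul_lt_mul_left h1 (Nat.zero_le l)
    · rw [Finset.mem_filter]
      refine ⟨hn1, ⟨hn0, ?_⟩, hn4⟩
      exact (cell_mem hN1' hB).1 hc'
  calc (((Finset.range N1).filter fun n => n.Coprime N ∧ v * n < N1 ∧ Land W N l M (v * n) ∧ FlA W N A m (v * n)).card : ℝ)
      ≤ (((Finset.range M).biUnion fun c' => (Finset.range N1).filter fun n =>
        (n.Coprime N ∧ fc N1 B (l * c') ≤ v * n ∧ v * n < fc N1 B (l * c' + 1)) ∧ FlA W N A m (v * n)).card : ℝ) := by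
        exact_mod_cast Finset.card_le_card hcover
    _ ≤ ((∑ c' ∈ Finset.range M, ((Finset.range N1).filter fun n =>
        (n.Coprime N ∧ fc N1 B (l * c') ≤ v * n ∧ v * n < fc N1 B (l * c' + 1)) ∧ FlA W N A m (v * n)).card : ℕ) : ℝ) := by
        exact_mod_cast Finset.card_biUnion_le
    _ = ∑ c' ∈ Finset.range M, (((Finset.range N1).filter fun n =>
        (n.Coprime N ∧ fc N1 B (l * c') ≤ v * n ∧ v * n < fc N1 B (l * c' + 1)) ∧ FlA W N A m (v * n)).card : ℝ) := by
        push_cast
        rfl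
    _ ≤ ∑ c' ∈ Finset.range M, η / (4 * W) * del N * (2 * (N1 / B)) / v := by
        refine Finset.sum_le_sum fun c' hc' => ?_
        rw [Finset.mem_range] at hc'
        have hlt : l * c' < B := by
          rw [hBdef]
          exact Nat.mul_lt_mul_of_pos_left hc' hl
        refine (hcell (l * c') hlt (dvd_mul_right _ _)).trans ?_
        have hNB : (2 : ℝ) ≤ N1 / B := by
          rw [le_div_iff₀ hB']
          linarith
        have := (fc_real (N1 := N1) (c := l * c') hB).1
        have hv' : (0 : ℝ) < v := by exact_mod_cast hv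
        apply div_le_div_of_nonneg_right _ hv'.le
        apply mul_le_mul_of_nonneg_left _ (by positivity)
        linarith
    _ = η * del N * N / (2 * (l * v)) := by
        rw [Finset.sum_const, Finset.card_range, nsmul_eq_mul, hN1r, hBdef]
        have hv' : (0 : ℝ) < v := by exact_mod_cast hv
        have hl' : (0 : ℝ) < l := by exact_mod_cast hl
        have hM' : (0 : ℝ) < M := by exact_mod_cast hM
        push_cast
        field_simp
        ring
    _ ≤ η * del N * N / (l * v) := by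
        have hv' : (0 : ℝ) < v := by exact_mod_cast hv
        have hl' : (0 : ℝ) < l := by exact_mod_cast hl
        apply div_le_div_of_nonneg_left (by positivity) (by positivity)
        nlinarith [mul_pos hl' hv']


end Pool.Agent.Lib.OA
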