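import Pool.Agent.Lib.MP_7b7e48_nt.OA.ADef
import Pool.Agent.Lib.MP_7b7e48_nt.OW.M_1

/-!
# Module AM1 (30 minutes): short divisors coprime to `N`; all divisors

`da_four`: as `OW.d1_four` (`OW/M_1.lean`): the least common multiple of four divisors coprime to `N` is coprime to `N`.
`da_mul`: as `OW.d1_mul`. `amom`: `(τ(n) τ(N-n))^2 ≤ τ(n)^4 + τ(N-n)^4`, `OW.mt4`.
-/

set_option autoImplicit false

open Finset
open Pool.Agent.Lib.MP_45349e_nt.LS (lam)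

namespace Pool.Agent.Lib.OA

open Pool.Agent.Lib.OW
open Pool.Agent.Lib.RG (RC LV rr SS PB)

private lemma am1_card_mul (a b : ℕ) : (a * b).divisors.card ≤ a.divisors.card * b.divisors.card := by
  open Pointwise in
  rw [Nat.divisors_mul]
  exact Finset.card_mul_le

private lemma am1_lcm_le {a b A B : ℕ} (ha : a ≤ A) (hb : b ≤ B) : Nat.lcm a b ≤ A * B := by
  rcases Nat.eq_zero_or_pos a with h | h
  · simp [h]
  rcases Nat.eq_zero_or_pos b with h' | h'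
  · simp [h']
  exact (Nat.le_of_dvd (Nat.mul_pos h h') (Nat.lcm_dvd_mul a b)).trans (Nat.mul_le_mul ha hb)

private lemma am1_lcm_cop {a b N : ℕ} (ha : a.Coprime N) (hb : b.Coprime N) : (Nat.lcm a b).Coprime N :=
  Nat.Coprime.coprime_dvd_left (Nat.lcm_dvd_mul a b) (Nat.Coprime.mul_left ha hb)

theorem da_four (B N k : ℕ) (hk : 1 ≤ k) :
    (DA B N k : ℝ) ^ 4 ≤ ∑ E ∈ (Finset.Icc 1 (B ^ 4)).filter (fun E => E ∣ k ∧ E.Coprime N), (E.divisors.card : ℝ) ^ 4 := by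
  classical
  set S := k.divisors.filter fun e => e ≤ B ∧ e.Coprime N with hS
  have hmem : ∀ e ∈ S, e ∣ k ∧ e ≤ B ∧ 0 < e ∧ e.Coprime N := by
    intro e he
    rw [hS, mem_filter, Nat.mem_divisors] at he
    exact ⟨he.1.1, he.2.1, Nat.pos_of_dvd_of_pos he.1.1 hk, he.2.2⟩
  have hnat : S.card ^ 4 ≤ ∑ E ∈ (Finset.Icc 1 (B ^ 4)).filter (fun E => E ∣ k ∧ E.Coprime N), E.divisors.card ^ 4 := by
    have h1 : S.card ^ 4 = ((S ×ˢ S) ×ˢ (S ×ˢ S)).card := by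
      rw [card_product, card_product]; ring
    rw [h1]
    let g : (ℕ × ℕ) × (ℕ × ℕ) → ℕ := fun t => Nat.lcm (Nat.lcm t.1.1 t.1.2) (Nat.lcm t.2.1 t.2.2)
    have hmaps : ∀ t ∈ (S ×ˢ S) ×ˢ (S ×ˢ S), g t ∈ (Finset.Icc 1 (B ^ 4)).filter (fun E => E ∣ k ∧ E.Coprime N) := by
      intro t ht
      rw [mem_product, mem_product, mem_product] at ht
      obtain ⟨⟨h1, h2⟩, h3, h4⟩ := ht
      obtain ⟨a1, b1, c1, d1⟩ := hmem _ h1
      obtain ⟨a2, b2, c2, d2⟩ := hmem _ h2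
      obtain ⟨a3, b3, c3, d3⟩ := hmem _ h3
      obtain ⟨a4, b4, c4, d4⟩ := hmem _ h4
      rw [mem_filter, mem_Icc]
      refine ⟨⟨?_, ?_⟩, ?_, ?_⟩
      · exact Nat.lcm_pos (Nat.lcm_pos c1 c2) (Nat.lcm_pos c3 c4)
      · have := am1_lcm_le (am1_lcm_le b1 b2) (am1_lcm_le b3 b4)
        calc g t ≤ B * B * (B * B) := this
          _ = B ^ 4 := by ring
      · exact Nat.lcm_dvd (Nat.lcm_dvd a1 a2) (Nat.lcm_dvd a3 a4)
      · exact am1_lcm_cop (am1_lcm_cop d1 d2) (am1_lcm_cop d3 d4)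
    rw [Finset.card_eq_sum_card_fiberwise hmaps]
    refine Finset.sum_le_sum fun E hE => ?_
    rw [mem_filter, mem_Icc] at hE
    have h2 : E.divisors.card ^ 4 = ((E.divisors ×ˢ E.divisors) ×ˢ (E.divisors ×ˢ E.divisors)).card := by
      rw [card_product, card_product]; ring
    rw [h2]
    refine Finset.card_le_card ?_
    intro t ht
    rw [mem_filter] at ht
    have hgE : Nat.lcm (Nat.lcm t.1.1 t.1.2) (Nat.lcm t.2.1 t.2.2) = E := ht.2
    have hE0 : E ≠ 0 := by omega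
    rw [mem_product, mem_product, mem_product, Nat.mem_divisors, Nat.mem_divisors, Nat.mem_divisors,
      Nat.mem_divisors]
    refine ⟨⟨⟨?_, hE0⟩, ⟨?_, hE0⟩⟩, ⟨?_, hE0⟩, ⟨?_, hE0⟩⟩
    · rw [← hgE]; exact (Nat.dvd_lcm_left _ _).trans (Nat.dvd_lcm_left _ _)
    · rw [← hgE]; exact (Nat.dvd_lcm_right _ _).trans (Nat.dvd_lcm_left _ _)
    · rw [← hgE]; exact (Nat.dvd_lcm_left _ _).trans (Nat.dvd_lcm_right _ _)
    · rw [← hgE]; exact (Nat.dvd_lcm_right _ _).trans (Nat.dvd_lcm_right _ _)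
  have : DA B N k = S.card := rfl
  rw [this]
  exact_mod_cast hnat

theorem da_mul (B N q μ : ℕ) (hq : q.Prime) : (DA B N (q * μ) : ℝ) ^ 4 ≤ 16 * (μ.divisors.card : ℝ) ^ 4 := by
  have h1 : DA B N (q * μ) ≤ 2 * μ.divisors.card := by
    have h2 : DA B N (q * μ) ≤ (q * μ).divisors.card := Finset.card_filter_le _ _
    have h3 := am1_card_mul q μ
    have h4 : q.divisors.card = 2 := by
      rw [Nat.Prime.divisors hq, Finset.card_pair hq.one_lt.ne]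
    rw [h4] at h3
    omega
  have h2 : (DA B N (q * μ) : ℝ) ≤ 2 * (μ.divisors.card : ℝ) := by exact_mod_cast h1
  calc (DA B N (q * μ) : ℝ) ^ 4 ≤ (2 * (μ.divisors.card : ℝ)) ^ 4 := pow_le_pow_left₀ (by positivity) h2 4
    _ = 16 * (μ.divisors.card : ℝ) ^ 4 := by ring

theorem amom : ∃ N0 : ℕ, ∀ N : ℕ, N0 ≤ N →
    ∑ n ∈ Finset.Ioo 0 N, ((n.divisors.card * (N - n).divisors.card : ℕ) : ℝ) ^ 2 ≤ (Real.log N) ^ 20 * N := by
  refine ⟨⌈Real.exp 20⌉₊, fun N hN => ?_⟩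
  have hN1 : Real.exp 20 ≤ (N : ℝ) := Nat.ceil_le.1 hN
  have hN0 : (0 : ℝ) < N := lt_of_lt_of_le (Real.exp_pos _) hN1
  have hL : (20 : ℝ) ≤ Real.log N := (Real.le_log_iff_exp_le hN0).2 hN1
  set L := Real.log N with hLdef
  have h1 : ∑ n ∈ Finset.Ioo 0 N, ((n.divisors.card * (N - n).divisors.card : ℕ) : ℝ) ^ 2 ≤
      ∑ n ∈ Finset.Ioo 0 N, ((n.divisors.card : ℝ) ^ 4 + ((N - n).divisors.card : ℝ) ^ 4) := by
    refine Finset.sum_le_sum fun n _ => ?_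
    push_cast
    set x := (n.divisors.card : ℝ)
    set y := ((N - n).divisors.card : ℝ)
    nlinarith [sq_nonneg (x ^ 2 - y ^ 2), sq_nonneg (x ^ 2), sq_nonneg (y ^ 2)]
  rw [Finset.sum_add_distrib] at h1
  have h2 : ∑ n ∈ Finset.Ioo 0 N, ((N - n).divisors.card : ℝ) ^ 4 = ∑ n ∈ Finset.Ioo 0 N, (n.divisors.card : ℝ) ^ 4 := by
    refine Finset.sum_bij' (fun n _ => N - n) (fun n _ => N - n) ?_ ?_ ?_ ?_ ?_
    · intro n hn; rw [mem_Ioo] at hn ⊢; omega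
    · intro n hn; rw [mem_Ioo] at hn ⊢; omega
    · intro n hn; rw [mem_Ioo] at hn; show N - (N - n) = n; omega
    · intro n hn; rw [mem_Ioo] at hn; show N - (N - n) = n; omega
    · intro n hn; rfl
  have h3 : ∑ n ∈ Finset.Ioo 0 N, (n.divisors.card : ℝ) ^ 4 ≤ N * (1 + L) ^ 16 := by
    refine le_trans ?_ (mt4 N)
    refine Finset.sum_le_sum_of_subset_of_nonneg ?_ (fun _ _ _ => by positivity)
    intro n hn
    rw [mem_Ioo] at hn
    rw [mem_Icc]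
    omega
  rw [h2] at h1
  have h4 : (1 + L) ^ 16 ≤ (L * (21 / 20)) ^ 16 := by
    refine pow_le_pow_left₀ (by linarith) ?_ 16
    linarith
  have h5 : 2 * (L * (21 / 20)) ^ 16 ≤ L ^ 20 := by
    have h6 : (2 : ℝ) * (21 / 20) ^ 16 ≤ L ^ 4 := by
      have h7 : (20 : ℝ) ^ 4 ≤ L ^ 4 := pow_le_pow_left₀ (by norm_num) hL 4
      refine le_trans ?_ h7
      norm_num
    have h8 : (0 : ℝ) ≤ L ^ 16 := by positivity
    calc 2 * (L * (21 / 20)) ^ 16 = L ^ 16 * (2 * (21 / 20) ^ 16) := by ring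
      _ ≤ L ^ 16 * L ^ 4 := mul_le_mul_of_nonneg_left h6 h8
      _ = L ^ 20 := by ring
  calc ∑ n ∈ Finset.Ioo 0 N, ((n.divisors.card * (N - n).divisors.card : ℕ) : ℝ) ^ 2
      ≤ _ := h1
    _ ≤ N * (1 + L) ^ 16 + N * (1 + L) ^ 16 := add_le_add h3 h3
    _ = N * (2 * (1 + L) ^ 16) := by ring
    _ ≤ N * L ^ 20 := by
        refine mul_le_mul_of_nonneg_left ?_ hN0.le
        linarith
    _ = L ^ 20 * N := by ring

end Pool.Agent.Lib.OA
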