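import Mathlib
import Pool.Agent.Lib.MP_7b7e48_nt.OA.AM1

/-!
# Module AM3 (25 minutes): short divisors of `N - q μ`, `q` fixed

As `OW/M_3.lean`; `E` coprime to `N` and `E ∣ N - q μ` imply that `E` is coprime to `q`.
-/

set_option autoImplicit false

open Finset
open Pool.Agent.Lib.MP_45349e_nt.LS (lam)

namespace Pool.Agent.Lib.OA

open Pool.Agent.Lib.OW
open Pool.Agent.Lib.RG (RC LV rr SS PB)

private theorem am3_card (N q E : ℕ) (hq : 1 ≤ q) (hE : 1 ≤ E) (hEN : E.Coprime N) (S : Finset ℕ)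
    (hS : ∀ μ ∈ S, q * μ < N ∧ E ∣ N - q * μ) :
    S.card ≤ N / (q * E) + 1 := by
  have h1 : ∀ μ ∈ S, ∀ ν ∈ S, μ ≤ ν → μ % E = ν % E := by
    intro μ hμ ν hν hle
    obtain ⟨a1, a3⟩ := hS μ hμ
    obtain ⟨b1, b3⟩ := hS ν hν
    have hco : E.Coprime q := by
      rw [Nat.coprime_iff_gcd_eq_one]
      have g1 : E.gcd q ∣ N := by
        have g2 : N = (N - q * μ) + q * μ := by omega
        rw [g2]
        exact dvd_add ((Nat.gcd_dvd_left E q).trans a3)
          ((Nat.gcd_dvd_right E q).trans (dvd_mul_right q μ))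
      have g3 := Nat.dvd_gcd (Nat.gcd_dvd_left E q) g1
      rw [Nat.coprime_iff_gcd_eq_one.1 hEN] at g3
      exact Nat.dvd_one.1 g3
    have h2 : E ∣ (N - q * μ) - (N - q * ν) := Nat.dvd_sub a3 b3
    have h3 : (N - q * μ) - (N - q * ν) = q * (ν - μ) := by
      have : q * μ ≤ q * ν := Nat.mul_le_mul_left q hle
      rw [Nat.mul_sub]
      omega
    rw [h3] at h2
    have h4 : E ∣ ν - μ := hco.dvd_of_dvd_mul_left h2
    have h5 : μ ≡ ν [MOD E] := (Nat.modEq_iff_dvd' hle).mpr h4
    exact h5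
  have h2 : S.card ≤ (range (N / (q * E) + 1)).card := by
    apply card_le_card_of_injOn (fun μ => μ / E)
    · intro μ hμ
      have h3 := (hS μ hμ).1
      have h4 : μ / E ≤ N / (q * E) := by
        rw [Nat.le_div_iff_mul_le (by positivity)]
        calc μ / E * (q * E) = q * (μ / E * E) := by ring
          _ ≤ q * μ := Nat.mul_le_mul_left q (Nat.div_mul_le_self μ E)
          _ ≤ N := h3.le
      have h5 : μ / E < N / (q * E) + 1 := by omega
      simpa using h5
    · intro μ hμ ν hν hd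
      have h3 : μ % E = ν % E := by
        rcases le_total μ ν with h | h
        · exact h1 μ hμ ν hν h
        · exact (h1 ν hν μ hμ h).symm
      have hd' : μ / E = ν / E := hd
      rw [← Nat.div_add_mod μ E, ← Nat.div_add_mod ν E, hd', h3]
  rwa [card_range] at h2

theorem am_low (N q B : ℕ) (hq : 1 ≤ q) (hB : 1 ≤ B) (h : q * B ^ 4 ≤ N) :
    ∑ μ ∈ (Finset.range N).filter (fun μ => q * μ < N), (DA B N (N - q * μ) : ℝ) ^ 4 ≤
      2 * N / q * (1 + Real.log (B ^ 4 : ℕ)) ^ 16 := by
  set S := (Finset.range N).filter (fun μ => q * μ < N) with hS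
  have hq0 : (0 : ℝ) < q := by exact_mod_cast hq
  calc ∑ μ ∈ S, (DA B N (N - q * μ) : ℝ) ^ 4
      ≤ ∑ μ ∈ S, ∑ E ∈ (Finset.Icc 1 (B ^ 4)).filter (fun E => E.Coprime N),
          (if E ∣ N - q * μ then (E.divisors.card : ℝ) ^ 4 else 0) := by
        refine sum_le_sum fun μ hμ => ?_
        have h1 := (mem_filter.mp hμ).2
        have h2 := da_four B N (N - q * μ) (by omega)
        refine h2.trans (le_of_eq ?_)
        rw [← sum_filter, filter_filter]
        refine sum_congr ?_ fun _ _ => rfl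
        ext E
        simp only [mem_filter]
        tauto
    _ = ∑ E ∈ (Finset.Icc 1 (B ^ 4)).filter (fun E => E.Coprime N),
          ((S.filter (fun μ => E ∣ N - q * μ)).card : ℝ) * (E.divisors.card : ℝ) ^ 4 := by
        rw [sum_comm]
        refine sum_congr rfl fun E _ => ?_
        rw [← sum_filter, sum_const, nsmul_eq_mul]
    _ ≤ ∑ E ∈ (Finset.Icc 1 (B ^ 4)).filter (fun E => E.Coprime N),
          2 * N / q * ((E.divisors.card : ℝ) ^ 4 / E) := by
        refine sum_le_sum fun E hE => ?_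
        rw [mem_filter, Finset.mem_Icc] at hE
        obtain ⟨hE, hEN⟩ := hE
        have hE0 : (0 : ℝ) < E := by exact_mod_cast hE.1
        have h1 := am3_card N q E hq hE.1 hEN (S.filter (fun μ => E ∣ N - q * μ)) (by
          intro μ hμ
          rw [mem_filter] at hμ
          exact ⟨(mem_filter.mp hμ.1).2, hμ.2⟩)
        have h2 : ((S.filter (fun μ => E ∣ N - q * μ)).card : ℝ) ≤ 2 * N / (q * E) := by
          have h3 : ((S.filter (fun μ => E ∣ N - q * μ)).card : ℝ) ≤ ((N / (q * E) : ℕ) : ℝ) + 1 := by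
            exact_mod_cast h1
          have h4 : ((N / (q * E) : ℕ) : ℝ) ≤ (N : ℝ) / ((q * E : ℕ) : ℝ) := Nat.cast_div_le
          have h5 : (1 : ℝ) ≤ (N : ℝ) / (q * E) := by
            rw [one_le_div (by positivity)]
            have h6 : q * E ≤ N := (Nat.mul_le_mul_left q hE.2).trans h
            exact_mod_cast h6
          push_cast at h4
          have h6 : 2 * (N : ℝ) / (q * E) = N / (q * E) + N / (q * E) := by ring
          linarith
        have h3 := mul_le_mul_of_nonneg_right h2 (by positivity : (0 : ℝ) ≤ (E.divisors.card : ℝ) ^ 4)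
        refine h3.trans (le_of_eq ?_)
        field_simp
    _ ≤ ∑ E ∈ Finset.Icc 1 (B ^ 4), 2 * N / q * ((E.divisors.card : ℝ) ^ 4 / E) :=
        sum_le_sum_of_subset_of_nonneg (filter_subset _ _) (fun E _ _ => by positivity)
    _ = 2 * N / q * ∑ E ∈ Finset.Icc 1 (B ^ 4), (E.divisors.card : ℝ) ^ 4 / E := by rw [mul_sum]
    _ ≤ 2 * N / q * (1 + Real.log (B ^ 4 : ℕ)) ^ 16 :=
        mul_le_mul_of_nonneg_left (mt4_div (B ^ 4)) (by positivity)

end Pool.Agent.Lib.OA
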