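import Mathlib
import Pool.Agent.Lib.MP_7b7e48_nt.OA.AM3
import Pool.Agent.Lib.MP_7b7e48_nt.OA.AM4

/-!
# Module AM2 (50 minutes): the second moment over the numbers with a prime factor `q`, `c q = 1`; Cauchy's inequality

`am2`: as `m2` in `OW/MOM.lean` (`incA N n ^ 2 ≤ DA n ^ 4 + DA (N-n) ^ 4`); the condition that `N - q μ` is coprime to `q` is not needed (`am_low`); `q ∤ N` because
`c q = 1` (`RC.zero`). `arel1`, `arel2`: Cauchy's inequality as in `OW/REL.lean`, from `amom` and from `am2` applied to `E1 = {n ∈ E : q ∣ n for some q}` and to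
`{N - n : n ∈ E, q ∣ N - n for some q}` (`incA N (N - n) = incA N n`).
-/

set_option autoImplicit false

open Finset
open Pool.Agent.Lib.MP_45349e_nt.LS (lam)

namespace Pool.Agent.Lib.OA

open Pool.Agent.Lib.OW
open Pool.Agent.Lib.RG (RC LV rr SS PB)

private theorem incA_le (N n : ℕ) :
    (incA N n : ℝ) ^ 2 ≤ (DA (LL N) N n : ℝ) ^ 4 + (DA (LL N) N (N - n) : ℝ) ^ 4 := by
  unfold incA
  push_cast
  nlinarith [sq_nonneg ((DA (LL N) N n : ℝ) ^ 2 - (DA (LL N) N (N - n) : ℝ) ^ 2),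
    sq_nonneg ((DA (LL N) N n : ℝ) ^ 2), sq_nonneg ((DA (LL N) N (N - n) : ℝ) ^ 2)]

private theorem incA_symm (N n : ℕ) (h : n ≤ N) : incA N (N - n) = incA N n := by
  unfold incA
  rw [Nat.sub_sub_self h, mul_comm]

/-- `LL N ^ 5 ≤ N ^ (1/50)` for large `N` -/
private theorem am_LL : ∃ N0 : ℕ, ∀ N : ℕ, N0 ≤ N → ((LL N : ℕ) : ℝ) ^ 5 ≤ (N : ℝ) ^ ((1 : ℝ) / 50) := by
  have hev : ∀ᶠ x : ℝ in Filter.atTop, (250 : ℝ) ≤ x ^ ((39 : ℝ) / 40) :=
    (tendsto_rpow_atTop (by norm_num)).eventually_ge_atTop _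
  obtain ⟨x0, hx0⟩ := Filter.eventually_atTop.1 hev
  refine ⟨max 3 ⌈Real.exp (max x0 1)⌉₊, ?_⟩
  intro N hN
  have hN3 : 3 ≤ N := (le_max_left _ _).trans hN
  have hNe : Real.exp (max x0 1) ≤ N := (Nat.le_ceil _).trans (by exact_mod_cast (le_max_right _ _).trans hN)
  have hN0 : (0 : ℝ) < N := by exact_mod_cast (by omega : 0 < N)
  have hK : max x0 1 ≤ Real.log N := by rwa [Real.le_log_iff_exp_le hN0]
  have hK1 : 1 ≤ Real.log N := (le_max_right _ _).trans hK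
  have hKx : x0 ≤ Real.log N := (le_max_left _ _).trans hK
  have hK0 : 0 < Real.log N := by linarith
  have h1 : 250 * (Real.log N) ^ ((1 : ℝ) / 40) ≤ Real.log N := by
    calc 250 * (Real.log N) ^ ((1 : ℝ) / 40)
        ≤ (Real.log N) ^ ((39 : ℝ) / 40) * (Real.log N) ^ ((1 : ℝ) / 40) :=
          mul_le_mul_of_nonneg_right (hx0 _ hKx) (by positivity)
      _ = Real.log N := by
          rw [← Real.rpow_add hK0]
          norm_num
  have h2 : ((LL N : ℕ) : ℝ) ≤ Real.exp ((Real.log N) ^ ((1 : ℝ) / 40)) := Nat.floor_le (Real.exp_pos _).le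
  calc ((LL N : ℕ) : ℝ) ^ 5 ≤ (Real.exp ((Real.log N) ^ ((1 : ℝ) / 40))) ^ 5 :=
        pow_le_pow_left₀ (Nat.cast_nonneg _) h2 5
    _ = Real.exp (5 * (Real.log N) ^ ((1 : ℝ) / 40)) := by
        rw [← Real.exp_nat_mul]
        norm_num
    _ ≤ Real.exp (1 / 50 * Real.log N) := Real.exp_le_exp.2 (by linarith)
    _ = (N : ℝ) ^ ((1 : ℝ) / 50) := by
        rw [Real.rpow_def_of_pos hN0]
        ring_nf

private theorem am_harm (B : ℕ) : ∑ μ ∈ Finset.Icc 1 B, 1 / (μ : ℝ) ≤ 1 + Real.log B := by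
  have h := harmonic_le_one_add_log B
  rw [harmonic_eq_sum_Icc] at h
  push_cast at h
  simpa only [one_div] using h

open Classical in
theorem am2 (W : ℕ) (hW : 1 ≤ W) : ∃ CM : ℝ, 0 ≤ CM ∧ ∃ N0 : ℕ, ∀ N : ℕ, N0 ≤ N → ∀ (c : ℕ → ℝ) (L : ℝ),
    RC (W * N) c → LV (W * N) c L → ((W * N : ℕ) : ℝ) ^ (-(1 / 50) : ℝ) ≤ L →
    ∑ n ∈ (Finset.Ioo 0 N).filter (fun n => (N - n).Coprime W ∧ ∃ q : ℕ, q.Prime ∧ c q = 1 ∧ q ∣ n), (incA N n : ℝ) ^ 2 ≤
      (Real.log N) ^ CM * (sQ c (W * N) + L) * N := by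
  obtain ⟨N1, hN1⟩ := am_LL
  obtain ⟨N2, hN2⟩ := am_high W hW
  obtain ⟨N3, hN3⟩ := num W
  have hev : ∀ᶠ x : ℝ in Filter.atTop, (W : ℝ) ^ ((1 : ℝ) / 50) ≤ x ^ ((3 : ℝ) / 100) :=
    (tendsto_rpow_atTop (by norm_num)).eventually_ge_atTop _
  obtain ⟨x0, hx0⟩ := Filter.eventually_atTop.1 hev
  refine ⟨25, by norm_num, max (max (max 3 ⌈Real.exp 100⌉₊) (max N1 N2)) (max N3 ⌈x0⌉₊), ?_⟩
  intro N hN c L hc hL hLow
  have hNa : max (max 3 ⌈Real.exp 100⌉₊) (max N1 N2) ≤ N := (le_max_left _ _).trans hN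
  have hNb : max N3 ⌈x0⌉₊ ≤ N := (le_max_right _ _).trans hN
  have hNc : max 3 ⌈Real.exp 100⌉₊ ≤ N := (le_max_left _ _).trans hNa
  have hNd : max N1 N2 ≤ N := (le_max_right _ _).trans hNa
  have h3 : 3 ≤ N := (le_max_left _ _).trans hNc
  have hNe : Real.exp 100 ≤ N := (Nat.le_ceil _).trans (by exact_mod_cast (le_max_right _ _).trans hNc)
  have hNx : x0 ≤ (N : ℝ) := (Nat.le_ceil x0).trans (by exact_mod_cast (le_max_right _ _).trans hNb)
  have hLL := hN1 N ((le_max_left _ _).trans hNd)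
  have hhigh := hN2 N ((le_max_right _ _).trans hNd) c L hc hL
  have hnum := hN3 N ((le_max_left _ _).trans hNb)
  have hN0 : (0 : ℝ) < N := by exact_mod_cast (by omega : 0 < N)
  have hNone : (1 : ℝ) ≤ N := by exact_mod_cast (by omega : 1 ≤ N)
  have hK : 100 ≤ Real.log N := by rwa [Real.le_log_iff_exp_le hN0]
  set K : ℝ := Real.log N with hKdef
  have hL0 : 0 ≤ L := hL.1
  have hWN : 2 ≤ W * N := by nlinarith
  set B : ℕ := LL N with hB
  have hB1 : 1 ≤ B := by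
    have h1 := hnum.JL
    have h2 := hnum.J1
    have h5 : 1 ≤ 4 * tJ N * W := Nat.mul_pos (by omega) hW
    omega
  have hB5N : ((B : ℕ) : ℝ) ^ 5 ≤ N := by
    refine hLL.trans ?_
    calc (N : ℝ) ^ ((1 : ℝ) / 50) ≤ (N : ℝ) ^ (1 : ℝ) :=
          Real.rpow_le_rpow_of_exponent_le hNone (by norm_num)
      _ = N := Real.rpow_one _
  have hB0 : (1 : ℝ) ≤ (B : ℝ) := by exact_mod_cast hB1
  have hlogB5 : Real.log ((B ^ 5 : ℕ) : ℝ) ≤ K := by
    push_cast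
    exact Real.log_le_log (by positivity) hB5N
  have hlogB4 : Real.log ((B ^ 4 : ℕ) : ℝ) ≤ K := by
    push_cast
    refine Real.log_le_log (by positivity) (le_trans ?_ hB5N)
    exact pow_le_pow_right₀ hB0 (by norm_num)
  set S := (Finset.Ioo 0 N).filter (fun n => (N - n).Coprime W ∧ ∃ q : ℕ, q.Prime ∧ c q = 1 ∧ q ∣ n) with hS
  -- the primes
  set Q := (Finset.range N).filter (fun q => q.Prime ∧ c q = 1) with hQ
  set T := (Q ×ˢ Finset.Ico 1 N).filter (fun e => e.1 * e.2 < N ∧ (N - e.1 * e.2).Coprime W) with hT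
  have hσ : ∑ q ∈ Q, 1 / (q : ℝ) ≤ sQ c (W * N) := by
    unfold sQ
    refine sum_le_sum_of_subset_of_nonneg ?_ fun q _ _ => by positivity
    intro q hq
    rw [hQ, mem_filter, mem_range] at hq
    unfold QP
    rw [mem_filter, mem_range]
    refine ⟨?_, hq.2⟩
    have : N ≤ W * N := Nat.le_mul_of_pos_left N (by omega)
    omega
  have hσ0 : 0 ≤ sQ c (W * N) := by
    unfold sQ
    exact sum_nonneg fun q _ => by positivity
  -- the reduction to pairs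
  have hmapS : ∀ e ∈ T, e.1 * e.2 ∈ S := by
    intro e he
    rw [hT, mem_filter, mem_product, hQ, mem_filter, mem_range, mem_Ico] at he
    rw [hS, mem_filter, mem_Ioo]
    exact ⟨⟨Nat.mul_pos he.1.1.2.1.pos he.1.2.1, he.2.1⟩, he.2.2, e.1, he.1.1.2.1, he.1.1.2.2, dvd_mul_right _ _⟩
  have hstep : ∀ F : ℕ → ℝ, (∀ n, 0 ≤ F n) → ∑ n ∈ S, F n ≤ ∑ e ∈ T, F (e.1 * e.2) := by
    intro F hF
    rw [← Finset.sum_fiberwise_of_maps_to hmapS]
    refine sum_le_sum fun n hn => ?_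
    rw [hS, mem_filter, mem_Ioo] at hn
    obtain ⟨⟨hnpos, hnN⟩, hn2, q, hq, hcq, hqn⟩ := hn
    obtain ⟨μ, hμ⟩ := hqn
    have hn0 : n ≠ 0 := by omega
    have hμ1 : 1 ≤ μ := by
      rcases Nat.eq_zero_or_pos μ with h | h
      · rw [h, mul_zero] at hμ
        exact absurd hμ hn0
      · exact h
    have hq1 : 1 ≤ q := hq.one_lt.le
    have hmem : (q, μ) ∈ T.filter (fun e => e.1 * e.2 = n) := by
      rw [mem_filter, hT, mem_filter, mem_product, hQ, mem_filter, mem_range, mem_Ico]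
      have e1 : q ≤ n := by rw [hμ]; exact Nat.le_mul_of_pos_right q hμ1
      have e2 : μ ≤ n := by rw [hμ]; exact Nat.le_mul_of_pos_left μ hq1
      refine ⟨⟨⟨⟨by omega, hq, hcq⟩, hμ1, by omega⟩, ?_, ?_⟩, hμ.symm⟩
      · show q * μ < N
        rw [← hμ]; exact hnN
      · show (N - q * μ).Coprime W
        rw [← hμ]; exact hn2
    have h5 := single_le_sum (f := fun e : ℕ × ℕ => F (e.1 * e.2)) (fun e _ => hF _) hmem
    simp only at h5
    rw [hμ]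
    rw [← hμ] at h5 ⊢
    exact h5
  -- the summand
  have h1 : ∑ n ∈ S, (incA N n : ℝ) ^ 2 ≤
      ∑ e ∈ T, ((DA B N (e.1 * e.2) : ℝ) ^ 4 + (DA B N (N - e.1 * e.2) : ℝ) ^ 4) := by
    refine le_trans ?_ (hstep (fun n => (DA B N n : ℝ) ^ 4 + (DA B N (N - n) : ℝ) ^ 4)
      fun n => by positivity)
    refine sum_le_sum fun n hn => ?_
    have e1 := incA_le N n
    rw [← hB] at e1
    exact e1
  have h1' : ∑ e ∈ T, ((DA B N (e.1 * e.2) : ℝ) ^ 4 + (DA B N (N - e.1 * e.2) : ℝ) ^ 4) =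
      ∑ e ∈ T, (DA B N (e.1 * e.2) : ℝ) ^ 4 + ∑ e ∈ T, (DA B N (N - e.1 * e.2) : ℝ) ^ 4 := sum_add_distrib
  rw [h1'] at h1
  -- (i)
  have hi : ∑ e ∈ T, (DA B N (e.1 * e.2) : ℝ) ^ 4 ≤ 16 * (1 + K) ^ 16 * sQ c (W * N) * N := by
    have e1 : ∑ e ∈ T, (DA B N (e.1 * e.2) : ℝ) ^ 4 ≤
        ∑ q ∈ Q, ∑ μ ∈ Finset.Icc 1 (N / q), 16 * (μ.divisors.card : ℝ) ^ 4 := by
      rw [Finset.sum_sigma']
      have e2 : ∑ e ∈ T, (DA B N (e.1 * e.2) : ℝ) ^ 4 ≤ ∑ e ∈ T, 16 * (e.2.divisors.card : ℝ) ^ 4 := by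
        refine sum_le_sum fun e he => ?_
        rw [hT, mem_filter, mem_product, hQ, mem_filter] at he
        exact da_mul B N e.1 e.2 he.1.1.2.1
      refine e2.trans ?_
      have e3 : ∑ e ∈ T, 16 * (e.2.divisors.card : ℝ) ^ 4 =
          ∑ x ∈ T.image (fun e => (⟨e.1, e.2⟩ : Σ _ : ℕ, ℕ)), 16 * (x.2.divisors.card : ℝ) ^ 4 := by
        rw [Finset.sum_image]
        intro a _ b _ hab
        simp only [Sigma.mk.injEq, heq_eq_eq] at hab
        exact Prod.ext hab.1 hab.2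
      rw [e3]
      refine sum_le_sum_of_subset_of_nonneg ?_ fun x _ _ => by positivity
      intro x hx
      rw [mem_image] at hx
      obtain ⟨e, he, rfl⟩ := hx
      rw [hT, mem_filter, mem_product, mem_Ico] at he
      rw [mem_sigma, mem_Icc]
      refine ⟨he.1.1, he.1.2.1, ?_⟩
      have hq0 : 0 < e.1 := by
        have := (mem_filter.1 he.1.1).2.1
        exact this.pos
      show e.2 ≤ N / e.1
      rw [Nat.le_div_iff_mul_le hq0, mul_comm]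
      exact he.2.1.le
    refine e1.trans ?_
    have e2 : ∀ q ∈ Q, ∑ μ ∈ Finset.Icc 1 (N / q), 16 * (μ.divisors.card : ℝ) ^ 4 ≤
        16 * (1 + K) ^ 16 * N * (1 / q) := by
      intro q hq
      have hq0 : 0 < q := (mem_filter.1 hq).2.1.pos
      have hqN : q < N := mem_range.1 (mem_filter.1 hq).1
      have hq0' : (0 : ℝ) < q := by exact_mod_cast hq0
      rw [← mul_sum]
      have e3 := mt4 (N / q)
      have e4 : ((N / q : ℕ) : ℝ) ≤ N / q := Nat.cast_div_le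
      have e5 : 1 ≤ N / q := Nat.div_pos hqN.le hq0
      have e5' : (1 : ℝ) ≤ ((N / q : ℕ) : ℝ) := by exact_mod_cast e5
      have e6 : Real.log ((N / q : ℕ) : ℝ) ≤ K := by
        refine Real.log_le_log (by linarith) ?_
        exact_mod_cast Nat.div_le_self N q
      have e7 : 0 ≤ Real.log ((N / q : ℕ) : ℝ) := Real.log_nonneg e5'
      calc 16 * ∑ μ ∈ Finset.Icc 1 (N / q), (μ.divisors.card : ℝ) ^ 4
          ≤ 16 * (((N / q : ℕ) : ℝ) * (1 + Real.log ((N / q : ℕ) : ℝ)) ^ 16) := by linarith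
        _ ≤ 16 * ((N / q) * (1 + K) ^ 16) := by gcongr
        _ = 16 * (1 + K) ^ 16 * N * (1 / q) := by ring
    refine (sum_le_sum e2).trans ?_
    rw [← mul_sum]
    calc 16 * (1 + K) ^ 16 * N * ∑ q ∈ Q, 1 / (q : ℝ)
        ≤ 16 * (1 + K) ^ 16 * N * sQ c (W * N) := mul_le_mul_of_nonneg_left hσ (by positivity)
      _ = 16 * (1 + K) ^ 16 * sQ c (W * N) * N := by ring
  -- the two ranges of `q`
  have hsplit := Finset.sum_filter_add_sum_filter_not T (fun e => e.1 * B ^ 5 ≤ N)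
    (fun e => (DA B N (N - e.1 * e.2) : ℝ) ^ 4)
  -- (ii)
  have hii : ∑ e ∈ T.filter (fun e => e.1 * B ^ 5 ≤ N), (DA B N (N - e.1 * e.2) : ℝ) ^ 4 ≤
      2 * (1 + K) ^ 16 * sQ c (W * N) * N := by
    set G : ℕ → Finset ℕ := fun q => (Finset.range N).filter
      (fun μ => q * μ < N) with hG
    have e1 : ∑ e ∈ T.filter (fun e => e.1 * B ^ 5 ≤ N), (DA B N (N - e.1 * e.2) : ℝ) ^ 4 ≤
        ∑ q ∈ Q.filter (fun q => q * B ^ 5 ≤ N), ∑ μ ∈ G q, (DA B N (N - q * μ) : ℝ) ^ 4 := by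
      rw [Finset.sum_sigma']
      have e3 : ∑ e ∈ T.filter (fun e => e.1 * B ^ 5 ≤ N), (DA B N (N - e.1 * e.2) : ℝ) ^ 4 =
          ∑ x ∈ (T.filter (fun e => e.1 * B ^ 5 ≤ N)).image (fun e => (⟨e.1, e.2⟩ : Σ _ : ℕ, ℕ)),
            (DA B N (N - x.1 * x.2) : ℝ) ^ 4 := by
        rw [Finset.sum_image]
        intro a _ b _ hab
        simp only [Sigma.mk.injEq, heq_eq_eq] at hab
        exact Prod.ext hab.1 hab.2
      rw [e3]
      refine sum_le_sum_of_subset_of_nonneg ?_ fun x _ _ => by positivity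
      intro x hx
      rw [mem_image] at hx
      obtain ⟨e, he, rfl⟩ := hx
      rw [mem_filter, hT, mem_filter, mem_product, mem_Ico] at he
      refine mem_sigma.2 ⟨mem_filter.2 ⟨he.1.1.1, he.2⟩, ?_⟩
      show e.2 ∈ G e.1
      exact mem_filter.2 ⟨mem_range.2 he.1.1.2.2, he.1.2.1⟩
    refine e1.trans ?_
    have e2 : ∀ q ∈ Q.filter (fun q => q * B ^ 5 ≤ N), ∑ μ ∈ G q, (DA B N (N - q * μ) : ℝ) ^ 4 ≤
        2 * (1 + K) ^ 16 * N * (1 / q) := by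
      intro q hq
      rw [mem_filter] at hq
      have hq0 : 0 < q := (mem_filter.1 hq.1).2.1.pos
      have hq0' : (0 : ℝ) < q := by exact_mod_cast hq0
      have e4 : q * B ^ 4 ≤ N := by
        refine le_trans ?_ hq.2
        exact Nat.mul_le_mul_left _ (Nat.pow_le_pow_right hB1 (by norm_num))
      have e5 := am_low N q B hq0 hB1 e4
      refine e5.trans ?_
      have e7 : 0 ≤ Real.log ((B ^ 4 : ℕ) : ℝ) := by
        refine Real.log_nonneg ?_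
        exact_mod_cast Nat.one_le_pow _ _ hB1
      calc 2 * (N : ℝ) / q * (1 + Real.log ((B ^ 4 : ℕ) : ℝ)) ^ 16 ≤ 2 * (N : ℝ) / q * (1 + K) ^ 16 := by
            gcongr
        _ = 2 * (1 + K) ^ 16 * N * (1 / q) := by ring
    refine (sum_le_sum e2).trans ?_
    rw [← mul_sum]
    have e3 : ∑ q ∈ Q.filter (fun q => q * B ^ 5 ≤ N), 1 / (q : ℝ) ≤ sQ c (W * N) :=
      (sum_le_sum_of_subset_of_nonneg (filter_subset _ _) fun q _ _ => by positivity).trans hσ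
    calc 2 * (1 + K) ^ 16 * N * ∑ q ∈ Q.filter (fun q => q * B ^ 5 ≤ N), 1 / (q : ℝ)
        ≤ 2 * (1 + K) ^ 16 * N * sQ c (W * N) := mul_le_mul_of_nonneg_left e3 (by positivity)
      _ = 2 * (1 + K) ^ 16 * sQ c (W * N) * N := by ring
  -- (iii)
  have hiii : ∑ e ∈ T.filter (fun e => ¬ e.1 * B ^ 5 ≤ N), (DA B N (N - e.1 * e.2) : ℝ) ^ 4 ≤
      (K ^ 18 * (1 + K) + 1) * L * N := by
    set G : ℕ → Finset ℕ := fun μ => (Finset.range N).filter
      (fun q => q.Prime ∧ c q = 1 ∧ q * μ < N ∧ (N - q * μ).Coprime W) with hG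
    have e1 : ∑ e ∈ T.filter (fun e => ¬ e.1 * B ^ 5 ≤ N), (DA B N (N - e.1 * e.2) : ℝ) ^ 4 ≤
        ∑ μ ∈ Finset.Icc 1 (B ^ 5), ∑ q ∈ G μ, (DA B N (N - q * μ) : ℝ) ^ 4 := by
      rw [Finset.sum_sigma']
      have e3 : ∑ e ∈ T.filter (fun e => ¬ e.1 * B ^ 5 ≤ N), (DA B N (N - e.1 * e.2) : ℝ) ^ 4 =
          ∑ x ∈ (T.filter (fun e => ¬ e.1 * B ^ 5 ≤ N)).image (fun e => (⟨e.2, e.1⟩ : Σ _ : ℕ, ℕ)),
            (DA B N (N - x.2 * x.1) : ℝ) ^ 4 := by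
        rw [Finset.sum_image]
        intro a _ b _ hab
        simp only [Sigma.mk.injEq, heq_eq_eq] at hab
        exact Prod.ext hab.2 hab.1
      rw [e3]
      refine sum_le_sum_of_subset_of_nonneg ?_ fun x _ _ => by positivity
      intro x hx
      rw [mem_image] at hx
      obtain ⟨e, he, rfl⟩ := hx
      rw [mem_filter, hT, mem_filter, mem_product, mem_Ico, hQ, mem_filter, mem_range] at he
      rw [mem_sigma, mem_Icc, hG, mem_filter, mem_range]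
      refine ⟨⟨he.1.1.2.1, ?_⟩, he.1.1.1.1, he.1.1.1.2.1, he.1.1.1.2.2, he.1.2.1, he.1.2.2⟩
      show e.2 ≤ B ^ 5
      by_contra hcon
      push Not at hcon
      have h5 : e.1 * B ^ 5 ≤ e.1 * e.2 := Nat.mul_le_mul_left _ hcon.le
      have h6 := he.1.2.1
      exact he.2 (h5.trans h6.le)
    refine e1.trans ?_
    have e2 : ∀ μ ∈ Finset.Icc 1 (B ^ 5), ∑ q ∈ G μ, (DA B N (N - q * μ) : ℝ) ^ 4 ≤
        K ^ 18 * L * N * (1 / μ) + (N : ℝ) ^ ((93 : ℝ) / 100) := by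
      intro μ hμ
      have h5 := hhigh μ (mem_Icc.1 hμ).1
      refine h5.trans (le_of_eq ?_)
      rw [mul_one_div]
    refine (sum_le_sum e2).trans ?_
    rw [sum_add_distrib, ← mul_sum, sum_const, Nat.card_Icc, Nat.add_sub_cancel, nsmul_eq_mul]
    have e3 : K ^ 18 * L * N * ∑ μ ∈ Finset.Icc 1 (B ^ 5), 1 / (μ : ℝ) ≤ K ^ 18 * (1 + K) * L * N := by
      have h5 : ∑ μ ∈ Finset.Icc 1 (B ^ 5), 1 / (μ : ℝ) ≤ 1 + K :=
        (am_harm (B ^ 5)).trans (by linarith)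
      calc K ^ 18 * L * N * ∑ μ ∈ Finset.Icc 1 (B ^ 5), 1 / (μ : ℝ) ≤ K ^ 18 * L * N * (1 + K) :=
            mul_le_mul_of_nonneg_left h5 (by positivity)
        _ = K ^ 18 * (1 + K) * L * N := by ring
    have e4 : ((B ^ 5 : ℕ) : ℝ) * (N : ℝ) ^ ((93 : ℝ) / 100) ≤ L * N := by
      have hWpos : (0 : ℝ) < W := by exact_mod_cast (by omega : 0 < W)
      have h5 : ((B ^ 5 : ℕ) : ℝ) * (N : ℝ) ^ ((93 : ℝ) / 100) ≤ (N : ℝ) ^ ((95 : ℝ) / 100) := by
        push_cast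
        calc (B : ℝ) ^ 5 * (N : ℝ) ^ ((93 : ℝ) / 100) ≤ (N : ℝ) ^ ((1 : ℝ) / 50) * (N : ℝ) ^ ((93 : ℝ) / 100) :=
              mul_le_mul_of_nonneg_right hLL (by positivity)
          _ = (N : ℝ) ^ ((95 : ℝ) / 100) := by
              rw [← Real.rpow_add hN0]
              norm_num
      have h6 : (N : ℝ) ^ ((95 : ℝ) / 100) ≤ ((W * N : ℕ) : ℝ) ^ (-(1 / 50) : ℝ) * N := by
        push_cast
        rw [Real.mul_rpow hWpos.le hN0.le]
        have h7 : (N : ℝ) ^ (-(1 / 50) : ℝ) * N = (N : ℝ) ^ ((49 : ℝ) / 50) := by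
          conv_lhs => rw [← Real.rpow_one (N : ℝ), ← Real.rpow_mul hN0.le]
          rw [← Real.rpow_add hN0]
          norm_num
        have h8 : (W : ℝ) ^ (-(1 / 50) : ℝ) * (W : ℝ) ^ ((1 : ℝ) / 50) = 1 := by
          rw [← Real.rpow_add hWpos]
          norm_num
        have h9 := hx0 N hNx
        calc (N : ℝ) ^ ((95 : ℝ) / 100)
            = ((W : ℝ) ^ (-(1 / 50) : ℝ) * (W : ℝ) ^ ((1 : ℝ) / 50)) * (N : ℝ) ^ ((95 : ℝ) / 100) := by
              rw [h8, one_mul]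
          _ = (W : ℝ) ^ (-(1 / 50) : ℝ) * ((W : ℝ) ^ ((1 : ℝ) / 50) * (N : ℝ) ^ ((95 : ℝ) / 100)) := by ring
          _ ≤ (W : ℝ) ^ (-(1 / 50) : ℝ) * ((N : ℝ) ^ ((3 : ℝ) / 100) * (N : ℝ) ^ ((95 : ℝ) / 100)) := by
              gcongr
          _ = (W : ℝ) ^ (-(1 / 50) : ℝ) * (N : ℝ) ^ ((49 : ℝ) / 50) := by
              rw [← Real.rpow_add hN0]
              norm_num
          _ = (W : ℝ) ^ (-(1 / 50) : ℝ) * (N : ℝ) ^ (-(1 / 50) : ℝ) * N := by rw [← h7]; ring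
      exact h5.trans (h6.trans (mul_le_mul_of_nonneg_right hLow hN0.le))
    linarith
  -- the end
  have hfin1 : 36 * (1 + K) ^ 16 ≤ K ^ (25 : ℝ) := by
    have e1 : K ^ (25 : ℝ) = K ^ (25 : ℕ) := by
      rw [← Real.rpow_natCast]
      norm_num
    rw [e1]
    calc 36 * (1 + K) ^ 16 ≤ 36 * (2 * K) ^ 16 := by
          have : 1 + K ≤ 2 * K := by linarith
          gcongr
      _ = (36 * 2 ^ 16) * K ^ 16 := by ring
      _ ≤ K ^ 9 * K ^ 16 := by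
          have : (36 * 2 ^ 16 : ℝ) ≤ K ^ 9 := by
            calc (36 * 2 ^ 16 : ℝ) ≤ 100 ^ 9 := by norm_num
              _ ≤ K ^ 9 := by gcongr
          gcongr
      _ = K ^ 25 := by ring
  have hfin2 : 2 * (K ^ 18 * (1 + K) + 1) ≤ K ^ (25 : ℝ) := by
    have e1 : K ^ (25 : ℝ) = K ^ (25 : ℕ) := by
      rw [← Real.rpow_natCast]
      norm_num
    rw [e1]
    have e2 : (1 : ℝ) ≤ K ^ 18 := one_le_pow₀ (by linarith)
    have e3 : K ^ 18 * (1 + K) + 1 ≤ K ^ 18 * (3 * K) := by nlinarith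
    calc 2 * (K ^ 18 * (1 + K) + 1) ≤ 2 * (K ^ 18 * (3 * K)) := by linarith
      _ = 6 * K ^ 19 := by ring
      _ ≤ K ^ 6 * K ^ 19 := by
          have : (6 : ℝ) ≤ K ^ 6 := by
            calc (6 : ℝ) ≤ 100 ^ 6 := by norm_num
              _ ≤ K ^ 6 := by gcongr
          gcongr
      _ = K ^ 25 := by ring
  have hσN : 0 ≤ sQ c (W * N) * N := by positivity
  have hLN : 0 ≤ L * N := by positivity
  have g1 := mul_le_mul_of_nonneg_right hfin1 hσN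
  have g2 := mul_le_mul_of_nonneg_right hfin2 hLN
  have g3 : K ^ (25 : ℝ) * (sQ c (W * N) + L) * N =
      K ^ (25 : ℝ) * (sQ c (W * N) * N) + K ^ (25 : ℝ) * (L * N) := by ring
  rw [g3]
  have g4 : 36 * (1 + K) ^ 16 * (sQ c (W * N) * N) =
      2 * (16 * (1 + K) ^ 16 * sQ c (W * N) * N) + 2 * (2 * (1 + K) ^ 16 * sQ c (W * N) * N) := by ring
  have g5 : 2 * (K ^ 18 * (1 + K) + 1) * (L * N) = 2 * ((K ^ 18 * (1 + K) + 1) * L * N) := by ring
  have g6 : 0 ≤ 16 * (1 + K) ^ 16 * sQ c (W * N) * N := by positivity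
  have g7 : 0 ≤ 2 * (1 + K) ^ 16 * sQ c (W * N) * N := by positivity
  have g8 : 0 ≤ (K ^ 18 * (1 + K) + 1) * L * N := by positivity
  linarith

/-- Cauchy's inequality in the form in which it is used -/
private theorem arel_cs (E : Finset ℕ) (f : ℕ → ℝ) (B : ℝ) (hB : ∑ n ∈ E, f n ^ 2 ≤ B) :
    ∑ n ∈ E, f n ≤ Real.sqrt (E.card * B) := by
  apply Real.le_sqrt_of_sq_le
  have h := Finset.sum_mul_sq_le_sq_mul_sq E (fun _ => (1 : ℝ)) f
  simp only [one_mul, one_pow, Finset.sum_const, nsmul_eq_mul, mul_one] at h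
  exact h.trans (mul_le_mul_of_nonneg_left hB (Nat.cast_nonneg _))

theorem arel1 : ∃ CM : ℝ, 0 ≤ CM ∧ ∃ N0 : ℕ, ∀ N : ℕ, N0 ≤ N → ∀ E : Finset ℕ, E ⊆ Finset.Ioo 0 N →
    ((∑ n ∈ E, n.divisors.card * (N - n).divisors.card : ℕ) : ℝ) ≤ (Real.log N) ^ CM * Real.sqrt (E.card * N) := by
  obtain ⟨N0, h⟩ := amom
  refine ⟨10, by norm_num, N0, fun N hN E hE => ?_⟩
  have hK : 0 ≤ Real.log (N : ℝ) := Real.log_natCast_nonneg N
  have h1 : ∑ n ∈ E, ((n.divisors.card * (N - n).divisors.card : ℕ) : ℝ) ^ 2 ≤ (Real.log N) ^ 20 * N :=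
    (Finset.sum_le_sum_of_subset_of_nonneg hE (fun _ _ _ => sq_nonneg _)).trans (h N hN)
  have h0 : ((∑ n ∈ E, n.divisors.card * (N - n).divisors.card : ℕ) : ℝ) =
      ∑ n ∈ E, ((n.divisors.card * (N - n).divisors.card : ℕ) : ℝ) := Nat.cast_sum _ _
  rw [h0]
  refine (arel_cs E (fun n => ((n.divisors.card * (N - n).divisors.card : ℕ) : ℝ)) _ h1).trans (le_of_eq ?_)
  have h2 : (E.card : ℝ) * ((Real.log N) ^ 20 * N) = ((Real.log N) ^ 10) ^ 2 * (E.card * N) := by ring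
  rw [h2, Real.sqrt_mul (sq_nonneg _), Real.sqrt_sq (pow_nonneg hK _)]
  congr 1
  rw [← Real.rpow_natCast]
  norm_num

theorem arel2 (W : ℕ) (hW : 1 ≤ W) : ∃ CM : ℝ, 0 ≤ CM ∧ ∃ N0 : ℕ, ∀ N : ℕ, N0 ≤ N → ∀ (c : ℕ → ℝ) (L : ℝ),
    RC (W * N) c → LV (W * N) c L → ((W * N : ℕ) : ℝ) ^ (-(1 / 50) : ℝ) ≤ L →
    ∀ E : Finset ℕ, (∀ n ∈ E, 0 < n ∧ n < N ∧ n.Coprime W ∧ (N - n).Coprime W ∧
      ∃ q : ℕ, q.Prime ∧ c q = 1 ∧ (q ∣ n ∨ q ∣ N - n)) →
    ((∑ n ∈ E, incA N n : ℕ) : ℝ) ≤ (Real.log N) ^ CM * Real.sqrt (E.card * ((sQ c (W * N) + L) * N)) := by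
  classical
  obtain ⟨CM, hCM, N0, h⟩ := am2 W hW
  refine ⟨CM / 2 + 1, by positivity, max N0 (max 3 ⌈Real.exp 2⌉₊), fun N hN c L hc hL hLL E hE => ?_⟩
  have hN0 : N0 ≤ N := (le_max_left _ _).trans hN
  have hN3 : 3 ≤ N := (le_max_left _ _).trans ((le_max_right _ _).trans hN)
  have hNe : ⌈Real.exp 2⌉₊ ≤ N := (le_max_right _ _).trans ((le_max_right _ _).trans hN)
  have hK2 : 2 ≤ Real.log (N : ℝ) := by
    rw [Real.le_log_iff_exp_le (by exact_mod_cast (by omega : 0 < N))]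
    exact (Nat.le_ceil _).trans (by exact_mod_cast hNe)
  have hK : 0 ≤ Real.log (N : ℝ) := by linarith
  have hm := h N hN0 c L hc hL hLL
  set S : Finset ℕ := (Finset.Ioo 0 N).filter (fun n => (N - n).Coprime W ∧
      ∃ q : ℕ, q.Prime ∧ c q = 1 ∧ q ∣ n) with hS
  set B : ℝ := (Real.log N) ^ CM * (sQ c (W * N) + L) * N with hB
  have hm' : ∑ n ∈ S, (incA N n : ℝ) ^ 2 ≤ B := by
    refine le_trans (le_of_eq ?_) hm
    rw [hS]
  set E1 : Finset ℕ := E.filter (fun n => ∃ q : ℕ, q.Prime ∧ c q = 1 ∧ q ∣ n) with hE1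
  set E2 : Finset ℕ := E.filter (fun n => ¬ ∃ q : ℕ, q.Prime ∧ c q = 1 ∧ q ∣ n) with hE2
  have hsplit : ∑ n ∈ E, (incA N n : ℝ) ^ 2 = ∑ n ∈ E1, (incA N n : ℝ) ^ 2 + ∑ n ∈ E2, (incA N n : ℝ) ^ 2 :=
    (Finset.sum_filter_add_sum_filter_not E (fun n => ∃ q : ℕ, q.Prime ∧ c q = 1 ∧ q ∣ n)
      (fun n => (incA N n : ℝ) ^ 2)).symm
  have b1 : ∑ n ∈ E1, (incA N n : ℝ) ^ 2 ≤ B := by
    have hsub : E1 ⊆ S := by
      intro n hn
      rw [hE1, Finset.mem_filter] at hn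
      obtain ⟨c0, c1, c2, c3, -⟩ := hE n hn.1
      rw [hS, Finset.mem_filter, Finset.mem_Ioo]
      exact ⟨⟨c0, c1⟩, c3, hn.2⟩
    exact (Finset.sum_le_sum_of_subset_of_nonneg hsub (fun _ _ _ => sq_nonneg _)).trans hm'
  have b2 : ∑ n ∈ E2, (incA N n : ℝ) ^ 2 ≤ B := by
    have hinj : Set.InjOn (fun n => N - n) (E2 : Set ℕ) := by
      intro a ha b hb hab
      have h1 := (hE a (Finset.mem_filter.mp (Finset.mem_coe.mp ha)).1).2.1
      have h2 := (hE b (Finset.mem_filter.mp (Finset.mem_coe.mp hb)).1).2.1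
      simp only at hab
      omega
    have hsub : E2.image (fun n => N - n) ⊆ S := by
      intro m hm2
      rw [Finset.mem_image] at hm2
      obtain ⟨n, hn, rfl⟩ := hm2
      rw [hE2, Finset.mem_filter] at hn
      obtain ⟨c0, c1, c2, c3, q, hq, hcq, hqn⟩ := hE n hn.1
      have e : N - (N - n) = n := by omega
      rw [hS, Finset.mem_filter, Finset.mem_Ioo, e]
      refine ⟨⟨by omega, by omega⟩, c2, q, hq, hcq, ?_⟩
      rcases hqn with h6 | h6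
      · exact absurd ⟨q, hq, hcq, h6⟩ hn.2
      · exact h6
    calc ∑ n ∈ E2, (incA N n : ℝ) ^ 2
        = ∑ n ∈ E2, (incA N (N - n) : ℝ) ^ 2 := by
          apply Finset.sum_congr rfl
          intro n hn
          have e := incA_symm N n (hE n (Finset.mem_filter.mp hn).1).2.1.le
          rw [e]
      _ = ∑ m ∈ E2.image (fun n => N - n), (incA N m : ℝ) ^ 2 :=
          (Finset.sum_image (f := fun m => (incA N m : ℝ) ^ 2) hinj).symm
      _ ≤ ∑ n ∈ S, (incA N n : ℝ) ^ 2 :=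
          Finset.sum_le_sum_of_subset_of_nonneg hsub (fun _ _ _ => sq_nonneg _)
      _ ≤ B := hm'
  have hB0 : 0 ≤ B := le_trans (Finset.sum_nonneg (fun _ _ => sq_nonneg _)) b1
  have b3 : ∑ n ∈ E, (incA N n : ℝ) ^ 2 ≤ 2 * B := by
    rw [hsplit]
    linarith
  have h0 : ((∑ n ∈ E, incA N n : ℕ) : ℝ) = ∑ n ∈ E, (incA N n : ℝ) := Nat.cast_sum _ _
  rw [h0]
  refine (arel_cs E (fun n => (incA N n : ℝ)) _ b3).trans ?_
  have h2 : (E.card : ℝ) * (2 * B) = (2 * (Real.log N) ^ CM) * (E.card * ((sQ c (W * N) + L) * N)) := by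
    rw [hB]
    ring
  rw [h2, Real.sqrt_mul (by positivity)]
  apply mul_le_mul_of_nonneg_right _ (Real.sqrt_nonneg _)
  rw [Real.sqrt_le_left (by positivity)]
  have e1 : ((Real.log (N : ℝ)) ^ (CM / 2 + 1)) ^ 2 = (Real.log (N : ℝ)) ^ CM * (Real.log (N : ℝ)) ^ 2 := by
    rw [← Real.rpow_natCast, ← Real.rpow_mul hK, ← Real.rpow_natCast (Real.log (N : ℝ)) 2,
      ← Real.rpow_add (by linarith)]
    congr 1
    push_cast
    ring
  rw [e1]
  have h3 : (0 : ℝ) ≤ (Real.log (N : ℝ)) ^ CM := by positivity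
  have h4 : (2 : ℝ) ≤ (Real.log (N : ℝ)) ^ 2 := by nlinarith
  rw [mul_comm (2 : ℝ)]
  exact mul_le_mul_of_nonneg_left h4 h3

end Pool.Agent.Lib.OA
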