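import Pool.Agent.Lib.MP_7b7e48_nt.OA.APRE
import Pool.Agent.Lib.MP_7b7e48_nt.OA.AM2
import Pool.Agent.Lib.MP_7b7e48_nt.OA.AST
import Pool.Agent.Lib.MP_7b7e48_nt.OA.ANum
import Pool.Agent.Lib.MP_7b7e48_nt.OW.NumW

/-!
# Module AINV1 (40 minutes): `lam (l x mod W N) = lam l lam x` for most `x`, all integers `l = 1 (mod W)`

As `OW/INV1.lean`: `apl` with `v = 1`, `η/2`; the other `x` have a point `mr W N A x ∈ AffA`, `A ≤ K^C2`: at most `K^(2 C2) card AffA` (`apre`),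
`card AffA ≤ 4 tJ N ∑_{EA} τ(n) τ(N-n) ≤ 4 K · K^CM √(card EA · N)` (`aafc`, `arel1`), `≤ 4 K^(1+CM) N K^(-A/2)`; and `1/K ≤ del N` (`NumA.d1`).
-/

set_option autoImplicit false

open Finset
open Pool.Agent.Lib.MP_45349e_nt.LS (lam)

namespace Pool.Agent.Lib.OA

open Pool.Agent.Lib.OW
open Pool.Agent.Lib.RG (RC LV rr SS PB)

open Classical in
theorem ainv1_of (apl : APLS) (W : ℕ) (hW : 1 ≤ W) (C1 : ℝ) : ∃ A : ℕ, ∀ η : ℝ, 0 < η → ∃ N0 : ℕ, ∀ N : ℕ, N0 ≤ N →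
    ∀ a : ℕ, Cf W N a → ∀ κ : ℝ, κ ^ 2 = 1 → ((EA W N a κ).card : ℝ) ≤ N / (Real.log N) ^ A →
    ∀ l : ℕ, 1 ≤ l → l % W = 1 % W → (l : ℝ) ≤ (Real.log N) ^ C1 →
    (((UU W N a).filter fun x => lam (mr W N l x) ≠ lam l * lam x).card : ℝ) ≤ η * (del N * N) := by
  obtain ⟨s, C2, hC2, hpl⟩ := apl W hW C1
  obtain ⟨CM, hCM, Nr, hr⟩ := arel1
  obtain ⟨Nn, hn⟩ := num W
  obtain ⟨Na, hna⟩ := numA
  set B : ℕ := ⌈C2 + C2 + CM + 3⌉₊ with hB
  refine ⟨2 * B, fun η hη => ?_⟩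
  obtain ⟨Np, hp⟩ := hpl (η / 2) (by positivity)
  refine ⟨max Nr (max Nn (max Na (max Np (max 3 ⌈Real.exp (8 / η)⌉₊)))), fun N hN a hc κ hκ hE l hl hlW hlC => ?_⟩
  simp only [max_le_iff] at hN
  obtain ⟨hNr, hNn, hNa, hNp, hN3, hNη⟩ := hN
  have hnum := hn N hNn
  have hA := hna N hNa
  have hN0 : 0 < N := by omega
  have hNpos : (0 : ℝ) < N := by exact_mod_cast hN0
  have hK1 : 1 ≤ Real.log (N : ℝ) := by
    have := hA.K
    linarith
  have hKη : 8 / η ≤ Real.log (N : ℝ) := by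
    rw [Real.le_log_iff_exp_le hNpos]
    exact (Nat.le_ceil _).trans (by exact_mod_cast hNη)
  have hJK := hA.JK
  have hd1 := hA.d1
  set K : ℝ := Real.log (N : ℝ) with hKdef
  have hK0 : 0 < K := by linarith
  have hL1 : 1 ≤ LL N := by
    have h1 := hnum.JL
    have h2 := hnum.J1
    nlinarith [Nat.mul_le_mul h2 hW]
  have hL5 : 1 * LL N ^ 5 ≤ N := by
    rw [one_mul]
    exact (Nat.pow_le_pow_right hL1 (by norm_num)).trans hnum.LLN
  have hEA : EA W N a κ ⊆ Finset.Ioo 0 N := by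
    unfold EA
    exact Finset.filter_subset _ _
  have h1 := hp N hNp a hc κ hκ l hl hlW hlC 1 le_rfl hL5
  have h2 := apre (B := ⌊K ^ C2⌋₊) hW hN0 (AffA W N a (EA W N a κ)) (by
    intro z hz
    unfold AffA at hz
    rw [Finset.mem_filter] at hz
    exact hz.2.1)
  have h3 := aafc (a := a) hW hN0 (EA W N a κ) hEA
  have h4 := hr N hNr (EA W N a κ) hEA
  generalize hF1 : ((Finset.range (W * N)).filter fun n => 1 * n ∈ UU W N a ∧
      lam (mr W N l (1 * n)) ≠ lam l * lam (1 * n) ∧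
      ∀ A : ℕ, (A : ℝ) ≤ K ^ C2 → GA s N l A → mr W N A (1 * n) ∉ AffA W N a (EA W N a κ)) = F1 at h1
  generalize hF2 : ((Finset.range (W * N)).filter fun x => ∃ A : ℕ, A ≤ ⌊K ^ C2⌋₊ ∧
      mr W N A x ∈ AffA W N a (EA W N a κ)) = F2 at h2
  generalize hS : ((UU W N a).filter fun x => lam (mr W N l x) ≠ lam l * lam x) = S
  have hsub : S ⊆ F1 ∪ F2 := by
    intro x hx
    rw [← hS, Finset.mem_filter] at hx
    have hxr : x ∈ Finset.range (W * N) := by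
      have h5 := hx.1
      unfold UU at h5
      exact (Finset.mem_filter.mp h5).1
    rw [Finset.mem_union]
    by_cases hA : ∃ A : ℕ, A ≤ ⌊K ^ C2⌋₊ ∧ mr W N A x ∈ AffA W N a (EA W N a κ)
    · right
      rw [← hF2, Finset.mem_filter]
      exact ⟨hxr, hA⟩
    · left
      rw [← hF1, Finset.mem_filter]
      refine ⟨hxr, ?_, ?_, ?_⟩
      · rw [one_mul]
        exact hx.1
      · rw [one_mul]
        exact hx.2
      · intro A hA1 _ hA2
        rw [one_mul] at hA2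
        exact hA ⟨A, Nat.le_floor hA1, hA2⟩
  have h5 : (S.card : ℝ) ≤ F1.card + F2.card := by
    exact_mod_cast (Finset.card_le_card hsub).trans (Finset.card_union_le _ _)
  have hKB : (0 : ℝ) < K ^ B := pow_pos hK0 B
  have h6 : Real.sqrt ((EA W N a κ).card * N) ≤ N / K ^ B := by
    apply Real.sqrt_le_iff.mpr
    refine ⟨by positivity, ?_⟩
    calc ((EA W N a κ).card : ℝ) * N ≤ (N / K ^ (2 * B)) * N := mul_le_mul_of_nonneg_right hE hNpos.le
      _ = (N / K ^ B) ^ 2 := by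
          rw [div_pow, ← pow_mul, mul_comm 2 B]
          ring
  generalize hSS : ∑ n ∈ EA W N a κ, n.divisors.card * (N - n).divisors.card = SS0 at h3 h4
  have h7 : (SS0 : ℝ) ≤ K ^ CM * (N / K ^ B) :=
    h4.trans (mul_le_mul_of_nonneg_left h6 (Real.rpow_nonneg hK0.le _))
  have h8 : (tJ N : ℝ) ≤ K := by
    have : (0 : ℝ) ≤ (tJ N : ℝ) := Nat.cast_nonneg _
    linarith
  have h9 : ((AffA W N a (EA W N a κ)).card : ℝ) ≤ 4 * K * (K ^ CM * (N / K ^ B)) := by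
    have h10 : ((AffA W N a (EA W N a κ)).card : ℝ) ≤ 4 * (tJ N : ℝ) * (SS0 : ℝ) := by
      exact_mod_cast h3
    calc ((AffA W N a (EA W N a κ)).card : ℝ) ≤ 4 * (tJ N : ℝ) * (SS0 : ℝ) := h10
      _ ≤ 4 * K * (K ^ CM * (N / K ^ B)) := by
          apply mul_le_mul (mul_le_mul_of_nonneg_left h8 (by norm_num)) h7 (Nat.cast_nonneg _) (by positivity)
  have h11 : (F2.card : ℝ) ≤ (K ^ C2 * K ^ C2) * (4 * K * (K ^ CM * (N / K ^ B))) := by
    have h12 : (F2.card : ℝ) ≤ ((⌊K ^ C2⌋₊ : ℝ)) ^ 2 * ((AffA W N a (EA W N a κ)).card : ℝ) := by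
      exact_mod_cast h2
    refine h12.trans ?_
    have hfl : (⌊K ^ C2⌋₊ : ℝ) ≤ K ^ C2 := Nat.floor_le (Real.rpow_nonneg hK0.le _)
    apply mul_le_mul _ h9 (Nat.cast_nonneg _) (by positivity)
    rw [sq]
    exact mul_le_mul hfl hfl (Nat.cast_nonneg _) (Real.rpow_nonneg hK0.le _)
  have h13 : (K ^ C2 * K ^ C2) * (4 * K * (K ^ CM * (N / K ^ B))) ≤ η / 2 * (1 / K * N) := by
    have e1 : (K ^ C2 * K ^ C2) * (4 * K * (K ^ CM * (N / K ^ B))) =
        4 * N * ((K ^ C2 * K ^ C2 * K ^ CM * K) / K ^ B) := by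
      field_simp
    have e2 : K ^ C2 * K ^ C2 * K ^ CM * K = K ^ (C2 + C2 + CM + 1) := by
      rw [Real.rpow_add hK0, Real.rpow_add hK0, Real.rpow_add hK0, Real.rpow_one]
    have e3 : K ^ (C2 + C2 + CM + 3) ≤ K ^ B := by
      rw [← Real.rpow_natCast K B]
      exact Real.rpow_le_rpow_of_exponent_le hK1 (Nat.le_ceil _)
    have e4 : K ^ (C2 + C2 + CM + 3) = K ^ (C2 + C2 + CM + 1) * (K * K) := by
      rw [show C2 + C2 + CM + 3 = (C2 + C2 + CM + 1) + 1 + 1 by ring, Real.rpow_add hK0, Real.rpow_add hK0,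
        Real.rpow_one, mul_assoc]
    have e5 : (K ^ C2 * K ^ C2 * K ^ CM * K) / K ^ B ≤ 1 / (K * K) := by
      rw [div_le_div_iff₀ hKB (mul_pos hK0 hK0), e2, one_mul, ← e4]
      exact e3
    have e6 : 1 / K ≤ η / 8 := by
      rw [div_le_iff₀ hK0]
      have : 8 / η * (η / 8) = 1 := by
        field_simp
      calc (1 : ℝ) = η / 8 * (8 / η) := by rw [← this]; ring
        _ ≤ η / 8 * K := mul_le_mul_of_nonneg_left hKη (by positivity)
    have e7 : 1 / (K * K) ≤ η / 8 * (1 / K) := by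
      rw [← one_div_mul_one_div]
      exact mul_le_mul_of_nonneg_right e6 (by positivity)
    rw [e1]
    calc 4 * (N : ℝ) * ((K ^ C2 * K ^ C2 * K ^ CM * K) / K ^ B) ≤ 4 * N * (η / 8 * (1 / K)) :=
          mul_le_mul_of_nonneg_left (e5.trans e7) (by positivity)
      _ = η / 2 * (1 / K * N) := by ring
  have h16 : 1 / K ≤ del N := by
    rw [div_le_iff₀ hK0, mul_comm]
    exact hd1
  have h17 : η / 2 * (1 / K * N) ≤ η / 2 * (del N * N) :=
    mul_le_mul_of_nonneg_left (mul_le_mul_of_nonneg_right h16 hNpos.le) (by positivity)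
  have h14 : (F1.card : ℝ) ≤ η / 2 * (del N * N) := by
    have h15 := h1
    simp only [Nat.cast_one, div_one] at h15
    rw [mul_assoc] at h15
    exact h15
  linarith

end Pool.Agent.Lib.OA
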