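import Mathlib
import Pool.Agent.Lib.MP_7b7e48_nt.OA.AGL

/-!
# Module APRE: points sent to a given set; the points `mr W N A x` of a path; affected points, all divisors

`apre`: for `1 ≤ A ≤ B` the point `x < W N` is determined by `z = mr W N A x` and the quotient `A x / (W N) < A`, so at most
`∑_{A ≤ B} A card S ≤ B^2 card S` points (`A = 0` gives `z = 0 ∉ S`).
`ani`: a prime `p ∣ N` divides `mr W N A x` (or `p^2 ∣ N` and `p^2 ∣ mr W N A x`) iff it divides `A x`; `x` and `l` are coprime to `N`, so `p ∣ M`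
(`p^2 ∣ M`, impossible as `M` is squarefree).
`aafc`: as `OW.afc` in `OW/PRE.lean`: `(side, d, n1, e, β)` resp. `(.., α)` determines `z`, where now `e ∣ n1` and `β ∣ N - n1` are arbitrary divisors.
-/

set_option autoImplicit false

open Finset
open Pool.Agent.Lib.MP_45349e_nt.LS (lam)

namespace Pool.Agent.Lib.OA

open Pool.Agent.Lib.OW
open Pool.Agent.Lib.RG (RC LV rr SS PB)

open Classical in
theorem apre {W N B : ℕ} (hW : 1 ≤ W) (hN : 0 < N) (S : Finset ℕ) (hS : ∀ z ∈ S, 0 < z) :
    ((Finset.range (W * N)).filter fun x => ∃ A : ℕ, A ≤ B ∧ mr W N A x ∈ S).card ≤ B ^ 2 * S.card := by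
  have hWN : 0 < W * N := Nat.mul_pos hW hN
  have hsub : ((Finset.range (W * N)).filter fun x => ∃ A : ℕ, A ≤ B ∧ mr W N A x ∈ S) ⊆
      (Finset.Icc 1 B).biUnion fun A => (Finset.range (W * N)).filter fun x => mr W N A x ∈ S := by
    intro x hx
    rw [mem_filter] at hx
    obtain ⟨hx1, A, hA, hx2⟩ := hx
    rw [mem_biUnion]
    refine ⟨A, ?_, ?_⟩
    · rw [mem_Icc]
      refine ⟨?_, hA⟩
      rcases Nat.eq_zero_or_pos A with h | h
      · subst h
        have h1 := hS _ hx2
        unfold mr at h1
        rw [zero_mul, Nat.zero_mod] at h1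
        omega
      · exact h
    · rw [mem_filter]
      exact ⟨hx1, hx2⟩
  calc _ ≤ ((Finset.Icc 1 B).biUnion fun A => (Finset.range (W * N)).filter fun x => mr W N A x ∈ S).card :=
        card_le_card hsub
    _ ≤ ∑ A ∈ Finset.Icc 1 B, ((Finset.range (W * N)).filter fun x => mr W N A x ∈ S).card := card_biUnion_le
    _ ≤ ∑ A ∈ Finset.Icc 1 B, B * S.card := by
        refine sum_le_sum fun A hA => ?_
        rw [mem_Icc] at hA
        have h1 : ((Finset.range (W * N)).filter fun x => mr W N A x ∈ S).card ≤ (S ×ˢ Finset.range B).card := by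
          refine card_le_card_of_injOn (fun x => (mr W N A x, (A * x) / (W * N))) ?_ ?_
          · intro x hx
            have hx' := Finset.mem_coe.mp hx
            rw [mem_filter, mem_range] at hx'
            refine Finset.mem_coe.mpr ?_
            rw [mem_product, mem_range]
            refine ⟨hx'.2, ?_⟩
            refine lt_of_lt_of_le ?_ hA.2
            show (A * x) / (W * N) < A
            rw [Nat.div_lt_iff_lt_mul hWN]
            exact Nat.mul_lt_mul_of_pos_left hx'.1 hA.1
          · intro x _ y _ hxy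
            have h2 := congrArg Prod.fst hxy
            have h3 := congrArg Prod.snd hxy
            dsimp only at h2 h3
            unfold mr at h2
            have h4 := Nat.div_add_mod (A * x) (W * N)
            have h5 := Nat.div_add_mod (A * y) (W * N)
            have h6 : A * x = A * y := by rw [← h4, ← h5, h2, h3]
            exact Nat.eq_of_mul_eq_mul_left hA.1 h6
        rw [card_product, card_range, mul_comm S.card B] at h1
        exact h1
    _ = B ^ 2 * S.card := by rw [sum_const, Nat.card_Icc, smul_eq_mul, Nat.add_sub_cancel]; ring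

theorem ani {W N s l A x : ℕ} (hW : 1 ≤ W) (hN : 0 < N) (hx : x.Coprime N) (hl : l.Coprime N) (h : GA s N l A) :
    NI s N (mr W N A x) := by
  obtain ⟨M, hsq, hc, ht, hA⟩ := h
  -- a divisor `q` of `N`, all of whose prime factors divide `N`, which divides `mr W N A x` divides `M`
  have key : ∀ q : ℕ, q ∣ N → q ∣ mr W N A x → q ∣ M := by
    intro q hqN hq
    have h1 : q ∣ A * x := by
      unfold mr at hq
      rwa [Nat.dvd_mod_iff (hqN.mul_left W)] at hq
    have h2 : q ∣ A := (Nat.Coprime.coprime_dvd_left hqN hx.symm).dvd_of_dvd_mul_right h1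
    rcases hA with hA | hA
    · rwa [hA] at h2
    · rw [hA] at h2
      exact (Nat.Coprime.coprime_dvd_left hqN hl.symm).dvd_of_dvd_mul_left h2
  have hM0 : M ≠ 0 := hsq.ne_zero
  refine ⟨?_, ?_⟩
  · refine (card_le_card ?_).trans hc
    intro p hp
    rw [mem_filter, Nat.mem_primeFactors] at hp
    rw [Nat.mem_primeFactors]
    exact ⟨hp.1.1, key p hp.1.2.1 hp.2, hM0⟩
  · intro p hp hpN hpx
    refine ⟨ht p (Nat.mem_primeFactors.2 ⟨hp, key p hpN hpx, hM0⟩), fun h2 h3 => ?_⟩
    have h4 : p * p ∣ M := by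
      rw [← pow_two]
      exact key _ h2 h3
    exact hp.one_lt.ne' (Nat.isUnit_iff.1 (hsq p h4))

theorem aafc {W N a : ℕ} (hW : 1 ≤ W) (hN : 0 < N) (E : Finset ℕ) (hE : E ⊆ Finset.Ioo 0 N) :
    (AffA W N a E).card ≤ 4 * tJ N * ∑ n ∈ E, n.divisors.card * (N - n).divisors.card := by
  classical
  set Q : Finset (ℕ × (Σ _ : ℕ, ℕ × ℕ)) :=
    (Finset.Icc 1 (2 * tJ N)) ×ˢ (E.sigma fun n => n.divisors ×ˢ (N - n).divisors) with hQ
  have hQc : Q.card = 2 * tJ N * ∑ n ∈ E, n.divisors.card * (N - n).divisors.card := by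
    rw [hQ, card_product, Nat.card_Icc, Nat.add_sub_cancel, card_sigma]
    simp only [card_product]
  set f1 : ℕ × (Σ _ : ℕ, ℕ × ℕ) → ℕ := fun q =>
    (q.2.2.2 + q.1 * W * q.2.2.1) * (q.2.1 / q.2.2.1) - q.1 * W * N with hf1
  set f2 : ℕ × (Σ _ : ℕ, ℕ × ℕ) → ℕ := fun q =>
    (q.2.2.2 - q.1 * W * q.2.2.1) * (q.2.1 / q.2.2.1) with hf2
  have hsub : AffA W N a E ⊆ Q.image f1 ∪ Q.image f2 := by
    intro z hz
    unfold AffA at hz
    rw [mem_filter, mem_range] at hz
    obtain ⟨hzlt, hz0, hzW, X, α, β, D, e, hLA, hD, hE'⟩ := hz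
    have hLD := hLA.ld
    obtain ⟨d, rfl⟩ := hLD.WD
    have hd0 : 0 < d := by
      rcases Nat.eq_zero_or_pos d with h | h
      · have := hLD.D0
        rw [h, mul_zero] at this
        omega
      · exact h
    have hdle : d ≤ 2 * tJ N := by
      have h1 : W * d ≤ W * (2 * tJ N) := by
        calc W * d ≤ 2 * tJ N * W := hD
          _ = W * (2 * tJ N) := by ring
      exact Nat.le_of_mul_le_mul_left h1 hW
    have h2z : 2 * z ≤ X := by
      have h1 := hLD.XY
      have h2 : W * N ≤ W * d * N := by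
        calc W * N = W * 1 * N := by ring
          _ ≤ W * d * N := by gcongr; exact hd0
      omega
    obtain ⟨x1, x2, l1, l2, -, -, t, ht, e1, e2⟩ := agl hLD hzW hz0 h2z
    have hXe : X = α * (X / α) := (Nat.mul_div_cancel' hLD.dX).symm
    have hze : z = β * (z / β) := (Nat.mul_div_cancel' hLD.dY).symm
    have he0 := hLD.e0
    rw [mem_union]
    rcases hE' with hE' | hE'
    · left
      rw [mem_image]
      refine ⟨(d, ⟨e * (X / α), (e, β)⟩), ?_, ?_⟩
      · rw [hQ, mem_product, mem_Icc, mem_sigma]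
        refine ⟨⟨hd0, hdle⟩, hE', ?_⟩
        rw [mem_product, Nat.mem_divisors, Nat.mem_divisors]
        refine ⟨⟨dvd_mul_right _ _, (Nat.mul_pos he0 x1).ne'⟩, ⟨t, ?_⟩, ?_⟩
        · dsimp only
          omega
        · dsimp only
          omega
      · rw [hf1]
        dsimp only
        rw [Nat.mul_div_cancel_left _ hLD.e0]
        have h3 : β + d * W * e = α := by rw [hLD.ab]; ring
        rw [h3, ← hXe, hLD.XY]
        have h4 : d * W * N = W * d * N := by ring
        rw [h4]
        omega
    · right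
      rw [mem_image]
      refine ⟨(d, ⟨e * (z / β), (e, α)⟩), ?_, ?_⟩
      · rw [hQ, mem_product, mem_Icc, mem_sigma]
        refine ⟨⟨hd0, hdle⟩, hE', ?_⟩
        rw [mem_product, Nat.mem_divisors, Nat.mem_divisors]
        refine ⟨⟨dvd_mul_right _ _, (Nat.mul_pos he0 x2).ne'⟩, ⟨t, ?_⟩, ?_⟩
        · dsimp only
          omega
        · dsimp only
          omega
      · rw [hf2]
        dsimp only
        rw [Nat.mul_div_cancel_left _ hLD.e0]
        have h3 : α - d * W * e = β := by
          rw [hLD.ab]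
          have : d * W * e = W * d * e := by ring
          rw [this]
          omega
        rw [h3, ← hze]
  calc (AffA W N a E).card ≤ (Q.image f1 ∪ Q.image f2).card := card_le_card hsub
    _ ≤ (Q.image f1).card + (Q.image f2).card := card_union_le _ _
    _ ≤ Q.card + Q.card := Nat.add_le_add card_image_le card_image_le
    _ = 4 * tJ N * ∑ n ∈ E, n.divisors.card * (N - n).divisors.card := by rw [hQc]; ring

end Pool.Agent.Lib.OA
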