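import Pool.Agent.Lib.MP_7b7e48_nt.OA.ANum

/-!
# Module ARHO (30 minutes): the number of the integers `≤ N` composed of at most `s` tiny primes

Let `PP` be the set of the powers `p ^ i ≤ N`, `p ≤ 2 tJ N` prime, `i ≥ 0`: `card PP ≤ 2 tJ N (Nat.log 2 N + 1) + 1 ≤ K^2` (`NumA.JK`: even `2 tJ N ≤ 2 K^(1/2000)`, use
`OW.tJ_low`). Every `ρ ∈ RHO s N` is a product of a function `Fin s → PP` (its prime powers `p ^ v_p(ρ)`, completed by `1`): induction on `s`:
`RHO (s+1) N ⊆ image₂ (·*·) (RHO s N) PP`.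
-/

set_option autoImplicit false

open Finset
open Pool.Agent.Lib.MP_45349e_nt.LS (lam)

namespace Pool.Agent.Lib.OA

open Pool.Agent.Lib.OW
open Pool.Agent.Lib.RG (RC LV rr SS PB)

private noncomputable def ARHO_P (N : ℕ) : Finset ℕ :=
  Finset.image₂ (fun p i => p ^ i) (range (2 * tJ N + 1)) (range (Nat.log 2 N + 1))

private theorem ARHO_sub {s N : ℕ} (hN : 1 ≤ N) :
    RHO (s + 1) N ⊆ Finset.image₂ (· * ·) (RHO s N) (ARHO_P N) := by
  intro ρ hρ
  unfold RHO at hρ
  rw [mem_filter, mem_Icc] at hρ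
  obtain ⟨⟨h1, hle⟩, hc, hp⟩ := hρ
  rw [Finset.mem_image₂]
  rcases Finset.eq_empty_or_nonempty ρ.primeFactors with he | ⟨p, hpm⟩
  · have hρ1 : ρ = 1 := by
      rcases Nat.primeFactors_eq_empty.mp he with h | h
      · omega
      · exact h
    refine ⟨1, ?_, 1, ?_, by rw [hρ1]⟩
    · unfold RHO
      rw [mem_filter, mem_Icc]
      refine ⟨⟨le_rfl, hN⟩, by simp, fun p hp => ?_⟩
      simp at hp
    · unfold ARHO_P
      rw [Finset.mem_image₂]
      exact ⟨0, by simp, 0, by simp, rfl⟩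
  · have hpp := Nat.prime_of_mem_primeFactors hpm
    have hρ0 : ρ ≠ 0 := by omega
    refine ⟨ordCompl[p] ρ, ?_, p ^ ρ.factorization p, ?_, ?_⟩
    · unfold RHO
      rw [mem_filter, mem_Icc]
      have hpos : 0 < ordCompl[p] ρ := Nat.ordCompl_pos p hρ0
      have hpf : (ordCompl[p] ρ).primeFactors = ρ.primeFactors.erase p := by
        rw [← Nat.support_factorization, Nat.factorization_ordCompl, Finsupp.support_erase,
          Nat.support_factorization]
      refine ⟨⟨hpos, (Nat.div_le_self _ _).trans hle⟩, ?_, fun r hr => ?_⟩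
      · rw [hpf, Finset.card_erase_of_mem hpm]
        omega
      · rw [hpf] at hr
        exact hp r (Finset.mem_of_mem_erase hr)
    · unfold ARHO_P
      rw [Finset.mem_image₂]
      refine ⟨p, mem_range.mpr (Nat.lt_succ_of_le (hp p hpm)), ρ.factorization p, ?_, rfl⟩
      rw [mem_range]
      refine Nat.lt_succ_of_le (Nat.le_log_of_pow_le (by norm_num) ?_)
      calc 2 ^ ρ.factorization p ≤ p ^ ρ.factorization p := Nat.pow_le_pow_left hpp.two_le _
        _ ≤ ρ := Nat.ordProj_le p hρ0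
        _ ≤ N := hle
    · rw [mul_comm]
      exact Nat.ordProj_mul_ordCompl_eq_self ρ p

private theorem ARHO_ind {N : ℕ} (hN : 1 ≤ N) {B : ℝ} (hB : ((ARHO_P N).card : ℝ) ≤ B) (s : ℕ) :
    ((RHO s N).card : ℝ) ≤ B ^ s := by
  induction s with
  | zero =>
    rw [pow_zero]
    have h : RHO 0 N ⊆ {1} := by
      intro ρ hρ
      unfold RHO at hρ
      rw [mem_filter, mem_Icc] at hρ
      obtain ⟨⟨h1, -⟩, hc, -⟩ := hρ
      have he : ρ.primeFactors = ∅ := Finset.card_eq_zero.mp (Nat.le_zero.mp hc)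
      rw [mem_singleton]
      rcases Nat.primeFactors_eq_empty.mp he with h | h
      · omega
      · exact h
    have h2 := Finset.card_le_card h
    rw [Finset.card_singleton] at h2
    exact_mod_cast h2
  | succ s ih =>
    have h1 : ((RHO (s + 1) N).card : ℝ) ≤ (RHO s N).card * (ARHO_P N).card := by
      have h2 := (Finset.card_le_card (ARHO_sub (s := s) hN)).trans
        (Finset.card_image₂_le (· * ·) (RHO s N) (ARHO_P N))
      exact_mod_cast h2
    rw [pow_succ]
    exact h1.trans (mul_le_mul ih hB (Nat.cast_nonneg _) ((Nat.cast_nonneg _).trans ih))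

theorem arho (s : ℕ) : ∃ N0 : ℕ, ∀ N : ℕ, N0 ≤ N → ((RHO s N).card : ℝ) ≤ (Real.log N) ^ (2 * s) := by
  obtain ⟨N0, hN0⟩ := numA
  refine ⟨N0 + 1, fun N hN => ?_⟩
  have hnum := hN0 N (by omega)
  have hK := hnum.K
  have hN1 : 1 ≤ N := by omega
  have hNR : (1 : ℝ) ≤ N := by exact_mod_cast hN1
  rw [pow_mul]
  refine ARHO_ind hN1 ?_ s
  set K := Real.log N with hKd
  have hK0 : 0 < K := by linarith
  have hcard : ((ARHO_P N).card : ℝ) ≤ (2 * tJ N + 1 : ℝ) * (Nat.log 2 N + 1 : ℝ) := by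
    have h1 := Finset.card_image₂_le (fun p i => p ^ i) (range (2 * tJ N + 1))
      (range (Nat.log 2 N + 1))
    rw [card_range, card_range] at h1
    unfold ARHO_P
    exact_mod_cast h1
  have hJ : (tJ N : ℝ) ≤ K ^ ((1 : ℝ) / 2) := by
    have h1 : (tJ N : ℝ) ≤ K ^ ((1 : ℝ) / 2000) := by
      unfold tJ
      exact Nat.floor_le (Real.rpow_nonneg hK0.le _)
    exact h1.trans (Real.rpow_le_rpow_of_exponent_le (by linarith) (by norm_num))
  rw [← Real.sqrt_eq_rpow] at hJ
  set r := Real.sqrt K with hr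
  have hrr : r * r = K := Real.mul_self_sqrt hK0.le
  have hr10 : 10 ≤ r := by
    rw [hr]
    refine Real.le_sqrt_of_sq_le ?_
    linarith
  have hlog : (Nat.log 2 N : ℝ) ≤ 2 * K := by
    have h1 : (2 : ℝ) ^ (Nat.log 2 N) ≤ N := by
      exact_mod_cast Nat.pow_log_le_self 2 (by omega)
    have h2 := Real.log_le_log (by positivity) h1
    rw [Real.log_pow] at h2
    have h3 := Real.log_two_gt_d9
    have h4 : (0 : ℝ) ≤ Nat.log 2 N := Nat.cast_nonneg _
    nlinarith
  refine hcard.trans ?_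
  have h5 : (2 * tJ N + 1 : ℝ) ≤ 2 * r + 1 := by linarith
  have h6 : (Nat.log 2 N + 1 : ℝ) ≤ 3 * K := by linarith
  calc (2 * tJ N + 1 : ℝ) * (Nat.log 2 N + 1 : ℝ) ≤ (2 * r + 1) * (3 * K) :=
        mul_le_mul h5 h6 (by positivity) (by positivity)
    _ ≤ K ^ 2 := by
        rw [pow_two]
        have h7 : (2 * r + 1) * 3 ≤ K := by nlinarith
        nlinarith

end Pool.Agent.Lib.OA
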