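import Mathlib
import Pool.Agent.Lib.MP_7b7e48_nt.OA.AAFC
import Pool.Agent.Lib.MP_7b7e48_nt.OA.AM2
import Pool.Agent.Lib.MP_7b7e48_nt.OA.APRE
import Pool.Agent.Lib.MP_7b7e48_nt.OA.ARHO
import Pool.Agent.Lib.MP_7b7e48_nt.OW.REL
import Pool.Agent.Lib.MP_7b7e48_nt.OA.AST
import Pool.Agent.Lib.MP_7b7e48_nt.OA.ANum
import Pool.Agent.Lib.MP_7b7e48_nt.OW.VF

/-!
# Module AINV2 (70 minutes): the exceptional set of the character is nearly invariant

As `OW/INV2.lean`, `Z = Zst N W a c 1 = {x ∈ UU : lam x ≠ c x}`, `σ = sQ c (W N)`. `l` is a prime coprime to `W N` (`c l = -1`, `RC.zero`). A bad `x ∈ Z` (`mr l x ∉ Z`) has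
`lam (mr l x) ≠ - lam x = lam l lam x`. Three sets. (B1) some prime `q ∣ x`, `c q = 1`, `q > N exp(-K^(1/30))`: `VF.top`, `C K^(-29/30) σ N ≤ η' del N σ N` (`del N ≥ c/log K`: `OW.del_loglog`).
(B2) `mr W N A x ∈ AffA` for some `A ≤ K^C2`, `GA s N l A`: then `NI s N (mr W N A x)` (`ani`), so at most `K^(2 C2) card (AffA.filter NI)` (`apre`),
`≤ K^(2 C2) 4 tJ K^(2s) ∑_{EA, OKn} incA` (`aafcN`, `arho`) and, by hypothesis `hk` and `arel2`, `≤ K^(2 C2 + 2 s + 2 + CM) √(card EA (σ + L) N)`, `L ≤ C σ` (`VF.sl`, `NumA.d1`),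
`card EA ≤ σ N/K^A`: `≤ K^(..) (1 + C) σ N K^(-A/2) ≤ η' (1/K) σ N`. (The elements of `EA` are coprime to `W`, and `N - n` too: classes `a`, `N - a`.)
(B3) otherwise: `lam x ≠ c x` gives a prime `q ∣ x`, `c q = 1`, `q LL^5 ≤ N`, `x = q n`; `apl` with `v = q`: at most `η' del N N/q`; sum `≤ η' del N σ N`.
Total `≤ 3 η' del N σ N ≤ η card Z` by `VF.low`.
-/

set_option autoImplicit false

open Finset
open Pool.Agent.Lib.MP_45349e_nt.LS (lam)

namespace Pool.Agent.Lib.OA

open Pool.Agent.Lib.OW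
open Pool.Agent.Lib.RG (RC LV rr SS PB)

private theorem ainv2_pm (n : ℕ) : lam n = 1 ∨ lam n = -1 := by
  have h := Pool.Agent.Lib.MP_45349e_nt.LS.abs_lam n
  rcases abs_cases (lam n) with h1 | h1
  · left; linarith
  · right; linarith

private theorem ainv2_cop {W N a x : ℕ} (hc : Cf W N a) (h1 : x % W = a % W) (h2 : x.Coprime N) :
    x.Coprime (W * N) := by
  refine Nat.Coprime.mul_right ?_ h2
  have h3 : Nat.gcd x W = Nat.gcd a W := Nat.ModEq.gcd_eq h1
  unfold Nat.Coprime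
  rw [h3]
  exact hc.aW

open Classical in
theorem ainv2_of (apl : APLS) (W : ℕ) (hW : 1 ≤ W) (C1 : ℝ) : ∃ A : ℕ, ∀ η C c1 : ℝ, 0 < η → 0 < C → 0 < c1 → ∃ N0 : ℕ, ∀ N : ℕ, N0 ≤ N →
    ∀ a : ℕ, Cf W N a → ∀ κ : ℝ, κ ^ 2 = 1 → ∀ (c : ℕ → ℝ) (L δ : ℝ) (A' : ℕ), RC (W * N) c →
    VF N W a A' c L c1 C (1 / 30) δ (sQ c (W * N)) →
    ((EA W N a κ).card : ℝ) ≤ sQ c (W * N) * N / (Real.log N) ^ A →
    (∀ n ∈ EA W N a κ, OKn N n → ∃ q : ℕ, q.Prime ∧ c q = 1 ∧ (q ∣ n ∨ q ∣ N - n)) →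
    ∀ l : ℕ, l.Prime → l % W = 1 % W → (l : ℝ) ≤ (Real.log N) ^ C1 → c l = -1 →
    (((Zst N W a c 1).filter fun x => mr W N l x ∉ Zst N W a c 1).card : ℝ) ≤ η * (Zst N W a c 1).card := by
  obtain ⟨s, C2, hC2, hpl⟩ := apl W hW C1
  obtain ⟨CM, hCM, M0, hrel⟩ := arel2 W hW
  obtain ⟨M1, hnum⟩ := numA
  obtain ⟨M3, hrho⟩ := arho s
  refine ⟨⌈2 * (2 * C2 + (2 * s : ℕ) + CM + 3)⌉₊, ?_⟩
  intro η C c1 hη hC hc1
  have hWr : (1 : ℝ) ≤ W := by exact_mod_cast hW
  set A : ℕ := ⌈2 * (2 * C2 + (2 * s : ℕ) + CM + 3)⌉₊ with hA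
  have hAle : 2 * (2 * C2 + (2 * s : ℕ) + CM + 3) ≤ (A : ℝ) := Nat.le_ceil _
  set η' : ℝ := η * c1 / 4 with hη'
  have hη'0 : 0 < η' := by positivity
  obtain ⟨M2, hpl2⟩ := hpl η' hη'0
  obtain ⟨M4, hdb⟩ := del_big (C / η') (29 / 30) (by norm_num)
  have hcast : Filter.Tendsto (fun N : ℕ => Real.log N) Filter.atTop Filter.atTop :=
    Real.tendsto_log_atTop.comp tendsto_natCast_atTop_atTop
  have e2 : ∀ᶠ N : ℕ in Filter.atTop, 4 * Real.sqrt (1 + C) / η' ≤ Real.log N :=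
    hcast.eventually_ge_atTop _
  have e3 : ∀ᶠ N : ℕ in Filter.atTop, (5 : ℝ) ≤ (Real.log N) ^ ((1 : ℝ) / 120) :=
    ((tendsto_rpow_atTop (by norm_num)).comp hcast).eventually_ge_atTop 5
  have e4 : ∀ᶠ N : ℕ in Filter.atTop, (1 : ℝ) ≤ Real.log N := hcast.eventually_ge_atTop 1
  have e5 : ∀ᶠ N : ℕ in Filter.atTop, M0 + M1 + M2 + M3 + M4 + 3 ≤ N := Filter.eventually_ge_atTop _
  obtain ⟨N0, hN0⟩ := Filter.eventually_atTop.mp (e2.and (e3.and (e4.and e5)))
  refine ⟨N0, ?_⟩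
  intro N hN a hc κ hκ c L δ A' hRC hV hEE hk l hl hlW hlC hcl
  obtain ⟨f2, f3, f4, f5⟩ := hN0 N hN
  have hn := hnum N (by omega)
  have hN3 : 3 ≤ N := by omega
  have hNpos : (0 : ℝ) < N := by
    have : 0 < N := by omega
    exact_mod_cast this
  have hdbN := hdb N (by omega)
  have hd0 : 0 < del N := del_pos (by omega)
  set K : ℝ := Real.log N with hK
  have hK0 : 0 < K := by linarith
  set σ : ℝ := sQ c (W * N) with hσ
  have hσ0 : 0 < σ := lt_of_lt_of_le (Real.rpow_pos_of_pos hNpos _) hV.pos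
  have hL0 : 0 < L := by
    refine lt_of_lt_of_le ?_ hV.siegel
    have : 0 < W * N := by
      have := hc.W1
      positivity
    have h1 : (0 : ℝ) < ((W * N : ℕ) : ℝ) := by exact_mod_cast this
    positivity
  have hd1 : 1 ≤ K * del N := hn.d1
  have hKd : 1 / K ≤ del N := by
    rw [div_le_iff₀ hK0]
    linarith
  -- members of `Zst`
  have hZmem : ∀ x, x ∈ Zst N W a c 1 ↔ x ∈ UU W N a ∧ lam x ≠ c x := by
    intro x
    unfold Zst Dom UU
    simp only [Finset.mem_filter, Finset.mem_range, one_mul]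
    constructor
    · rintro ⟨⟨h1, h2, h3⟩, h4⟩
      exact ⟨⟨h1, h2, h3⟩, h4⟩
    · rintro ⟨⟨h1, h2, h3⟩, h4⟩
      exact ⟨⟨h1, h2, h3⟩, h4⟩
  have hUmem : ∀ x, x ∈ UU W N a ↔ x < W * N ∧ x % W = a % W ∧ x.Coprime N := by
    intro x
    unfold UU
    simp only [Finset.mem_filter, Finset.mem_range]
  have hlc : l.Coprime (W * N) := by
    by_contra h
    have := hRC.zero l h
    rw [hcl] at this
    norm_num at this
  have hlN : l.Coprime N := Nat.Coprime.coprime_mul_left_right hlc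
  have hWNpos : 0 < W * N := Nat.mul_pos hc.W1 (by omega)
  have hmr : ∀ x ∈ UU W N a, mr W N l x ∈ UU W N a := by
    intro x hx
    rw [hUmem] at hx ⊢
    obtain ⟨h1, h2, h3⟩ := hx
    unfold mr
    refine ⟨Nat.mod_lt _ hWNpos, ?_, ?_⟩
    · rw [Nat.mod_mul_right_mod, Nat.mul_mod, hlW, h2, ← Nat.mul_mod, one_mul]
    · have h4 : (l * x).Coprime N := Nat.Coprime.mul_left hlN h3
      have h5 : ((l * x) % (W * N)) % N = (l * x) % N := Nat.mod_mul_left_mod _ _ _
      have h6 : Nat.gcd ((l * x) % (W * N)) N = Nat.gcd (l * x) N := Nat.ModEq.gcd_eq h5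
      unfold Nat.Coprime
      rw [h6]
      exact h4
  have hcmr : ∀ x, c (mr W N l x) = c l * c x := by
    intro x
    have hper : ∀ k n : ℕ, c (n + (W * N) * k) = c n := by
      intro k
      induction k with
      | zero => intro n; rw [mul_zero, add_zero]
      | succ k ih =>
        intro n
        have : n + W * N * (k + 1) = (n + W * N * k) + W * N := by ring
        rw [this, hRC.per, ih]
    rw [← hRC.mul]
    unfold mr
    conv_rhs => rw [← Nat.mod_add_div (l * x) (W * N)]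
    rw [hper]
  have hval : ∀ x ∈ UU W N a, c x = 1 ∨ c x = -1 := by
    intro x hx
    rw [hUmem] at hx
    exact hRC.val x (ainv2_cop hc hx.2.1 hx.2.2)
  have hpos : ∀ x ∈ UU W N a, 0 < x := by
    intro x hx
    rw [hUmem] at hx
    rcases Nat.eq_zero_or_pos x with h | h
    · exfalso
      have h1 := hx.2.2
      rw [h, Nat.coprime_zero_left] at h1
      omega
    · exact h
  have hlam : lam l = -1 := Pool.Agent.Lib.MP_45349e_nt.LS.lam_prime l hl
  -- a bad element of `Zst`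
  have hbad : ∀ x ∈ (Zst N W a c 1).filter (fun x => mr W N l x ∉ Zst N W a c 1),
      x ∈ UU W N a ∧ lam x ≠ c x ∧ lam (mr W N l x) ≠ lam l * lam x := by
    intro x hx
    obtain ⟨h1, h2⟩ := Finset.mem_filter.mp hx
    obtain ⟨h3, h4⟩ := (hZmem x).mp h1
    refine ⟨h3, h4, ?_⟩
    have h5 := hmr x h3
    have h6 : lam (mr W N l x) = c (mr W N l x) := by
      by_contra h
      exact h2 ((hZmem _).mpr ⟨h5, h⟩)
    have h7 : c x = -lam x := by
      rcases hval x h3 with h | h <;> rcases ainv2_pm x with h' | h'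
      · exact absurd (h'.trans h.symm) h4
      · rw [h, h']; norm_num
      · rw [h, h']
      · exact absurd (h'.trans h.symm) h4
    rw [h6, hcmr, hcl, h7, hlam]
    rcases ainv2_pm x with h | h <;> rw [h] <;> norm_num
  -- three sets
  set B1 : Finset ℕ := (Finset.Ico 1 (W * N)).filter fun n => ∃ q : ℕ, q.Prime ∧ c q = 1 ∧ q ∣ n ∧
      (N : ℝ) * Real.exp (-(Real.log N) ^ (1 / 30 : ℝ)) < q with hB1
  set Bk : ℕ := ⌊K ^ C2⌋₊ with hBk
  set SN : Finset ℕ := (AffA W N a (EA W N a κ)).filter fun z => NI s N z with hSN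
  set B2 : Finset ℕ := (Finset.range (W * N)).filter fun x => ∃ A : ℕ, A ≤ Bk ∧ mr W N A x ∈ SN with hB2
  set S : ℕ → Finset ℕ := fun v => (Finset.range (W * N)).filter fun n => v * n ∈ UU W N a ∧
      lam (mr W N l (v * n)) ≠ lam l * lam (v * n) ∧
      ∀ A : ℕ, (A : ℝ) ≤ (Real.log N) ^ C2 → GA s N l A → mr W N A (v * n) ∉ AffA W N a (EA W N a κ) with hS
  set Qs : Finset ℕ := (QP c (W * N)).filter fun q => q * LL N ^ 5 ≤ N with hQs
  set B3 : Finset ℕ := Qs.biUnion fun q => (S q).image fun n => q * n with hB3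
  have hsub : (Zst N W a c 1).filter (fun x => mr W N l x ∉ Zst N W a c 1) ⊆ B1 ∪ B2 ∪ B3 := by
    intro x hx
    obtain ⟨hU, h1, h2⟩ := hbad x hx
    have hx0 := hpos x hU
    have hxU := (hUmem x).mp hU
    by_cases hb1 : x ∈ B1
    · exact Finset.mem_union_left _ (Finset.mem_union_left _ hb1)
    by_cases hb2 : x ∈ B2
    · exact Finset.mem_union_left _ (Finset.mem_union_right _ hb2)
    refine Finset.mem_union_right _ ?_
    obtain ⟨q, hq, hcq, hqx⟩ := lam_ne hRC hx0 (ainv2_cop hc hxU.2.1 hxU.2.2) h1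
    obtain ⟨n, rfl⟩ := hqx
    have hqle : q ≤ q * n := Nat.le_mul_of_pos_right q (Nat.pos_of_ne_zero (by rintro rfl; simp at hx0))
    have hnle : n ≤ q * n := Nat.le_mul_of_pos_left n hq.pos
    have hqN : (q : ℝ) ≤ (N : ℝ) * Real.exp (-(Real.log N) ^ (1 / 30 : ℝ)) := by
      by_contra hcon
      push Not at hcon
      apply hb1
      rw [hB1, Finset.mem_filter, Finset.mem_Ico]
      exact ⟨⟨hx0, hxU.1⟩, q, hq, hcq, Dvd.intro n rfl, hcon⟩
    have hqLL : q * LL N ^ 5 ≤ N := by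
      have h3 : (LL N : ℝ) ≤ Real.exp (K ^ ((1 : ℝ) / 40)) := Nat.floor_le (Real.exp_nonneg _)
      have h4 : (LL N : ℝ) ^ 5 ≤ Real.exp (5 * K ^ ((1 : ℝ) / 40)) := by
        calc (LL N : ℝ) ^ 5 ≤ (Real.exp (K ^ ((1 : ℝ) / 40))) ^ 5 :=
              pow_le_pow_left₀ (Nat.cast_nonneg _) h3 5
          _ = Real.exp (5 * K ^ ((1 : ℝ) / 40)) := by
              rw [← Real.exp_nat_mul]
              norm_num
      have h5 : 5 * K ^ ((1 : ℝ) / 40) ≤ K ^ (1 / 30 : ℝ) := by
        calc 5 * K ^ ((1 : ℝ) / 40) ≤ K ^ ((1 : ℝ) / 120) * K ^ ((1 : ℝ) / 40) := by gcongr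
          _ = K ^ (1 / 30 : ℝ) := by
              rw [← Real.rpow_add hK0]
              norm_num
      have h6 : ((q * LL N ^ 5 : ℕ) : ℝ) ≤ (N : ℝ) := by
        push_cast
        calc (q : ℝ) * (LL N : ℝ) ^ 5
            ≤ ((N : ℝ) * Real.exp (-K ^ (1 / 30 : ℝ))) * Real.exp (5 * K ^ ((1 : ℝ) / 40)) :=
              mul_le_mul hqN h4 (by positivity) (by positivity)
          _ = (N : ℝ) * Real.exp (-K ^ (1 / 30 : ℝ) + 5 * K ^ ((1 : ℝ) / 40)) := by
              rw [Real.exp_add]; ring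
          _ ≤ (N : ℝ) * 1 := by
              refine mul_le_mul_of_nonneg_left ?_ hNpos.le
              exact Real.exp_le_one_iff.mpr (by linarith)
          _ = N := mul_one _
      exact_mod_cast h6
    rw [hB3, Finset.mem_biUnion]
    refine ⟨q, ?_, ?_⟩
    · rw [hQs, Finset.mem_filter]
      refine ⟨?_, hqLL⟩
      unfold QP
      rw [Finset.mem_filter, Finset.mem_range]
      exact ⟨by omega, hq, hcq⟩
    · rw [Finset.mem_image]
      refine ⟨n, ?_, rfl⟩
      rw [hS]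
      simp only
      rw [Finset.mem_filter, Finset.mem_range]
      refine ⟨by omega, hU, h2, ?_⟩
      intro A0 hA0 hGA hcon
      apply hb2
      rw [hB2, Finset.mem_filter, Finset.mem_range]
      refine ⟨hxU.1, A0, Nat.le_floor hA0, ?_⟩
      rw [hSN, Finset.mem_filter]
      exact ⟨hcon, ani hW (by omega) hxU.2.2 hlN hGA⟩
  -- first set
  have hc1' : (B1.card : ℝ) ≤ η' * (del N * (σ * N)) := by
    have h1 := hV.top
    have h2 : ((1 / 30 : ℝ) - 1) = -(29 / 30) := by norm_num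
    rw [h2] at h1
    refine h1.trans ?_
    have h3 : C * K ^ (-(29 / 30) : ℝ) ≤ η' * del N := by
      have h4 : C * K ^ (-(29 / 30) : ℝ) = η' * (C / η' * K ^ (-(29 / 30) : ℝ)) := by
        field_simp
      rw [h4]
      exact mul_le_mul_of_nonneg_left hdbN hη'0.le
    calc C * K ^ (-(29 / 30) : ℝ) * σ * N = (C * K ^ (-(29 / 30) : ℝ)) * (σ * N) := by
          ring
      _ ≤ (η' * del N) * (σ * N) := mul_le_mul_of_nonneg_right h3 (by positivity)
      _ = η' * (del N * (σ * N)) := by ring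
  -- second set
  set R : ℝ := Real.sqrt (1 + C) with hR
  have hR0 : 0 ≤ R := Real.sqrt_nonneg _
  have hR2 : R ^ 2 = 1 + C := Real.sq_sqrt (by positivity)
  set P : ℝ := K ^ (2 * C2 + (2 * s : ℕ) + CM + 3) with hP
  have hP0 : 0 < P := Real.rpow_pos_of_pos hK0 _
  have hP2 : P ^ 2 ≤ K ^ A := by
    calc P ^ 2 = K ^ (2 * (2 * C2 + (2 * s : ℕ) + CM + 3)) := by
          rw [hP, ← Real.rpow_natCast, ← Real.rpow_mul hK0.le]
          congr 1
          push_cast
          ring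
      _ ≤ K ^ (A : ℝ) := Real.rpow_le_rpow_of_exponent_le f4 hAle
      _ = K ^ A := Real.rpow_natCast _ _
  have hLσ : L ≤ C * σ := by
    refine le_trans ?_ hV.sl
    calc L = 1 * L := (one_mul L).symm
      _ ≤ (K * del N) * L := mul_le_mul_of_nonneg_right hd1 hL0.le
      _ = K * (del N * L) := by ring
  set EO : Finset ℕ := (EA W N a κ).filter fun n => OKn N n with hEO
  have hEOc : (EO.card : ℝ) ≤ (EA W N a κ).card := by
    exact_mod_cast Finset.card_le_card (Finset.filter_subset _ _)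
  have hrel2 := hrel N (by omega) c L hRC hV.lv hV.siegel EO (by
    intro n hn0
    rw [hEO, Finset.mem_filter] at hn0
    obtain ⟨hnE, hok⟩ := hn0
    obtain ⟨q, hq, hcq, hqd⟩ := hk n hnE hok
    unfold EA at hnE
    rw [Finset.mem_filter, Finset.mem_Ioo] at hnE
    obtain ⟨⟨h0, h1⟩, h2, h4⟩ := hnE
    have h5 : n.Coprime W := by
      have h9 : Nat.gcd n W = Nat.gcd a W := Nat.ModEq.gcd_eq h2
      unfold Nat.Coprime
      rw [h9]
      exact hc.aW
    have haN : a ≤ N := (hc.alt.le).trans hc.WN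
    have h7 : (N - n) ≡ (N - a) [MOD W] := by
      refine Nat.ModEq.add_right_cancel (show n ≡ a [MOD W] from h2) ?_
      rw [Nat.sub_add_cancel h1.le, Nat.sub_add_cancel haN]
    have h8 : (N - n).Coprime W := by
      have h9 : Nat.gcd (N - n) W = Nat.gcd (N - a) W := Nat.ModEq.gcd_eq h7
      unfold Nat.Coprime
      rw [h9]
      exact hc.naW
    exact ⟨h0, h1, h5, h8, q, hq, hcq, hqd⟩)
  have hsq : Real.sqrt (EO.card * ((σ + L) * N)) ≤ σ * N * R / P := by
    refine Real.sqrt_le_iff.mpr ⟨by positivity, ?_⟩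
    have h1 : (EO.card : ℝ) ≤ σ * N / P ^ 2 := by
      refine hEOc.trans (hEE.trans ?_)
      exact div_le_div_of_nonneg_left (by positivity) (by positivity) hP2
    have h2 : (σ + L) * N ≤ (1 + C) * (σ * N) := by
      calc (σ + L) * N ≤ (σ + C * σ) * N := by gcongr
        _ = _ := by ring
    calc (EO.card : ℝ) * ((σ + L) * N)
        ≤ (σ * N / P ^ 2) * ((1 + C) * (σ * N)) :=
          mul_le_mul h1 h2 (by positivity) (by positivity)
      _ = (σ * N * R / P) ^ 2 := by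
          rw [← hR2]
          ring
  have hSNc : (SN.card : ℝ) ≤ 4 * K * K ^ (2 * s) * (K ^ CM * (σ * N * R / P)) := by
    have h1 := aafcN (W := W) (N := N) (a := a) (s := s) hW (by omega) hn (EA W N a κ)
      (by unfold EA; exact Finset.filter_subset _ _)
    have h2 : (SN.card : ℝ) ≤ 4 * (tJ N : ℝ) * ((RHO s N).card : ℝ) * ((∑ n ∈ EO, incA N n : ℕ) : ℝ) := by
      exact_mod_cast h1
    have h3 : (tJ N : ℝ) ≤ K := by
      have h4 := hn.JK
      have h5 : (0 : ℝ) ≤ (tJ N : ℝ) := Nat.cast_nonneg _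
      linarith
    have h4 : ((RHO s N).card : ℝ) ≤ K ^ (2 * s) := hrho N (by omega)
    have h5 : ((∑ n ∈ EO, incA N n : ℕ) : ℝ) ≤ K ^ CM * (σ * N * R / P) :=
      hrel2.trans (mul_le_mul_of_nonneg_left hsq (by positivity))
    calc (SN.card : ℝ) ≤ 4 * (tJ N : ℝ) * ((RHO s N).card : ℝ) * ((∑ n ∈ EO, incA N n : ℕ) : ℝ) := h2
      _ ≤ 4 * K * K ^ (2 * s) * (K ^ CM * (σ * N * R / P)) := by gcongr
  have hc2' : (B2.card : ℝ) ≤ η' * (del N * (σ * N)) := by
    have h1 := apre (W := W) (N := N) (B := Bk) hW (by omega) SN (by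
      intro z hz
      rw [hSN, Finset.mem_filter] at hz
      have h2 := hz.1
      unfold AffA at h2
      exact (Finset.mem_filter.mp h2).2.1)
    have h2 : (B2.card : ℝ) ≤ (Bk : ℝ) ^ 2 * (SN.card : ℝ) := by
      exact_mod_cast h1
    have h3 : (Bk : ℝ) ≤ K ^ C2 := Nat.floor_le (by positivity)
    have h4 : (K ^ C2) ^ 2 * (4 * K * K ^ (2 * s) * (K ^ CM * (σ * N * R / P))) = 4 * R / K * (1 / K) * (σ * N) := by
      have h5 : P = (K ^ C2) ^ 2 * K ^ (2 * s) * K ^ CM * (K * K * K) := by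
        rw [hP, Real.rpow_add hK0, Real.rpow_add hK0, Real.rpow_add hK0, Real.rpow_natCast]
        have h6 : K ^ (2 * C2) = (K ^ C2) ^ 2 := by
          rw [← Real.rpow_natCast (K ^ C2) 2, ← Real.rpow_mul hK0.le]
          congr 1
          push_cast
          ring
        rw [h6]
        congr 1
        rw [Real.rpow_ofNat]
        ring
      have h6 : K ^ C2 ≠ 0 := (Real.rpow_pos_of_pos hK0 _).ne'
      have h7 : K ^ CM ≠ 0 := (Real.rpow_pos_of_pos hK0 _).ne'
      have h8 : K ^ (2 * s) ≠ 0 := (pow_pos hK0 _).ne'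
      rw [h5]
      field_simp
    have h8 : 4 * R / K ≤ η' := by
      rw [div_le_iff₀ hK0]
      rw [div_le_iff₀ hη'0] at f2
      linarith
    calc (B2.card : ℝ) ≤ (Bk : ℝ) ^ 2 * (SN.card : ℝ) := h2
      _ ≤ (K ^ C2) ^ 2 * (4 * K * K ^ (2 * s) * (K ^ CM * (σ * N * R / P))) := by gcongr
      _ = 4 * R / K * (1 / K) * (σ * N) := h4
      _ ≤ η' * del N * (σ * N) := by
          refine mul_le_mul_of_nonneg_right ?_ (by positivity)
          exact mul_le_mul h8 hKd (by positivity) hη'0.le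
      _ = η' * (del N * (σ * N)) := by ring
  -- third set
  have hc3' : (B3.card : ℝ) ≤ η' * (del N * (σ * N)) := by
    have h1 : B3.card ≤ ∑ q ∈ Qs, (S q).card := by
      refine Finset.card_biUnion_le.trans (Finset.sum_le_sum fun q _ => Finset.card_image_le)
    have h2 : ∀ q ∈ Qs, ((S q).card : ℝ) ≤ η' * del N * N * (1 / (q : ℝ)) := by
      intro q hq
      obtain ⟨h3, h4⟩ := Finset.mem_filter.mp hq
      unfold QP at h3
      have hqp := (Finset.mem_filter.mp h3).2.1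
      have h5 := hpl2 N (by omega) a hc κ hκ l hl.one_lt.le hlW hlC q hqp.one_lt.le h4
      refine h5.trans (le_of_eq ?_)
      ring
    calc (B3.card : ℝ) ≤ ((∑ q ∈ Qs, (S q).card : ℕ) : ℝ) := by exact_mod_cast h1
      _ = ∑ q ∈ Qs, ((S q).card : ℝ) := by push_cast; rfl
      _ ≤ ∑ q ∈ Qs, η' * del N * N * (1 / (q : ℝ)) := Finset.sum_le_sum h2
      _ = η' * del N * N * ∑ q ∈ Qs, (1 / (q : ℝ)) := by rw [Finset.mul_sum]
      _ ≤ η' * del N * N * σ := by
          refine mul_le_mul_of_nonneg_left ?_ (by positivity)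
          rw [hσ]
          unfold sQ
          refine Finset.sum_le_sum_of_subset_of_nonneg (Finset.filter_subset _ _) fun _ _ _ => by positivity
      _ = η' * (del N * (σ * N)) := by ring
  -- conclusion
  have hfin : (((Zst N W a c 1).filter fun x => mr W N l x ∉ Zst N W a c 1).card : ℝ) ≤
      3 * (η' * (del N * (σ * N))) := by
    have h1 : ((Zst N W a c 1).filter fun x => mr W N l x ∉ Zst N W a c 1).card ≤
        B1.card + B2.card + B3.card := by
      refine (Finset.card_le_card hsub).trans ?_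
      refine (Finset.card_union_le _ _).trans ?_
      have := Finset.card_union_le B1 B2
      omega
    have h2 : (((Zst N W a c 1).filter fun x => mr W N l x ∉ Zst N W a c 1).card : ℝ) ≤
        (B1.card : ℝ) + B2.card + B3.card := by exact_mod_cast h1
    linarith
  have hlow : c1 * (del N * (σ * N)) ≤ ((Zst N W a c 1).card : ℝ) := by
    refine le_trans ?_ hV.low
    exact le_of_eq (by ring)
  have hσN : 0 < del N * (σ * N) := by positivity
  calc (((Zst N W a c 1).filter fun x => mr W N l x ∉ Zst N W a c 1).card : ℝ)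
      ≤ 3 * (η' * (del N * (σ * N))) := hfin
    _ ≤ 4 * (η' * (del N * (σ * N))) := by
        have : 0 < η' * (del N * (σ * N)) := by positivity
        linarith
    _ = η * (c1 * (del N * (σ * N))) := by
        rw [hη']
        ring
    _ ≤ η * (Zst N W a c 1).card := mul_le_mul_of_nonneg_left hlow hη.le

end Pool.Agent.Lib.OA
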