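import Pool.Agent.Lib.MP_7b7e48_nt.OA.AGL
import Pool.Agent.Lib.MP_7b7e48_nt.OW.STP

/-!
# Module ASTP (30 minutes): one step of a path

As `OW/STP.lean`. Let `y = mr W N A u`, `0 < y`, `y ≡ a (mod W)`; `z = mr W N (m * A) u = (m y) % (W N)` is in the class `m y ≡ a` and `0 < z` by hypothesis.
If `m y = z`, then `lam z = lam m lam y = - lam y`. Otherwise `X = m y ≥ z + W N > 2 z`; let `(α, β, D, e)` be a link of `X`, `z`; `D ≤ 2 tJ N W` as in
`OW/STP.lean`, so neither `e (X/α)` nor `e (z/β)` is in `EA` (`z ∉ AffA`), and `agl_lam` gives `lam X = lam z`.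
-/

set_option autoImplicit false

open Finset
open Pool.Agent.Lib.MP_45349e_nt.LS (lam)

namespace Pool.Agent.Lib.OA

open Pool.Agent.Lib.OW
open Pool.Agent.Lib.RG (RC LV rr SS PB)

theorem astep {W N a A m u : ℕ} (hW : 1 ≤ W) (hN : 0 < N) {κ : ℝ} (hκ : κ ^ 2 = 1) (hm : m.Prime)
    (hm2 : m ≤ 2 * tJ N) (hmW : m % W = 1 % W) (hy0 : 0 < mr W N A u) (hyW : mr W N A u % W = a % W)
    (hz0 : 0 < mr W N (m * A) u) (hz : mr W N (m * A) u ∉ AffA W N a (EA W N a κ))
    (hl : m * mr W N A u = mr W N (m * A) u ∨ LkA W N (m * mr W N A u) (mr W N (m * A) u)) :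
    mr W N (m * A) u % W = a % W ∧ lam (mr W N (m * A) u) = -lam (mr W N A u) := by
  have hWN : 0 < W * N := Nat.mul_pos hW hN
  have hmr := mr_mul W N m A u
  have hylt : mr W N A u < W * N := Nat.mod_lt _ hWN
  generalize hyd : mr W N A u = y at hy0 hyW hl hmr hylt ⊢
  generalize hzd : mr W N (m * A) u = z at hz0 hz hl hmr ⊢
  have hzlt : z < W * N := by rw [hmr]; exact Nat.mod_lt _ hWN
  have hzW : z % W = a % W := by
    rw [hmr, Nat.mod_mul_right_mod, Nat.mul_mod, hmW, hyW, ← Nat.mul_mod, one_mul]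
  refine ⟨hzW, ?_⟩
  have hlamX : lam (m * y) = -lam y := by
    rw [Pool.Agent.Lib.MP_45349e_nt.LS.lam_mul m y hm.ne_zero hy0.ne',
      Pool.Agent.Lib.MP_45349e_nt.LS.lam_prime m hm]
    ring
  by_cases heq : m * y = z
  · rw [← heq, hlamX]
  · have hlk : LkA W N (m * y) z := by
      rcases hl with h | h
      · exact absurd h heq
      · exact h
    obtain ⟨α, β, D, e, hLA⟩ := hlk
    have hLD := hLA.ld
    have hdm := Nat.mod_add_div (m * y) (W * N)
    rw [← hmr] at hdm
    have hk : 1 ≤ (m * y) / (W * N) := by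
      rcases Nat.eq_zero_or_pos ((m * y) / (W * N)) with h | h
      · rw [h, mul_zero, add_zero] at hdm
        exact absurd hdm.symm heq
      · exact h
    have hge : z + W * N ≤ m * y := by
      calc z + W * N ≤ z + W * N * ((m * y) / (W * N)) :=
            Nat.add_le_add_left (Nat.le_mul_of_pos_right _ hk) _
        _ = m * y := hdm
    have hD : D ≤ 2 * tJ N * W := by
      have h1 : D * N < m * (W * N) := by
        have h2 : m * y < m * (W * N) := Nat.mul_lt_mul_of_pos_left hylt hm.pos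
        have h3 := hLD.XY
        omega
      have h2 : D < m * W := by
        have h3 : D * N < m * W * N := by
          calc D * N < m * (W * N) := h1
            _ = m * W * N := by ring
        exact lt_of_mul_lt_mul_right h3 (Nat.zero_le _)
      exact h2.le.trans (Nat.mul_le_mul_right _ hm2)
    have hno : ¬ (e * (m * y / α) ∈ EA W N a κ ∨ e * (z / β) ∈ EA W N a κ) := by
      intro h
      apply hz
      classical
      unfold AffA
      rw [mem_filter]
      exact ⟨mem_range.mpr hzlt, hz0, hzW, m * y, α, β, D, e, hLA, hD, h⟩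
    rw [not_or] at hno
    have h2z : 2 * z ≤ m * y := by omega
    have := agl_lam hLD hzW hz0 h2z hκ hno.1 hno.2
    rw [← this, hlamX]

end Pool.Agent.Lib.OA
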