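import Mathlib
import Pool.Agent.Lib.MP_7b7e48_nt.OA.ASTP
import Pool.Agent.Lib.MP_7b7e48_nt.OW.TNY
import Pool.Agent.Lib.MP_7b7e48_nt.OW.VAR
import Pool.Agent.Lib.MP_7b7e48_nt.OA.AST
import Pool.Agent.Lib.MP_7b7e48_nt.OA.ANum

/-!
# Module APL (80 minutes): the path lemma for arbitrary integers `l = 1 (mod W)`

Copy of `OW/PL.lean` with the following changes. (1) The multiplier `l ≤ K^C1`, `l = 1 (mod W)` is an arbitrary integer, it need not be prime nor coprime to `N`;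
`lam (l x) = lam l lam x`. (2) `path`: let `A0 ≥ 1` (`A0 = 1` or `A0 = l`), `u ∈ UU`, `m ∈ piFinset TT`; all the points `x_i = mr W N (A0 * pp m i) u` are
`> 0`: otherwise `N ∣ A0 pp m i` (`u` is coprime to `N`), but `0 < A0 pp m i ≤ K^C2 < N` (`pow_lt`); they are in the class `a` modulo `W` (`A0 = m_i = 1`
modulo `W`), none is in `AffA` by hypothesis: `GA s N l (A0 * pp m i)` holds with `M = pp m i` (a product of at most `s` different primes `≤ 2 tJ N`, the sets
`TT t` are disjoint, so it is squarefree). `astep` gives `lam x_{i+1} = - lam x_i` if the step does not fail (`FlA`). (3) BAD: if `Land W N l (pp m s) u` and no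
step fails for `A0 = 1` and `A0 = l`, then `lam (mr (pp m s) u) = (-1)^s lam u`, `lam (mr (l pp m s) u) = (-1)^s lam (mr l u)`, and `land_mul`:
`mr (l M) u = l * mr M u`, so `lam (mr l u) = lam l lam u`: contradiction. (4) The numbers `n` are coprime to `N` (`v n ∈ UU`), `afm` gives the factor `del N`.
(5) `s` larger: `K^c1 K^2 ≤ 2^s T^s` (`4000 (c1 + 2) ≤ s`, `c1 = |C1|`), so that `var` gives `≤ 2^(s+4) l W N/(v T^s) ≤ η/2 (1/K) N/v ≤ η/2 del N N/v` (`NumA.d1`).
`C2 = c1 + s`.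
-/

set_option autoImplicit false

open Finset
open Pool.Agent.Lib.MP_45349e_nt.LS (lam)

namespace Pool.Agent.Lib.OA

open Pool.Agent.Lib.OW
open Pool.Agent.Lib.RG (RC LV rr SS PB)

private theorem apl_lam_mul {l n : ℕ} (hl : l ≠ 0) (hn : n ≠ 0) : lam (l * n) = lam l * lam n := by
  unfold Pool.Agent.Lib.MP_45349e_nt.LS.lam
  rw [ArithmeticFunction.cardFactors_mul hl hn, pow_add]

private theorem apl_pp_zero {s : ℕ} (m : Fin s → ℕ) : pp m 0 = 1 := by
  unfold pp
  rw [Finset.filter_false_of_mem (by intro t _; omega), Finset.prod_empty]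

private theorem apl_pp_succ {s : ℕ} (m : Fin s → ℕ) (i : Fin s) : pp m (i.val + 1) = pp m i.val * m i := by
  unfold pp
  have h : (Finset.univ : Finset (Fin s)).filter (fun t => t.val < i.val + 1) =
      insert i ((Finset.univ : Finset (Fin s)).filter (fun t => t.val < i.val)) := by
    ext t
    rw [Finset.mem_insert, Finset.mem_filter, Finset.mem_filter]
    constructor
    · rintro ⟨_, h⟩
      rcases Nat.lt_or_ge t.val i.val with h1 | h1
      · exact Or.inr ⟨Finset.mem_univ _, h1⟩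
      · exact Or.inl (Fin.ext (by omega))
    · rintro (h | ⟨_, h⟩)
      · subst h; exact ⟨Finset.mem_univ _, by omega⟩
      · exact ⟨Finset.mem_univ _, by omega⟩
  rw [h, Finset.prod_insert (by rw [Finset.mem_filter]; rintro ⟨_, h⟩; omega), mul_comm]

private theorem apl_pp_split {s : ℕ} (m : Fin s → ℕ) (i : Fin s) :
    pp m s = pp m i.val * m i * ∏ t ∈ (Finset.univ : Finset (Fin s)).filter (fun t => i.val < t.val), m t := by
  rw [← apl_pp_succ]
  unfold pp
  rw [← Finset.prod_union]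
  · congr 1
    ext t
    rw [Finset.mem_filter, Finset.mem_union, Finset.mem_filter, Finset.mem_filter]
    have := t.isLt
    constructor
    · rintro _
      rcases Nat.lt_or_ge i.val t.val with h1 | h1
      · exact Or.inr ⟨Finset.mem_univ _, h1⟩
      · exact Or.inl ⟨Finset.mem_univ _, by omega⟩
    · rintro _
      exact ⟨Finset.mem_univ _, this⟩
  · rw [Finset.disjoint_left]
    intro t h1 h2
    rw [Finset.mem_filter] at h1 h2
    omega

private theorem apl_mem {W N s T : ℕ} {TT : Fin s → Finset ℕ} (hT : Tiny W N s T TT) {m : Fin s → ℕ}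
    (hm : m ∈ Fintype.piFinset TT) (i : Fin s) :
    (m i).Prime ∧ tJ N < m i ∧ m i ≤ 2 * tJ N ∧ m i % W = 1 % W :=
  hT.pr i (m i) (Fintype.mem_piFinset.mp hm i)

private theorem apl_pp_le {W N s T : ℕ} {TT : Fin s → Finset ℕ} (hT : Tiny W N s T TT) {m : Fin s → ℕ}
    (hm : m ∈ Fintype.piFinset TT) (h1 : 1 ≤ tJ N) (i : ℕ) : pp m i ≤ (2 * tJ N) ^ s := by
  unfold pp
  calc ∏ t ∈ (Finset.univ : Finset (Fin s)).filter (fun t => t.val < i), m t
      ≤ ∏ t ∈ (Finset.univ : Finset (Fin s)).filter (fun t => t.val < i), (2 * tJ N) :=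
        Finset.prod_le_prod' fun t _ => (apl_mem hT hm t).2.2.1
    _ = (2 * tJ N) ^ ((Finset.univ : Finset (Fin s)).filter (fun t => t.val < i)).card := by
        rw [Finset.prod_const]
    _ ≤ (2 * tJ N) ^ s := by
        apply Nat.pow_le_pow_right (by omega)
        calc ((Finset.univ : Finset (Fin s)).filter (fun t => t.val < i)).card
            ≤ (Finset.univ : Finset (Fin s)).card := Finset.card_filter_le _ _
          _ = s := by simp

private theorem apl_pp_pos {W N s T : ℕ} {TT : Fin s → Finset ℕ} (hT : Tiny W N s T TT) {m : Fin s → ℕ}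
    (hm : m ∈ Fintype.piFinset TT) (i : ℕ) : 1 ≤ pp m i := by
  unfold pp
  exact Nat.one_le_iff_ne_zero.mpr (Finset.prod_ne_zero_iff.mpr fun t _ => (apl_mem hT hm t).1.ne_zero)

private theorem apl_pp_mod {W N s T : ℕ} {TT : Fin s → Finset ℕ} (hT : Tiny W N s T TT) {m : Fin s → ℕ}
    (hm : m ∈ Fintype.piFinset TT) (i : ℕ) : pp m i % W = 1 % W := by
  unfold pp
  refine Finset.prod_induction (fun t => m t) (fun x => x % W = 1 % W) ?_ rfl ?_
  · intro x y hx hy
    rw [Nat.mul_mod, hx, hy, ← Nat.mul_mod, mul_one]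
  · intro t _
    exact (apl_mem hT hm t).2.2.2

private theorem apl_pp_sq {W N s T : ℕ} {TT : Fin s → Finset ℕ} (hT : Tiny W N s T TT) {m : Fin s → ℕ}
    (hm : m ∈ Fintype.piFinset TT) : ∀ i : ℕ, i ≤ s → Squarefree (pp m i) ∧
      ∀ p : ℕ, p.Prime → p ∣ pp m i → ∃ t : Fin s, t.val < i ∧ p = m t := by
  intro i
  induction i with
  | zero =>
    intro _
    rw [apl_pp_zero]
    refine ⟨squarefree_one, fun p hp h => ?_⟩
    exact absurd (Nat.dvd_one.mp h) hp.one_lt.ne'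
  | succ i ih =>
    intro hi
    obtain ⟨ih1, ih2⟩ := ih (by omega)
    have e : pp m (i + 1) = pp m i * m ⟨i, by omega⟩ := apl_pp_succ m ⟨i, by omega⟩
    have hp := (apl_mem hT hm ⟨i, by omega⟩).1
    rw [e]
    constructor
    · have hc : (pp m i).Coprime (m ⟨i, by omega⟩) := by
        rw [Nat.coprime_comm, Nat.Prime.coprime_iff_not_dvd hp]
        intro h
        obtain ⟨t, ht1, ht2⟩ := ih2 _ hp h
        have hne : t ≠ ⟨i, by omega⟩ := by
          intro h'
          rw [h'] at ht1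
          exact lt_irrefl _ ht1
        have h1 := Fintype.mem_piFinset.mp hm t
        have h2 := Fintype.mem_piFinset.mp hm ⟨i, by omega⟩
        rw [ht2] at h2
        exact Finset.disjoint_left.mp (hT.disj t _ hne) h1 h2
      exact (Nat.squarefree_mul hc).mpr ⟨ih1, hp.squarefree⟩
    · intro p hpp h
      rcases (Nat.Prime.dvd_mul hpp).mp h with h1 | h1
      · obtain ⟨t, ht1, ht2⟩ := ih2 p hpp h1
        exact ⟨t, by omega, ht2⟩
      · exact ⟨⟨i, by omega⟩, by simp, (Nat.prime_dvd_prime_iff_eq hpp hp).mp h1⟩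

private theorem apl_GA {W N s T l A : ℕ} {TT : Fin s → Finset ℕ} (hT : Tiny W N s T TT) {m : Fin s → ℕ}
    (hm : m ∈ Fintype.piFinset TT) (i : ℕ) (hi : i ≤ s) (hA : A = pp m i ∨ A = l * pp m i) : GA s N l A := by
  obtain ⟨h1, h2⟩ := apl_pp_sq hT hm i hi
  refine ⟨pp m i, h1, ?_, ?_, hA⟩
  · have h3 : (pp m i).primeFactors ⊆ (Finset.univ : Finset (Fin s)).image m := by
      intro p hp
      obtain ⟨t, -, ht⟩ := h2 p (Nat.prime_of_mem_primeFactors hp) (Nat.dvd_of_mem_primeFactors hp)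
      rw [Finset.mem_image]
      exact ⟨t, Finset.mem_univ _, ht.symm⟩
    calc (pp m i).primeFactors.card ≤ ((Finset.univ : Finset (Fin s)).image m).card := Finset.card_le_card h3
      _ ≤ (Finset.univ : Finset (Fin s)).card := Finset.card_image_le
      _ = s := by simp
  · intro p hp
    obtain ⟨t, -, ht⟩ := h2 p (Nat.prime_of_mem_primeFactors hp) (Nat.dvd_of_mem_primeFactors hp)
    rw [ht]
    exact (apl_mem hT hm t).2.2.1

/-- the points of a path are positive -/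
private theorem apl_pos {W N A u : ℕ} (hu : u.Coprime N) (hA : 0 < A) (hAN : A < N) : 0 < mr W N A u := by
  rw [Nat.pos_iff_ne_zero]
  intro h
  unfold mr at h
  have h1 : N ∣ A * u := (Dvd.intro_left W rfl).trans (Nat.dvd_of_mod_eq_zero h)
  have h2 : N ∣ A := Nat.Coprime.dvd_of_dvd_mul_right hu.symm h1
  have := Nat.le_of_dvd hA h2
  omega

private theorem apl_class {W N A u a : ℕ} (hA : A % W = 1 % W) (hu : u % W = a % W) :
    mr W N A u % W = a % W := by
  unfold mr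
  rw [Nat.mod_mod_of_dvd _ (Dvd.intro _ rfl), Nat.mul_mod, hA, ← Nat.mul_mod, one_mul, hu]

private theorem apl_path {W N a s T A0 u : ℕ} (hW : 1 ≤ W) (hN : 0 < N) {κ : ℝ} (hκ : κ ^ 2 = 1)
    {TT : Fin s → Finset ℕ} (hT : Tiny W N s T TT) (hA0 : A0 % W = 1 % W) (hu : u % W = a % W) {m : Fin s → ℕ}
    (hm : m ∈ Fintype.piFinset TT) (hpos : ∀ i : ℕ, i ≤ s → 0 < mr W N (A0 * pp m i) u)
    (hA : ∀ i : ℕ, 1 ≤ i → i ≤ s → mr W N (A0 * pp m i) u ∉ AffA W N a (EA W N a κ))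
    (hF : ∀ i : Fin s, ¬ FlA W N (A0 * pp m i) (m i) u) :
    ∀ i : ℕ, i ≤ s → lam (mr W N (A0 * pp m i) u) = (-1) ^ i * lam (mr W N A0 u) := by
  intro i
  induction i with
  | zero =>
    intro _
    rw [apl_pp_zero, mul_one, pow_zero, one_mul]
  | succ i ih =>
    intro hi
    have ih2 := ih (by omega)
    let j : Fin s := ⟨i, by omega⟩
    obtain ⟨hp, _, hp2, hpW⟩ := apl_mem hT hm j
    have e : m j * (A0 * pp m i) = A0 * pp m (i + 1) := by
      have := apl_pp_succ m j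
      show m j * (A0 * pp m i) = A0 * pp m (j.val + 1)
      rw [this]
      show m j * (A0 * pp m j.val) = _
      ring
    have hl : m j * mr W N (A0 * pp m i) u = mr W N (m j * (A0 * pp m i)) u ∨
        LkA W N (m j * mr W N (A0 * pp m i) u) (mr W N (m j * (A0 * pp m i)) u) := by
      have h := hF j
      unfold FlA at h
      by_contra hcon
      rw [not_or] at hcon
      exact h hcon
    have hz : mr W N (m j * (A0 * pp m i)) u ∉ AffA W N a (EA W N a κ) := by
      rw [e]; exact hA (i + 1) (by omega) hi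
    have hz0 : 0 < mr W N (m j * (A0 * pp m i)) u := by
      rw [e]; exact hpos (i + 1) hi
    have hcl : mr W N (A0 * pp m i) u % W = a % W := by
      refine apl_class ?_ hu
      rw [Nat.mul_mod, hA0, apl_pp_mod hT hm i, ← Nat.mul_mod, mul_one]
    obtain ⟨_, s2⟩ := astep hW hN hκ hp hp2 hpW (hpos i (by omega)) hcl hz0 hz hl
    rw [e] at s2
    rw [s2, ih2, pow_succ]
    ring

/-- the main point: if `u` is bad and `m` sends it to the first `l`-th part, then some step fails -/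
private theorem apl_fail {W N a s T l u : ℕ} (hW : 1 ≤ W) (hN : 0 < N) {κ : ℝ} (hκ : κ ^ 2 = 1)
    {TT : Fin s → Finset ℕ} (hT : Tiny W N s T TT) (hl : 1 ≤ l) (hlW : l % W = 1 % W)
    (hu : u ∈ UU W N a) (hbad : lam (mr W N l u) ≠ lam l * lam u) {m : Fin s → ℕ}
    (hm : m ∈ Fintype.piFinset TT) (hsz : ∀ i : ℕ, l * pp m i < N) (hland : Land W N l (pp m s) u)
    (hA1 : ∀ i : ℕ, 1 ≤ i → i ≤ s → mr W N (1 * pp m i) u ∉ AffA W N a (EA W N a κ))
    (hAl : ∀ i : ℕ, 1 ≤ i → i ≤ s → mr W N (l * pp m i) u ∉ AffA W N a (EA W N a κ)) :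
    ∃ i : Fin s, FlA W N (1 * pp m i) (m i) u ∨ FlA W N (l * pp m i) (m i) u := by
  by_contra hcon
  push Not at hcon
  unfold UU at hu
  rw [Finset.mem_filter, Finset.mem_range] at hu
  obtain ⟨hult, hucl, hucop⟩ := hu
  have hmr1 : mr W N 1 u = u := by
    unfold mr
    rw [one_mul, Nat.mod_eq_of_lt hult]
  have hpl : ∀ i : ℕ, i ≤ s → 0 < mr W N (l * pp m i) u := fun i _ =>
    apl_pos hucop (Nat.mul_pos hl (apl_pp_pos hT hm i)) (hsz i)
  have hp1 : ∀ i : ℕ, i ≤ s → 0 < mr W N (1 * pp m i) u := fun i _ =>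
    apl_pos hucop (Nat.mul_pos one_pos (apl_pp_pos hT hm i))
      (lt_of_le_of_lt (Nat.mul_le_mul_right _ hl) (hsz i))
  have p2 := apl_path hW hN hκ hT rfl hucl hm hp1 hA1 (fun i => (hcon i).1) s le_rfl
  have q2 := apl_path hW hN hκ hT hlW hucl hm hpl hAl (fun i => (hcon i).2) s le_rfl
  have hne : mr W N (pp m s) u ≠ 0 := by
    have h3 := hp1 s le_rfl
    rw [one_mul] at h3
    omega
  rw [one_mul] at p2
  rw [hmr1] at p2
  rw [land_mul hland] at q2
  rw [apl_lam_mul (by omega) hne, p2] at q2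
  have h4 : ((-1 : ℝ) ^ s) * lam (mr W N l u) = (-1) ^ s * (lam l * lam u) := by
    rw [← q2]; ring
  have h5 : ((-1 : ℝ) ^ s) ≠ 0 := by
    apply pow_ne_zero; norm_num
  exact hbad (mul_left_cancel₀ h5 h4)

open Classical in
/-- double counting -/
private theorem apl_count {W N a s T l v : ℕ} (hW : 1 ≤ W) (hN : 0 < N) {κ : ℝ} (hκ : κ ^ 2 = 1)
    {TT : Fin s → Finset ℕ} (hT : Tiny W N s T TT) (hl : 1 ≤ l) (hlW : l % W = 1 % W)
    (hsz : ∀ m ∈ Fintype.piFinset TT, ∀ i : ℕ, l * pp m i < N)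
    (B : Finset ℕ) (hB : ∀ n ∈ B, v * n ∈ UU W N a ∧ lam (mr W N l (v * n)) ≠ lam l * lam (v * n) ∧ n ∈ range (W * N) ∧
      (∀ m ∈ Fintype.piFinset TT, ∀ i : ℕ, i ≤ s → mr W N (1 * pp m i) (v * n) ∉ AffA W N a (EA W N a κ) ∧
        mr W N (l * pp m i) (v * n) ∉ AffA W N a (EA W N a κ))) :
    ∑ n ∈ B, NL W N l TT (v * n) ≤ ∑ m ∈ Fintype.piFinset TT, ∑ i : Fin s,
      (((Finset.range (W * N)).filter fun n => n.Coprime N ∧ v * n < W * N ∧ Land W N l (pp m s) (v * n) ∧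
        FlA W N (1 * pp m i) (m i) (v * n)).card +
      ((Finset.range (W * N)).filter fun n => n.Coprime N ∧ v * n < W * N ∧ Land W N l (pp m s) (v * n) ∧
        FlA W N (l * pp m i) (m i) (v * n)).card) := by
  have h1 : ∀ n ∈ B, NL W N l TT (v * n) ≤ ∑ m ∈ Fintype.piFinset TT, ∑ i : Fin s,
      ((if n.Coprime N ∧ v * n < W * N ∧ Land W N l (pp m s) (v * n) ∧ FlA W N (1 * pp m i) (m i) (v * n) then 1 else 0) +
       (if n.Coprime N ∧ v * n < W * N ∧ Land W N l (pp m s) (v * n) ∧ FlA W N (l * pp m i) (m i) (v * n) then 1 else 0)) := by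
    intro n hnB
    obtain ⟨b1, b2, b3, b4⟩ := hB n hnB
    have hlt : v * n < W * N ∧ n.Coprime N := by
      have b1' := b1
      unfold UU at b1'
      rw [Finset.mem_filter, Finset.mem_range] at b1'
      exact ⟨b1'.1, Nat.Coprime.coprime_mul_left b1'.2.2⟩
    unfold NL
    rw [Finset.card_filter]
    refine Finset.sum_le_sum fun m hm => ?_
    by_cases hL : Land W N l (pp m s) (v * n)
    · rw [if_pos hL]
      obtain ⟨i, hi⟩ := apl_fail hW hN hκ hT hl hlW b1 b2 hm (hsz m hm) hL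
        (fun i _ h => (b4 m hm i h).1) (fun i _ h => (b4 m hm i h).2)
      refine le_trans ?_ (Finset.single_le_sum (f := fun i : Fin s =>
        ((if n.Coprime N ∧ v * n < W * N ∧ Land W N l (pp m s) (v * n) ∧ FlA W N (1 * pp m i) (m i) (v * n) then 1 else 0) +
         (if n.Coprime N ∧ v * n < W * N ∧ Land W N l (pp m s) (v * n) ∧ FlA W N (l * pp m i) (m i) (v * n) then 1 else 0)))
        (fun i _ => Nat.zero_le _) (Finset.mem_univ i))
      rcases hi with hi | hi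
      · rw [if_pos ⟨hlt.2, hlt.1, hL, hi⟩]; omega
      · have e2 : (if n.Coprime N ∧ v * n < W * N ∧ Land W N l (pp m s) (v * n) ∧
          FlA W N (l * pp m i) (m i) (v * n) then 1 else 0) = 1 := if_pos ⟨hlt.2, hlt.1, hL, hi⟩
        rw [e2]; omega
    · rw [if_neg hL]; exact Nat.zero_le _
  calc ∑ n ∈ B, NL W N l TT (v * n) ≤ ∑ n ∈ B, ∑ m ∈ Fintype.piFinset TT, ∑ i : Fin s,
      ((if n.Coprime N ∧ v * n < W * N ∧ Land W N l (pp m s) (v * n) ∧ FlA W N (1 * pp m i) (m i) (v * n) then 1 else 0) +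
       (if n.Coprime N ∧ v * n < W * N ∧ Land W N l (pp m s) (v * n) ∧ FlA W N (l * pp m i) (m i) (v * n) then 1 else 0)) :=
        Finset.sum_le_sum h1
    _ = ∑ m ∈ Fintype.piFinset TT, ∑ i : Fin s, ∑ n ∈ B,
      ((if n.Coprime N ∧ v * n < W * N ∧ Land W N l (pp m s) (v * n) ∧ FlA W N (1 * pp m i) (m i) (v * n) then 1 else 0) +
       (if n.Coprime N ∧ v * n < W * N ∧ Land W N l (pp m s) (v * n) ∧ FlA W N (l * pp m i) (m i) (v * n) then 1 else 0)) := by
        rw [Finset.sum_comm]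
        refine Finset.sum_congr rfl fun m _ => ?_
        rw [Finset.sum_comm]
    _ ≤ _ := by
        refine Finset.sum_le_sum fun m _ => Finset.sum_le_sum fun i _ => ?_
        rw [Finset.sum_add_distrib, ← Finset.card_filter, ← Finset.card_filter]
        refine Nat.add_le_add (Finset.card_le_card ?_) (Finset.card_le_card ?_)
        · intro n hn'
          rw [Finset.mem_filter] at hn' ⊢
          exact ⟨(hB n hn'.1).2.2.1, hn'.2⟩
        · intro n hn'
          rw [Finset.mem_filter] at hn' ⊢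
          exact ⟨(hB n hn'.1).2.2.1, hn'.2⟩

open Classical in
theorem apl_of (afm : AFMS) (W : ℕ) (hW : 1 ≤ W) (C1 : ℝ) : ∃ (s : ℕ) (C2 : ℝ), 0 ≤ C2 ∧ ∀ η : ℝ, 0 < η → ∃ N0 : ℕ, ∀ N : ℕ, N0 ≤ N →
    ∀ a : ℕ, Cf W N a → ∀ κ : ℝ, κ ^ 2 = 1 → ∀ l : ℕ, 1 ≤ l → l % W = 1 % W → (l : ℝ) ≤ (Real.log N) ^ C1 →
    ∀ v : ℕ, 1 ≤ v → v * LL N ^ 5 ≤ N →
    (((Finset.range (W * N)).filter fun n => v * n ∈ UU W N a ∧ lam (mr W N l (v * n)) ≠ lam l * lam (v * n) ∧
      ∀ A : ℕ, (A : ℝ) ≤ (Real.log N) ^ C2 → GA s N l A → mr W N A (v * n) ∉ AffA W N a (EA W N a κ)).card : ℝ) ≤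
      η * del N * N / v := by
  obtain ⟨c1, hc1⟩ : ∃ c1 : ℝ, c1 = |C1| := ⟨_, rfl⟩
  have hc10 : 0 ≤ c1 := by rw [hc1]; exact abs_nonneg _
  obtain ⟨s, hs⟩ : ∃ s : ℕ, s = ⌈4000 * (c1 + 2)⌉₊ := ⟨_, rfl⟩
  have hs1 : 4000 * (c1 + 2) ≤ (s : ℝ) := by rw [hs]; exact Nat.le_ceil _
  refine ⟨s, c1 + s, by positivity, ?_⟩
  intro η hη
  obtain ⟨N1, hN1⟩ := num W
  obtain ⟨N2, hN2⟩ := numA
  obtain ⟨N3, hN3⟩ := tJ_low
  obtain ⟨N4, hN4⟩ := tny W hW s
  obtain ⟨N5, hN5⟩ := afm W hW (η / (8 * s + 8)) (c1 + s) (by positivity)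
  obtain ⟨N6, hN6⟩ := var W hW s c1
  obtain ⟨N7, hN7⟩ := pow_lt (c1 + s)
  obtain ⟨K0, hK0⟩ : ∃ K0 : ℝ, K0 = 4 + 2 ^ (2 * s + 5) * W / η := ⟨_, rfl⟩
  refine ⟨N1 + N2 + N3 + N4 + N5 + N6 + N7 + ⌈Real.exp K0⌉₊, ?_⟩
  intro N hN a hc κ hκ l hl hlW hlK v hv hvL
  have hn := hN1 N (by omega)
  have hna := hN2 N (by omega)
  have hNpos : 0 < N := by have := hn.N3; omega
  have hNe : Real.exp K0 ≤ (N : ℝ) :=
    le_trans (Nat.le_ceil _) (by exact_mod_cast (by omega : ⌈Real.exp K0⌉₊ ≤ N))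
  have hN0 : (0 : ℝ) < N := lt_of_lt_of_le (Real.exp_pos _) hNe
  obtain ⟨K, hK⟩ : ∃ K : ℝ, K = Real.log N := ⟨_, rfl⟩
  have hKK0 : K0 ≤ K := by
    rw [hK, Real.le_log_iff_exp_le hN0]; exact hNe
  have hW0 : (0 : ℝ) < W := by exact_mod_cast hW
  have hK4 : 4 ≤ K := by
    have : 0 ≤ (2 : ℝ) ^ (2 * s + 5) * W / η := by positivity
    linarith
  have hK1 : 1 ≤ K := by linarith
  have hKpos : 0 < K := by linarith
  have hKη : (2 : ℝ) ^ (2 * s + 5) * W ≤ η * K := by
    have h1 : (2 : ℝ) ^ (2 * s + 5) * W / η ≤ K := by linarith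
    rw [div_le_iff₀ hη] at h1
    linarith
  have hKC : K ^ C1 ≤ K ^ c1 := Real.rpow_le_rpow_of_exponent_le hK1 (by rw [hc1]; exact le_abs_self _)
  rw [← hK] at hlK
  have hlK' : (l : ℝ) ≤ K ^ c1 := hlK.trans hKC
  obtain ⟨hT1, hT2⟩ := hN3 N (by omega)
  rw [← hK] at hT1 hT2
  obtain ⟨T, hT⟩ : ∃ T : ℕ, T = Nat.sqrt (tJ N) := ⟨_, rfl⟩
  rw [← hT] at hT1
  have hTpos : 1 ≤ T := by
    rw [hT]
    exact Nat.sqrt_pos.mpr hn.J1
  obtain ⟨TT, hTT⟩ := hN4 N (by omega)
  rw [← hT] at hTT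
  obtain ⟨δ, hδ⟩ : ∃ δ : ℝ, δ = del N := ⟨_, rfl⟩
  have hδ0 : 0 < δ := by rw [hδ]; exact del_pos (by omega)
  have hδK : 1 ≤ K * δ := by rw [hδ, hK]; exact hna.d1
  -- sizes
  have hJK : 2 * (tJ N : ℝ) ≤ K := by rw [hK]; exact hna.JK
  have hpow : (((2 * tJ N) ^ s : ℕ) : ℝ) ≤ K ^ (s : ℝ) := by
    rw [Real.rpow_natCast]
    push_cast
    exact pow_le_pow_left₀ (by positivity) hJK s
  have hbig : ∀ m ∈ Fintype.piFinset TT, ∀ i : ℕ, ((l * pp m i : ℕ) : ℝ) ≤ K ^ (c1 + s) := by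
    intro m hm i
    rw [Real.rpow_add hKpos]
    push_cast
    have h1 : ((pp m i : ℕ) : ℝ) ≤ K ^ (s : ℝ) := by
      refine le_trans ?_ hpow
      exact_mod_cast apl_pp_le hTT hm hn.J1 i
    exact mul_le_mul hlK' h1 (by positivity) (by positivity)
  have hbig1 : ∀ m ∈ Fintype.piFinset TT, ∀ i : ℕ, ((1 * pp m i : ℕ) : ℝ) ≤ K ^ (c1 + s) := by
    intro m hm i
    refine le_trans ?_ (hbig m hm i)
    exact_mod_cast Nat.mul_le_mul_right _ hl
  have hsz : ∀ m ∈ Fintype.piFinset TT, ∀ i : ℕ, l * pp m i < N := by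
    intro m hm i
    have h1 := hN7 N (by omega)
    rw [← hK] at h1
    exact_mod_cast lt_of_le_of_lt (hbig m hm i) h1
  have hTs : K ^ c1 * K ^ 2 ≤ 2 ^ s * (T : ℝ) ^ s := by
    have h1 : K ^ ((1 : ℝ) / 4000) ≤ 2 * (T : ℝ) := by
      have : (1 : ℝ) ≤ T := by exact_mod_cast hTpos
      linarith
    have h2 : (K ^ ((1 : ℝ) / 4000)) ^ s ≤ (2 * (T : ℝ)) ^ s :=
      pow_le_pow_left₀ (by positivity) h1 s
    have h3 : K ^ c1 * K ^ 2 ≤ (K ^ ((1 : ℝ) / 4000)) ^ s := by
      rw [← Real.rpow_natCast _ s, ← Real.rpow_mul hKpos.le]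
      calc K ^ c1 * K ^ 2 = K ^ c1 * K ^ (2 : ℝ) := by
            rw [show (2 : ℝ) = ((2 : ℕ) : ℝ) by norm_num, Real.rpow_natCast]
        _ = K ^ (c1 + 2) := (Real.rpow_add hKpos _ _).symm
        _ ≤ K ^ ((1 : ℝ) / 4000 * (s : ℝ)) := by
            apply Real.rpow_le_rpow_of_exponent_le hK1
            linarith
    calc K ^ c1 * K ^ 2 ≤ (K ^ ((1 : ℝ) / 4000)) ^ s := h3
      _ ≤ (2 * (T : ℝ)) ^ s := h2
      _ = 2 ^ s * (T : ℝ) ^ s := mul_pow _ _ _
  obtain ⟨Bd, hBd⟩ : ∃ Bd : Finset ℕ, Bd = (Finset.range (W * N)).filter fun n =>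
      v * n ∈ UU W N a ∧ lam (mr W N l (v * n)) ≠ lam l * lam (v * n) ∧
      ∀ A : ℕ, (A : ℝ) ≤ (Real.log N) ^ (c1 + s) → GA s N l A →
        mr W N A (v * n) ∉ AffA W N a (EA W N a κ) := ⟨_, rfl⟩
  rw [← hBd, ← hδ]
  have hBd' : ∀ n ∈ Bd, v * n ∈ UU W N a ∧ lam (mr W N l (v * n)) ≠ lam l * lam (v * n) ∧ n ∈ range (W * N) ∧
      (∀ m ∈ Fintype.piFinset TT, ∀ i : ℕ, i ≤ s → mr W N (1 * pp m i) (v * n) ∉ AffA W N a (EA W N a κ) ∧
        mr W N (l * pp m i) (v * n) ∉ AffA W N a (EA W N a κ)) := by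
    intro n hnB
    rw [hBd, Finset.mem_filter] at hnB
    obtain ⟨b0, b1, b2, b3⟩ := hnB
    refine ⟨b1, b2, b0, ?_⟩
    intro m hm i hi
    rw [← hK] at b3
    exact ⟨b3 _ (hbig1 m hm i) (apl_GA hTT hm i hi (Or.inl (one_mul _))),
      b3 _ (hbig m hm i) (apl_GA hTT hm i hi (Or.inr rfl))⟩
  have hv0 : (0 : ℝ) < v := by exact_mod_cast hv
  have hl0 : (0 : ℝ) < l := by exact_mod_cast hl
  have hTs0 : (0 : ℝ) < (T : ℝ) ^ s := by
    have : (0 : ℝ) < T := by exact_mod_cast hTpos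
    positivity
  -- the failures
  have hfm : ∀ m ∈ Fintype.piFinset TT, ∀ i : Fin s,
      (((Finset.range (W * N)).filter fun n => n.Coprime N ∧ v * n < W * N ∧ Land W N l (pp m s) (v * n) ∧
        FlA W N (1 * pp m i) (m i) (v * n)).card : ℝ) ≤ η / (8 * s + 8) * δ * N / (l * v) ∧
      (((Finset.range (W * N)).filter fun n => n.Coprime N ∧ v * n < W * N ∧ Land W N l (pp m s) (v * n) ∧
        FlA W N (l * pp m i) (m i) (v * n)).card : ℝ) ≤ η / (8 * s + 8) * δ * N / (l * v) := by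
    intro m hm i
    obtain ⟨hp, _, hp2, _⟩ := apl_mem hTT hm i
    have hM := hbig m hm s
    rw [hK] at hM
    rw [hδ]
    constructor
    · refine hN5 N (by omega) v l (pp m s) (1 * pp m i) (m i)
        (l * ∏ t ∈ (Finset.univ : Finset (Fin s)).filter (fun t => i.val < t.val), m t)
        hv hvL hl (apl_pp_pos hTT hm s) (by rw [one_mul]; exact apl_pp_pos hTT hm i)
        hp.one_lt.le hp2 ?_ hM
      rw [apl_pp_split m i]
      ring
    · refine hN5 N (by omega) v l (pp m s) (l * pp m i) (m i)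
        (∏ t ∈ (Finset.univ : Finset (Fin s)).filter (fun t => i.val < t.val), m t)
        hv hvL hl (apl_pp_pos hTT hm s)
        (Nat.one_le_iff_ne_zero.mpr (Nat.mul_ne_zero (by omega)
          (Nat.one_le_iff_ne_zero.mp (apl_pp_pos hTT hm i))))
        hp.one_lt.le hp2 ?_ hM
      rw [apl_pp_split m i]
      ring
  have hsumNL : ∀ B : Finset ℕ, B ⊆ Bd → ((∑ n ∈ B, NL W N l TT (v * n) : ℕ) : ℝ) ≤
      (T : ℝ) ^ s * (s * (2 * (η / (8 * s + 8) * δ * N / (l * v)))) := by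
    intro B hB
    have h1 := apl_count hW hNpos hκ hTT hl hlW hsz B (fun n hnB => hBd' n (hB hnB)) (v := v)
    refine (Nat.cast_le.mpr h1).trans ?_
    push_cast
    calc ∑ m ∈ Fintype.piFinset TT, ∑ i : Fin s,
      ((((Finset.range (W * N)).filter fun n => n.Coprime N ∧ v * n < W * N ∧ Land W N l (pp m s) (v * n) ∧
        FlA W N (1 * pp m i) (m i) (v * n)).card : ℝ) +
      (((Finset.range (W * N)).filter fun n => n.Coprime N ∧ v * n < W * N ∧ Land W N l (pp m s) (v * n) ∧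
        FlA W N (l * pp m i) (m i) (v * n)).card : ℝ))
        ≤ ∑ m ∈ Fintype.piFinset TT, ∑ i : Fin s, (2 * (η / (8 * s + 8) * δ * N / (l * v))) := by
          refine Finset.sum_le_sum fun m hm => Finset.sum_le_sum fun i _ => ?_
          have := hfm m hm i
          linarith [this.1, this.2]
      _ = (T : ℝ) ^ s * (s * (2 * (η / (8 * s + 8) * δ * N / (l * v)))) := by
          rw [Finset.sum_const, Finset.sum_const, Finset.card_univ, Fintype.card_fin,
            Fintype.card_piFinset, nsmul_eq_mul, nsmul_eq_mul]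
          congr 1
          rw [Finset.prod_congr rfl (fun t _ => hTT.card t), Finset.prod_const, Finset.card_univ,
            Fintype.card_fin]
          push_cast
          rfl
  -- the two parts
  have hsplit : (Bd.card : ℝ) ≤ ((Bd.filter fun n => 2 * l * NL W N l TT (v * n) < T ^ s).card : ℝ) +
      ((Bd.filter fun n => ¬ 2 * l * NL W N l TT (v * n) < T ^ s).card : ℝ) := by
    rw [← Nat.cast_add, Finset.card_filter_add_card_filter_not]
  have hpart1 : ((Bd.filter fun n => 2 * l * NL W N l TT (v * n) < T ^ s).card : ℝ) ≤ η / 2 * δ * N / v := by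
    have h1 := hN6 N (by omega) v l T TT hv hvL hl (by rw [← hK]; exact hlK') hTpos hTT
    have h2 : ((Bd.filter fun n => 2 * l * NL W N l TT (v * n) < T ^ s).card : ℝ) ≤
        (((Finset.range (W * N)).filter fun n => v * n < W * N ∧ 2 * l * NL W N l TT (v * n) < T ^ s).card : ℝ) := by
      exact_mod_cast Finset.card_le_card (by
        intro n hn'
        rw [Finset.mem_filter] at hn' ⊢
        obtain ⟨b1, _, b3, _⟩ := hBd' n hn'.1
        unfold UU at b1
        rw [Finset.mem_filter, Finset.mem_range] at b1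
        exact ⟨b3, b1.1, hn'.2⟩)
    have h3 : ((Bd.filter fun n => 2 * l * NL W N l TT (v * n) < T ^ s).card : ℝ) * (T : ℝ) ^ s ≤
        η / 2 * δ * N / v * (T : ℝ) ^ s := by
      refine (mul_le_mul_of_nonneg_right h2 hTs0.le).trans (h1.trans ?_)
      have h4 : (2 : ℝ) ^ (s + 4) * l * W ≤ η / 2 * δ * (T : ℝ) ^ s := by
        have h5 : (2 : ℝ) ^ (s + 4) * l * W ≤ (2 : ℝ) ^ (s + 4) * K ^ c1 * W := by
          apply mul_le_mul_of_nonneg_right _ hW0.le
          exact mul_le_mul_of_nonneg_left hlK' (by positivity)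
        have h6 : (2 : ℝ) ^ (s + 4) * K ^ c1 * W * (2 ^ s * 2) ≤ η / 2 * δ * (T : ℝ) ^ s * (2 ^ s * 2) := by
          have hx : 0 ≤ K ^ c1 * (η * K) := by positivity
          calc (2 : ℝ) ^ (s + 4) * K ^ c1 * W * (2 ^ s * 2) = K ^ c1 * (2 ^ (2 * s + 5) * W) := by
                have e : (2 : ℝ) ^ (2 * s + 5) = 2 ^ (s + 4) * 2 ^ s * 2 := by
                  rw [← pow_add, ← pow_succ]
                  congr 1
                  ring
                rw [e]
                ring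
            _ ≤ K ^ c1 * (η * K) := mul_le_mul_of_nonneg_left hKη (by positivity)
            _ = K ^ c1 * (η * K) * 1 := by ring
            _ ≤ K ^ c1 * (η * K) * (K * δ) := mul_le_mul_of_nonneg_left hδK hx
            _ = η * δ * (K ^ c1 * K ^ 2) := by ring
            _ ≤ η * δ * (2 ^ s * (T : ℝ) ^ s) := mul_le_mul_of_nonneg_left hTs (by positivity)
            _ = η / 2 * δ * (T : ℝ) ^ s * (2 ^ s * 2) := by ring
        exact h5.trans (le_of_mul_le_mul_right h6 (by positivity))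
      calc (2 : ℝ) ^ (s + 4) * l * (W * N) / v = (2 : ℝ) ^ (s + 4) * l * W * (N / v) := by ring
        _ ≤ η / 2 * δ * (T : ℝ) ^ s * (N / v) := mul_le_mul_of_nonneg_right h4 (by positivity)
        _ = η / 2 * δ * N / v * (T : ℝ) ^ s := by ring
    exact le_of_mul_le_mul_right h3 hTs0
  have hpart2 : ((Bd.filter fun n => ¬ 2 * l * NL W N l TT (v * n) < T ^ s).card : ℝ) ≤ η / 2 * δ * N / v := by
    have h1 := hsumNL (Bd.filter fun n => ¬ 2 * l * NL W N l TT (v * n) < T ^ s) (Finset.filter_subset _ _)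
    have h2 : ((Bd.filter fun n => ¬ 2 * l * NL W N l TT (v * n) < T ^ s).card : ℝ) * (T : ℝ) ^ s ≤
        2 * l * ((∑ n ∈ (Bd.filter fun n => ¬ 2 * l * NL W N l TT (v * n) < T ^ s),
          NL W N l TT (v * n) : ℕ) : ℝ) := by
      have h3 : (Bd.filter fun n => ¬ 2 * l * NL W N l TT (v * n) < T ^ s).card * T ^ s ≤
          2 * l * ∑ n ∈ (Bd.filter fun n => ¬ 2 * l * NL W N l TT (v * n) < T ^ s), NL W N l TT (v * n) := by
        rw [Finset.mul_sum, ← smul_eq_mul, ← Finset.sum_const]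
        refine Finset.sum_le_sum fun n hn' => ?_
        rw [Finset.mem_filter] at hn'
        exact not_lt.mp hn'.2
      exact_mod_cast h3
    have h4 : ((Bd.filter fun n => ¬ 2 * l * NL W N l TT (v * n) < T ^ s).card : ℝ) * (T : ℝ) ^ s ≤
        η / 2 * δ * N / v * (T : ℝ) ^ s := by
      refine h2.trans ((mul_le_mul_of_nonneg_left h1 (by positivity)).trans ?_)
      have h5 : (s : ℝ) / (8 * s + 8) ≤ 1 / 8 := by
        rw [div_le_div_iff₀ (by positivity) (by norm_num)]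
        linarith
      calc 2 * (l : ℝ) * ((T : ℝ) ^ s * (s * (2 * (η / (8 * s + 8) * δ * N / (l * v)))))
          = 4 * ((s : ℝ) / (8 * s + 8)) * (η * δ * N / v * (T : ℝ) ^ s) := by
            field_simp
            ring
        _ ≤ 4 * (1 / 8) * (η * δ * N / v * (T : ℝ) ^ s) := by
            apply mul_le_mul_of_nonneg_right _ (by positivity)
            linarith
        _ = η / 2 * δ * N / v * (T : ℝ) ^ s := by ring
    exact le_of_mul_le_mul_right h4 hTs0
  calc (Bd.card : ℝ) ≤ _ := hsplit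
    _ ≤ η / 2 * δ * N / v + η / 2 * δ * N / v := add_le_add hpart1 hpart2
    _ = η * δ * N / v := by ring

end Pool.Agent.Lib.OA
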