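import Mathlib
import Pool.Agent.Lib.MP_7b7e48_nt.OA.ANum
import Pool.Agent.Lib.MP_7b7e48_nt.OW.ULN

/-!
# Module AUE: links with a large common prime power factor of `e` and `N` are rare (union bound)
-/

set_option autoImplicit false

open Finset
open Pool.Agent.Lib.MP_45349e_nt.LS (lam)

namespace Pool.Agent.Lib.OA

open Pool.Agent.Lib.OW
open Pool.Agent.Lib.RG (RC LV rr SS PB)

/-- integers in an interval which are congruent modulo `M` -/
private theorem aue_class {M v u1 u2 : ℕ} (hM : 1 ≤ M) (hv : 1 ≤ v) (hu : u1 < u2) (S : Finset ℕ)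
    (hS : ∀ n ∈ S, u1 ≤ v * n ∧ v * n < u2) (hd : ∀ n ∈ S, ∀ n' ∈ S, n' ≤ n → M ∣ n - n') :
    (S.card : ℝ) ≤ ((u2 : ℝ) - u1) / (v * M) + 1 := by
  have hur : (u1 : ℝ) < u2 := by exact_mod_cast hu
  have hvM : (0 : ℝ) < v * M := by
    have h1 : (0 : ℝ) < v := by exact_mod_cast hv
    have h2 : (0 : ℝ) < M := by exact_mod_cast hM
    positivity
  have hx : 0 ≤ ((u2 : ℝ) - u1) / (v * M) := div_nonneg (by linarith) hvM.le
  rcases S.eq_empty_or_nonempty with h | h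
  · subst h
    simp only [card_empty, Nat.cast_zero]
    linarith
  · have ham := S.min'_mem h
    obtain ⟨a, ha⟩ : ∃ a, a = S.min' h := ⟨_, rfl⟩
    rw [← ha] at ham
    have hmin : ∀ n ∈ S, a ≤ n := fun n hn => by
      rw [ha]
      exact S.min'_le n hn
    have hc : S.card ≤ ⌈((u2 : ℝ) - u1) / (v * M)⌉₊ := by
      rw [← card_range ⌈((u2 : ℝ) - u1) / (v * M)⌉₊]
      refine card_le_card_of_injOn (fun n => (n - a) / M) ?_ ?_
      · intro n hn
        rw [mem_coe] at hn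
        obtain ⟨t, ht⟩ := hd n hn a ham (hmin n hn)
        have h1 := hmin n hn
        have h2 := (hS n hn).2
        have h3 := (hS a ham).1
        rw [coe_range, Set.mem_Iio]
        beta_reduce
        rw [ht, Nat.mul_div_cancel_left _ (by omega), Nat.lt_ceil, lt_div_iff₀ hvM]
        have h4 : n = a + M * t := by omega
        rw [h4] at h2
        have h5 : (v : ℝ) * (a + M * t) < u2 := by exact_mod_cast h2
        have h6 : (u1 : ℝ) ≤ v * a := by exact_mod_cast h3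
        nlinarith
      · intro n hn n' hn' heq
        rw [mem_coe] at hn hn'
        beta_reduce at heq
        obtain ⟨t, ht⟩ := hd n hn a ham (hmin n hn)
        obtain ⟨t', ht'⟩ := hd n' hn' a ham (hmin n' hn')
        rw [ht, ht', Nat.mul_div_cancel_left _ (by omega), Nat.mul_div_cancel_left _ (by omega)] at heq
        have h1 := hmin n hn
        have h2 := hmin n' hn'
        subst heq
        omega
    have h1 : (S.card : ℝ) ≤ (⌈((u2 : ℝ) - u1) / (v * M)⌉₊ : ℝ) := by exact_mod_cast hc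
    exact h1.trans (Nat.ceil_lt_add_one hx).le

private theorem aue_pow (z p : ℕ) (hp : 2 ≤ p) : ∃ P, z < P ∧ ∀ j, z < p ^ j → P ∣ p ^ j := by
  classical
  have h : ∃ j, z < p ^ j := ⟨z, Nat.lt_pow_self (by omega)⟩
  exact ⟨p ^ Nat.find h, Nat.find_spec h, fun j hj => pow_dvd_pow p (Nat.find_min' h hj)⟩

private theorem aue_pair {W N v A m i j u1 u2 α β : ℕ} (hv : 1 ≤ v) (hu : u1 < u2)
    (hcell : ∀ u : ℕ, u1 ≤ u → u < u2 → (A * u) / (W * N) = j ∧ (m * A * u) / (W * N) = i)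
    (hα : 1 ≤ α) (hβ : 1 ≤ β) (hαβ : α.Coprime β) (hm : (α * β).Coprime (m * A * v)) (S : Finset ℕ)
    (hS : ∀ n ∈ S, u1 ≤ v * n ∧ v * n < u2 ∧ α ∣ m * mr W N A (v * n) ∧ β ∣ mr W N (m * A) (v * n)) :
    (S.card : ℝ) ≤ ((u2 : ℝ) - u1) / (v * ((α * β : ℕ) : ℝ)) + 1 := by
  refine aue_class (Nat.mul_pos hα hβ) hv hu S (fun n hn => ⟨(hS n hn).1, (hS n hn).2.1⟩) ?_
  intro n hn n' hn' hle
  obtain ⟨g1, g2, g3, g4⟩ := hS n hn
  obtain ⟨g1', g2', g3', g4'⟩ := hS n' hn'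
  have hA : ∀ n : ℕ, u1 ≤ v * n → v * n < u2 →
      ((m * mr W N A (v * n) : ℕ) : ℤ) = (m : ℤ) * A * v * n - m * j * (W * N) := by
    intro n h1 h2
    obtain ⟨h3, -⟩ := hcell (v * n) h1 h2
    have h4 := Nat.mod_add_div (A * (v * n)) (W * N)
    rw [h3] at h4
    unfold mr
    have h5 : ((A * (v * n) % (W * N) : ℕ) : ℤ) + ((W * N * j : ℕ) : ℤ) = ((A * (v * n) : ℕ) : ℤ) := by
      exact_mod_cast h4
    push_cast at h5 ⊢
    linear_combination (m : ℤ) * h5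
  have hB : ∀ n : ℕ, u1 ≤ v * n → v * n < u2 →
      ((mr W N (m * A) (v * n) : ℕ) : ℤ) = (m : ℤ) * A * v * n - i * (W * N) := by
    intro n h1 h2
    obtain ⟨-, h3⟩ := hcell (v * n) h1 h2
    have h4 := Nat.mod_add_div (m * A * (v * n)) (W * N)
    rw [h3] at h4
    unfold mr
    have h5 : ((m * A * (v * n) % (W * N) : ℕ) : ℤ) + ((W * N * i : ℕ) : ℤ) = ((m * A * (v * n) : ℕ) : ℤ) := by
      exact_mod_cast h4
    push_cast at h5 ⊢
    linear_combination h5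
  have hcast : ((m * A * v * (n - n') : ℕ) : ℤ) = (m : ℤ) * A * v * n - (m : ℤ) * A * v * n' := by
    push_cast [Nat.cast_sub hle]
    ring
  have h1 : α ∣ n - n' := by
    have h2 : (α : ℤ) ∣ ((m * A * v * (n - n') : ℕ) : ℤ) := by
      have h3 := dvd_sub (Int.natCast_dvd_natCast.mpr g3) (Int.natCast_dvd_natCast.mpr g3')
      rw [hA n g1 g2, hA n' g1' g2'] at h3
      rw [hcast]
      have h4 : (m : ℤ) * A * v * n - m * j * (W * N) - ((m : ℤ) * A * v * n' - m * j * (W * N)) =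
        (m : ℤ) * A * v * n - (m : ℤ) * A * v * n' := by ring
      rwa [h4] at h3
    have h5 : α ∣ m * A * v * (n - n') := Int.natCast_dvd_natCast.mp h2
    exact (Nat.Coprime.dvd_mul_left (Nat.Coprime.coprime_mul_right hm)).mp h5
  have h2 : β ∣ n - n' := by
    have h2 : (β : ℤ) ∣ ((m * A * v * (n - n') : ℕ) : ℤ) := by
      have h3 := dvd_sub (Int.natCast_dvd_natCast.mpr g4) (Int.natCast_dvd_natCast.mpr g4')
      rw [hB n g1 g2, hB n' g1' g2'] at h3
      rw [hcast]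
      have h4 : (m : ℤ) * A * v * n - i * (W * N) - ((m : ℤ) * A * v * n' - i * (W * N)) =
        (m : ℤ) * A * v * n - (m : ℤ) * A * v * n' := by ring
      rwa [h4] at h3
    have h5 : β ∣ m * A * v * (n - n') := Int.natCast_dvd_natCast.mp h2
    exact (Nat.Coprime.dvd_mul_left (Nat.Coprime.coprime_mul_left hm)).mp h5
  exact Nat.Coprime.mul_dvd_of_dvd_of_dvd hαβ h1 h2

private theorem aue_harm (L : ℕ) : ∑ β ∈ Icc 1 L, (1 : ℝ) / β ≤ 1 + Real.log L := by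
  have h := harmonic_le_one_add_log L
  rw [harmonic_eq_sum_Icc, Rat.cast_sum] at h
  refine le_trans (le_of_eq (sum_congr rfl fun β _ => ?_)) h
  rw [one_div, Rat.cast_inv, Rat.cast_natCast]

open Classical in
theorem aue (W : ℕ) (hW : 1 ≤ W) (η C : ℝ) (hη : 0 < η) : ∃ N0 : ℕ, ∀ N : ℕ, N0 ≤ N →
    ∀ v A m i j u1 u2 : ℕ, 1 ≤ v → v * LL N ^ 5 ≤ N → 1 ≤ A → (A : ℝ) ≤ (Real.log N) ^ C → 1 ≤ m → m ≤ 2 * tJ N →
    u2 ≤ W * N → (N : ℝ) ≤ (Real.log N) ^ C * ((u2 : ℝ) - u1) →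
    (∀ u : ℕ, u1 ≤ u → u < u2 → (A * u) / (W * N) = j ∧ (m * A * u) / (W * N) = i) → m * j < i → i < m * j + m →
    (((Finset.range (W * N)).filter fun n => u1 ≤ v * n ∧ v * n < u2 ∧
      ∃ α β e : ℕ, (α * β).Coprime (N * v) ∧ α ∣ m * mr W N A (v * n) ∧ β ∣ mr W N (m * A) (v * n) ∧ α.Coprime β ∧
      (∀ p : ℕ, p.Prime → p ∣ α * β → p ∈ RP N) ∧ 0 < β ∧ 0 < e ∧ α = β + (i - m * j) * W * e ∧ α < 2 * β ∧ α ≤ LL N ∧
      ¬ EC N e).card : ℝ) ≤ η * del N * ((u2 : ℝ) - u1) / v := by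
  obtain ⟨N1, hN1⟩ := numA
  obtain ⟨N2, hN2⟩ := ul_num W η C hη (max 100 (8 / η))
  refine ⟨max (max N1 N2) 1, fun N hN => ?_⟩
  intro v A m i j u1 u2 hv hvL hA hAK hm hmJ hu2 hNK hcell hij1 hij2
  have hNA := hN1 N ((le_max_left _ _).trans ((le_max_left _ _).trans hN))
  obtain ⟨g1, g2, g3, g4, g5, g6, g7, g8, g9⟩ :=
    hN2 N ((le_max_right _ _).trans ((le_max_left _ _).trans hN))
  have hNpos : 1 ≤ N := (le_max_right _ _).trans hN
  have hom := omega_le hNpos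
  have hd1 := hNA.d1
  have hz0 := hNA.z01
  obtain ⟨K, hK⟩ : ∃ K, K = Real.log (N : ℝ) := ⟨_, rfl⟩
  rw [← hK] at g1 g2 g4 g6 g7 g8 g9 hAK hNK hom hd1
  have hK100 : 100 ≤ K := (le_max_left _ _).trans g1
  have hKη : 8 / η ≤ K := (le_max_right _ _).trans g1
  have hK0 : 0 < K := by linarith
  have hKC : 0 < K ^ C := by positivity
  have hNr : (1 : ℝ) ≤ N := by exact_mod_cast hNpos
  have hlen : 0 < (u2 : ℝ) - u1 := by
    by_contra hcon
    push Not at hcon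
    have : K ^ C * ((u2 : ℝ) - u1) ≤ 0 := mul_nonpos_of_nonneg_of_nonpos hKC.le hcon
    linarith
  have hu12 : u1 < u2 := by
    have : (u1 : ℝ) < u2 := by linarith
    exact_mod_cast this
  have hvr : (0 : ℝ) < v := by exact_mod_cast hv
  obtain ⟨ell, hell⟩ : ∃ ell : ℝ, ell = ((u2 : ℝ) - u1) / v := ⟨_, rfl⟩
  have hell0 : 0 < ell := by rw [hell]; exact div_pos hlen hvr
  -- the number `LL`
  have hLr : Real.exp (K ^ ((1 : ℝ) / 40)) < LL N + 1 := by
    unfold LL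
    rw [← hK]
    exact Nat.lt_floor_add_one _
  have hLle : (LL N : ℝ) ≤ Real.exp (K ^ ((1 : ℝ) / 40)) := by
    unfold LL
    rw [← hK]
    exact Nat.floor_le (Real.exp_pos _).le
  have hK40 : 1 ≤ K ^ ((1 : ℝ) / 40) := Real.one_le_rpow (by linarith) (by norm_num)
  have hL1 : 1 < LL N := by
    have h1 : (2 : ℝ) < Real.exp (K ^ ((1 : ℝ) / 40)) := by
      have h2 := Real.add_one_lt_exp (x := K ^ ((1 : ℝ) / 40)) (by linarith)
      linarith
    have h3 : (1 : ℝ) < LL N := by linarith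
    exact_mod_cast h3
  have hKCL : K ^ C ≤ (LL N : ℝ) ^ 3 := by
    have h1 : Real.exp (K ^ ((1 : ℝ) / 1000)) ≤ Real.exp (K ^ ((1 : ℝ) / 40)) :=
      Real.exp_le_exp.mpr (Real.rpow_le_rpow_of_exponent_le (by linarith) (by norm_num))
    have h2 : (2 : ℝ) ≤ LL N := by exact_mod_cast hL1
    have h3 : K ^ C ≤ 2 * (LL N : ℝ) := by linarith
    have h4 : 2 * (LL N : ℝ) ≤ (LL N : ℝ) ^ 3 := by nlinarith [mul_nonneg (sub_nonneg.mpr h2) (sub_nonneg.mpr h2), sq_nonneg (LL N : ℝ)]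
    linarith
  have hL0 : (0 : ℝ) < LL N := by
    have h2 : (1 : ℝ) < LL N := by exact_mod_cast hL1
    linarith
  have hellL : (LL N : ℝ) ^ 2 ≤ ell := by
    rw [hell, le_div_iff₀ hvr]
    have h1 : (v : ℝ) * (LL N : ℝ) ^ 5 ≤ N := by exact_mod_cast hvL
    have h2 : (v : ℝ) * (LL N : ℝ) ^ 5 ≤ (LL N : ℝ) ^ 3 * ((u2 : ℝ) - u1) :=
      (h1.trans hNK).trans (mul_le_mul_of_nonneg_right hKCL hlen.le)
    have h3 : (LL N : ℝ) ^ 3 * ((LL N : ℝ) ^ 2 * v) ≤ (LL N : ℝ) ^ 3 * ((u2 : ℝ) - u1) := by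
      calc (LL N : ℝ) ^ 3 * ((LL N : ℝ) ^ 2 * v) = (v : ℝ) * (LL N : ℝ) ^ 5 := by ring
        _ ≤ _ := h2
    exact le_of_mul_le_mul_left h3 (by positivity)
  -- primes
  have hpr : ∀ p ∈ RP N, p.Prime ∧ Real.exp (K ^ ((1 : ℝ) / 1000)) < p := fun p hp => by
    rw [hK]
    exact ⟨(mem_PR.mp hp).1, (mem_PR.mp hp).2.1⟩
  have hsmall : ∀ p ∈ RP N, ∀ q : ℕ, 0 < q → (q : ℝ) ≤ Real.exp (K ^ ((1 : ℝ) / 1000)) → ¬ p ∣ q := by
    intro p hp q hq0 hq hd
    have h1 : (p : ℝ) ≤ q := by exact_mod_cast Nat.le_of_dvd hq0 hd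
    linarith [(hpr p hp).2]
  have hmr : (m : ℝ) ≤ 2 * (tJ N : ℝ) := by exact_mod_cast hmJ
  have hW1 : (1 : ℝ) ≤ W := by exact_mod_cast hW
  have htJ0 : (0 : ℝ) ≤ tJ N := Nat.cast_nonneg _
  have hmlt : (m : ℝ) ≤ Real.exp (K ^ ((1 : ℝ) / 1000)) := by nlinarith
  have hpm : ∀ p ∈ RP N, ¬ p ∣ m := fun p hp => hsmall p hp m hm hmlt
  have hpA : ∀ p ∈ RP N, ¬ p ∣ A := fun p hp => hsmall p hp A hA (hAK.trans g7.le)
  -- the sets for a pair
  let Q : ℕ → ℕ → Finset ℕ := fun α β => (Finset.range (W * N)).filter fun n => u1 ≤ v * n ∧ v * n < u2 ∧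
      (α * β).Coprime (N * v) ∧ α ∣ m * mr W N A (v * n) ∧ β ∣ mr W N (m * A) (v * n) ∧ α.Coprime β ∧
      (∀ p : ℕ, p.Prime → p ∣ α * β → p ∈ RP N) ∧ α ≤ LL N
  have hQ : ∀ α β : ℕ, 1 ≤ β → β ≤ α → ((Q α β).card : ℝ) ≤ 2 * ell / ((β : ℝ) * β) := by
    intro α β hβ hβα
    have hβr : (0 : ℝ) < β := by exact_mod_cast hβ
    have hpos : 0 ≤ 2 * ell / ((β : ℝ) * β) := by positivity
    rcases (Q α β).eq_empty_or_nonempty with h | ⟨n0, hn0⟩
    · rw [h, card_empty, Nat.cast_zero]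
      exact hpos
    · obtain ⟨-, -, -, c1, -, -, c2, c3, c4⟩ := mem_filter.mp hn0
      have hcop : (α * β).Coprime (m * A * v) := by
        by_contra hcon
        obtain ⟨p, hp, h1, h2⟩ := Nat.Prime.not_coprime_iff_dvd.mp hcon
        have h3 := c3 p hp h1
        rcases (Nat.Prime.dvd_mul hp).mp h2 with h4 | h4
        · rcases (Nat.Prime.dvd_mul hp).mp h4 with h5 | h5
          · exact hpm p h3 h5
          · exact hpA p h3 h5
        · have h5 : p ∣ 1 := by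
            rw [← c1.gcd_eq_one]
            exact Nat.dvd_gcd h1 (h4.mul_left N)
          exact hp.one_lt.ne' (Nat.dvd_one.mp h5)
      have h1 := aue_pair hv hu12 hcell (hβ.trans hβα) hβ c2 hcop (Q α β) (fun n hn => by
        obtain ⟨-, d1, d2, -, d3, d4, -⟩ := mem_filter.mp hn
        exact ⟨d1, d2, d3, d4⟩)
      have hαr : (β : ℝ) ≤ α := by exact_mod_cast hβα
      have hαL : (α : ℝ) ≤ LL N := by exact_mod_cast c4
      have hM : ((α * β : ℕ) : ℝ) = (α : ℝ) * β := by push_cast; rfl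
      have hM0 : (0 : ℝ) < (α : ℝ) * β := by nlinarith
      have h2 : ((u2 : ℝ) - u1) / (v * ((α * β : ℕ) : ℝ)) = ell / ((α : ℝ) * β) := by
        rw [hell, hM, div_div]
      rw [h2] at h1
      have h3 : (1 : ℝ) ≤ ell / ((α : ℝ) * β) := by
        rw [le_div_iff₀ hM0, one_mul]
        refine le_trans ?_ hellL
        nlinarith
      have h4 : ell / ((α : ℝ) * β) ≤ ell / ((β : ℝ) * β) :=
        div_le_div_of_nonneg_left hell0.le (by positivity) (mul_le_mul_of_nonneg_right hαr hβr.le)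
      have h5 : 2 * ell / ((β : ℝ) * β) = ell / ((β : ℝ) * β) + ell / ((β : ℝ) * β) := by ring
      rw [h5]
      linarith
  -- prime powers
  have hPex : ∀ p : ℕ, ∃ P, 2 ≤ p → (z0 N < P ∧ ∀ j, z0 N < p ^ j → P ∣ p ^ j) := by
    intro p
    by_cases h : 2 ≤ p
    · obtain ⟨P, hP⟩ := aue_pow (z0 N) p h
      exact ⟨P, fun _ => hP⟩
    · exact ⟨1, fun h' => absurd h' h⟩
  choose Pf hPf using hPex
  obtain ⟨D, hD⟩ : ∃ D, D = (i - m * j) * W := ⟨_, rfl⟩
  have hD1 : 1 ≤ D := by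
    rw [hD]
    exact Nat.mul_pos (by omega) hW
  -- the cover
  have hcov : ((Finset.range (W * N)).filter fun n => u1 ≤ v * n ∧ v * n < u2 ∧
      ∃ α β e : ℕ, (α * β).Coprime (N * v) ∧ α ∣ m * mr W N A (v * n) ∧ β ∣ mr W N (m * A) (v * n) ∧ α.Coprime β ∧
      (∀ p : ℕ, p.Prime → p ∣ α * β → p ∈ RP N) ∧ 0 < β ∧ 0 < e ∧ α = β + (i - m * j) * W * e ∧ α < 2 * β ∧ α ≤ LL N ∧
      ¬ EC N e) ⊆ N.primeFactors.biUnion fun p => (Icc 1 (LL N)).biUnion fun β =>
        (Icc 1 (β / (D * Pf p))).biUnion fun k => Q (β + D * (Pf p * k)) β := by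
    intro n hn
    obtain ⟨c0, c1, c2, α, β, e, d1, d2, d3, d4, d5, d6, d7, d8, d9, d10, d11⟩ := mem_filter.mp hn
    unfold EC at d11
    push Not at d11
    obtain ⟨p, j', hp, hj1, hj2, hj3⟩ := d11
    have hj0 : j' ≠ 0 := by
      rintro rfl
      rw [pow_zero] at hj3
      omega
    have hpN : p ∈ N.primeFactors :=
      Nat.mem_primeFactors.mpr ⟨hp, (dvd_pow_self p hj0).trans hj1, by omega⟩
    obtain ⟨hP1, hP2⟩ := hPf p hp.two_le
    obtain ⟨k, hk⟩ := (hP2 j' hj3).trans hj2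
    have hk0 : 1 ≤ k := by
      rcases Nat.eq_zero_or_pos k with h | h
      · rw [h, mul_zero] at hk
        omega
      · exact h
    rw [← hD] at d8
    rw [hk] at d8
    have hPpos : 0 < Pf p := by omega
    rw [mem_biUnion]
    refine ⟨p, hpN, ?_⟩
    rw [mem_biUnion]
    refine ⟨β, mem_Icc.mpr ⟨d6, by omega⟩, ?_⟩
    rw [mem_biUnion]
    refine ⟨k, mem_Icc.mpr ⟨hk0, ?_⟩, ?_⟩
    · rw [Nat.le_div_iff_mul_le (Nat.mul_pos hD1 hPpos)]
      have h1 : k * (D * Pf p) = D * (Pf p * k) := by ring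
      omega
    · rw [← d8]
      exact mem_filter.mpr ⟨c0, c1, c2, d1, d2, d3, d4, d5, d10⟩
  have hcard := (card_le_card hcov).trans (card_biUnion_le.trans (sum_le_sum fun p _ =>
    card_biUnion_le.trans (sum_le_sum fun β _ => card_biUnion_le)))
  have hcardr : (((Finset.range (W * N)).filter fun n => u1 ≤ v * n ∧ v * n < u2 ∧
      ∃ α β e : ℕ, (α * β).Coprime (N * v) ∧ α ∣ m * mr W N A (v * n) ∧ β ∣ mr W N (m * A) (v * n) ∧ α.Coprime β ∧
      (∀ p : ℕ, p.Prime → p ∣ α * β → p ∈ RP N) ∧ 0 < β ∧ 0 < e ∧ α = β + (i - m * j) * W * e ∧ α < 2 * β ∧ α ≤ LL N ∧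
      ¬ EC N e).card : ℝ) ≤ ∑ p ∈ N.primeFactors, ∑ β ∈ Icc 1 (LL N), ∑ k ∈ Icc 1 (β / (D * Pf p)),
        ((Q (β + D * (Pf p * k)) β).card : ℝ) := by
    exact_mod_cast hcard
  refine hcardr.trans ?_
  have hz : K ^ 10 < (z0 N : ℝ) + 1 := by
    unfold z0
    rw [← hK]
    exact Nat.lt_floor_add_one _
  have hone : ∀ p ∈ N.primeFactors, ∑ β ∈ Icc 1 (LL N), ∑ k ∈ Icc 1 (β / (D * Pf p)),
        ((Q (β + D * (Pf p * k)) β).card : ℝ) ≤ 2 * ell / K ^ 10 * (1 + Real.log (LL N)) := by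
    intro p hp
    obtain ⟨hP1, -⟩ := hPf p (Nat.prime_of_mem_primeFactors hp).two_le
    have hPr : K ^ 10 ≤ Pf p := by
      have : ((z0 N + 1 : ℕ) : ℝ) ≤ Pf p := by exact_mod_cast hP1
      push_cast at this
      linarith
    have hK10 : 0 < K ^ 10 := by positivity
    have hPr0 : (0 : ℝ) < Pf p := by linarith
    have hDr : (1 : ℝ) ≤ D := by exact_mod_cast hD1
    calc ∑ β ∈ Icc 1 (LL N), ∑ k ∈ Icc 1 (β / (D * Pf p)), ((Q (β + D * (Pf p * k)) β).card : ℝ)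
        ≤ ∑ β ∈ Icc 1 (LL N), 2 * ell / K ^ 10 * (1 / (β : ℝ)) := by
          refine sum_le_sum fun β hβ => ?_
          have hβ1 : 1 ≤ β := (mem_Icc.mp hβ).1
          have hβr : (0 : ℝ) < β := by exact_mod_cast hβ1
          calc ∑ k ∈ Icc 1 (β / (D * Pf p)), ((Q (β + D * (Pf p * k)) β).card : ℝ)
              ≤ ∑ _k ∈ Icc 1 (β / (D * Pf p)), 2 * ell / ((β : ℝ) * β) :=
                sum_le_sum fun k _ => hQ _ β hβ1 (Nat.le_add_right _ _)
            _ = ((β / (D * Pf p) : ℕ) : ℝ) * (2 * ell / ((β : ℝ) * β)) := by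
                rw [sum_const, Nat.card_Icc, Nat.add_sub_cancel, nsmul_eq_mul]
            _ ≤ ((β : ℝ) / K ^ 10) * (2 * ell / ((β : ℝ) * β)) := by
                refine mul_le_mul_of_nonneg_right ?_ (by positivity)
                refine Nat.cast_div_le.trans ?_
                push_cast
                refine div_le_div_of_nonneg_left hβr.le hK10 ?_
                nlinarith
            _ = 2 * ell / K ^ 10 * (1 / (β : ℝ)) := by
                field_simp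
      _ = 2 * ell / K ^ 10 * ∑ β ∈ Icc 1 (LL N), (1 / (β : ℝ)) := by rw [mul_sum]
      _ ≤ 2 * ell / K ^ 10 * (1 + Real.log (LL N)) :=
          mul_le_mul_of_nonneg_left (aue_harm _) (by positivity)
  have hlogL : Real.log (LL N) ≤ K := by
    have h1 : Real.log (LL N) ≤ K ^ ((1 : ℝ) / 40) := by
      rw [Real.log_le_iff_le_exp hL0]
      exact hLle
    refine h1.trans ?_
    calc K ^ ((1 : ℝ) / 40) ≤ K ^ (1 : ℝ) := Real.rpow_le_rpow_of_exponent_le (by linarith) (by norm_num)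
      _ = K := Real.rpow_one K
  calc ∑ p ∈ N.primeFactors, ∑ β ∈ Icc 1 (LL N), ∑ k ∈ Icc 1 (β / (D * Pf p)),
        ((Q (β + D * (Pf p * k)) β).card : ℝ)
      ≤ ∑ _p ∈ N.primeFactors, 2 * ell / K ^ 10 * (1 + Real.log (LL N)) := sum_le_sum hone
    _ = (N.primeFactors.card : ℝ) * (2 * ell / K ^ 10 * (1 + Real.log (LL N))) := by
        rw [sum_const, nsmul_eq_mul]
    _ ≤ (2 * K) * (2 * ell / K ^ 10 * (2 * K)) := by
        have h1 : 0 ≤ 2 * ell / K ^ 10 := by positivity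
        have h2 : 0 ≤ 1 + Real.log (LL N) := by
          have : 0 ≤ Real.log (LL N : ℝ) := Real.log_natCast_nonneg _
          linarith
        refine mul_le_mul hom (mul_le_mul_of_nonneg_left (by linarith) h1) (by positivity) (by positivity)
    _ = 8 / K ^ 7 * (1 / K) * ell := by
        field_simp
        ring
    _ ≤ η * del N * ell := by
        refine mul_le_mul_of_nonneg_right ?_ hell0.le
        have h1 : 8 / K ^ 7 ≤ η := by
          rw [div_le_iff₀ (by positivity)]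
          rw [div_le_iff₀ hη] at hKη
          have h2 : K ≤ K ^ 7 := by
            calc K = K ^ 1 := (pow_one K).symm
              _ ≤ K ^ 7 := pow_le_pow_right₀ (by linarith) (by norm_num)
          nlinarith
        have h2 : 1 / K ≤ del N := by
          rw [div_le_iff₀ hK0]
          linarith
        exact mul_le_mul h1 h2 (by positivity) hη.le
    _ = η * del N * ((u2 : ℝ) - u1) / v := by
        rw [hell]
        ring

end Pool.Agent.Lib.OA
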