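import Mathlib
import Pool.Agent.Lib.MP_7b7e48_nt.OW.ULB
import Pool.Agent.Lib.MP_7b7e48_nt.OA.AST
import Pool.Agent.Lib.MP_7b7e48_nt.OW.ULN
import Pool.Agent.Lib.MP_7b7e48_nt.OW.LFM
import Pool.Agent.Lib.MP_7b7e48_nt.OA.ANum

/-!
# Module AUL (60 minutes): most points of a cell are linked

Copy of `OW/UL.lean` (`OW.ul_num` is available). Changes: (1) `LFP` instead of `LF`, with `W = 1`, `PN = N.primeFactors.filter (p ≤ K^2)` (`B0 = 2`), and
`∏_{PN} (1 - 1/p) ≤ 2 del N` (`del_prod`); the `n` are coprime to `N`, so to `PN`; the links of `LFP` have the primes of `α β` in `RP N` and not dividing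
`E = N v`. (2) `bridge` (`OW/ULB.lean`) gives `LD`; its proof also gives the numbers `α`, `β` themselves: redo it so that `(α * β).Coprime (N * v)` is kept.
(3) an `n` which has such a link, but is not `LkA`, has `¬ EC N e`: it is counted by `aue` (with `η/4`; `D = (i - m j) W`).
The additive constant `1` (for `n = 0`) and the roundings are absorbed as there (`1 ≤ η/8 del N (u2-u1)/v` as `del N ≥ 1/K`).
-/

set_option autoImplicit false

open Finset
open Pool.Agent.Lib.MP_45349e_nt.LS (lam)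

namespace Pool.Agent.Lib.OA

open Pool.Agent.Lib.OW
open Pool.Agent.Lib.RG (RC LV rr SS PB)

open Classical in
/-- the statement of theorem `OA.LFP` -/
def LFPS : Prop := ∀ {a b b' d θ η : ℝ} (ha : 0 < a) (hd : 0 ≤ d) (hb : 8 * a + 7 * d < b) (hb' : b < b') (hθ : b < θ)
    (hη : 0 < η) (B0 : ℝ), ∃ K₀ : ℝ, 1 ≤ K₀ ∧ ∀ K : ℝ, K₀ ≤ K → ∀ (Q W E : ℕ) (δ : ℝ), 1 ≤ Q → 0 < δ → δ ≤ 1 →
    (Q : ℝ) / δ ≤ K ^ d → 1 ≤ W → (W : ℝ) ≤ K → 1 ≤ E → Real.log E ≤ K ^ 3 → ∀ PN : Finset ℕ,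
    (∀ p ∈ PN, p.Prime ∧ (p : ℝ) ≤ K ^ B0) → (∀ p ∈ PN, W.Coprime p) → ∀ (ρ : (ZMod Q)ˣ)
    (A B : Bool → ℤ),
    (∀ e, ∀ p ∈ PR (K ^ a) (K ^ b), ¬ p ∣ E → ¬ (p : ℤ) ∣ A e) →
    (∀ p ∈ PR (K ^ a) (K ^ b), ¬ p ∣ E → ¬ (p : ℤ) ∣ A false * B true - A true * B false) →
    ∀ u v : ℕ, u ≤ v → Real.exp (K ^ θ) ≤ (v : ℝ) - u → ∀ G : Bool → ℕ → ℕ,
    (∀ e, ∀ n ∈ Finset.Ioc u v, ((G e n : ℕ) : ℤ) = A e * n - B e) → ∀ c : ℕ,
    ((((Finset.Ioc u v).filter fun n => n ≡ c [MOD W] ∧ (∀ p ∈ PN, ¬ p ∣ n) ∧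
      ¬ TLnk Q δ ρ ((PR (K ^ a) (K ^ b)).filter fun p => ¬ p ∣ E) (Real.exp (K ^ b')) (G false n) (G true n)).card : ℕ) : ℝ) ≤
      η * (∏ p ∈ PN, (1 - 1 / (p : ℝ))) * (((v : ℝ) - u) / W)

private theorem aul_bridge {W N v D X X' Y : ℕ} (hWD : W ∣ D) (hD : 0 < D) (hXY : X' = Y + D * N)
    (hXX : X ∣ X') (h : (1 + D).Coprime (D * W))
    (hl : TLnk (D * W) (1 / 3) (ZMod.unitOfCoprime (1 + D) h) ((RP N).filter fun p => ¬ p ∣ N * v)
      (Real.exp ((Real.log N) ^ ((1 : ℝ) / 40))) X Y) :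
    ∃ α β e : ℕ, LD W N X' Y α β D e ∧ (α * β).Coprime (N * v) := by
  obtain ⟨α, β, h1, h2, h3, h4, h5, h6, h7, h8, h9, h10, h11⟩ := hl
  rw [ZMod.coe_unitOfCoprime] at h10
  have h12 : α ≡ (1 + D) * β [MOD D * W] := by
    rw [← ZMod.natCast_eq_natCast_iff]
    push_cast at h10 ⊢
    exact h10
  have h13 : α ≡ β [MOD D] := by
    have e1 : α ≡ (1 + D) * β [MOD D] := Nat.ModEq.of_mul_right W h12
    refine e1.trans ?_
    have e2 : (1 + D) * β = β + D * β := by ring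
    rw [e2]
    exact Nat.ModEq.symm (by
      have : β + D * β ≡ β + 0 [MOD D] := Nat.ModEq.add_left β (Nat.modEq_zero_iff_dvd.mpr (Dvd.intro _ rfl))
      exact this.symm)
  have h14 : D ∣ α - β := (Nat.modEq_iff_dvd' h8.le).mp h13.symm
  obtain ⟨e, he⟩ := h14
  have h15 : α = β + D * e := by omega
  have he0 : 0 < e := by
    rcases Nat.eq_zero_or_pos e with h16 | h16
    · rw [h16, mul_zero] at h15
      omega
    · exact h16
  refine ⟨α, β, e, ⟨hXY, hWD, hD, h1.trans hXX, h2, h4, h5, h3, fun p hp hd =>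
    (mem_filter.mp (h6 p hp hd)).1, h7, he0, h15, ?_, ?_, ?_⟩, ?_⟩
  · -- `e = β (mod W)`
    rw [h15] at h12
    have e2 : (1 + D) * β = β + D * β := by ring
    rw [e2] at h12
    have h16 := Nat.ModEq.add_left_cancel' β h12
    exact Nat.ModEq.mul_left_cancel' (by omega) h16
  · have h16 : (α : ℝ) < 2 * β := by
      refine lt_of_lt_of_le h9 (mul_le_mul_of_nonneg_right exp_two_thirds (Nat.cast_nonneg β))
    exact_mod_cast h16
  · unfold LL
    exact Nat.le_floor h11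
  · exact Nat.coprime_of_dvd fun p hp hd => (mem_filter.mp (h6 p hp hd)).2

open Classical in
theorem aul_of (LFP : LFPS) (aue : AUES) (W : ℕ) (hW : 1 ≤ W) (η C : ℝ) (hη : 0 < η) : ∃ N0 : ℕ, ∀ N : ℕ, N0 ≤ N →
    ∀ v A m i j u1 u2 : ℕ, 1 ≤ v → v * LL N ^ 5 ≤ N → 1 ≤ A → (A : ℝ) ≤ (Real.log N) ^ C → 1 ≤ m → m ≤ 2 * tJ N →
    u2 ≤ W * N → (N : ℝ) ≤ (Real.log N) ^ C * ((u2 : ℝ) - u1) →
    (∀ u : ℕ, u1 ≤ u → u < u2 → (A * u) / (W * N) = j ∧ (m * A * u) / (W * N) = i) → i ≠ m * j →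
    (((Finset.range (W * N)).filter fun n => n.Coprime N ∧ u1 ≤ v * n ∧ v * n < u2 ∧
      ¬ LkA W N (m * mr W N A (v * n)) (mr W N (m * A) (v * n))).card : ℝ) ≤ η * del N * ((u2 : ℝ) - u1) / v := by
  obtain ⟨K₀, hK₀, hLF⟩ := LFP (a := 1 / 1000) (b := 1 / 50) (b' := 1 / 40) (d := 1 / 1000) (θ := 1 / 45)
    (η := η / 16) (by norm_num) (by norm_num) (by norm_num) (by norm_num) (by norm_num) (by positivity) 2
  obtain ⟨N0, hN0⟩ := ul_num W η (C + 1) hη K₀
  obtain ⟨N2, hN2⟩ := numA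
  obtain ⟨N3, hN3⟩ := del_prod
  obtain ⟨N4, hN4⟩ := aue W hW (η / 4) C (by positivity)
  refine ⟨N0 + N2 + N3 + N4 + 1, fun N hN => ?_⟩
  obtain ⟨g1, g2, g3, g4, g5, g6, g7', g8, g9⟩ := hN0 N (by omega)
  have hNA := hN2 N (by omega)
  have hdp := hN3 N (by omega)
  have haue := hN4 N (by omega)
  have hN1 : 1 ≤ N := by omega
  intro v A m i j u1 u2 hv hvL hA hAK hm hmJ hu2 hNK hcell hij
  set K := Real.log (N : ℝ) with hK
  have hK0 : 0 < K := by linarith
  have hKC : 0 < K ^ C := by positivity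
  have hKC1 : K ^ (C + 1) = K ^ C * K := by rw [Real.rpow_add hK0, Real.rpow_one]
  have g7 : K ^ C < Real.exp (K ^ ((1 : ℝ) / 1000)) := by
    refine lt_of_le_of_lt ?_ g7'
    rw [hKC1]
    nlinarith
  have hdel : 1 ≤ K * del N := hNA.d1
  have hdel0 : 0 < del N := del_pos hN1
  have hNr : (1 : ℝ) ≤ N := by exact_mod_cast hN1
  have hlen : 0 < (u2 : ℝ) - u1 := by
    by_contra hcon
    push Not at hcon
    have : K ^ C * ((u2 : ℝ) - u1) ≤ 0 := mul_nonpos_of_nonneg_of_nonpos hKC.le hcon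
    linarith
  have hu12 : u1 < u2 := by
    have : (u1 : ℝ) < u2 := by linarith
    exact_mod_cast this
  have hN1pos : 0 < W * N := Nat.mul_pos hW hN1
  -- `m j < i < m j + m`
  obtain ⟨hc1, hc2⟩ := hcell u1 le_rfl hu12
  have hij1 : m * j < i := by
    have h1 : m * j ≤ i := by
      rw [← hc1, ← hc2, Nat.le_div_iff_mul_le hN1pos]
      calc m * (A * u1 / (W * N)) * (W * N) = m * (A * u1 / (W * N) * (W * N)) := by ring
        _ ≤ m * (A * u1) := Nat.mul_le_mul_left m (Nat.div_mul_le_self _ _)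
        _ = m * A * u1 := by ring
    omega
  have hij2 : i < m * j + m := by
    rw [← hc2, Nat.div_lt_iff_lt_mul hN1pos]
    have h1 : A * u1 < (j + 1) * (W * N) := by
      rw [← hc1]
      exact (Nat.div_lt_iff_lt_mul hN1pos).mp (Nat.lt_succ_self _)
    calc m * A * u1 = m * (A * u1) := by ring
      _ < m * ((j + 1) * (W * N)) := Nat.mul_lt_mul_of_pos_left h1 (by omega)
      _ = (m * j + m) * (W * N) := by ring
  obtain ⟨k, hk⟩ : ∃ k, i = m * j + k := ⟨i - m * j, by omega⟩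
  have hk0 : 0 < k := by omega
  have hkm : k < m := by omega
  obtain ⟨D, hD⟩ : ∃ D, D = k * W := ⟨_, rfl⟩
  have hD0 : 0 < D := by rw [hD]; exact Nat.mul_pos hk0 hW
  have hWD : W ∣ D := by rw [hD]; exact Dvd.intro_left _ rfl
  -- the primes
  have hpr : ∀ p ∈ RP N, p.Prime ∧ Real.exp (K ^ ((1 : ℝ) / 1000)) < p := fun p hp =>
    ⟨(mem_PR.mp hp).1, (mem_PR.mp hp).2.1⟩
  have hsmall : ∀ p ∈ RP N, ∀ q : ℕ, 0 < q → (q : ℝ) ≤ Real.exp (K ^ ((1 : ℝ) / 1000)) → ¬ p ∣ q := by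
    intro p hp q hq0 hq hd
    have h1 : (p : ℝ) ≤ q := by exact_mod_cast Nat.le_of_dvd hq0 hd
    linarith [(hpr p hp).2]
  have hmr : (m : ℝ) ≤ 2 * (tJ N : ℝ) := by exact_mod_cast hmJ
  have hW1 : (1 : ℝ) ≤ W := by exact_mod_cast hW
  have htJ0 : (0 : ℝ) ≤ tJ N := Nat.cast_nonneg _
  have hmW : (m : ℝ) * W ≤ 2 * (tJ N : ℝ) * W := mul_le_mul_of_nonneg_right hmr (by linarith)
  have hmlt : (m : ℝ) ≤ Real.exp (K ^ ((1 : ℝ) / 1000)) := by nlinarith
  have hpm : ∀ p ∈ RP N, ¬ p ∣ m := fun p hp => hsmall p hp m hm hmlt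
  have hpA : ∀ p ∈ RP N, ¬ p ∣ A := fun p hp => hsmall p hp A hA (hAK.trans g7.le)
  have hpW : ∀ p ∈ RP N, ¬ p ∣ W := fun p hp => hsmall p hp W hW (by
    have h1 : (1 : ℝ) ≤ m := by exact_mod_cast hm
    nlinarith)
  have hpk : ∀ p ∈ RP N, ¬ p ∣ k := fun p hp => hsmall p hp k hk0 (by
    have h1 : (k : ℝ) ≤ m := by exact_mod_cast hkm.le
    linarith)
  -- the interval
  obtain ⟨u', hu'⟩ : ∃ u', u' = (u1 - 1) / v := ⟨_, rfl⟩
  obtain ⟨v', hv'⟩ : ∃ v', v' = (u2 - 1) / v := ⟨_, rfl⟩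
  have hu'v' : u' ≤ v' := by
    rw [hu', hv']
    exact Nat.div_le_div_right (by omega)
  have hmemI : ∀ n : ℕ, 1 ≤ n → (n ∈ Finset.Ioc u' v' ↔ u1 ≤ v * n ∧ v * n < u2) := by
    intro n hn
    rw [mem_Ioc, hu', hv', Nat.div_lt_iff_lt_mul (by omega), Nat.le_div_iff_mul_le (by omega), mul_comm n v]
    have h1 : 1 ≤ v * n := Nat.mul_pos hv hn
    omega
  have hvr : (1 : ℝ) ≤ v := by exact_mod_cast hv
  have hvr0 : (0 : ℝ) < v := by linarith
  obtain ⟨ell, hell⟩ : ∃ ell : ℝ, ell = ((u2 : ℝ) - u1) / v := ⟨_, rfl⟩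
  have hell2 : (Real.exp (K ^ ((1 : ℝ) / 45)) + 3 + 8 / η) * K ≤ ell := by
    have h1 : (v : ℝ) * (LL N : ℝ) ^ 5 ≤ N := by exact_mod_cast hvL
    have h2 : (v : ℝ) * (LL N : ℝ) ^ 5 ≤ K ^ C * ((u2 : ℝ) - u1) := h1.trans hNK
    have h3 : (v : ℝ) * ((Real.exp (K ^ ((1 : ℝ) / 45)) + 3 + 8 / η) * K ^ (C + 1)) ≤ v * (LL N : ℝ) ^ 5 :=
      mul_le_mul_of_nonneg_left g9 hvr0.le
    rw [hell, le_div_iff₀ hvr0]
    have h4 : K ^ C * ((Real.exp (K ^ ((1 : ℝ) / 45)) + 3 + 8 / η) * K * v) ≤ K ^ C * ((u2 : ℝ) - u1) := by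
      have e1 : K ^ C * ((Real.exp (K ^ ((1 : ℝ) / 45)) + 3 + 8 / η) * K * v) =
        (v : ℝ) * ((Real.exp (K ^ ((1 : ℝ) / 45)) + 3 + 8 / η) * K ^ (C + 1)) := by rw [hKC1]; ring
      rw [e1]
      linarith
    exact le_of_mul_le_mul_left h4 hKC
  have hell1 : Real.exp (K ^ ((1 : ℝ) / 45)) + 3 + 8 / η ≤ ell := by
    refine le_trans ?_ hell2
    have h1 : 0 < Real.exp (K ^ ((1 : ℝ) / 45)) + 3 + 8 / η := by positivity
    nlinarith
  have hfl : ∀ x : ℕ, ((x / v : ℕ) : ℝ) ≤ (x : ℝ) / v ∧ (x : ℝ) / v - 1 < ((x / v : ℕ) : ℝ) := by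
    intro x
    refine ⟨Nat.cast_div_le, ?_⟩
    have h1 : x < (x / v + 1) * v := (Nat.div_lt_iff_lt_mul (by omega)).mp (Nat.lt_succ_self _)
    have h2 : (x : ℝ) < ((x / v : ℕ) + 1) * v := by exact_mod_cast h1
    rw [sub_lt_iff_lt_add, div_lt_iff₀ hvr0]
    exact h2
  have hsub1 : ∀ x : ℕ, (x : ℝ) - 1 ≤ ((x - 1 : ℕ) : ℝ) ∧ ((x - 1 : ℕ) : ℝ) ≤ x := by
    intro x
    constructor
    · rcases Nat.eq_zero_or_pos x with h | h
      · subst h
        norm_num
      · rw [Nat.cast_sub h]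
        norm_num
    · exact_mod_cast Nat.sub_le x 1
  have hup : (v' : ℝ) - u' ≤ ell + 2 := by
    have h1 := (hfl (u2 - 1)).1
    have h2 := (hfl (u1 - 1)).2
    rw [← hv'] at h1
    rw [← hu'] at h2
    have h3 : ((u2 - 1 : ℕ) : ℝ) / v ≤ (u2 : ℝ) / v := div_le_div_of_nonneg_right (hsub1 u2).2 hvr0.le
    have h4 : ((u1 : ℝ) - 1) / v ≤ ((u1 - 1 : ℕ) : ℝ) / v := div_le_div_of_nonneg_right (hsub1 u1).1 hvr0.le
    have h5 : ((u1 : ℝ) - 1) / v = (u1 : ℝ) / v - 1 / v := by ring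
    have h6 : 1 / (v : ℝ) ≤ 1 := by
      rw [div_le_one hvr0]
      exact hvr
    have h7 : ell = (u2 : ℝ) / v - (u1 : ℝ) / v := by rw [hell]; ring
    rw [h7]
    linarith
  have hlow : ell - 2 ≤ (v' : ℝ) - u' := by
    have h1 := (hfl (u2 - 1)).2
    have h2 := (hfl (u1 - 1)).1
    rw [← hv'] at h1
    rw [← hu'] at h2
    have h3 : ((u1 - 1 : ℕ) : ℝ) / v ≤ (u1 : ℝ) / v := div_le_div_of_nonneg_right (hsub1 u1).2 hvr0.le
    have h4 : ((u2 : ℝ) - 1) / v ≤ ((u2 - 1 : ℕ) : ℝ) / v := div_le_div_of_nonneg_right (hsub1 u2).1 hvr0.le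
    have h5 : ((u2 : ℝ) - 1) / v = (u2 : ℝ) / v - 1 / v := by ring
    have h6 : 1 / (v : ℝ) ≤ 1 := by
      rw [div_le_one hvr0]
      exact hvr
    have h7 : ell = (u2 : ℝ) / v - (u1 : ℝ) / v := by rw [hell]; ring
    rw [h7]
    linarith
  have h8η : 0 < 8 / η := by positivity
  -- the values of the forms
  have hmrA : ∀ n ∈ Finset.Ioc u' v', ((mr W N A (v * n) : ℕ) : ℤ) = (A : ℤ) * v * n - j * (W * N) := by
    intro n hn
    have hn1 : 1 ≤ n := by
      have := (mem_Ioc.mp hn).1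
      omega
    obtain ⟨h1, h2⟩ := (hmemI n hn1).mp hn
    obtain ⟨h3, -⟩ := hcell (v * n) h1 h2
    have h4 := Nat.mod_add_div (A * (v * n)) (W * N)
    rw [h3] at h4
    unfold mr
    have h5 : ((A * (v * n) % (W * N) : ℕ) : ℤ) + ((W * N * j : ℕ) : ℤ) = ((A * (v * n) : ℕ) : ℤ) := by
      exact_mod_cast h4
    push_cast at h5 ⊢
    linarith
  have hmrm : ∀ n ∈ Finset.Ioc u' v', ((mr W N (m * A) (v * n) : ℕ) : ℤ) = (m : ℤ) * A * v * n - i * (W * N) := by
    intro n hn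
    have hn1 : 1 ≤ n := by
      have := (mem_Ioc.mp hn).1
      omega
    obtain ⟨h1, h2⟩ := (hmemI n hn1).mp hn
    obtain ⟨-, h3⟩ := hcell (v * n) h1 h2
    have h4 := Nat.mod_add_div (m * A * (v * n)) (W * N)
    rw [h3] at h4
    unfold mr
    have h5 : ((m * A * (v * n) % (W * N) : ℕ) : ℤ) + ((W * N * i : ℕ) : ℤ) = ((m * A * (v * n) : ℕ) : ℤ) := by
      exact_mod_cast h4
    push_cast at h5 ⊢
    linarith
  have hXY : ∀ n ∈ Finset.Ioc u' v', m * mr W N A (v * n) = mr W N (m * A) (v * n) + D * N := by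
    intro n hn
    have h1 := hmrA n hn
    have h2 := hmrm n hn
    have h3 : ((m * mr W N A (v * n) : ℕ) : ℤ) = ((mr W N (m * A) (v * n) + D * N : ℕ) : ℤ) := by
      push_cast
      rw [h1, h2, hD, hk]
      push_cast
      ring
    exact_mod_cast h3
  -- application of LF
  have hQ1 : 1 ≤ D * W := Nat.mul_pos hD0 hW
  have hQK : ((D * W : ℕ) : ℝ) / (1 / 3) ≤ K ^ ((1 : ℝ) / 1000) := by
    refine le_trans (le_of_eq ?_) (le_trans (?_ : ((k : ℝ) * W * W) * 3 ≤ _) g6)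
    · rw [hD]
      push_cast
      ring
    · have h1 : (k : ℝ) ≤ 2 * tJ N := by
        have : (k : ℝ) ≤ m := by exact_mod_cast hkm.le
        linarith
      gcongr
  have hvN : v ≤ N := by
    refine le_trans ?_ hvL
    exact Nat.le_mul_of_pos_right v (Nat.pow_pos g5)
  have hE1 : 1 ≤ N * v := Nat.mul_pos hN1 hv
  have hEK : Real.log ((N * v : ℕ) : ℝ) ≤ K ^ 3 := by
    push_cast
    rw [Real.log_mul (by positivity) (by positivity), ← hK]
    have h1 : Real.log v ≤ K := Real.log_le_log hvr0 (by exact_mod_cast hvN)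
    have h2 : K ^ 3 = K * (K * K) := by ring
    have h3 : 4 ≤ K * K := by nlinarith
    nlinarith
  have key : ∀ (Gf : ℕ → ℕ) (Af Bf : ℤ), (∀ p ∈ RP N, ¬ p ∣ N * v → ¬ (p : ℤ) ∣ Af) →
      (∀ p ∈ RP N, ¬ p ∣ N * v → ¬ (p : ℤ) ∣ Af * ((i : ℤ) * (W * N)) - ((m : ℤ) * A * v) * Bf) →
      (∀ n ∈ Finset.Ioc u' v', ((Gf n : ℕ) : ℤ) = Af * n - Bf) →
      (∀ n ∈ Finset.Ioc u' v', Gf n ∣ m * mr W N A (v * n)) →
      (((Finset.range (W * N)).filter fun n => n.Coprime N ∧ u1 ≤ v * n ∧ v * n < u2 ∧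
      ¬ LkA W N (m * mr W N A (v * n)) (mr W N (m * A) (v * n))).card : ℝ) ≤ η * del N * ((u2 : ℝ) - u1) / v := by
    intro Gf Af Bf h1 h2 h3 h4
    have h5 := hLF K g1 (D * W) 1 (N * v) (1 / 3) hQ1 (by norm_num) (by norm_num) hQK le_rfl
      (by push_cast; linarith) hE1 hEK (N.primeFactors.filter (fun p : ℕ => (p : ℝ) ≤ (Real.log N) ^ 2))
      (fun p hp => ⟨Nat.prime_of_mem_primeFactors (mem_filter.mp hp).1, by
        rw [Real.rpow_two]
        exact (mem_filter.mp hp).2⟩) (fun p _ => Nat.coprime_one_left p)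
      (ZMod.unitOfCoprime (1 + D) (cop_one_add hWD))
      (fun e => if e then (m : ℤ) * A * v else Af) (fun e => if e then (i : ℤ) * (W * N) else Bf) ?_ ?_
      u' v' hu'v' (by linarith) (fun e n => if e then mr W N (m * A) (v * n) else Gf n) ?_ 0
    · obtain ⟨Sb, hSb⟩ : ∃ Sb, Sb = (Finset.range (W * N)).filter fun n => n.Coprime N ∧ u1 ≤ v * n ∧ v * n < u2 ∧
          ¬ LkA W N (m * mr W N A (v * n)) (mr W N (m * A) (v * n)) := ⟨_, rfl⟩
      obtain ⟨SF, hSF, h5'⟩ : ∃ SF : Finset ℕ, (∀ n : ℕ, n ∈ SF ↔ n ∈ Finset.Ioc u' v' ∧ n ≡ 0 [MOD 1] ∧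
          (∀ p ∈ N.primeFactors.filter (fun p : ℕ => (p : ℝ) ≤ (Real.log N) ^ 2), ¬ p ∣ n) ∧
          ¬ TLnk (D * W) (1 / 3) (ZMod.unitOfCoprime (1 + D) (cop_one_add hWD))
            ((PR (K ^ ((1 : ℝ) / 1000)) (K ^ ((1 : ℝ) / 50))).filter fun p => ¬ p ∣ N * v)
            (Real.exp (K ^ ((1 : ℝ) / 40)))
            ((fun (e : Bool) (n : ℕ) => if e then mr W N (m * A) (v * n) else Gf n) false n)
            ((fun (e : Bool) (n : ℕ) => if e then mr W N (m * A) (v * n) else Gf n) true n)) ∧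
          (SF.card : ℝ) ≤ η / 16 *
          (∏ p ∈ N.primeFactors.filter (fun p : ℕ => (p : ℝ) ≤ (Real.log N) ^ 2), (1 - 1 / (p : ℝ))) *
          (((v' : ℝ) - u') / ((1 : ℕ) : ℝ)) := ⟨_, fun n => mem_filter, h5⟩
      obtain ⟨SE, hSE⟩ : ∃ SE, SE = (Finset.range (W * N)).filter fun n => u1 ≤ v * n ∧ v * n < u2 ∧
          ∃ α β e : ℕ, (α * β).Coprime (N * v) ∧ α ∣ m * mr W N A (v * n) ∧ β ∣ mr W N (m * A) (v * n) ∧
          α.Coprime β ∧ (∀ p : ℕ, p.Prime → p ∣ α * β → p ∈ RP N) ∧ 0 < β ∧ 0 < e ∧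
          α = β + (i - m * j) * W * e ∧ α < 2 * β ∧ α ≤ LL N ∧ ¬ EC N e := ⟨_, rfl⟩
      have hEcard := haue v A m i j u1 u2 hv hvL hA hAK hm hmJ hu2 hNK hcell hij1 hij2
      rw [← hSE] at hEcard
      rw [← hSb]
      have hsub : Sb ⊆ insert 0 (SF ∪ SE) := by
        intro n hn
        rw [hSb, mem_filter] at hn
        obtain ⟨hr, hcop, h8, h9, h10⟩ := hn
        rw [mem_insert, mem_union]
        rcases Nat.eq_zero_or_pos n with h11 | h11
        · exact Or.inl h11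
        · refine Or.inr ?_
          have hnI := (hmemI n h11).mpr ⟨h8, h9⟩
          by_cases hl : TLnk (D * W) (1 / 3) (ZMod.unitOfCoprime (1 + D) (cop_one_add hWD))
            ((PR (K ^ ((1 : ℝ) / 1000)) (K ^ ((1 : ℝ) / 50))).filter fun p => ¬ p ∣ N * v)
            (Real.exp (K ^ ((1 : ℝ) / 40)))
            ((fun (e : Bool) (n : ℕ) => if e then mr W N (m * A) (v * n) else Gf n) false n)
            ((fun (e : Bool) (n : ℕ) => if e then mr W N (m * A) (v * n) else Gf n) true n)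
          · refine Or.inr ?_
            obtain ⟨α, β, e, hLD, hcopv⟩ := aul_bridge (v := v) hWD hD0 (hXY n hnI) (h4 n hnI)
              (cop_one_add hWD) hl
            rw [hSE, mem_filter]
            refine ⟨hr, h8, h9, α, β, e, hcopv, hLD.dX, hLD.dY, hLD.cop, hLD.pr, hLD.b0, hLD.e0, ?_,
              hLD.two, hLD.ll, ?_⟩
            · have h12 := hLD.ab
              rw [hD] at h12
              have h13 : i - m * j = k := by omega
              rw [h13]
              exact h12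
            · intro hEC
              exact h10 ⟨α, β, D, e, hLD, Nat.Coprime.coprime_mul_right_right hcopv, hEC⟩
          · refine Or.inl ?_
            rw [hSF]
            refine ⟨hnI, Nat.modEq_one, fun p hp hd => ?_, hl⟩
            have hp1 := (mem_filter.mp hp).1
            have hpp := Nat.prime_of_mem_primeFactors hp1
            have hpN := Nat.dvd_of_mem_primeFactors hp1
            exact hpp.one_lt.ne' (Nat.dvd_one.mp (by
              have h12 := Nat.dvd_gcd hd hpN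
              rwa [hcop] at h12))
      have h6 : (Sb.card : ℝ) ≤ 1 + (SF.card : ℝ) + (SE.card : ℝ) := by
        have h7 := (card_le_card hsub).trans ((card_insert_le _ _).trans
          (Nat.add_le_add_right (card_union_le _ _) 1))
        have h8 : (Sb.card : ℝ) ≤ ((SF.card + SE.card + 1 : ℕ) : ℝ) := by exact_mod_cast h7
        push_cast at h8
        linarith
      rw [Nat.cast_one, div_one] at h5'
      refine h6.trans ?_
      have h7 : η * del N * ((u2 : ℝ) - u1) / v = η * del N * ell := by rw [hell]; ring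
      have h7' : η / 4 * del N * ((u2 : ℝ) - u1) / v = η / 4 * (del N * ell) := by rw [hell]; ring
      rw [h7]
      rw [h7'] at hEcard
      have hell0 : 0 ≤ ell := by
        have : 0 ≤ Real.exp (K ^ ((1 : ℝ) / 45)) + 3 + 8 / η := by positivity
        linarith
      have hell3 : 2 ≤ ell := by
        linarith [Real.exp_pos (K ^ ((1 : ℝ) / 45))]
      have hvu : 0 ≤ (v' : ℝ) - u' := by linarith
      have hprod := h5'.trans (mul_le_mul_of_nonneg_right
        (mul_le_mul_of_nonneg_left hdp (show 0 ≤ η / 16 by positivity)) hvu)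
      have h8 : η / 16 * (2 * del N) * ((v' : ℝ) - u') ≤ η / 16 * (2 * del N) * (2 * ell) :=
        mul_le_mul_of_nonneg_left (by linarith) (by positivity)
      have h9 : 1 ≤ η / 8 * (del N * ell) := by
        have h10 : 8 / η * K ≤ ell := by
          refine le_trans ?_ hell2
          exact mul_le_mul_of_nonneg_right (by linarith [Real.exp_pos (K ^ ((1 : ℝ) / 45))]) hK0.le
        have h11 : del N * (8 / η * K) ≤ del N * ell := mul_le_mul_of_nonneg_left h10 hdel0.le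
        have h12 : 8 / η ≤ del N * (8 / η * K) := by
          have h13 : 8 / η * 1 ≤ 8 / η * (K * del N) := mul_le_mul_of_nonneg_left hdel h8η.le
          linarith
        have h14 : η / 8 * (8 / η) ≤ η / 8 * (del N * ell) :=
          mul_le_mul_of_nonneg_left (h12.trans h11) (by positivity)
        have h15 : η / 8 * (8 / η) = 1 := by field_simp
        linarith
      have h16 : 0 ≤ η * (del N * ell) := by positivity
      have h17 : η / 16 * (2 * del N) * (2 * ell) = η / 4 * (del N * ell) := by ring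
      nlinarith
    · intro e p hp hpE
      cases e
      · simpa using h1 p hp hpE
      · simp only [if_true]
        intro hd
        have h6 : p ∣ m * A * v := by exact_mod_cast hd
        have hpp := (hpr p hp).1
        rcases (Nat.Prime.dvd_mul hpp).mp h6 with h7 | h7
        · rcases (Nat.Prime.dvd_mul hpp).mp h7 with h8 | h8
          · exact hpm p hp h8
          · exact hpA p hp h8
        · exact hpE (h7.mul_left N)
    · intro p hp hpE
      simpa using h2 p hp hpE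
    · intro e n hn
      cases e
      · simpa using h3 n hn
      · simpa using hmrm n hn
  rcases Nat.eq_zero_or_pos j with hj | hj
  · -- `j = 0`
    refine key (fun n => n) 1 0 ?_ ?_ ?_ ?_
    · intro p hp _ hd
      have h1 : p ∣ 1 := by exact_mod_cast hd
      exact (hpr p hp).1.one_lt.ne' (Nat.dvd_one.mp h1)
    · intro p hp hpE hd
      have hpp := (hpr p hp).1
      have h1 : p ∣ i * (W * N) := by
        have : (p : ℤ) ∣ ((i * (W * N) : ℕ) : ℤ) := by
          push_cast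
          simpa using hd
        exact_mod_cast this
      have hik : i = k := by rw [hk, hj]; omega
      rcases (Nat.Prime.dvd_mul hpp).mp h1 with h2 | h2
      · rw [hik] at h2
        exact hpk p hp h2
      · rcases (Nat.Prime.dvd_mul hpp).mp h2 with h3 | h3
        · exact hpW p hp h3
        · exact hpE (h3.mul_right v)
    · intro n _
      simp
    · intro n hn
      have h1 := hmrA n hn
      rw [hj] at h1
      have h2 : mr W N A (v * n) = A * v * n := by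
        have : ((mr W N A (v * n) : ℕ) : ℤ) = ((A * v * n : ℕ) : ℤ) := by
          rw [h1]
          push_cast
          ring
        exact_mod_cast this
      rw [h2]
      exact Dvd.intro_left (m * (A * v)) (by ring)
  · refine key (fun n => m * mr W N A (v * n)) ((m : ℤ) * A * v) ((m : ℤ) * j * (W * N)) ?_ ?_ ?_ ?_
    · intro p hp hpE hd
      have hpp := (hpr p hp).1
      have h6 : p ∣ m * A * v := by exact_mod_cast hd
      rcases (Nat.Prime.dvd_mul hpp).mp h6 with h7 | h7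
      · rcases (Nat.Prime.dvd_mul hpp).mp h7 with h8 | h8
        · exact hpm p hp h8
        · exact hpA p hp h8
      · exact hpE (h7.mul_left N)
    · intro p hp hpE hd
      have hpp := (hpr p hp).1
      have h1 : ((m : ℤ) * A * v) * ((i : ℤ) * (W * N)) - ((m : ℤ) * A * v) * ((m : ℤ) * j * (W * N)) =
          ((m * A * v * (k * (W * N)) : ℕ) : ℤ) := by
        rw [hk]
        push_cast
        ring
      rw [h1] at hd
      have h6 : p ∣ m * A * v * (k * (W * N)) := by exact_mod_cast hd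
      rcases (Nat.Prime.dvd_mul hpp).mp h6 with h7 | h7
      · rcases (Nat.Prime.dvd_mul hpp).mp h7 with h8 | h8
        · rcases (Nat.Prime.dvd_mul hpp).mp h8 with h9 | h9
          · exact hpm p hp h9
          · exact hpA p hp h9
        · exact hpE (h8.mul_left N)
      · rcases (Nat.Prime.dvd_mul hpp).mp h7 with h8 | h8
        · exact hpk p hp h8
        · rcases (Nat.Prime.dvd_mul hpp).mp h8 with h9 | h9
          · exact hpW p hp h9
          · exact hpE (h9.mul_right v)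
    · intro n hn
      push_cast
      rw [hmrA n hn]
      ring
    · intro n _
      exact dvd_rfl

end Pool.Agent.Lib.OA
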