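import Pool.Agent.Lib.MP_7b7e48_nt.OA.LFP
import Pool.Agent.Lib.MP_7b7e48_nt.OA.AUE
import Pool.Agent.Lib.MP_7b7e48_nt.OA.AUL
import Pool.Agent.Lib.MP_7b7e48_nt.OA.AFM
import Pool.Agent.Lib.MP_7b7e48_nt.OA.APL
import Pool.Agent.Lib.MP_7b7e48_nt.OA.AINV1
import Pool.Agent.Lib.MP_7b7e48_nt.OA.AINV2

/-!
# The theorems of the path argument, put together
-/

set_option autoImplicit false

open Finset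
open Pool.Agent.Lib.MP_45349e_nt.LS (lam)

namespace Pool.Agent.Lib.OA

open Pool.Agent.Lib.OW
open Pool.Agent.Lib.RG (RC LV rr SS PB)

open Classical in
theorem aul (W : ℕ) (hW : 1 ≤ W) (η C : ℝ) (hη : 0 < η) : ∃ N0 : ℕ, ∀ N : ℕ, N0 ≤ N →
    ∀ v A m i j u1 u2 : ℕ, 1 ≤ v → v * LL N ^ 5 ≤ N → 1 ≤ A → (A : ℝ) ≤ (Real.log N) ^ C → 1 ≤ m → m ≤ 2 * tJ N →
    u2 ≤ W * N → (N : ℝ) ≤ (Real.log N) ^ C * ((u2 : ℝ) - u1) →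
    (∀ u : ℕ, u1 ≤ u → u < u2 → (A * u) / (W * N) = j ∧ (m * A * u) / (W * N) = i) → i ≠ m * j →
    (((Finset.range (W * N)).filter fun n => n.Coprime N ∧ u1 ≤ v * n ∧ v * n < u2 ∧
      ¬ LkA W N (m * mr W N A (v * n)) (mr W N (m * A) (v * n))).card : ℝ) ≤ η * del N * ((u2 : ℝ) - u1) / v :=
  aul_of @LFP aue W hW η C hη

open Classical in
theorem afm (W : ℕ) (hW : 1 ≤ W) (η C : ℝ) (hη : 0 < η) : ∃ N0 : ℕ, ∀ N : ℕ, N0 ≤ N →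
    ∀ v l M A m k : ℕ, 1 ≤ v → v * LL N ^ 5 ≤ N → 1 ≤ l → 1 ≤ M → 1 ≤ A → 1 ≤ m → m ≤ 2 * tJ N →
    m * A * k = l * M → ((l * M : ℕ) : ℝ) ≤ (Real.log N) ^ C →
    (((Finset.range (W * N)).filter fun n => n.Coprime N ∧ v * n < W * N ∧ Land W N l M (v * n) ∧
      FlA W N A m (v * n)).card : ℝ) ≤ η * del N * N / (l * v) :=
  afm_of aul W hW η C hη

open Classical in
theorem apl (W : ℕ) (hW : 1 ≤ W) (C1 : ℝ) : ∃ (s : ℕ) (C2 : ℝ), 0 ≤ C2 ∧ ∀ η : ℝ, 0 < η → ∃ N0 : ℕ, ∀ N : ℕ, N0 ≤ N →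
    ∀ a : ℕ, Cf W N a → ∀ κ : ℝ, κ ^ 2 = 1 → ∀ l : ℕ, 1 ≤ l → l % W = 1 % W → (l : ℝ) ≤ (Real.log N) ^ C1 →
    ∀ v : ℕ, 1 ≤ v → v * LL N ^ 5 ≤ N →
    (((Finset.range (W * N)).filter fun n => v * n ∈ UU W N a ∧ lam (mr W N l (v * n)) ≠ lam l * lam (v * n) ∧
      ∀ A : ℕ, (A : ℝ) ≤ (Real.log N) ^ C2 → GA s N l A → mr W N A (v * n) ∉ AffA W N a (EA W N a κ)).card : ℝ) ≤
      η * del N * N / v :=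
  apl_of afm W hW C1

open Classical in
theorem ainv1 (W : ℕ) (hW : 1 ≤ W) (C1 : ℝ) : ∃ A : ℕ, ∀ η : ℝ, 0 < η → ∃ N0 : ℕ, ∀ N : ℕ, N0 ≤ N →
    ∀ a : ℕ, Cf W N a → ∀ κ : ℝ, κ ^ 2 = 1 → ((EA W N a κ).card : ℝ) ≤ N / (Real.log N) ^ A →
    ∀ l : ℕ, 1 ≤ l → l % W = 1 % W → (l : ℝ) ≤ (Real.log N) ^ C1 →
    (((UU W N a).filter fun x => lam (mr W N l x) ≠ lam l * lam x).card : ℝ) ≤ η * (del N * N) :=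
  ainv1_of apl W hW C1

open Classical in
theorem ainv2 (W : ℕ) (hW : 1 ≤ W) (C1 : ℝ) : ∃ A : ℕ, ∀ η C c1 : ℝ, 0 < η → 0 < C → 0 < c1 → ∃ N0 : ℕ, ∀ N : ℕ, N0 ≤ N →
    ∀ a : ℕ, Cf W N a → ∀ κ : ℝ, κ ^ 2 = 1 → ∀ (c : ℕ → ℝ) (L δ : ℝ) (A' : ℕ), RC (W * N) c →
    VF N W a A' c L c1 C (1 / 30) δ (sQ c (W * N)) →
    ((EA W N a κ).card : ℝ) ≤ sQ c (W * N) * N / (Real.log N) ^ A →
    (∀ n ∈ EA W N a κ, OKn N n → ∃ q : ℕ, q.Prime ∧ c q = 1 ∧ (q ∣ n ∨ q ∣ N - n)) →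
    ∀ l : ℕ, l.Prime → l % W = 1 % W → (l : ℝ) ≤ (Real.log N) ^ C1 → c l = -1 →
    (((Zst N W a c 1).filter fun x => mr W N l x ∉ Zst N W a c 1).card : ℝ) ≤ η * (Zst N W a c 1).card :=
  ainv2_of apl W hW C1

end Pool.Agent.Lib.OA
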