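import Pool.Agent.Lib.MP_7b7e48_nt.OA.ACO
import Pool.Agent.Lib.MP_7b7e48_nt.OA.ASM
import Pool.Agent.Lib.MP_7b7e48_nt.OW.VX

/-!
# Module ACORE: the theorem for a class modulo `W`

The proof is in `ACO.lean`; here the parts are put together.
-/

set_option autoImplicit false

open Finset

namespace Pool.Agent.Lib.OA

open Pool.Agent.Lib.OW

theorem acore0 (W : ℕ) (hW : 1 ≤ W) (ε : ℝ) (hε : 0 < ε) (hε1 : ε ≤ 2 / 25) : ∃ N0 : ℕ, ∀ N : ℕ, N0 ≤ N → ∀ a : ℕ, Cf W N a →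
    ∀ s t : ℝ, (s = 1 ∨ s = -1) → (t = 1 ∨ t = -1) → (N : ℝ) ^ (1 - ε) ≤ ((repA W N a s t).card : ℝ) :=
  acore0_of vx ainv1 ainv2 W hW ε hε hε1

theorem acore (W : ℕ) (hW : 1 ≤ W) (ε : ℝ) (hε : 0 < ε) : ∃ N0 : ℕ, ∀ N : ℕ, N0 ≤ N → ∀ a : ℕ, Cf W N a →
    ∀ s t : ℝ, (s = 1 ∨ s = -1) → (t = 1 ∨ t = -1) → (N : ℝ) ^ (1 - ε) ≤ ((repA W N a s t).card : ℝ) := by
  obtain ⟨N0, h⟩ := acore0 W hW (min ε (2 / 25)) (lt_min hε (by norm_num)) (min_le_right _ _)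
  refine ⟨max N0 1, fun N hN a hc s t hs ht => ?_⟩
  refine le_trans ?_ (h N ((le_max_left _ _).trans hN) a hc s t hs ht)
  have h1 : (1 : ℝ) ≤ N := by exact_mod_cast (le_max_right _ _).trans hN
  refine Real.rpow_le_rpow_of_exponent_le h1 ?_
  have := min_le_left ε (2 / 25)
  linarith

end Pool.Agent.Lib.OA
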