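import Pool.Agent.Lib.MP_7b7e48_nt.OA.ACORE
import Pool.Agent.Lib.MP_7b7e48_nt.OW.PA7

/-!
# Theorem OA: the final form
-/

set_option autoImplicit false

open Finset
open Pool.Agent.Lib.MP_45349e_nt.LS (lam lam_mul lam_prime abs_lam)

namespace Pool.Agent.Lib.OA

open Pool.Agent.Lib.OW

theorem afin_cls : ∀ q : ℕ, 1 ≤ q → ∀ ε : ℝ, 0 < ε → ∃ N₀ : ℕ, ∀ N : ℕ, N₀ ≤ N → ∀ a b : ℕ, a.Coprime q → b.Coprime q →
    a + b ≡ N [MOD q] → ∀ i j : ℕ, i < 2 → j < 2 → (N : ℝ) ^ (1 - ε) ≤ ((creps q N a i j).card : ℝ) := by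
  intro q hq ε hε
  obtain ⟨N0, h⟩ := acore q hq ε hε
  refine ⟨max N0 q, fun N hN a b ha hb hab i j hi hj => ?_⟩
  have hNq : q ≤ N := (le_max_right _ _).trans hN
  have h1 : a % q ≡ a [MOD q] := Nat.mod_modEq _ _
  have h2 : a % q < q := Nat.mod_lt _ hq
  have h3 : (a % q).Coprime q := by
    rw [Nat.coprime_iff_gcd_eq_one, h1.gcd_eq]; exact ha
  have h4 : N - a % q ≡ b [MOD q] := by
    have h5 : N - a % q + a % q ≡ b + a % q [MOD q] := by
      rw [Nat.sub_add_cancel (by omega)]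
      refine (hab.symm).trans ?_
      rw [add_comm]
      exact (h1.symm).add_left b
    exact Nat.ModEq.add_right_cancel' _ h5
  have h5 : (N - a % q).Coprime q := by
    rw [Nat.coprime_iff_gcd_eq_one, h4.gcd_eq]; exact hb
  have h6 := h N ((le_max_left _ _).trans hN) (a % q) ⟨hq, h2, hNq, h3, h5⟩ ((-1) ^ i) ((-1) ^ j)
    (neg_one_pow_eq_or ℝ i) (neg_one_pow_eq_or ℝ j)
  refine h6.trans ?_
  have h7 : repA q N (a % q) ((-1) ^ i) ((-1) ^ j) ⊆ creps q N a i j := by
    classical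
    intro n hn
    unfold repA at hn
    rw [mem_filter] at hn
    unfold creps
    rw [mem_filter, pa7_lam n i hi, pa7_lam (N - n) j hj]
    refine ⟨hn.1, hn.2.1, ?_, hn.2.2.2.1, hn.2.2.2.2⟩
    rw [hn.2.2.1, Nat.mod_mod]
  exact_mod_cast card_le_card h7

/-- a class modulo `W` with `a`, `N - a` coprime to `W` -/
theorem afin_class (w N : ℕ) (hN : Even N) : ∃ a b : ℕ, a.Coprime (primorial w) ∧ b.Coprime (primorial w) ∧
    a + b ≡ N [MOD primorial w] := by
  have hex : ∀ p : ℕ, ∃ r : ℕ, p.Prime → ¬ p ∣ r ∧ ∃ s : ℕ, ¬ p ∣ s ∧ r + s ≡ N [MOD p] := by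
    intro p
    by_cases hp : p.Prime
    · by_cases hpN : N ≡ 1 [MOD p]
      · refine ⟨2, fun _ => ⟨?_, ?_⟩⟩
        · intro h
          have h2 : p = 2 := (Nat.prime_dvd_prime_iff_eq hp Nat.prime_two).mp h
          rw [h2] at hpN
          have h3 : N % 2 = 1 % 2 := hpN
          have h4 := Nat.even_iff.mp hN
          omega
        · refine ⟨p - 1, ?_, ?_⟩
          · intro h
            have := Nat.le_of_dvd (by have := hp.two_le; omega) h
            have := hp.two_le
            omega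
          · have h5 : 2 + (p - 1) = p + 1 := by have := hp.two_le; omega
            rw [h5]
            refine Nat.ModEq.trans ?_ hpN.symm
            exact (Nat.add_mod_left p 1)
      · refine ⟨1, fun _ => ⟨?_, ?_⟩⟩
        · intro h
          exact hp.one_lt.ne' (Nat.dvd_one.mp h)
        · refine ⟨N + (p - 1), ?_, ?_⟩
          · intro h
            apply hpN
            have h5 : N + (p - 1) ≡ 0 [MOD p] := (Nat.modEq_zero_iff_dvd.mpr h)
            have h6 : N + (p - 1) + 1 ≡ 0 + 1 [MOD p] := Nat.ModEq.add_right 1 h5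
            have h7 : N + (p - 1) + 1 = N + p := by have := hp.two_le; omega
            rw [h7, zero_add] at h6
            refine Nat.ModEq.trans ?_ h6
            exact (Nat.add_mod_right N p).symm
          · have h7 : 1 + (N + (p - 1)) = N + p := by have := hp.two_le; omega
            rw [h7]
            exact Nat.add_mod_right N p
    · exact ⟨0, fun h => absurd h hp⟩
  choose r hr using hex
  -- chinese remainder
  set P : Finset ℕ := (Finset.range (w + 1)).filter Nat.Prime with hP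
  have hPp : ∀ p ∈ P, p.Prime := fun p hp => (mem_filter.mp hp).2
  have hprim : primorial w = ∏ p ∈ P, p := rfl
  have hco : Set.Pairwise (P : Set ℕ) (Function.onFun Nat.Coprime (fun p : ℕ => p)) := by
    intro p hp q hq hpq
    exact (Nat.coprime_primes (hPp p hp) (hPp q hq)).mpr hpq
  have hne : ∀ p ∈ P, p ≠ 0 := fun p hp => (hPp p hp).ne_zero
  obtain ⟨a, ha⟩ := Nat.chineseRemainderOfFinset r (fun p : ℕ => p) P hne hco
  have hWpos : 0 < primorial w := primorial_pos w
  obtain ⟨b, hb⟩ : ∃ b : ℕ, a + b ≡ N [MOD primorial w] := by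
    refine ⟨N + (primorial w - 1) * a, ?_⟩
    have h1 : a + (N + (primorial w - 1) * a) = N + primorial w * a := by
      have : a + (primorial w - 1) * a = primorial w * a := by
        obtain ⟨k, hk⟩ : ∃ k, primorial w = k + 1 := ⟨primorial w - 1, by omega⟩
        rw [hk, Nat.add_sub_cancel]
        ring
      omega
    rw [h1]
    exact Nat.add_mul_mod_self_left N (primorial w) a
  have key : ∀ p ∈ P, ¬ p ∣ a ∧ ¬ p ∣ b := by
    intro p hp
    have hpp := hPp p hp
    have hpW : p ∣ primorial w := by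
      rw [hprim]
      exact dvd_prod_of_mem _ hp
    obtain ⟨h1, s, h2, h3⟩ := hr p hpp
    have ha' : a ≡ r p [MOD p] := ha p hp
    refine ⟨fun h => h1 ((ha'.dvd_iff dvd_rfl).mp h), fun h => h2 ?_⟩
    have hb' : a + b ≡ N [MOD p] := hb.of_dvd hpW
    have h4 : a + b ≡ a + s [MOD p] := hb'.trans (h3.symm.trans (Nat.ModEq.add_right s ha'.symm))
    have h5 : b ≡ s [MOD p] := Nat.ModEq.add_left_cancel' a h4
    exact (h5.dvd_iff dvd_rfl).mp h
  have hcop : ∀ x : ℕ, (∀ p ∈ P, ¬ p ∣ x) → x.Coprime (primorial w) := by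
    intro x hx
    rw [hprim]
    exact Nat.Coprime.prod_right fun p hp => ((Nat.Prime.coprime_iff_not_dvd (hPp p hp)).mpr (hx p hp)).symm
  exact ⟨a, b, hcop a fun p hp => (key p hp).1, hcop b fun p hp => (key p hp).2, hb⟩

theorem afin_rough : ∀ w : ℕ, ∀ ε : ℝ, 0 < ε → ∃ N₀ : ℕ, ∀ N : ℕ, N₀ ≤ N → Even N → ∀ i j : ℕ, i < 2 → j < 2 →
    (N : ℝ) ^ (1 - ε) ≤ ((rreps' w N i j).card : ℝ) := by
  intro w ε hε
  obtain ⟨N0, h⟩ := afin_cls (primorial w) (primorial_pos w) ε hε
  refine ⟨N0, fun N hN he i j hi hj => ?_⟩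
  obtain ⟨a, b, ha, hb, hab⟩ := afin_class w N he
  refine (h N hN a b ha hb hab i j hi hj).trans ?_
  have h7 : creps (primorial w) N a i j ⊆ rreps' w N i j := by
    intro n hn
    unfold creps at hn
    rw [mem_filter] at hn
    unfold rreps'
    rw [mem_filter]
    obtain ⟨h1, h2, h3, h4, h5⟩ := hn
    rw [mem_Ioo] at h1
    refine ⟨mem_Ioo.mpr h1, h2, h4, h5, ?_⟩
    intro p hp
    have hpp := Nat.prime_of_mem_primeFactors hp
    have hpd := Nat.dvd_of_mem_primeFactors hp
    by_contra hcon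
    push Not at hcon
    have hpW : p ∣ primorial w := by
      have : p ∈ (Finset.range (w + 1)).filter Nat.Prime := mem_filter.mpr ⟨mem_range.mpr (by omega), hpp⟩
      exact dvd_prod_of_mem _ this
    have hn : n ≡ a [MOD p] := (show n ≡ a [MOD primorial w] from h3).of_dvd hpW
    have hpa : ¬ p ∣ a := fun hh => Nat.Prime.not_coprime_iff_dvd.mpr ⟨p, hpp, hh, hpW⟩ ha
    have hpb : ¬ p ∣ b := fun hh => Nat.Prime.not_coprime_iff_dvd.mpr ⟨p, hpp, hh, hpW⟩ hb
    rcases (Nat.Prime.dvd_mul hpp).mp hpd with h6 | h6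
    · exact hpa ((hn.dvd_iff dvd_rfl).mp h6)
    · have h8 : n + (N - n) ≡ a + b [MOD p] := by
        have e1 : n + (N - n) = N := by omega
        rw [e1]
        exact (hab.of_dvd hpW).symm
      have h9 : N - n ≡ b [MOD p] := Nat.ModEq.add_left_cancel hn h8
      exact hpb ((h9.dvd_iff dvd_rfl).mp h6)
  exact_mod_cast card_le_card h7

end Pool.Agent.Lib.OA
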