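import Pool.Agent.Lib.MP_7b7e48_nt.OA.ANum

/-!
# Module ANSM (60 minutes): integers with a large `N`-part are rare

The `N`-part of `n` is `h = ∏_{p ∣ n, p ∣ N} p^(v_p n)`. `nsm_sum`: `∑_{h ≤ x, all primes of h divide N} 1/h ≤ ∏_{p ∣ N} (1 - 1/p)^(-1) = 1/del N` (Euler product over the factored numbers). `nsm_card`: Rankin: the number of `n < N` with `N`-part `h > N^(1/10)` is at most
`∑_{h > N^(1/10)} N/h ≤ N N^(-1/20) ∑_h h^(-1/2) = N^(19/20) ∏_{p ∣ N} (1 - p^(-1/2))^(-1)`, and the product is at most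
`4^(10^6) exp(2 · 10^(-3) ω(N)) ≤ N^(1/100)`.
-/

set_option autoImplicit false

open Finset
open Pool.Agent.Lib.MP_45349e_nt.LS (lam)

namespace Pool.Agent.Lib.OA

open Pool.Agent.Lib.OW
open Pool.Agent.Lib.RG (RC LV rr SS PB)

/-! ### the `N`-part -/

/-- the `N`-part of `n` -/
def npart (N n : ℕ) : ℕ := ∏ p ∈ n.primeFactors.filter (fun p => p ∣ N), p ^ n.factorization p

theorem npart_mul {N n : ℕ} (hn : n ≠ 0) :
    npart N n * ∏ p ∈ n.primeFactors.filter (fun p => ¬ p ∣ N), p ^ n.factorization p = n := by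
  unfold npart
  rw [Finset.prod_filter_mul_prod_filter_not n.primeFactors (fun p => p ∣ N) (fun p => p ^ n.factorization p)]
  exact Nat.prod_factorization_pow_eq_self hn

theorem npart_dvd {N n : ℕ} (hn : n ≠ 0) : npart N n ∣ n := by
  have h := npart_mul (N := N) hn
  exact Dvd.intro _ h

theorem npart_pos {N n : ℕ} : 0 < npart N n := by
  unfold npart
  exact Finset.prod_pos fun p hp => pow_pos (Nat.prime_of_mem_primeFactors (mem_filter.mp hp).1).pos _

theorem npart_cop {N n : ℕ} : (∏ p ∈ n.primeFactors.filter (fun p => ¬ p ∣ N), p ^ n.factorization p).Coprime N := by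
  refine Nat.Coprime.prod_left fun p hp => ?_
  rw [mem_filter] at hp
  exact Nat.Coprime.pow_left _ (((Nat.prime_of_mem_primeFactors hp.1).coprime_iff_not_dvd).mpr hp.2)

theorem npart_primeFactors {N n : ℕ} (hN : N ≠ 0) : (npart N n).primeFactors ⊆ N.primeFactors := by
  intro q hq
  have hqp := Nat.prime_of_mem_primeFactors hq
  have hqd := Nat.dvd_of_mem_primeFactors hq
  unfold npart at hqd
  obtain ⟨p, hp, hpd⟩ := (hqp.prime.dvd_finsetProd_iff _).mp hqd
  rw [mem_filter] at hp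
  have h1 : q ∣ p := hqp.dvd_of_dvd_pow hpd
  exact Nat.mem_primeFactors.mpr ⟨hqp, h1.trans hp.2, hN⟩

/-- the `N`-part is the unique such factor -/
theorem npart_unique {N n h w : ℕ} (hN : N ≠ 0) (hn : n ≠ 0) (hh : h.primeFactors ⊆ N.primeFactors)
    (hw : w.Coprime N) (e : n = h * w) : npart N n = h := by
  have cop : ∀ x y : ℕ, x ≠ 0 → x.primeFactors ⊆ N.primeFactors → y.Coprime N → x.Coprime y := by
    intro x y hx hxs hy
    rw [Nat.coprime_iff_gcd_eq_one]
    by_contra hne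
    obtain ⟨p, hp, hpd⟩ := Nat.exists_prime_and_dvd hne
    have h1 : p ∣ x := hpd.trans (Nat.gcd_dvd_left _ _)
    have h2 : p ∣ y := hpd.trans (Nat.gcd_dvd_right _ _)
    have h3 : p ∣ N := Nat.dvd_of_mem_primeFactors (hxs (Nat.mem_primeFactors.mpr ⟨hp, h1, hx⟩))
    have h4 := Nat.dvd_gcd h2 h3
    rw [Nat.coprime_iff_gcd_eq_one.mp hy] at h4
    exact hp.one_lt.ne' (Nat.dvd_one.mp h4)
  have hh0 : h ≠ 0 := by
    rintro rfl
    rw [zero_mul] at e
    exact hn e
  set w' := ∏ p ∈ n.primeFactors.filter (fun p => ¬ p ∣ N), p ^ n.factorization p with hw'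
  have e1 : npart N n * w' = n := npart_mul hn
  have c1 : h.Coprime w' := cop h w' hh0 hh npart_cop
  have c2 : (npart N n).Coprime w := cop _ w npart_pos.ne' (npart_primeFactors hN) hw
  have d1 : h ∣ npart N n := c1.dvd_of_dvd_mul_right (by rw [e1, e]; exact Dvd.intro _ rfl)
  have d2 : npart N n ∣ h := c2.dvd_of_dvd_mul_right (by rw [← e]; exact npart_dvd hn)
  exact Nat.dvd_antisymm d2 d1

/-! ### sums over the numbers composed of prime factors of `N` -/

private theorem fact_le (f : ℕ →* ℝ) (hf0 : ∀ n, 0 ≤ f n) (hf1 : ∀ {p : ℕ}, p.Prime → ‖f p‖ < 1) (N : ℕ)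
    (S : Finset ℕ) (hS : ∀ h ∈ S, h ≠ 0 ∧ h.primeFactors ⊆ N.primeFactors) :
    ∑ h ∈ S, f h ≤ ∏ p ∈ N.primeFactors, (1 - f p)⁻¹ := by
  classical
  have h1 := (EulerProduct.summable_and_hasSum_factoredNumbers_prod_filter_prime_geometric hf1 N.primeFactors).2
  have h2 : ∏ p ∈ N.primeFactors with p.Prime, (1 - f p)⁻¹ = ∏ p ∈ N.primeFactors, (1 - f p)⁻¹ := by
    congr 1
    apply Finset.filter_true_of_mem
    intro p hp
    exact Nat.prime_of_mem_primeFactors hp
  rw [h2] at h1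
  have hmem : ∀ h ∈ S, h ∈ Nat.factoredNumbers N.primeFactors := by
    intro h hh
    obtain ⟨h0, hs⟩ := hS h hh
    rw [Nat.mem_factoredNumbers_iff_primeFactors_subset]
    exact ⟨h0, hs⟩
  have h3 : ∑ h ∈ S, f h = ∑ m ∈ S.attach.image (fun h => (⟨h.1, hmem h.1 h.2⟩ : Nat.factoredNumbers N.primeFactors)), f m := by
    rw [Finset.sum_image]
    · exact (Finset.sum_attach S (fun h => f h)).symm
    · intro x _ y _ hxy
      exact Subtype.ext (congrArg (fun z : Nat.factoredNumbers N.primeFactors => (z : ℕ)) hxy)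
  rw [h3]
  exact sum_le_hasSum _ (fun m _ => hf0 m) h1

/-- `n ↦ 1/n` -/
private noncomputable def fi : ℕ →* ℝ where
  toFun n := ((n : ℝ))⁻¹
  map_one' := by simp
  map_mul' m n := by
    push_cast
    rw [mul_inv]

/-- `n ↦ 1/√n` -/
private noncomputable def fs : ℕ →* ℝ where
  toFun n := (Real.sqrt n)⁻¹
  map_one' := by simp
  map_mul' m n := by
    push_cast
    rw [Real.sqrt_mul (Nat.cast_nonneg m), mul_inv]

theorem nsm_sum {N : ℕ} (hN : 1 ≤ N) (x : ℕ) :
    ∑ h ∈ (Finset.Icc 1 x).filter (fun h => h.primeFactors ⊆ N.primeFactors), 1 / (h : ℝ) ≤ 1 / del N := by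
  have h1 := fact_le fi (fun n => by change 0 ≤ ((n : ℝ))⁻¹; positivity)
    (fun {p} hp => by
      change ‖((p : ℝ))⁻¹‖ < 1
      rw [Real.norm_eq_abs, abs_of_nonneg (by positivity)]
      exact inv_lt_one_of_one_lt₀ (by exact_mod_cast hp.one_lt)) N
    ((Finset.Icc 1 x).filter (fun h => h.primeFactors ⊆ N.primeFactors))
    (fun h hh => by
      rw [mem_filter, mem_Icc] at hh
      exact ⟨by omega, hh.2⟩)
  have h2 : ∏ p ∈ N.primeFactors, (1 - fi p)⁻¹ = 1 / del N := by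
    have h3 : (N.totient : ℝ) = N * ∏ p ∈ N.primeFactors, (1 - ((p : ℝ))⁻¹) := by
      have h4 := Nat.totient_eq_mul_prod_factors N
      have h5 := congrArg (fun t : ℚ => (t : ℝ)) h4
      push_cast at h5
      exact h5
    have hN0 : (N : ℝ) ≠ 0 := by
      have : (0 : ℝ) < N := by exact_mod_cast hN
      exact this.ne'
    unfold del
    rw [h3, mul_div_cancel_left₀ _ hN0, Finset.prod_inv_distrib, one_div]
    rfl
  rw [h2] at h1
  calc ∑ h ∈ (Finset.Icc 1 x).filter (fun h => h.primeFactors ⊆ N.primeFactors), 1 / (h : ℝ)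
      = ∑ h ∈ (Finset.Icc 1 x).filter (fun h => h.primeFactors ⊆ N.primeFactors), fi h := by
        refine Finset.sum_congr rfl fun h _ => ?_
        rw [one_div]
        rfl
    _ ≤ 1 / del N := h1

private theorem fs_four {p : ℕ} (hp : 2 ≤ p) : 0 < 1 - fs p ∧ (1 - fs p)⁻¹ ≤ 4 := by
  change 0 < 1 - (Real.sqrt p)⁻¹ ∧ (1 - (Real.sqrt p)⁻¹)⁻¹ ≤ 4
  have h1 : (4 : ℝ) / 3 ≤ Real.sqrt p := by
    apply Real.le_sqrt_of_sq_le
    have : (2 : ℝ) ≤ p := by exact_mod_cast hp
    linarith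
  have h2 : (Real.sqrt p)⁻¹ ≤ 3 / 4 := by
    rw [inv_le_comm₀ (by linarith) (by norm_num)]
    linarith
  constructor
  · linarith
  · rw [inv_le_comm₀ (by linarith) (by norm_num)]
    linarith

private theorem fs_big {p : ℕ} (hp : 1000000 ≤ p) : (1 - fs p)⁻¹ ≤ Real.exp (1 / 500) := by
  change (1 - (Real.sqrt p)⁻¹)⁻¹ ≤ Real.exp (1 / 500)
  have h1 : (1000 : ℝ) ≤ Real.sqrt p := by
    apply Real.le_sqrt_of_sq_le
    have : (1000000 : ℝ) ≤ p := by exact_mod_cast hp
    linarith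
  have h2 : (Real.sqrt p)⁻¹ ≤ 1 / 1000 := by
    rw [inv_le_comm₀ (by linarith) (by norm_num)]
    linarith
  have h3 : (1 - (Real.sqrt p)⁻¹)⁻¹ ≤ 1 + 1 / 500 := by
    rw [inv_le_comm₀ (by linarith) (by norm_num)]
    have : ((1 : ℝ) + 1 / 500)⁻¹ ≤ 999 / 1000 := by norm_num
    linarith
  have h4 := Real.add_one_le_exp (1 / 500 : ℝ)
  linarith

private theorem prod_small : ∃ N0 : ℕ, ∀ N : ℕ, N0 ≤ N →
    ∏ p ∈ N.primeFactors, (1 - fs p)⁻¹ ≤ (N : ℝ) ^ ((1 : ℝ) / 100) := by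
  classical
  refine ⟨⌈Real.exp 1000000000⌉₊, ?_⟩
  intro N hN
  have hNr : Real.exp 1000000000 ≤ N := (Nat.le_ceil _).trans (by exact_mod_cast hN)
  have hN0 : (0 : ℝ) < N := (Real.exp_pos _).trans_le hNr
  have hN1 : 1 ≤ N := by exact_mod_cast hN0
  have hK : 1000000000 ≤ Real.log N := by
    rw [Real.le_log_iff_exp_le hN0]
    exact hNr
  have hom := omega_le hN1
  rw [← Finset.prod_filter_mul_prod_filter_not N.primeFactors (fun p => p < 1000000)]
  have h1 : ∏ p ∈ N.primeFactors with p < 1000000, (1 - fs p)⁻¹ ≤ Real.exp 2000000 := by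
    calc ∏ p ∈ N.primeFactors with p < 1000000, (1 - fs p)⁻¹
        ≤ ∏ p ∈ N.primeFactors with p < 1000000, Real.exp 2 := by
          refine Finset.prod_le_prod (fun p hp => ?_) (fun p hp => ?_)
          · rw [mem_filter] at hp
            exact (inv_pos.mpr (fs_four (Nat.prime_of_mem_primeFactors hp.1).two_le).1).le
          · rw [mem_filter] at hp
            have h4 := (fs_four (Nat.prime_of_mem_primeFactors hp.1).two_le).2
            have h5 : (4 : ℝ) ≤ Real.exp 2 := by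
              have := Real.exp_one_gt_d9
              have h6 : Real.exp 2 = Real.exp 1 * Real.exp 1 := by rw [← Real.exp_add]; norm_num
              nlinarith
            exact h4.trans h5
      _ = Real.exp 2 ^ (N.primeFactors.filter (fun p => p < 1000000)).card := by
          rw [Finset.prod_const]
      _ ≤ Real.exp 2 ^ 1000000 := by
          refine pow_le_pow_right₀ (Real.one_le_exp (by norm_num)) ?_
          have h7 : N.primeFactors.filter (fun p => p < 1000000) ⊆ Finset.range 1000000 := by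
            intro p hp
            rw [mem_filter] at hp
            exact mem_range.mpr hp.2
          exact (card_le_card h7).trans_eq (card_range _)
      _ = Real.exp 2000000 := by
          rw [← Real.exp_nat_mul]
          norm_num
  have h2 : ∏ p ∈ N.primeFactors with ¬ p < 1000000, (1 - fs p)⁻¹ ≤ Real.exp (Real.log N / 250) := by
    calc ∏ p ∈ N.primeFactors with ¬ p < 1000000, (1 - fs p)⁻¹
        ≤ ∏ p ∈ N.primeFactors with ¬ p < 1000000, Real.exp (1 / 500) := by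
          refine Finset.prod_le_prod (fun p hp => ?_) (fun p hp => ?_)
          · rw [mem_filter] at hp
            exact (inv_pos.mpr (fs_four (Nat.prime_of_mem_primeFactors hp.1).two_le).1).le
          · rw [mem_filter] at hp
            exact fs_big (by omega)
      _ = Real.exp (1 / 500) ^ (N.primeFactors.filter (fun p => ¬ p < 1000000)).card := by
          rw [Finset.prod_const]
      _ ≤ Real.exp (1 / 500) ^ N.primeFactors.card :=
          pow_le_pow_right₀ (Real.one_le_exp (by norm_num)) (card_le_card (filter_subset _ _))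
      _ = Real.exp (N.primeFactors.card * (1 / 500)) := by
          rw [← Real.exp_nat_mul]
      _ ≤ Real.exp (Real.log N / 250) := by
          apply Real.exp_le_exp.mpr
          linarith
  have h3 : 0 ≤ ∏ p ∈ N.primeFactors with ¬ p < 1000000, (1 - fs p)⁻¹ :=
    Finset.prod_nonneg fun p hp => by
      rw [mem_filter] at hp
      exact (inv_pos.mpr (fs_four (Nat.prime_of_mem_primeFactors hp.1).two_le).1).le
  calc (∏ p ∈ N.primeFactors with p < 1000000, (1 - fs p)⁻¹) *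
        ∏ p ∈ N.primeFactors with ¬ p < 1000000, (1 - fs p)⁻¹
      ≤ Real.exp 2000000 * Real.exp (Real.log N / 250) := mul_le_mul h1 h2 h3 (Real.exp_pos _).le
    _ = Real.exp (2000000 + Real.log N / 250) := by rw [Real.exp_add]
    _ ≤ Real.exp (Real.log N * (1 / 100)) := by
        apply Real.exp_le_exp.mpr
        linarith
    _ = (N : ℝ) ^ ((1 : ℝ) / 100) := by rw [Real.rpow_def_of_pos hN0]

theorem nsm_card : ∃ N0 : ℕ, ∀ N : ℕ, N0 ≤ N →
    (((Finset.Ioo 0 N).filter fun n => (N : ℝ) ^ ((1 : ℝ) / 10) <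
      ((∏ p ∈ n.primeFactors.filter (fun p => p ∣ N), p ^ n.factorization p : ℕ) : ℝ)).card : ℝ) ≤ (N : ℝ) ^ ((24 : ℝ) / 25) := by
  classical
  obtain ⟨N0, hN0⟩ := prod_small
  refine ⟨max N0 2, ?_⟩
  intro N hN
  have hN2 : 2 ≤ N := le_trans (le_max_right _ _) hN
  have hNN0 : N0 ≤ N := le_trans (le_max_left _ _) hN
  have hNr : (0 : ℝ) < N := by
    have : 0 < N := by omega
    exact_mod_cast this
  have hne : N ≠ 0 := by omega
  set S := (Finset.Ioo 0 N).filter fun n => (N : ℝ) ^ ((1 : ℝ) / 10) <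
      ((∏ p ∈ n.primeFactors.filter (fun p => p ∣ N), p ^ n.factorization p : ℕ) : ℝ) with hS
  set Hs : Finset ℕ := (Finset.Icc 1 N).filter (fun h : ℕ => h.primeFactors ⊆ N.primeFactors ∧ (N : ℝ) ^ ((1 : ℝ) / 10) < (h : ℝ)) with hHs
  have hcov : S ⊆ Hs.biUnion fun h : ℕ => (Finset.Ioc 0 N).filter fun n : ℕ => h ∣ n := by
    intro n hn
    rw [hS, mem_filter, mem_Ioo] at hn
    obtain ⟨⟨hn0, hnN⟩, hn2⟩ := hn
    have hn0' : n ≠ 0 := by omega
    rw [mem_biUnion]
    refine ⟨npart N n, ?_, ?_⟩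
    · rw [hHs, mem_filter, mem_Icc]
      refine ⟨⟨npart_pos, ?_⟩, npart_primeFactors hne, hn2⟩
      exact (Nat.le_of_dvd hn0 (npart_dvd hn0')).trans hnN.le
    · rw [mem_filter, mem_Ioc]
      exact ⟨⟨hn0, hnN.le⟩, npart_dvd hn0'⟩
  have hcard : (S.card : ℝ) ≤ ∑ h ∈ Hs, (N : ℝ) / h := by
    calc (S.card : ℝ) ≤ ((Hs.biUnion fun h : ℕ => (Finset.Ioc 0 N).filter fun n : ℕ => h ∣ n).card : ℝ) := by
          exact_mod_cast card_le_card hcov
      _ ≤ ((∑ h ∈ Hs, ((Finset.Ioc 0 N).filter fun n : ℕ => h ∣ n).card : ℕ) : ℝ) := by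
          exact_mod_cast card_biUnion_le
      _ = ∑ h ∈ Hs, ((N / h : ℕ) : ℝ) := by
          push_cast
          refine Finset.sum_congr rfl fun h _ => ?_
          rw [Nat.Ioc_filter_dvd_card_eq_div]
      _ ≤ ∑ h ∈ Hs, (N : ℝ) / h := Finset.sum_le_sum fun h _ => Nat.cast_div_le
  have hran : ∀ h ∈ Hs, (N : ℝ) / h ≤ (N : ℝ) ^ ((19 : ℝ) / 20) * fs h := by
    intro h hh
    rw [hHs, mem_filter, mem_Icc] at hh
    obtain ⟨⟨hh1, _⟩, _, hh2⟩ := hh
    have hhr : (0 : ℝ) < h := by exact_mod_cast hh1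
    have hs : (N : ℝ) ^ ((1 : ℝ) / 20) ≤ Real.sqrt h := by
      apply Real.le_sqrt_of_sq_le
      rw [← Real.rpow_natCast, ← Real.rpow_mul hNr.le]
      calc (N : ℝ) ^ ((1 : ℝ) / 20 * (2 : ℕ)) = (N : ℝ) ^ ((1 : ℝ) / 10) := by norm_num
        _ ≤ h := hh2.le
    have hs0 : 0 < Real.sqrt h := Real.sqrt_pos.mpr hhr
    have h20 : 0 < (N : ℝ) ^ ((1 : ℝ) / 20) := Real.rpow_pos_of_pos hNr _
    change (N : ℝ) / h ≤ (N : ℝ) ^ ((19 : ℝ) / 20) * (Real.sqrt h)⁻¹
    have hN19 : (N : ℝ) = (N : ℝ) ^ ((19 : ℝ) / 20) * (N : ℝ) ^ ((1 : ℝ) / 20) := by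
      rw [← Real.rpow_add hNr]
      norm_num
    have hhs : (h : ℝ) = Real.sqrt h * Real.sqrt h := (Real.mul_self_sqrt hhr.le).symm
    rw [div_le_iff₀ hhr]
    calc (N : ℝ) = (N : ℝ) ^ ((19 : ℝ) / 20) * (N : ℝ) ^ ((1 : ℝ) / 20) := hN19
      _ ≤ (N : ℝ) ^ ((19 : ℝ) / 20) * Real.sqrt h :=
          mul_le_mul_of_nonneg_left hs (Real.rpow_pos_of_pos hNr _).le
      _ = (N : ℝ) ^ ((19 : ℝ) / 20) * (Real.sqrt h)⁻¹ * (Real.sqrt h * Real.sqrt h) := by
          field_simp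
      _ = (N : ℝ) ^ ((19 : ℝ) / 20) * (Real.sqrt h)⁻¹ * h := by rw [← hhs]
  have hsum : ∑ h ∈ Hs, fs h ≤ (N : ℝ) ^ ((1 : ℝ) / 100) := by
    refine (fact_le fs (fun n => by change 0 ≤ (Real.sqrt n)⁻¹; positivity)
      (fun {p} hp => by
        change ‖(Real.sqrt p)⁻¹‖ < 1
        rw [Real.norm_eq_abs, abs_of_nonneg (by positivity)]
        apply inv_lt_one_of_one_lt₀
        rw [Real.lt_sqrt (by norm_num)]
        have : (1 : ℝ) < p := by exact_mod_cast hp.one_lt
        linarith) N Hs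
      (fun h hh => by
        rw [hHs, mem_filter, mem_Icc] at hh
        exact ⟨by omega, hh.2.1⟩)).trans (hN0 N hNN0)
  calc (S.card : ℝ) ≤ ∑ h ∈ Hs, (N : ℝ) / h := hcard
    _ ≤ ∑ h ∈ Hs, (N : ℝ) ^ ((19 : ℝ) / 20) * fs h := Finset.sum_le_sum hran
    _ = (N : ℝ) ^ ((19 : ℝ) / 20) * ∑ h ∈ Hs, fs h := by rw [Finset.mul_sum]
    _ ≤ (N : ℝ) ^ ((19 : ℝ) / 20) * (N : ℝ) ^ ((1 : ℝ) / 100) :=
        mul_le_mul_of_nonneg_left hsum (Real.rpow_pos_of_pos hNr _).le
    _ = (N : ℝ) ^ ((24 : ℝ) / 25) := by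
        rw [← Real.rpow_add hNr]
        norm_num

end Pool.Agent.Lib.OA
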