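import Pool.Agent.Lib.MP_7b7e48_nt.OW.LPO

/-!
# Theorem LFP in the form used for theorem OA
-/

set_option autoImplicit false

open Finset Filter Topology

namespace Pool.Agent.Lib.OA

open Pool.Agent.Lib.OW

open Classical in
/-- linked pairs in a family of pairs of linear forms, for the integers which are not divisible by the primes of `PN` -/
theorem LFP {a b b' d θ η : ℝ} (ha : 0 < a) (hd : 0 ≤ d) (hb : 8 * a + 7 * d < b) (hb' : b < b') (hθ : b < θ)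
    (hη : 0 < η) (B0 : ℝ) : ∃ K₀ : ℝ, 1 ≤ K₀ ∧ ∀ K : ℝ, K₀ ≤ K → ∀ (Q W E : ℕ) (δ : ℝ), 1 ≤ Q → 0 < δ → δ ≤ 1 →
    (Q : ℝ) / δ ≤ K ^ d → 1 ≤ W → (W : ℝ) ≤ K → 1 ≤ E → Real.log E ≤ K ^ 3 → ∀ PN : Finset ℕ,
    (∀ p ∈ PN, p.Prime ∧ (p : ℝ) ≤ K ^ B0) → (∀ p ∈ PN, W.Coprime p) → ∀ (ρ : (ZMod Q)ˣ)
    (A B : Bool → ℤ),
    (∀ e, ∀ p ∈ PR (K ^ a) (K ^ b), ¬ p ∣ E → ¬ (p : ℤ) ∣ A e) →
    (∀ p ∈ PR (K ^ a) (K ^ b), ¬ p ∣ E → ¬ (p : ℤ) ∣ A false * B true - A true * B false) →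
    ∀ u v : ℕ, u ≤ v → Real.exp (K ^ θ) ≤ (v : ℝ) - u → ∀ G : Bool → ℕ → ℕ,
    (∀ e, ∀ n ∈ Finset.Ioc u v, ((G e n : ℕ) : ℤ) = A e * n - B e) → ∀ c : ℕ,
    ((((Finset.Ioc u v).filter fun n => n ≡ c [MOD W] ∧ (∀ p ∈ PN, ¬ p ∣ n) ∧
      ¬ TLnk Q δ ρ ((PR (K ^ a) (K ^ b)).filter fun p => ¬ p ∣ E) (Real.exp (K ^ b')) (G false n) (G true n)).card : ℕ) : ℝ) ≤
      η * (∏ p ∈ PN, (1 - 1 / (p : ℝ))) * (((v : ℝ) - u) / W) := by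
  obtain ⟨K₀, hK1, hK⟩ := OW.LFP ha hd hb hb' hθ hη (le_max_right B0 0)
  refine ⟨K₀, hK1, ?_⟩
  intro K hKK Q W E δ h1 h2 h3 h4 h5 h6 h7 h8 PN hPN hWN ρ A B hA hAB u v huv hv G hG c
  have hK0 : 1 ≤ K := hK1.trans hKK
  have h9 := hK K hKK Q W E δ h1 h2 h3 h4 h5 h6 h7 h8 PN (fun _ => 0) (fun p hp => ⟨(hPN p hp).1,
    (hPN p hp).2.trans (Real.rpow_le_rpow_of_exponent_le hK0 (le_max_left _ _)), hWN p hp, (hPN p hp).1.pos⟩)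
    ρ A B hA hAB u v huv hv G hG c
  refine le_trans (le_of_eq ?_) h9
  congr 2
  ext n
  simp only [mem_filter, ne_eq, Nat.dvd_iff_mod_eq_zero]

end Pool.Agent.Lib.OA
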