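import Pool.Agent.Lib.MP_7b7e48_nt.OA.SPIa
import Pool.Agent.Lib.MP_7b7e48_nt.OW.SPIc

/-!
# Theorem OA, part SP2: the Liouville function, arbitrary `N`

As `OW.sp2`, without any hypothesis on the prime factors of `N`; the hypothesis is relative to the number of classes and only for the
primes which do not divide `N`.
-/

set_option autoImplicit false

open Finset
open Pool.Agent.Lib.MP_45349e_nt.LS (lam lam_mul lam_prime)

namespace Pool.Agent.Lib.OA

open Pool.Agent.Lib.RG (RC LV rr SS PB bch)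
open Pool.Agent.Lib.OWS (Hyp ww XX)
open Pool.Agent.Lib.OW (UU mr sum_zmod val_mul_nat mr_mem P0_ex cop_of_class card_UU_phi range_low lam_pm Dom_UU Dom Zst QP HV del)

theorem range_cop (W : ℕ) (hW : 1 ≤ W) : ∃ ρ : ℝ, 0 < ρ ∧ ∃ N0 : ℕ, ∀ N : ℕ, N0 ≤ N → ∃ S : Finset ℕ,
    (∀ l ∈ S, l.Prime ∧ l.Coprime (W * N) ∧ (N : ℝ) ^ ((1 : ℝ) / 100) < l ∧ (l : ℝ) ≤ (N : ℝ) ^ ((99 : ℝ) / 200)) ∧
    ρ ≤ ∑ l ∈ S, 1 / (l : ℝ) := by
  classical
  obtain ⟨ρ, hρ, N0, h⟩ := range_low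
  refine ⟨ρ / 2, by positivity, ?_⟩
  rw [← Filter.eventually_atTop]
  have hlo := ((isLittleO_log_rpow_atTop (show (0 : ℝ) < 1 / 100 by norm_num)).def
    (show (0 : ℝ) < ρ / 16 by positivity))
  have hlo' := tendsto_natCast_atTop_atTop (R := ℝ) |>.eventually hlo
  filter_upwards [hlo', Filter.eventually_ge_atTop (max N0 (max W 2))] with N h1 h2
  have hN0 : N0 ≤ N := (le_max_left _ _).trans h2
  have hWN : W ≤ N := (le_max_left _ _).trans ((le_max_right _ _).trans h2)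
  have hN2 : 2 ≤ N := (le_max_right _ _).trans ((le_max_right _ _).trans h2)
  have hNR : (2 : ℝ) ≤ N := by exact_mod_cast hN2
  have hlogN : 0 < Real.log N := Real.log_pos (by linarith)
  have hP : 0 < (N : ℝ) ^ ((1 : ℝ) / 100) := Real.rpow_pos_of_pos (by linarith) _
  rw [Real.norm_eq_abs, Real.norm_eq_abs, abs_of_pos hlogN, abs_of_pos hP] at h1
  obtain ⟨S, hS1, hS2⟩ := h N hN0
  refine ⟨S.filter fun l => ¬ l ∣ W * N, ?_, ?_⟩
  · intro l hl
    rw [mem_filter] at hl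
    obtain ⟨s1, s2, s3⟩ := hS1 l hl.1
    exact ⟨s1, (Nat.Prime.coprime_iff_not_dvd s1).mpr hl.2, s2, s3⟩
  · have hq1 : 1 ≤ W * N := Nat.mul_pos hW (by omega)
    have hdiv := RG.card_dvd_le (W * N) S (fun l hl => (hS1 l hl).1) (W * N) hq1 le_rfl
    have hlq : Real.log ((W * N : ℕ) : ℝ) ≤ 2 * Real.log N := by
      have e1 : ((W * N : ℕ) : ℝ) ≤ (N : ℝ) ^ 2 := by
        push_cast
        have : (W : ℝ) ≤ N := by exact_mod_cast hWN
        nlinarith [Nat.cast_nonneg (α := ℝ) N]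
      have e2 : (0 : ℝ) < ((W * N : ℕ) : ℝ) := by exact_mod_cast hq1
      calc Real.log ((W * N : ℕ) : ℝ) ≤ Real.log ((N : ℝ) ^ 2) := Real.log_le_log e2 e1
        _ = 2 * Real.log N := by rw [Real.log_pow]; norm_num
    have e1 : ∑ l ∈ S, 1 / (l : ℝ) = ∑ l ∈ S.filter (fun l => l ∣ W * N), 1 / (l : ℝ) +
        ∑ l ∈ S.filter (fun l => ¬ l ∣ W * N), 1 / (l : ℝ) := (sum_filter_add_sum_filter_not S _ _).symm
    have e2 : ∑ l ∈ S.filter (fun l => l ∣ W * N), 1 / (l : ℝ) ≤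
        ∑ _l ∈ S.filter (fun l => l ∣ W * N), 1 / (N : ℝ) ^ ((1 : ℝ) / 100) := by
      refine sum_le_sum fun l hl => ?_
      rw [mem_filter] at hl
      exact one_div_le_one_div_of_le hP (hS1 l hl.1).2.1.le
    rw [sum_const, nsmul_eq_mul] at e2
    have e3 : ((S.filter fun l => l ∣ W * N).card : ℝ) * (1 / (N : ℝ) ^ ((1 : ℝ) / 100)) ≤ ρ / 2 := by
      rw [mul_one_div, div_le_iff₀ hP]
      have e4 : ((S.filter fun l => l ∣ W * N).card : ℝ) ≤ 4 * Real.log N := by linarith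
      calc ((S.filter fun l => l ∣ W * N).card : ℝ) ≤ 4 * Real.log N := e4
        _ ≤ 4 * (ρ / 16 * (N : ℝ) ^ ((1 : ℝ) / 100)) := by linarith
        _ ≤ ρ / 2 * (N : ℝ) ^ ((1 : ℝ) / 100) := by nlinarith
    linarith

open Classical in
theorem sp2 (W : ℕ) (hW : 1 ≤ W) (ε : ℝ) (hε : 0 < ε) : ∃ η C1 : ℝ, 0 < η ∧ 0 < C1 ∧ ∃ N0 : ℕ,
    ∀ (N : ℕ) [NeZero (W * N)], N0 ≤ N → ∀ a : ℕ, a.Coprime W →
    (∀ l : ℕ, l.Prime → l % W = 1 % W → ¬ l ∣ N → (Real.log N) ^ C1 / 2 < l → (l : ℝ) ≤ (Real.log N) ^ C1 →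
      (((UU W N a).filter fun x => lam (mr W N l x) ≠ -lam x).card : ℝ) ≤ η * (UU W N a).card) →
    ∃ (χ : DirichletCharacter ℂ (W * N)) (β : ℝ), χ ^ 2 = 1 ∧ HV N W a (fun n => (χ (n : ZMod (W * N))).re) β ε := by
  have : NeZero W := ⟨by omega⟩
  obtain ⟨ρ, hρ, N4, hrange⟩ := range_cop W hW
  have hWR : (0 : ℝ) < W := by exact_mod_cast hW
  obtain ⟨ε1, hε1⟩ : ∃ ε1 : ℝ, ε1 = min (ε / W) (1 / 4) := ⟨_, rfl⟩
  have hε1p : 0 < ε1 := by rw [hε1]; positivity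
  have hε14 : ε1 ≤ 1 / 4 := by rw [hε1]; exact min_le_right _ _
  have hε1W : ε1 ≤ ε / W := by rw [hε1]; exact min_le_left _ _
  obtain ⟨ε2, hε2⟩ : ∃ ε2 : ℝ, ε2 = min ε (ρ / 2) := ⟨_, rfl⟩
  have hε2p : 0 < ε2 := by rw [hε2]; positivity
  have hε2a : ε2 ≤ ε := by rw [hε2]; exact min_le_left _ _
  have hε2b : ε2 ≤ ρ / 2 := by rw [hε2]; exact min_le_right _ _
  obtain ⟨κ, hκ, hκ1, hκ2, C1, hC1, hsp⟩ := OWS.spec W ε1 hε1p (1 / 2000) (by norm_num)
  obtain ⟨c1, hc1, hrp⟩ := OWS.real_param W ε2 hε2p κ hκ hκ2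
  obtain ⟨c, hc, hcc1, -, η0, hη0, Cc, hCc, N1, hspec⟩ := hsp c1 hc1
  obtain ⟨E0, hE0, N2, hreal⟩ := hrp c hc hcc1
  obtain ⟨N3, hP⟩ := P0_ex W hW C1 hC1
  obtain ⟨η', hη'⟩ : ∃ η' : ℝ, η' = min η0 (E0 / Cc) := ⟨_, rfl⟩
  have hη'p : 0 < η' := by rw [hη']; positivity
  have hη'0 : η' ≤ η0 := by rw [hη']; exact min_le_left _ _
  have hη'E : Cc * η' ≤ E0 := by
    have : η' ≤ E0 / Cc := by rw [hη']; exact min_le_right _ _
    calc Cc * η' ≤ Cc * (E0 / Cc) := mul_le_mul_of_nonneg_left this hCc.le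
      _ = E0 := by field_simp
  refine ⟨η' / 8, C1, by positivity, by exact_mod_cast (by omega : 0 < C1),
    max (max N1 N2) (max (max N3 N4) (max (16 * (W + 1) ^ 2) (W ^ 100))), ?_⟩
  intro N _ hN a haW hinv
  have hN1 : N1 ≤ N := (le_max_left _ _).trans ((le_max_left _ _).trans hN)
  have hN2 : N2 ≤ N := (le_max_right _ _).trans ((le_max_left _ _).trans hN)
  have hN3 : N3 ≤ N := (le_max_left _ _).trans ((le_max_left _ _).trans ((le_max_right _ _).trans hN))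
  have hN4 : N4 ≤ N := (le_max_right _ _).trans ((le_max_left _ _).trans ((le_max_right _ _).trans hN))
  have hN5 : 16 * (W + 1) ^ 2 ≤ N :=
    (le_max_left _ _).trans ((le_max_right _ _).trans ((le_max_right _ _).trans hN))
  have hN6 : W ^ 100 ≤ N := (le_max_right _ _).trans ((le_max_right _ _).trans ((le_max_right _ _).trans hN))
  have hN16 : 16 ≤ N := by nlinarith
  have hNR : (16 : ℝ) ≤ N := by exact_mod_cast hN16
  have hNpos : (0 : ℝ) < N := by linarith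
  obtain ⟨u, hu⟩ : ∃ u : ℝ, u = ((UU W N a).card : ℝ) := ⟨_, rfl⟩
  have hu0 : 0 < u := by
    have h1 := card_UU_tot hW (by omega) haW (N := N)
    have h2 : 0 < (W * N).totient := Nat.totient_pos.mpr (Nat.pos_of_ne_zero (NeZero.ne (W * N)))
    have h3 : 0 < (UU W N a).card := Nat.pos_of_ne_zero fun h => by
      rw [h, zero_mul] at h1
      omega
    rw [hu]
    exact_mod_cast h3
  have hlsq : ∀ n : ℕ, lam n ^ 2 = 1 := by
    intro n
    rcases lam_pm n with h | h <;> rw [h] <;> norm_num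
  have hS : ∑ x ∈ UU W N a, lam x ^ 2 = u := by
    rw [sum_congr rfl fun x _ => hlsq x, sum_const, nsmul_eq_mul, mul_one, hu]
  obtain ⟨P0, hP0, hP0c⟩ := hP N hN3
  have hinv' : ∀ l ∈ P0, ∑ x ∈ UU W N a, (lam (mr W N l x) - (-1) * lam x) ^ 2 ≤
      η' * ∑ x ∈ UU W N a, lam x ^ 2 := by
    intro l hl
    obtain ⟨h1, h2, h3, h4, h5⟩ := hP0 l hl
    have h6 := hinv l h1 h4 (fun h => h3 (Dvd.dvd.mul_left h W)) (by rw [Real.rpow_natCast]; exact h5) (by rw [Real.rpow_natCast]; exact h2)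
    have h7 : ∀ x ∈ UU W N a, (lam (mr W N l x) - (-1) * lam x) ^ 2 =
        if lam (mr W N l x) ≠ -lam x then 4 else 0 := by
      intro x _
      rcases lam_pm (mr W N l x) with h | h <;> rcases lam_pm x with h' | h' <;> rw [h, h'] <;> norm_num
    rw [sum_congr rfl h7, ← sum_filter, sum_const, nsmul_eq_mul, hS]
    rw [← hu] at h6
    calc (((UU W N a).filter fun x => lam (mr W N l x) ≠ -lam x).card : ℝ) * 4 ≤ (η' / 8 * u) * 4 :=
          mul_le_mul_of_nonneg_right h6 (by norm_num)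
      _ = η' / 2 * u := by ring
      _ ≤ η' * u := mul_le_mul_of_nonneg_right (by linarith) hu0.le
  have hyp := hyp_of (c := c) (M := (Real.log N) ^ C1) (η := η') (θ := -1) hW haW (by omega) (fun n => lam n)
    (fun n => lam n) ∅ P0 (Or.inr rfl)
    (fun l hl => ⟨(hP0 l hl).1, (hP0 l hl).2.1, (hP0 l hl).2.2.1, (hP0 l hl).2.2.2.1⟩) hP0c hinv'
    (fun n _ _ => rfl) (by
      intro l n hl _ _ _ _ hn _
      have hn0 : n ≠ 0 := by
        rintro rfl
        rw [Nat.coprime_zero_left] at hn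
        have : N ≤ W * N := Nat.le_mul_of_pos_left _ hW
        omega
      change lam (l * n) = -1 * lam n
      rw [lam_mul l n hl.ne_zero hn0, lam_prime l hl]) (by
      rw [filter_empty, sum_empty]
      exact hη'p.le)
  have e4 : ∑ x : ZMod (W * N), OW.ext W N a (fun n => lam n) x ^ 2 = u := by
    rw [← hS, ← sum_zmod W N a (fun x => lam x ^ 2)]
    refine sum_congr rfl fun x _ => ?_
    unfold OW.ext
    split_ifs with h
    · rfl
    · ring
  obtain ⟨χ, hχX, hχ, e, he⟩ := hspec N (W * N) hN1 a η' (-1) (OW.ext W N a (fun n => lam n)) (fun n => lam n) _ P0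
    hyp hη'0 (by rw [e4]; exact hu0)
  have hWq : W ∣ W * N := Nat.dvd_mul_right W N
  have h34 : 3 / 4 ≤ W.totient * ww (OW.ext W N a (fun n => lam n)) χ := by linarith
  obtain ⟨ψ2, hψ2⟩ := OWS.rel_inv hyp hWq χ h34
  have he' : OWS.Two W (W * N) ⌊(N : ℝ) ^ c⌋₊ ⌊(N : ℝ) ^ (1 / 2 - κ)⌋₊ E0 (XX (q := W * N) P0 (-1 : ℝ))
      (ww (OW.ext W N a (fun n => lam n))) (OWS.gg (-1 : ℝ)) e := ⟨he.e0, he.mass.trans hη'E, he.two⟩
  have hSD := OWS.SD_of hyp hWq he' hχX h34 ψ2 hψ2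
  obtain ⟨ζ, hζ1, hζ2⟩ := hreal N (W * N) hN2 rfl (fun v => ψ2 v) (OWS.gg (-1 : ℝ) χ) e hSD
  -- the real character
  obtain ⟨χ', hχ'⟩ : ∃ χ' : DirichletCharacter ℂ (W * N), χ' = DirichletCharacter.changeLevel hWq ζ⁻¹ * χ :=
    ⟨_, rfl⟩
  have hζψ : ζ ^ 2 = ψ2 := by
    refine MulChar.ext fun v => ?_
    rw [MulChar.pow_apply' ζ two_ne_zero, hζ1 v]
  have hsq : χ' ^ 2 = 1 := by
    rw [hχ', mul_pow, hψ2, ← hζψ, map_inv, map_pow, inv_pow, inv_mul_cancel]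
  have hval : ∀ l : ℕ, l.Prime → l.Coprime (W * N) → OWS.gg (-1 : ℝ) χ l = ζ (l : ZMod W) →
      (χ' (l : ZMod (W * N))).re = -1 := by
    intro l hl hlc hg
    unfold OWS.gg at hg
    rw [OWS.om_prime hl, pow_one] at hg
    have h1 : χ (l : ZMod (W * N)) = -ζ (l : ZMod W) := by
      rw [← hg]
      push_cast
      ring
    have h2 : IsUnit ((l : ℕ) : ZMod W) := by
      rw [ZMod.isUnit_iff_coprime]
      exact Nat.Coprime.coprime_dvd_right hWq hlc
    have h3 : ζ⁻¹ (l : ZMod W) * ζ (l : ZMod W) = 1 := by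
      rw [← MulChar.mul_apply, inv_mul_cancel, MulChar.one_apply h2]
    have h4 : χ' (l : ZMod (W * N)) = -1 := by
      rw [hχ', MulChar.mul_apply, OWS.changeLevel_nat hWq ζ⁻¹ hlc, h1, mul_neg, h3]
    rw [h4]
    simp
  have hne1 : χ' ≠ 1 := by
    intro h1
    obtain ⟨S, hS1, hS2⟩ := hrange N hN4
    have h2 := hζ2 S (by
      intro l hl
      obtain ⟨s1, s4, s2, s3⟩ := hS1 l hl
      refine ⟨s1, s4, s2, s3, ?_⟩
      intro hg
      have s5 := hval l s1 s4 hg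
      have s6 : IsUnit ((l : ℕ) : ZMod (W * N)) := by
        rw [ZMod.isUnit_iff_coprime]
        exact s4
      rw [h1, MulChar.one_apply s6] at s5
      norm_num at s5)
    linarith
  have hrc : RC (W * N) (fun n : ℕ => (χ' (n : ZMod (W * N))).re) := by
    refine RG.RC_char (W * N) ?_ χ' hsq hne1
    have : N ≤ W * N := Nat.le_mul_of_pos_left _ hW
    omega
  -- the sign
  have hww : ww (OW.ext W N a (fun n => lam n)) χ' = ww (OW.ext W N a (fun n => lam n)) χ := by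
    rw [hχ']
    exact OWS.ww_rel_eq hyp hWq ζ⁻¹ χ
  obtain ⟨c', hc'⟩ : ∃ c' : ℕ → ℝ, c' = fun n : ℕ => (χ' (n : ZMod (W * N))).re := ⟨_, rfl⟩
  rw [← hc'] at hrc
  obtain ⟨σ, hσ⟩ : ∃ σ : ℝ, σ = ∑ x ∈ UU W N a, lam x * c' x := ⟨_, rfl⟩
  have hreal' : ∀ x : ZMod (W * N), (starRingEnd ℂ) (χ' x) = (((χ' x).re : ℝ) : ℂ) := by
    intro x
    have h1 := SW.rc_real hsq x
    apply Complex.ext
    · simp
    · simp only [Complex.conj_im, Complex.ofReal_im, neg_eq_zero]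
      simpa using h1
  have hext := ww_ext hW (by omega) haW (fun n => lam n) χ'
  rw [hS, if_neg hu0.ne', ← hu, hww] at hext
  have hσ2 : ‖∑ x ∈ UU W N a, (lam x : ℂ) * (starRingEnd ℂ) (χ' (x : ZMod (W * N)))‖ ^ 2 = σ ^ 2 := by
    have h1 : ∑ x ∈ UU W N a, (lam x : ℂ) * (starRingEnd ℂ) (χ' (x : ZMod (W * N))) = ((σ : ℝ) : ℂ) := by
      rw [hσ, hc']
      push_cast
      refine sum_congr rfl fun x _ => ?_
      rw [hreal']
    rw [h1, Complex.norm_real, Real.norm_eq_abs, sq_abs]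
  rw [hσ2] at hext
  have hσ3 : (1 - ε1) * (u * u) ≤ σ ^ 2 := by
    rw [← hext]
    exact mul_le_mul_of_nonneg_right hχ (by positivity)
  have hσ4 : (1 - ε1) * u ≤ |σ| := by
    have h1 : ((1 - ε1) * u) ^ 2 ≤ σ ^ 2 := by
      refine le_trans ?_ hσ3
      have h2 : (1 - ε1) ^ 2 ≤ 1 - ε1 := by nlinarith
      calc ((1 - ε1) * u) ^ 2 = (1 - ε1) ^ 2 * (u * u) := by ring
        _ ≤ (1 - ε1) * (u * u) := mul_le_mul_of_nonneg_right h2 (by positivity)
    have h3 := sq_le_sq.mp h1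
    rwa [abs_of_nonneg (mul_nonneg (by linarith) hu0.le)] at h3
  obtain ⟨β, hβ⟩ : ∃ β : ℝ, β = if 0 ≤ σ then 1 else -1 := ⟨_, rfl⟩
  have hβ1 : β = 1 ∨ β = -1 := by
    rw [hβ]
    split_ifs
    · exact Or.inl rfl
    · exact Or.inr rfl
  have hβσ : β * σ = |σ| := by
    rw [hβ]
    split_ifs with h
    · rw [one_mul, abs_of_nonneg h]
    · rw [abs_of_neg (not_le.mp h)]
      ring
  refine ⟨χ', β, hsq, ?_⟩
  rw [← hc']
  refine ⟨hrc, haW, hβ1, ?_, ?_⟩
  · -- the exceptional set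
    have hcpm : ∀ x ∈ UU W N a, c' x = 1 ∨ c' x = -1 := by
      intro x hx
      refine hrc.val x ?_
      rw [UU, mem_filter] at hx
      exact Nat.Coprime.mul_right (cop_of_class haW hx.2.1) hx.2.2
    have h1 : ∀ x ∈ UU W N a, β * (lam x * c' x) = 1 - 2 * (if lam x ≠ β * c' x then 1 else 0) := by
      intro x hx
      rcases lam_pm x with h | h <;> rcases hcpm x hx with h' | h' <;> rcases hβ1 with h'' | h'' <;>
        rw [h, h', h''] <;> norm_num
    have h2 : β * σ = u - 2 * (((UU W N a).filter fun x => lam x ≠ β * c' x).card : ℝ) := by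
      rw [hσ, mul_sum, sum_congr rfl h1, sum_sub_distrib, ← mul_sum, sum_boole, sum_const, nsmul_eq_mul, mul_one,
        hu]
    have h3 : (((UU W N a).filter fun x => lam x ≠ β * c' x).card : ℝ) ≤ ε1 * u := by
      rw [hβσ] at h2
      nlinarith
    have h4 : Zst N W a c' β = (UU W N a).filter fun x => lam x ≠ β * c' x := by
      unfold Zst
      rw [Dom_UU]
    rw [h4]
    have h5 : u ≤ W * (N.totient : ℝ) := by
      rw [hu]
      exact_mod_cast card_UU_phi W N a (by omega)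
    have h6 : del N * N = N.totient := by
      unfold del
      field_simp
    calc (((UU W N a).filter fun x => lam x ≠ β * c' x).card : ℝ) ≤ ε1 * u := h3
      _ ≤ (ε / W) * (W * (N.totient : ℝ)) := mul_le_mul hε1W h5 hu0.le (by positivity)
      _ = ε * (N.totient : ℝ) := by field_simp
      _ = ε * (del N * N) := by rw [h6]
      _ = ε * del N * N := by ring
  · -- the primes
    refine le_trans (hζ2 _ ?_) hε2a
    intro l hl
    unfold QP at hl
    rw [mem_filter, mem_filter, mem_range] at hl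
    obtain ⟨⟨h1, h2, h3⟩, h4⟩ := hl
    have h5 : (l : ℝ) ≤ (N : ℝ) ^ ((99 : ℝ) / 200) := by
      have : l ≤ ⌊(N : ℝ) ^ ((99 : ℝ) / 200)⌋₊ := by omega
      calc (l : ℝ) ≤ ⌊(N : ℝ) ^ ((99 : ℝ) / 200)⌋₊ := by exact_mod_cast this
        _ ≤ _ := Nat.floor_le (by positivity)
    have h6 : l.Coprime (W * N) := by
      by_contra hcc
      rw [hrc.zero l hcc] at h3
      exact zero_ne_one h3
    refine ⟨h2, h6, h4, h5, ?_⟩
    intro hg
    have h7 := hval l h2 h6 hg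
    rw [hc'] at h3
    simp only at h3
    rw [h3] at h7
    norm_num at h7

end Pool.Agent.Lib.OA
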